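import Pool.Agent.MP_c34dea_an.H66.Geom

set_option autoImplicit false

open scoped symmDiff Pointwise

namespace Pool.Agent.MP_c34dea_an.H66

variable {S : Type} {G : SimpleGraph S} {S' : Type} {G' : SimpleGraph S'}

/-- a labelling of the hyperplanes by generators of another group, compatible with squares -/
structure Lab (G : SimpleGraph S) (G' : SimpleGraph S') where
  lab : Hyp G → S'
  sq : ∀ h k, Cross h k → lab k ∈ st G' (lab h)

open Classical in
/-- number of hyperplanes with label `c` separating `p` and `q` -/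
noncomputable def cnt (lab : Hyp G → S') (p q : W G) (c : S') : ℕ :=
  ((sep p q).filter (fun k => lab k = c)).card

theorem cross_hyp {x : W G} {s t : S} (h : G.Adj s t) : Cross (hyp x s) (hyp x t) :=
  ⟨x, rfl, rfl, h⟩

namespace Lab

variable (L : Lab G G')

noncomputable def step (s : S) (p : W G × W G') : W G × W G' :=
  (p.1 * gen G s, p.2 * gen G' (L.lab (hyp p.1 s)))

theorem step_inv (s : S) (p : W G × W G') : L.step s (L.step s p) = p := by
  obtain ⟨x, y⟩ := p
  simp [step]

theorem step_comm (s t : S) (h : G.Adj s t) (p : W G × W G') :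
    L.step s (L.step t p) = L.step t (L.step s p) := by
  obtain ⟨x, y⟩ := p
  simp only [step]
  rw [hyp_mul_gen (mem_st_of_adj h), hyp_mul_gen (mem_st_of_adj h.symm), mul_assoc x, mul_assoc x,
    gen_comm_of_adj h, mul_assoc y, mul_assoc y, gen_comm (L.sq _ _ (cross_hyp h))]

noncomputable def pair (g : W G) : W G × W G' := ract L.step L.step_inv L.step_comm (1, 1) g

theorem pair_fst (g : W G) : (L.pair g).1 = g := by
  induction g using W_ind with
  | h1 => simp [pair]
  | hs g s ih =>
    unfold pair at ih ⊢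
    rw [ract_mul_gen]
    simp [step, ih]

/-- the edge-to-edge map defined by a labelling -/
noncomputable def phi (g : W G) : W G' := (L.pair g).2

@[simp] theorem phi_one : L.phi 1 = 1 := by simp [phi, pair]

theorem phi_mul_gen (g : W G) (s : S) :
    L.phi (g * gen G s) = L.phi g * gen G' (L.lab (hyp g s)) := by
  have := L.pair_fst g
  unfold phi
  unfold pair at this ⊢
  rw [ract_mul_gen]
  simp [step, this]

theorem phi_mem_Par {A : Set S'} {p q : W G} (h : ∀ k ∈ sep p q, L.lab k ∈ A) :
    (L.phi p)⁻¹ * L.phi q ∈ Par G' A := by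
  induction p using geod_ind (q := q) with
  | h0 => simp
  | hs p s hs ih =>
    have h1 := ih (fun k hk => h k (by rw [sep_step hs] at hk; exact Finset.mem_of_mem_erase hk))
    have h2 : gen G' (L.lab (hyp p s)) ∈ Par G' A := gen_mem_Par (h _ hs)
    have : (L.phi p)⁻¹ * L.phi q =
        gen G' (L.lab (hyp p s)) * ((L.phi (p * gen G s))⁻¹ * L.phi q) := by
      simp [phi_mul_gen, ← mul_assoc, gen_mul_self]
    rw [this]
    exact Subgroup.mul_mem _ h2 h1

theorem lab_mem_st_of_car {h k : Hyp G} {a b : W G} (ha : a ∈ car h) (hb : b ∈ car h)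
    (hk : k ∈ sep a b) : L.lab k ∈ st G' (L.lab h) := by
  by_cases e : h = k
  · rw [e]; exact mem_st_self _
  · exact L.sq _ _ (cross_of_sep_car ha hb hk e)

/-- the induced map on hyperplanes -/
noncomputable def hmap (h : Hyp G) : Hyp G' := hyp (L.phi (car_nonempty h).choose) (L.lab h)

@[simp] theorem hmap_fst (h : Hyp G) : (L.hmap h).1 = L.lab h := rfl

theorem phi_mem_car {h : Hyp G} {y : W G} (hy : y ∈ car h) : L.phi y ∈ car (L.hmap h) := by
  show hyp (L.phi y) (L.lab h) = hyp (L.phi (car_nonempty h).choose) (L.lab h)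
  rw [hyp_eq_iff]
  exact L.phi_mem_Par fun k hk => L.lab_mem_st_of_car hy (car_nonempty h).choose_spec hk

theorem hmap_eq {h : Hyp G} {y : W G} (hy : y ∈ car h) : L.hmap h = hyp (L.phi y) (L.lab h) :=
  (L.phi_mem_car hy).symm

theorem hmap_hyp (y : W G) (s : S) : L.hmap (hyp y s) = hyp (L.phi y) (L.lab (hyp y s)) :=
  L.hmap_eq (mem_car_hyp y s)

theorem phi_mul_of_inv {δ : W G} (hδ : ∀ h, L.lab (δ • h) = L.lab h) (y : W G) :
    L.phi (δ * y) = L.phi δ * L.phi y := by
  induction y using W_ind with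
  | h1 => simp
  | hs y s ih => rw [← mul_assoc, phi_mul_gen, phi_mul_gen, ih, ← smul_hyp, hδ, mul_assoc]

theorem hmap_smul {δ : W G} (hδ : ∀ h, L.lab (δ • h) = L.lab h) (h : Hyp G) :
    L.hmap (δ • h) = L.phi δ • L.hmap h := by
  obtain ⟨y, hy⟩ := car_nonempty h
  rw [L.hmap_eq hy, L.hmap_eq ((smul_mem_car δ).2 hy), hδ, L.phi_mul_of_inv hδ, smul_hyp]

theorem mem_sep_phi_iff (p q : W G) (H : Hyp G') :
    H ∈ sep (L.phi p) (L.phi q) ↔ Odd ((sep p q).filter (fun k => L.hmap k = H)).card := by
  induction p using geod_ind (q := q) with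
  | h0 => simp
  | hs p s hs ih =>
    have e1 : sep p q = insert (hyp p s) (sep (p * gen G s) q) := by
      rw [sep_step hs, Finset.insert_erase hs]
    have e2 : hyp p s ∉ sep (p * gen G s) q := by rw [sep_step hs]; simp
    rw [mem_sep_trans _ (L.phi (p * gen G s)), ih, phi_mul_gen, sep_gen, ← hmap_hyp, e1,
      Finset.filter_insert]
    by_cases e : L.hmap (hyp p s) = H
    · rw [if_pos e, Finset.card_insert_of_notMem (fun x => e2 (Finset.mem_of_mem_filter _ x))]
      simp [e, Nat.odd_add_one]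
    · have e' : ¬ H = L.hmap (hyp p s) := fun x => e x.symm
      simp [e, e']

theorem sep_phi_subset (p q : W G) : sep (L.phi p) (L.phi q) ⊆ (sep p q).image L.hmap := by
  intro H hH
  rw [mem_sep_phi_iff] at hH
  obtain ⟨k, hk⟩ := Finset.card_pos.1 hH.pos
  rw [Finset.mem_filter] at hk
  exact Finset.mem_image.2 ⟨k, hk.1, hk.2⟩

theorem d_phi_le (p q : W G) : d (L.phi p) (L.phi q) ≤ d p q :=
  (Finset.card_le_card (L.sep_phi_subset p q)).trans Finset.card_image_le

theorem sep_phi_of_d_eq {p q : W G} (h : d (L.phi p) (L.phi q) = d p q) :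
    sep (L.phi p) (L.phi q) = (sep p q).image L.hmap :=
  Finset.eq_of_subset_of_card_le (L.sep_phi_subset p q)
    (Finset.card_image_le.trans (le_of_eq h.symm))

theorem injOn_of_d_eq {p q : W G} (h : d (L.phi p) (L.phi q) = d p q) :
    Set.InjOn L.hmap (sep p q : Set (Hyp G)) := by
  rw [← Finset.card_image_iff, ← L.sep_phi_of_d_eq h]
  exact h

theorem d_eq_of_injOn {p q : W G} (h : Set.InjOn L.hmap (sep p q : Set (Hyp G))) :
    d (L.phi p) (L.phi q) = d p q := by
  have : sep (L.phi p) (L.phi q) = (sep p q).image L.hmap := by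
    refine Finset.Subset.antisymm (L.sep_phi_subset p q) fun H hH => ?_
    obtain ⟨k, hk, rfl⟩ := Finset.mem_image.1 hH
    rw [mem_sep_phi_iff]
    have : (sep p q).filter (fun j => L.hmap j = L.hmap k) = {k} := by
      ext j
      rw [Finset.mem_filter, Finset.mem_singleton]
      exact ⟨fun x => h x.1 hk x.2, fun x => by rw [x]; exact ⟨hk, rfl⟩⟩
    rw [this]
    simp
  unfold d
  rw [this, Finset.card_image_of_injOn h]

theorem d_eq_of_mem_I {p q u v : W G} (h : d (L.phi p) (L.phi q) = d p q) (hu : u ∈ I p q)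
    (hv : v ∈ I p q) : d (L.phi u) (L.phi v) = d u v := by
  refine L.d_eq_of_injOn ((L.injOn_of_d_eq h).mono fun k hk => ?_)
  have hk' : k ∈ sep u v := hk
  rw [mem_sep_trans u p v, sep_comm u p] at hk'
  rcases hk' with x | x
  · exact hu x.1
  · exact hv x.1

theorem cross_hmap {h k : Hyp G} (c : Cross h k) (ha : G'.Adj (L.lab h) (L.lab k)) :
    Cross (L.hmap h) (L.hmap k) := by
  obtain ⟨y, h1, h2, -⟩ := c
  exact ⟨L.phi y, L.phi_mem_car h1, L.phi_mem_car h2, ha⟩

/-- inside a set whose labels lie in a clique, separation is decided by label parity -/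
theorem mem_sep_clq_iff {K : Set S'} (hK : Clq G' K) {p q : W G}
    (h : ∀ k ∈ sep p q, L.lab k ∈ K) (c : S') :
    hyp (L.phi p) c ∈ sep (L.phi p) (L.phi q) ↔ Odd (cnt L.lab p q c) := by
  classical
  rw [mem_sep_phi_iff]
  unfold cnt
  have : ∀ k ∈ sep p q, (L.hmap k = hyp (L.phi p) c ↔ L.lab k = c) := by
    intro k hk
    refine ⟨fun e => congrArg Sigma.fst e, fun e => ?_⟩
    obtain ⟨y, hy, hc, -, -⟩ := exists_cross_pt hk
    rw [L.hmap_eq hc, e, hyp_eq_iff]
    refine L.phi_mem_Par fun j hj => ?_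
    exact hK c (e ▸ h k hk) _ (h j (hy (mem_sep_comm.1 hj)))
  rw [Finset.filter_congr this]

end Lab

end Pool.Agent.MP_c34dea_an.H66
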