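import Mathlib

set_option autoImplicit false
set_option linter.unusedSectionVars false

namespace Pool.Agent.MP_c34dea_an.H66.HNorm

open Finset

section Quad

variable {Ω : Type} [DecidableEq Ω]

/-- a sparse symmetric kernel has a vertex of small degree in every nonempty finite set -/
theorem exists_low (m : Ω → Ω → ℝ)
    (hs : ∀ F : Finset Ω, ∑ x ∈ F, ∑ y ∈ F, m x y ≤ 4 * F.card) (F : Finset Ω)
    (hF : F.Nonempty) : ∃ v ∈ F, ∑ y ∈ F, m v y ≤ 4 := by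
  by_contra hc
  push Not at hc
  have h1 : ∑ _x ∈ F, (4 : ℝ) < ∑ x ∈ F, ∑ y ∈ F, m x y :=
    Finset.sum_lt_sum_of_nonempty hF hc
  have h2 := hs F
  simp only [sum_const, nsmul_eq_mul] at h1
  linarith

theorem quad_aux (m : Ω → Ω → ℝ) (h0 : ∀ x y, 0 ≤ m x y) (hsy : ∀ x y, m x y = m y x)
    (hs : ∀ F : Finset Ω, ∑ x ∈ F, ∑ y ∈ F, m x y ≤ 4 * F.card) (f g : Ω → ℝ) :
    ∀ (n : ℕ) (B : Finset Ω), B.card = n →
      ∑ x ∈ B, ∑ y ∈ B, m x y * (g x * f y) ≤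
        128 * ∑ x ∈ B, (g x ^ 2 + f x ^ 2) +
          (1 / 128) * ∑ x ∈ B, ∑ y ∈ B, m x y * (g x ^ 2 + f x ^ 2) := by
  intro n
  induction n with
  | zero =>
    intro B hB
    rw [Finset.card_eq_zero] at hB
    subst hB
    simp
  | succ n ih =>
    intro B hB
    obtain ⟨v, hv, hlow⟩ := exists_low m hs B (Finset.card_pos.mp (by omega))
    obtain ⟨B', hv', rfl⟩ : ∃ B' : Finset Ω, v ∉ B' ∧ B = insert v B' :=
      ⟨B.erase v, Finset.notMem_erase v B, (Finset.insert_erase hv).symm⟩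
    rw [Finset.card_insert_of_notMem hv'] at hB
    have h1 := ih B' (by omega)
    simp only [Finset.sum_insert hv'] at hlow ⊢
    simp only [Finset.sum_add_distrib] at h1 ⊢
    have h2 : ∑ y ∈ B', m v y * (g v * f y) + ∑ x ∈ B', m x v * (g x * f v) ≤
        32 * (g v ^ 2 + f v ^ 2) * ∑ y ∈ B', m v y +
          (1 / 128) * ∑ x ∈ B', m x v * (g x ^ 2 + f x ^ 2) := by
      rw [← Finset.sum_add_distrib, Finset.mul_sum, Finset.mul_sum, ← Finset.sum_add_distrib]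
      apply Finset.sum_le_sum
      intro y _
      rw [hsy y v]
      have a1 : g v * f y + g y * f v ≤
          32 * (g v ^ 2 + f v ^ 2) + (1 / 128) * (g y ^ 2 + f y ^ 2) := by
        nlinarith [sq_nonneg (64 * g v - f y), sq_nonneg (64 * f v - g y)]
      nlinarith [mul_le_mul_of_nonneg_left a1 (h0 v y)]
    have h3 : m v v * (g v * f v) ≤ 32 * (g v ^ 2 + f v ^ 2) * m v v := by
      have a1 : g v * f v ≤ 32 * (g v ^ 2 + f v ^ 2) := by
        nlinarith [sq_nonneg (g v - f v), sq_nonneg (g v), sq_nonneg (f v)]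
      nlinarith [mul_le_mul_of_nonneg_left a1 (h0 v v)]
    have h4 : 0 ≤ g v ^ 2 + f v ^ 2 := by positivity
    have h5 : 32 * (g v ^ 2 + f v ^ 2) * (m v v + ∑ y ∈ B', m v y) ≤
        32 * (g v ^ 2 + f v ^ 2) * 4 := mul_le_mul_of_nonneg_left hlow (by positivity)
    have h6 : 0 ≤ m v v * (g v ^ 2 + f v ^ 2) := mul_nonneg (h0 v v) h4
    have h7 : 0 ≤ ∑ y ∈ B', m v y * (g v ^ 2 + f v ^ 2) :=
      Finset.sum_nonneg fun y _ => mul_nonneg (h0 v y) h4
    nlinarith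

theorem quad_le (m : Ω → Ω → ℝ) (h0 : ∀ x y, 0 ≤ m x y) (hsy : ∀ x y, m x y = m y x)
    (hs : ∀ F : Finset Ω, ∑ x ∈ F, ∑ y ∈ F, m x y ≤ 4 * F.card)
    (hd : ∀ x (F : Finset Ω), ∑ y ∈ F, m x y ≤ 16384) (f g : Ω → ℝ) (B : Finset Ω) :
    ∑ x ∈ B, ∑ y ∈ B, m x y * (g x * f y) ≤ 256 * ∑ x ∈ B, (g x ^ 2 + f x ^ 2) := by
  have h1 := quad_aux m h0 hsy hs f g B.card B rfl
  have h2 : ∑ x ∈ B, ∑ y ∈ B, m x y * (g x ^ 2 + f x ^ 2) ≤
      16384 * ∑ x ∈ B, (g x ^ 2 + f x ^ 2) := by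
    rw [Finset.mul_sum]
    apply Finset.sum_le_sum
    intro x _
    rw [← Finset.sum_mul]
    exact mul_le_mul_of_nonneg_right (hd x B) (by positivity)
  linarith

/-- square bound for a sequence of functions dominated by iterating the kernel -/
theorem sq_bound (m : Ω → Ω → ℝ) (h0 : ∀ x y, 0 ≤ m x y) (hsy : ∀ x y, m x y = m y x)
    (hs : ∀ F : Finset Ω, ∑ x ∈ F, ∑ y ∈ F, m x y ≤ 4 * F.card)
    (hd : ∀ x (F : Finset Ω), ∑ y ∈ F, m x y ≤ 16384) (nb : Ω → Finset Ω)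
    (N : ℕ → Ω → ℝ) (hN0 : ∀ k x, 0 ≤ N k x) (c : ℝ)
    (hz : ∀ B : Finset Ω, ∑ x ∈ B, N 0 x ^ 2 ≤ c)
    (hst : ∀ k x, N (k + 1) x ≤ ∑ y ∈ nb x, m x y * N k y) :
    ∀ k (B : Finset Ω), ∑ x ∈ B, N k x ^ 2 ≤ (512 ^ k) ^ 2 * c := by
  intro k
  induction k with
  | zero => intro B; simpa using hz B
  | succ k ih =>
    intro B
    set B' := B ∪ B.biUnion nb with hB'
    have hsub : B ⊆ B' := Finset.subset_union_left
    set g : Ω → ℝ := fun x => if x ∈ B then N (k + 1) x / 512 else 0 with hg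
    have h1 := quad_le m h0 hsy hs hd (N k) g B'
    have h2 : ∑ x ∈ B', g x ^ 2 = (∑ x ∈ B, N (k + 1) x ^ 2) / 512 ^ 2 := by
      rw [Finset.sum_div]
      symm
      apply Finset.sum_subset_zero_on_sdiff hsub
      · intro x hx
        simp [hg, (Finset.mem_sdiff.mp hx).2]
      · intro x hx
        simp [hg, hx, div_pow]
    have h3 : (∑ x ∈ B, N (k + 1) x ^ 2) / 512 ≤ ∑ x ∈ B', ∑ y ∈ B', m x y * (g x * N k y) := by
      rw [Finset.sum_div]
      refine le_trans ?_ (Finset.sum_le_sum_of_subset_of_nonneg hsub ?_)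
      · apply Finset.sum_le_sum
        intro x hx
        have a1 : N (k + 1) x ≤ ∑ y ∈ B', m x y * N k y := by
          refine le_trans (hst k x) (Finset.sum_le_sum_of_subset_of_nonneg ?_ ?_)
          · intro y hy
            exact Finset.mem_union_right _ (Finset.mem_biUnion.mpr ⟨x, hx, hy⟩)
          · intro y _ _
            exact mul_nonneg (h0 x y) (hN0 k y)
        have a2 : ∑ y ∈ B', m x y * (g x * N k y) =
            N (k + 1) x / 512 * ∑ y ∈ B', m x y * N k y := by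
          rw [Finset.mul_sum]
          apply Finset.sum_congr rfl
          intro y _
          simp only [hg, hx, if_true]
          ring
        rw [a2]
        have a3 := hN0 (k + 1) x
        have a4 := mul_le_mul_of_nonneg_left a1 (show 0 ≤ N (k + 1) x / 512 by positivity)
        calc N (k + 1) x ^ 2 / 512 = N (k + 1) x / 512 * N (k + 1) x := by ring
          _ ≤ _ := a4
      · intro x _ _
        apply Finset.sum_nonneg
        intro y _
        apply mul_nonneg (h0 x y) (mul_nonneg _ (hN0 k y))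
        simp only [hg]
        split_ifs
        · have := hN0 (k + 1) x
          positivity
    rw [Finset.sum_add_distrib, h2] at h1
    have h4 := ih B'
    have h5 : ((512 : ℝ) ^ (k + 1)) ^ 2 * c = 512 ^ 2 * ((512 ^ k) ^ 2 * c) := by ring
    rw [h5]
    nlinarith

theorem sum_bound (N : Ω → ℝ) (B : Finset Ω) (x c : ℝ) (hx : 0 < x)
    (h : ∑ y ∈ B, N y ^ 2 ≤ x ^ 2 * c) : 2 * ∑ y ∈ B, N y ≤ x * (B.card + c) := by
  have h1 : ∑ y ∈ B, 2 * x * N y ≤ ∑ y ∈ B, (x ^ 2 + N y ^ 2) := by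
    apply Finset.sum_le_sum
    intro y _
    nlinarith [sq_nonneg (x - N y)]
  rw [← Finset.mul_sum, Finset.sum_add_distrib] at h1
  simp only [sum_const, nsmul_eq_mul] at h1
  have h2 : x * (2 * ∑ y ∈ B, N y) ≤ x * (x * (B.card + c)) := by nlinarith
  exact le_of_mul_le_mul_left h2 hx

end Quad

section Transport

variable {Q Ω : Type} [Group Q] [MulAction Q Ω] [DecidableEq Ω]

open scoped Pointwise

/-- mass transport for an action whose point stabilisers act trivially -/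
theorem transport (hfree : ∀ (γ : Q) (ω : Ω), γ • ω = ω → ∀ ω' : Ω, γ • ω' = ω')
    (T : Finset Ω) (hT1 : ∀ ω : Ω, ∃ γ : Q, γ • ω ∈ T)
    (hT2 : ∀ t ∈ T, ∀ γ : Q, γ • t ∈ T → γ • t = t)
    (𝒰 : Ω → Finset (Finset Ω)) (hmem : ∀ ω, ∀ U ∈ 𝒰 ω, ω ∈ U)
    (hch : ∀ ω, ∀ U ∈ 𝒰 ω, ∀ ω' ∈ U, U ∈ 𝒰 ω')
    (hinv : ∀ (γ : Q) ω, ∀ U ∈ 𝒰 ω, γ • U ∈ 𝒰 (γ • ω))
    (N : Ω → Finset Ω → ℝ) (hN : ∀ (γ : Q) ω U, N (γ • ω) (γ • U) = N ω U) (x : ℝ)
    (hx : ∀ ω, ∀ U ∈ 𝒰 ω, ∑ y ∈ U, N y U ≤ x * U.card) :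
    ∑ t ∈ T, ∑ U ∈ 𝒰 t, N t U ≤ x * ∑ t ∈ T, ((𝒰 t).card : ℝ) := by
  choose ρ hρ using hT1
  have key : ∀ (γ γ' : Q) (ω : Ω), γ • ω = γ' • ω → ∀ ω' : Ω, γ • ω' = γ' • ω' := by
    intro γ γ' ω h ω'
    have h1 : (γ'⁻¹ * γ) • ω = ω := by rw [mul_smul, h, inv_smul_smul]
    have h2 := hfree _ _ h1 ω'
    rw [mul_smul, inv_smul_eq_iff] at h2
    exact h2
  have back : ∀ t ∈ T, ∀ (γ : Q) (ω' : Ω), ρ (γ • t) • γ • ω' = ω' := by
    intro t ht γ ω'
    have h1 := hρ (γ • t)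
    rw [← mul_smul] at h1
    have h2 := hT2 t ht _ h1
    rw [← mul_smul]
    exact hfree _ _ h2 ω'
  let P : Finset ((_ : Ω) × (_ : Finset Ω) × Ω) := T.sigma fun t => (𝒰 t).sigma fun U => U
  let sw : ((_ : Ω) × (_ : Finset Ω) × Ω) → ((_ : Ω) × (_ : Finset Ω) × Ω) := fun p =>
    ⟨ρ p.2.2 • p.2.2, ρ p.2.2 • p.2.1, ρ p.2.2 • p.1⟩
  have hP : ∀ p ∈ P, sw p ∈ P := by
    rintro ⟨t, U, ω⟩ hp
    simp only [P, Finset.mem_sigma] at hp ⊢
    exact ⟨hρ ω, hinv _ _ _ (hch t U hp.2.1 ω hp.2.2),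
      Finset.smul_mem_smul_finset (hmem t U hp.2.1)⟩
  have hsw : ∀ p ∈ P, sw (sw p) = p := by
    rintro ⟨t, U, ω⟩ hp
    simp only [P, Finset.mem_sigma] at hp
    simp only [sw]
    have e1 := back t hp.1 (ρ ω) t
    have e2 := back t hp.1 (ρ ω) ω
    have e3 : ρ (ρ ω • t) • ρ ω • U = U := by
      rw [← mul_smul]
      ext y
      rw [Finset.mem_smul_finset]
      constructor
      · rintro ⟨z, hz, rfl⟩
        rw [mul_smul, back t hp.1]
        exact hz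
      · intro hy
        exact ⟨y, hy, by rw [mul_smul, back t hp.1]⟩
    rw [e1, e2, e3]
  have e1 : ∑ t ∈ T, ∑ U ∈ 𝒰 t, N t U = ∑ p ∈ P, N p.1 p.2.1 / p.2.1.card := by
    simp only [P, Finset.sum_sigma]
    apply Finset.sum_congr rfl
    intro t _
    apply Finset.sum_congr rfl
    intro U hU
    have : (U.card : ℝ) ≠ 0 := by
      have := Finset.card_pos.mpr ⟨t, hmem t U hU⟩
      positivity
    simp only [sum_const, nsmul_eq_mul]
    field_simp
  have e2 : ∑ p ∈ P, N p.1 p.2.1 / p.2.1.card = ∑ p ∈ P, N p.2.2 p.2.1 / p.2.1.card := by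
    apply Finset.sum_nbij' sw sw hP hP hsw hsw
    rintro ⟨t, U, ω⟩ _
    simp only [sw, hN, Finset.card_smul_finset]
  rw [e1, e2, Finset.mul_sum]
  simp only [P, Finset.sum_sigma]
  apply Finset.sum_le_sum
  intro t _
  have : x * ((𝒰 t).card : ℝ) = ∑ _U ∈ 𝒰 t, x := by simp [mul_comm]
  rw [this]
  apply Finset.sum_le_sum
  intro U hU
  have hc : (0 : ℝ) < U.card := by
    have := Finset.card_pos.mpr ⟨t, hmem t U hU⟩
    positivity
  rw [← Finset.sum_div, div_le_iff₀ hc]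
  exact hx t U hU

end Transport

end Pool.Agent.MP_c34dea_an.H66.HNorm
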