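import Pool.Agent.MP_c34dea_an.H66.Geom

set_option autoImplicit false

open scoped symmDiff Pointwise

namespace Pool.Agent.MP_c34dea_an.H66

variable {S : Type} {G : SimpleGraph S}

theorem lt_of_gate {p y : W G} {k j : Hyp G} (hg : ∀ z ∈ car k, y ∈ I p z) (hj : j ∈ sep p y) :
    Lt p j k := by
  constructor
  · rintro rfl
    obtain ⟨z, hz, h1, -⟩ := exists_mem_car_side p j
    exact h1 (hg z hz hj)
  · intro w hw
    obtain ⟨z, hz, hc, -, -⟩ := exists_cross_pt hw
    exact hz (hg z hc hj)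

theorem mem_car_of_not_lt {y : W G} {k : Hyp G} (h : ∀ j, ¬ Lt y j k) : y ∈ car k := by
  obtain ⟨g, hg, hgate⟩ := exists_gate (car_convex k) (car_nonempty k) y
  by_cases e : y = g
  · rw [e]; exact hg
  · obtain ⟨s, hs⟩ := exists_step e
    exact absurd (lt_of_gate hgate hs) (h _)

theorem Lt.irrefl {p : W G} {k : Hyp G} : ¬ Lt p k k := fun h => h.ne rfl

theorem exists_downset {p q : W G} {D : Finset (Hyp G)} (hD : D ⊆ sep p q)
    (hdown : ∀ k ∈ D, ∀ j, Lt p j k → j ∈ D) : ∃ u, sep p u = D := by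
  induction hn : D.card generalizing p D with
  | zero => exact ⟨p, by rw [Finset.card_eq_zero.1 hn]; simp⟩
  | succ n ih =>
    obtain ⟨k, hk⟩ := Finset.card_pos.1 (show 0 < D.card by omega)
    have hs : ∃ s, hyp p s ∈ D := by
      obtain ⟨y, hy, hg⟩ := exists_gate (car_convex k) (car_nonempty k) p
      by_cases e : p = y
      · have hp : hyp p k.1 = k := by rw [e]; exact hy
        exact ⟨k.1, by rw [hp]; exact hk⟩
      · obtain ⟨s, hs⟩ := exists_step e
        exact ⟨s, hdown k hk _ (lt_of_gate hg hs)⟩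
    obtain ⟨s, hs⟩ := hs
    have hsq := hD hs
    have h1 : D.erase (hyp p s) ⊆ sep (p * gen G s) q := by
      rw [sep_step hsq]; exact Finset.erase_subset_erase _ hD
    have h2 : ∀ k ∈ D.erase (hyp p s), ∀ j, Lt (p * gen G s) j k → j ∈ D.erase (hyp p s) := by
      intro k hk j hj
      have hj' := hj.mem (h1 hk)
      rw [sep_step hsq, Finset.mem_erase] at hj'
      rw [Finset.mem_erase] at hk ⊢
      refine ⟨hj'.1, hdown k hk.2 j (hj.base ?_ ?_)⟩
      · rw [sep_comm, sep_gen]; simpa using hj'.1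
      · rw [sep_comm, sep_gen]; simpa using hk.1
    obtain ⟨u, hu⟩ := ih h1 h2 (by rw [Finset.card_erase_of_mem hs]; omega)
    refine ⟨u, ?_⟩
    rw [sep_trans p (p * gen G s) u, sep_gen, hu]
    ext k
    rw [Finset.mem_symmDiff]
    simp only [Finset.mem_singleton, Finset.mem_erase]
    by_cases ek : k = hyp p s
    · simp [ek, hs]
    · simp [ek]

theorem exists_bridge {p q : W G} {k k' : Hyp G} (hk' : k' ∈ sep p q) (h : Lt p k k') :
    ∃ y y', y' ∈ I p q ∧ y ∈ I p y' ∧ y ∈ car k ∧ y' ∈ car k' ∧ sep y y' = btw p q k k' := by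
  classical
  obtain ⟨y', hy'⟩ := exists_downset (p := p) (q := q)
    (D := (sep p q).filter (fun j => Lt p j k')) (Finset.filter_subset _ _) (by
      intro i hi j hj
      rw [Finset.mem_filter] at hi ⊢
      exact ⟨hj.mem hi.1, hj.trans hi.2⟩)
  obtain ⟨y, hy⟩ := exists_downset (p := p) (q := q)
    (D := (sep p q).filter (fun j => Lt p j k' ∧ ¬ Lt p k j)) (Finset.filter_subset _ _) (by
      intro i hi j hj
      rw [Finset.mem_filter] at hi ⊢
      exact ⟨hj.mem hi.1, hj.trans hi.2.1, fun x => hi.2.2 (x.trans hj)⟩)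
  have m1 : ∀ j, j ∈ sep p y' ↔ j ∈ sep p q ∧ Lt p j k' := fun j => by
    rw [hy', Finset.mem_filter]
  have m2 : ∀ j, j ∈ sep p y ↔ j ∈ sep p q ∧ Lt p j k' ∧ ¬ Lt p k j := fun j => by
    rw [hy, Finset.mem_filter]
  have i1 : y' ∈ I p q := fun j hj => ((m1 j).1 hj).1
  have i2 : y ∈ I p y' := fun j hj => (m1 j).2 ⟨((m2 j).1 hj).1, ((m2 j).1 hj).2.1⟩
  refine ⟨y, y', i1, i2, mem_car_of_not_lt fun j hj => ?_, mem_car_of_not_lt fun j hj => ?_, ?_⟩
  · have a1 : k ∈ sep y p := mem_sep_comm.1 ((m2 k).2 ⟨h.mem hk', h, Lt.irrefl⟩)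
    have a2 := (m2 j).1 (mem_sep_comm.1 (hj.mem a1))
    exact a2.2.2 (hj.rev a1)
  · have a0 : k' ∉ sep p y' := fun x => Lt.irrefl ((m1 k').1 x).2
    have a1 : k' ∈ sep y' q := by
      rw [sep_eq_sdiff_of_mem_I i1, Finset.mem_sdiff]; exact ⟨hk', a0⟩
    have a2 := hj.mem a1
    rw [sep_eq_sdiff_of_mem_I i1, Finset.mem_sdiff] at a2
    exact a2.2 ((m1 j).2 ⟨a2.1, hj.base (fun x => a2.2 (mem_sep_comm.1 x))
      (fun x => a0 (mem_sep_comm.1 x))⟩)
  · ext j
    rw [sep_eq_sdiff_of_mem_I i2, Finset.mem_sdiff, m1, m2, mem_btw]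
    tauto

theorem exists_up {p q : W G} {h : Hyp G} (hh : h ∈ sep p q) :
    ∃ g ∈ I p q, g ∈ car h ∧ ∀ k, k ∈ sep g q ↔ k ∈ sep p q ∧ Lt p h k := by
  classical
  obtain ⟨g, hg⟩ := exists_downset (p := p) (q := q)
    (D := (sep p q).filter (fun j => ¬ Lt p h j)) (Finset.filter_subset _ _) (by
      intro i hi j hj
      rw [Finset.mem_filter] at hi ⊢
      exact ⟨hj.mem hi.1, fun x => hi.2 (x.trans hj)⟩)
  have m1 : ∀ j, j ∈ sep p g ↔ j ∈ sep p q ∧ ¬ Lt p h j := fun j => by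
    rw [hg, Finset.mem_filter]
  have i1 : g ∈ I p q := fun j hj => ((m1 j).1 hj).1
  refine ⟨g, i1, mem_car_of_not_lt fun j hj => ?_, fun k => ?_⟩
  · have a1 : h ∈ sep g p := mem_sep_comm.1 ((m1 h).2 ⟨hh, Lt.irrefl⟩)
    have a2 := (m1 j).1 (mem_sep_comm.1 (hj.mem a1))
    exact a2.2 (hj.rev a1)
  · rw [sep_eq_sdiff_of_mem_I i1, Finset.mem_sdiff, m1]
    tauto

theorem not_mem_st_of_cover {p q : W G} {k k' : Hyp G} (hk' : k' ∈ sep p q) (h : Lt p k k')
    (he : btw p q k k' = ∅) : k'.1 ∉ st G k.1 := by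
  obtain ⟨y, y', -, -, h1, h2, h3⟩ := exists_bridge hk' h
  rw [he] at h3
  have e := eq_of_sep_empty h3
  subst e
  rintro (x | x)
  · exact h.ne (eq_of_mem_car_of_label h1 h2 x.symm)
  · exact h.not_cross ⟨y, h1, h2, x⟩

theorem exists_cover {p q : W G} {k k' : Hyp G} (hk' : k' ∈ sep p q) (h : Lt p k k') :
    ∃ j ∈ sep p q, Lt p k j ∧ (j = k' ∨ Lt p j k') ∧ btw p q k j = ∅ := by
  induction hn : (btw p q k k').card using Nat.strong_induction_on generalizing k' with
  | _ n ih =>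
    by_cases e : btw p q k k' = ∅
    · exact ⟨k', hk', h, Or.inl rfl, e⟩
    · obtain ⟨i, hi⟩ := Finset.nonempty_iff_ne_empty.2 e
      have hi' := mem_btw.1 hi
      have hlt : (btw p q k i).card < (btw p q k k').card := by
        refine Finset.card_lt_card ⟨fun j hj => ?_, fun x => ?_⟩
        · rw [mem_btw] at hj ⊢
          exact ⟨hj.1, hj.2.1, hj.2.2.trans hi'.2.2⟩
        · exact Lt.irrefl (mem_btw.1 (x hi)).2.2
      obtain ⟨j, h1, h2, h3, h4⟩ := ih _ (by omega) hi'.1 hi'.2.1 rfl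
      refine ⟨j, h1, h2, Or.inr ?_, h4⟩
      rcases h3 with h3 | h3
      · rw [h3]; exact hi'.2.2
      · exact h3.trans hi'.2.2

theorem card_le_of_antichain [Finite S] {p q : W G} {M : Finset (Hyp G)} (hM : M ⊆ sep p q)
    (h : ∀ a ∈ M, ∀ b ∈ M, ¬ Lt p a b) : M.card ≤ Nat.card S := by
  classical
  have := Fintype.ofFinite S
  rw [Nat.card_eq_fintype_card, ← Finset.card_univ]
  refine Finset.card_le_card_of_injOn (fun k => k.1) (fun _ _ => by simp) fun a ha b hb e => ?_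
  by_contra hne
  rcases trichotomy (hM ha) (hM hb) hne with x | x | x
  · exact h a ha b hb x
  · exact h b hb a ha x
  · have e' : a.1 = b.1 := e
    have := x.adj
    rw [e'] at this
    exact G.irrefl this

open Classical in
theorem exists_chain [Finite S] {p q : W G} {J : Finset (Hyp G)} (hJ : J ⊆ sep p q) (H : ℕ)
    (h : Nat.card S * H < J.card) :
    ∃ c : ℕ → Hyp G, (∀ i ≤ H, c i ∈ J ∧ (J.filter (fun k => Lt p k (c i))).card ≤ Nat.card S * i) ∧
      ∀ i j, i < j → j ≤ H → Lt p (c i) (c j) := by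
  induction H generalizing J with
  | zero =>
    obtain ⟨j, hj, hm⟩ := Finset.exists_min_image J
      (fun j => (J.filter (fun k => Lt p k j)).card) (Finset.card_pos.1 (by omega))
    refine ⟨fun _ => j, fun i hi => ⟨hj, ?_⟩, fun i j h1 h2 => by omega⟩
    have : J.filter (fun k => Lt p k j) = ∅ := by
      by_contra e
      obtain ⟨k, hk⟩ := Finset.nonempty_iff_ne_empty.2 e
      rw [Finset.mem_filter] at hk
      have h1 := hm k hk.1
      have h2 : (J.filter (fun i => Lt p i k)).card < (J.filter (fun i => Lt p i j)).card := by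
        refine Finset.card_lt_card ⟨fun i hi => ?_, fun x => ?_⟩
        · rw [Finset.mem_filter] at hi ⊢
          exact ⟨hi.1, hi.2.trans hk.2⟩
        · exact Lt.irrefl (Finset.mem_filter.1 (x (Finset.mem_filter.2 hk))).2
      omega
    simp [this]
  | succ H ih =>
    set M := J.filter (fun j => ∀ k ∈ J, ¬ Lt p k j) with hM
    have hMc : M.card ≤ Nat.card S := by
      refine card_le_of_antichain (p := p) (q := q)
        ((Finset.filter_subset _ _).trans hJ) fun a ha b hb => ?_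
      rw [hM, Finset.mem_filter] at ha hb
      exact hb.2 a ha.1
    have hc : (J \ M).card + M.card = J.card :=
      Finset.card_sdiff_add_card_eq_card (Finset.filter_subset _ _)
    obtain ⟨c, hc1, hc2⟩ := ih (J := J \ M) (Finset.sdiff_subset.trans hJ)
      (by rw [Nat.mul_succ] at h; omega)
    have h0 := hc1 0 (Nat.zero_le _)
    have hk : ∃ k ∈ M, Lt p k (c 0) := by
      have a1 := Finset.mem_sdiff.1 h0.1
      have a2 : ∃ k ∈ J, Lt p k (c 0) := by
        by_contra x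
        exact a1.2 (Finset.mem_filter.2 ⟨a1.1, fun k hk hl => x ⟨k, hk, hl⟩⟩)
      obtain ⟨k, hk, hl⟩ := a2
      refine ⟨k, ?_, hl⟩
      by_contra x
      have : k ∈ (J \ M).filter (fun k => Lt p k (c 0)) :=
        Finset.mem_filter.2 ⟨Finset.mem_sdiff.2 ⟨hk, x⟩, hl⟩
      have a3 := Finset.card_pos.2 ⟨k, this⟩
      have a4 := h0.2
      omega
    obtain ⟨k, hkM, hk⟩ := hk
    refine ⟨fun i => Nat.casesOn i k c, fun i hi => ?_, fun i j h1 h2 => ?_⟩
    · cases i with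
      | zero =>
        have a := Finset.mem_filter.1 hkM
        refine ⟨a.1, ?_⟩
        have : J.filter (fun j => Lt p j k) = ∅ :=
          Finset.filter_eq_empty_iff.2 fun j hj => a.2 j hj
        simp [this]
      | succ i =>
        have a := hc1 i (by omega)
        refine ⟨(Finset.mem_sdiff.1 a.1).1, ?_⟩
        have : J.filter (fun j => Lt p j (c i)) ⊆ M ∪ (J \ M).filter (fun j => Lt p j (c i)) := by
          intro j hj
          rw [Finset.mem_filter] at hj
          by_cases e : j ∈ M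
          · exact Finset.mem_union_left _ e
          · exact Finset.mem_union_right _
              (Finset.mem_filter.2 ⟨Finset.mem_sdiff.2 ⟨hj.1, e⟩, hj.2⟩)
        have a2 := (Finset.card_le_card this).trans (Finset.card_union_le _ _)
        show (J.filter (fun j => Lt p j (c i))).card ≤ _
        rw [Nat.mul_succ]
        omega
    · cases j with
      | zero => omega
      | succ j =>
        cases i with
        | zero =>
          show Lt p k (c j)
          rcases Nat.eq_zero_or_pos j with e | e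
          · rw [e]; exact hk
          · exact hk.trans (hc2 0 j e (by omega))
        | succ i => exact hc2 i j (by omega) (by omega)

theorem card_btw_ge_of_chain {p q : W G} {c : ℕ → Hyp G} {H : ℕ} (hc : ∀ i ≤ H, c i ∈ sep p q)
    (hlt : ∀ i j, i < j → j ≤ H → Lt p (c i) (c j)) {i j : ℕ} (_hij : i < j) (hj : j ≤ H) :
    j - i - 1 ≤ (btw p q (c i) (c j)).card := by
  rw [← Nat.card_Ioo]
  refine Finset.card_le_card_of_injOn c (fun a ha => ?_) fun a ha b hb e => ?_
  · have ha' := Finset.mem_Ioo.1 ha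
    exact mem_btw.2 ⟨hc a (by omega), hlt i a ha'.1 (by omega), hlt a j ha'.2 hj⟩
  · have ha' := Finset.mem_Ioo.1 ha
    have hb' := Finset.mem_Ioo.1 hb
    by_contra hne
    rcases Nat.lt_or_gt_of_ne hne with x | x
    · exact (hlt a b x (by omega)).ne e
    · exact (hlt b a x (by omega)).ne e.symm

theorem gp_le_near {u y y' : W G} (hu : u ∈ I y y') (a b : W G) : gp u a b ≤ d y a + d y' b := by
  unfold gp d
  refine le_trans (Finset.card_le_card fun k hk => ?_) (Finset.card_union_le _ _)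
  rw [Finset.mem_inter] at hk
  rw [Finset.mem_union]
  have h1 : k ∈ sep y u → k ∉ sep u y' := fun x =>
    Finset.disjoint_left.1 (mem_I_iff_disjoint.1 hu) x
  have h2 := mem_sep_trans (h := k) y u a
  have h3 := mem_sep_trans (h := k) y' u b
  rw [sep_comm y' u] at h3
  tauto

theorem thin [Finite S] {p q : W G} {n : ℕ}
    (hG : ∀ u ∈ I p q, ∀ v ∈ I p q, n ≤ d u v → Clq G (Zs u v)) {u v : W G} (hu : u ∈ I p q)
    (hv : v ∈ I p q) :
    (sep p u \ sep p v).card ≤ max n (Nat.card S) ∨ (sep p v \ sep p u).card ≤ max n (Nat.card S) := by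
  have hm : med p u v ∈ I p q := mem_I_trans_left hu (med_mem_I₁ p u v)
  have e1 : sep (med p u v) u = sep p u \ sep p v := by
    rw [sep_eq_sdiff_of_mem_I (med_mem_I₁ p u v), sep_med]
    ext k; simp only [Finset.mem_sdiff, Finset.mem_inter]; tauto
  have e2 : sep (med p u v) v = sep p v \ sep p u := by
    rw [sep_eq_sdiff_of_mem_I (med_mem_I₂ p u v), sep_med]
    ext k; simp only [Finset.mem_sdiff, Finset.mem_inter]; tauto
  by_cases h : n ≤ d (med p u v) u
  · right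
    have hZ := hG _ hm _ hu h
    have := d_le_card_of_clq hZ (u := med p u v) (v := v) fun k hk j hj => by
      rw [e2, Finset.mem_sdiff] at hk
      rw [e1, Finset.mem_sdiff] at hj
      have hne : j ≠ k := fun x => hk.2 (x ▸ hj.1)
      rcases trichotomy (hu hj.1) (hv hk.1) hne with x | x | x
      · exact absurd (x.mem hk.1) hj.2
      · exact absurd (x.mem hj.1) hk.2
      · exact mem_st_of_adj x.adj
    unfold d at this
    rw [e2] at this
    exact this.trans (le_max_right _ _)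
  · left
    unfold d at h
    rw [e1] at h
    exact (le_of_lt (not_le.1 h)).trans (le_max_left _ _)

theorem four_point [Finite S] {Y : Set (W G)} {n : ℕ} (hY : Cvx Y) (h4 : I4c Y n) {x a b c : W G}
    (hx : x ∈ Y) (hb : b ∈ Y) :
    min (gp x a b) (gp x b c) ≤ gp x a c + max n (Nat.card S) := by
  have hI := hY x hx b hb
  have h := thin (p := x) (q := b) (n := n) (fun u hu v hv h => h4 u (hI hu) v (hI hv) h)
    (med_mem_I₁ x b a) (med_mem_I₁ x b c)
  rw [sep_med, sep_med] at h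
  unfold gp
  have s1 : (sep x b ∩ sep x a) ∩ (sep x b ∩ sep x c) ⊆ sep x a ∩ sep x c := by
    intro k; simp only [Finset.mem_inter]; tauto
  have c1 := Finset.card_le_card s1
  have c2 := Finset.card_sdiff_add_card_inter (sep x b ∩ sep x a) (sep x b ∩ sep x c)
  have c3 := Finset.card_sdiff_add_card_inter (sep x b ∩ sep x c) (sep x b ∩ sep x a)
  rw [Finset.inter_comm (sep x b ∩ sep x c)] at c3
  rw [Finset.inter_comm (sep x a) (sep x b)]
  rcases h with h | h
  · exact (min_le_left _ _).trans (by omega)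
  · exact (min_le_right _ _).trans (by omega)

theorem near_chain [Finite S] {a b : W G} {n B k : ℕ}
    (hG : ∀ u ∈ I a b, ∀ v ∈ I a b, n ≤ d u v → Clq G (Zs u v)) {x : ℕ → W G} (h0 : x 0 = a)
    (hk : x k = b) (hgp : ∀ i ≤ k, gp (x i) a b ≤ B) (hstep : ∀ i < k, d (x i) (x (i + 1)) ≤ B)
    {u : W G} (hu : u ∈ I a b) : ∃ i ≤ k, d u (x i) ≤ 2 * max n (Nat.card S) + 2 * B := by
  set δ := max n (Nat.card S) with hδ
  have hd : ∀ i, d u (med a b (x i)) =
      (sep a u \ sep a (med a b (x i))).card + (sep a (med a b (x i)) \ sep a u).card := by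
    intro i
    unfold d
    rw [sep_trans u a, sep_comm u a, symmDiff_def, Finset.sup_eq_union,
      Finset.card_union_of_disjoint disjoint_sdiff_sdiff]
  have hx : ∀ i ≤ k, d u (x i) ≤ d u (med a b (x i)) + B := by
    intro i hi
    have h1 := d_triangle u (med a b (x i)) (x i)
    rw [d_comm (med a b (x i)), d_med₃] at h1
    have := hgp i hi
    omega
  have key : ∀ i ≤ k, (∃ j ≤ k, d u (x j) ≤ 2 * δ + 2 * B) ∨
      (sep a (med a b (x i)) \ sep a u).card ≤ δ := by
    intro i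
    induction i with
    | zero => intro _; right; simp [sep_med, h0]
    | succ i ih =>
      intro hi
      rcases ih (by omega) with h | h
      · exact Or.inl h
      · rcases thin hG hu (med_mem_I₁ a b (x (i + 1))) with h' | h'
        · left
          refine ⟨i + 1, hi, ?_⟩
          have s1 : sep a (med a b (x (i + 1))) \ sep a u ⊆
              (sep a (med a b (x i)) \ sep a u) ∪ sep (x i) (x (i + 1)) := by
            intro j hj
            have := mem_sep_trans (h := j) a (x i) (x (i + 1))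
            simp only [sep_med, Finset.mem_sdiff, Finset.mem_inter, Finset.mem_union] at hj ⊢
            tauto
          have c1 := (Finset.card_le_card s1).trans (Finset.card_union_le _ _)
          have c2 : (sep (x i) (x (i + 1))).card ≤ B := hstep i (by omega)
          have := hx (i + 1) hi
          rw [hd] at this
          omega
        · exact Or.inr h'
  rcases key k le_rfl with h | h
  · exact h
  · refine ⟨k, le_rfl, ?_⟩
    have := hx k le_rfl
    rw [hd] at this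
    have e : sep a u \ sep a (med a b (x k)) = ∅ := by
      rw [Finset.sdiff_eq_empty_iff_subset, sep_med, hk, Finset.inter_self]
      exact hu
    rw [e, Finset.card_empty] at this
    omega

theorem gate_step_false {p g : W G} {h : Hyp G} {s : S} (hg : g ∈ car h)
    (hgate : ∀ z ∈ car h, g ∈ I p z) (hs : hyp g s ∈ sep p g) (hst : s ∈ st G h.1) : False := by
  have := hgate _ (mul_gen_mem_car hg hst) hs
  rw [mem_sep_mul_gen] at this
  tauto

theorem par {p q : W G} (hZ : Clq G (Zs p q)) {h : Hyp G} (hc : ∀ k ∈ sep p q, Cross h k) :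
    p ∈ car h := by
  obtain ⟨g, hg, hgate⟩ := exists_gate (car_convex h) (car_nonempty h) p
  by_cases e : g = p
  · rw [← e]; exact hg
  exfalso
  obtain ⟨s, hs⟩ := exists_step e
  have hs' : hyp g s ∈ sep p g := mem_sep_comm.1 hs
  have hlt := lt_of_gate hgate hs'
  have hn : hyp g s ∉ sep p q := fun x => hlt.not_cross (hc _ x).symm
  have z1 : h.1 ∈ Zs p q := fun k hk => mem_st_of_adj (hc k hk).symm.adj
  have z2 : s ∈ Zs p q := by
    intro k hk
    obtain ⟨a, ha, hca, -, -⟩ := exists_cross_pt hk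
    obtain ⟨b, hb1, hb2, -⟩ := hc k hk
    have b1 := hlt.mem_of_car hb1
    have a1 : hyp g s ∉ sep p a := fun x => hn (ha x)
    have : hyp g s ∈ sep a b := by
      rw [mem_sep_trans a p b, sep_comm a p]; tauto
    exact label_mem_st_of_car hca hb2 this
  exact gate_step_false hg hgate hs' (hZ _ z1 _ z2)

theorem par2 {y : W G} {H H1 H2 : Hyp G} {K : Set S} (h1 : y ∈ car H1) (h2 : y ∈ car H2)
    (c1 : Cross H H1) (c2 : Cross H H2) (hK : Clq G K) (hs : st G H1.1 ∩ st G H2.1 ⊆ K) :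
    y ∈ car H := by
  obtain ⟨g, hg, hgate⟩ := exists_gate (car_convex H) (car_nonempty H) y
  by_cases e : g = y
  · rw [← e]; exact hg
  exfalso
  obtain ⟨s, hs0⟩ := exists_step e
  have hs' : hyp g s ∈ sep y g := mem_sep_comm.1 hs0
  have hlt := lt_of_gate hgate hs'
  have z1 : H.1 ∈ K := hs ⟨mem_st_of_adj c1.symm.adj, mem_st_of_adj c2.symm.adj⟩
  have z2 : s ∈ K := by
    obtain ⟨a, ha, ha', -⟩ := c1
    obtain ⟨b, hb, hb', -⟩ := c2
    exact hs ⟨label_mem_st_of_car h1 ha' (hlt.mem_of_car ha),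
      label_mem_st_of_car h2 hb' (hlt.mem_of_car hb)⟩
  exact gate_step_false hg hgate hs' (hK _ z1 _ z2)

theorem in_of_tall_aux {T : Set (W G)} {n : ℕ} (hT : Cvx T) (hsc : SC T n) (hn : 1 ≤ n)
    {p q : W G} (hZ : Clq G (Zs p q)) (hd : n ≤ d p q) (hw : ∀ k ∈ sep p q, k ∈ WH T) :
    p ∈ T := by
  obtain ⟨k0, hk0⟩ := Finset.card_pos.1 (show 0 < (sep p q).card from le_trans hn hd)
  obtain ⟨a0, ha0, -⟩ := hw k0 hk0
  obtain ⟨p0, hp0, hgp⟩ := exists_gate hT ⟨a0, ha0⟩ p
  obtain ⟨q0, hq0, hgq⟩ := exists_gate hT ⟨a0, ha0⟩ q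
  have e : sep p0 q0 = sep p q := by
    ext k
    rw [mem_sep_gates hp0 hq0 hgp hgq]
    exact ⟨fun x => x.1, fun x => ⟨x, hw k x⟩⟩
  by_cases e0 : p = p0
  · rw [e0]; exact hp0
  exfalso
  obtain ⟨s, hs⟩ := exists_step e0
  have n1 := gate_not_WH hgp hs
  have n2 : hyp p s ∉ sep p q := fun x => n1 (hw _ x)
  have hc : ∀ k ∈ sep p0 q0, Cross (hyp p s) k := by
    intro k hk
    rw [e] at hk
    obtain ⟨a, ha, hca, -, -⟩ := exists_cross_pt hk
    obtain ⟨b, hb, hcb, -⟩ := (mem_WH_iff hT).1 (hw k hk)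
    have b1 := hgp b hb hs
    have a1 : hyp p s ∉ sep p a := fun x => n2 (ha x)
    have : hyp p s ∈ sep a b := by
      rw [mem_sep_trans a p b, sep_comm a p]; tauto
    exact (cross_of_sep_car hca hcb this (fun x => n2 (x ▸ hk))).symm
  have eZ : Zs p0 q0 = Zs p q := by unfold Zs; rw [e]
  have h1 := par (by rw [eZ]; exact hZ) hc
  have h2 := hsc p0 hp0 q0 hq0 (by unfold d at hd ⊢; rw [e]; exact hd) s
    (fun k hk => mem_st_of_adj (hc k hk).symm.adj)
  exact n1 ((mem_WH_iff hT).2 ⟨p0, hp0, h1, h2⟩)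

theorem in_of_tall {T : Set (W G)} {n : ℕ} (hT : Cvx T) (hsc : SC T n) (hn : 1 ≤ n) {p q : W G}
    (hZ : Clq G (Zs p q)) (hd : n ≤ d p q) (hw : ∀ k ∈ sep p q, k ∈ WH T) : p ∈ T ∧ q ∈ T := by
  refine ⟨in_of_tall_aux hT hsc hn hZ hd hw, in_of_tall_aux hT hsc hn (q := p) ?_ ?_ ?_⟩
  · rwa [Zs_comm]
  · rwa [d_comm]
  · intro k hk
    exact hw k (mem_sep_comm.1 hk)

/-- convex hull -/
def hull (X : Set (W G)) : Set (W G) := {y | ∀ h : Hyp G, ∃ a ∈ X, h ∉ sep y a}

/-- superconvex core -/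
def core (n : ℕ) (X : Set (W G)) : Set (W G) :=
  hull (hull X ∪ {z | ∃ p ∈ hull X, ∃ q ∈ hull X, n ≤ d p q ∧ ∃ t ∈ Zs p q, z = p * gen G t})

def G1 (X : Set (W G)) (n : ℕ) : Prop :=
  ∀ a ∈ X, ∀ b ∈ X, ∀ u ∈ I a b, ∀ v ∈ I a b, n ≤ d u v → Clq G (Zs u v)

def G2 (X : Set (W G)) (B : ℕ) : Prop :=
  ∀ a ∈ X, ∀ b ∈ X, ∃ (k : ℕ) (x : ℕ → W G), x 0 = a ∧ x k = b ∧
    (∀ i ≤ k, x i ∈ X ∧ gp (x i) a b ≤ B) ∧ ∀ i < k, d (x i) (x (i + 1)) ≤ B

theorem hull_convex (X : Set (W G)) : Cvx (hull X) := by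
  intro y hy y' hy' u hu h
  by_cases e : h ∈ sep y u
  · obtain ⟨a, ha, h1⟩ := hy' h
    refine ⟨a, ha, ?_⟩
    have h2 := Finset.disjoint_left.1 (mem_I_iff_disjoint.1 hu) e
    rw [mem_sep_trans u y' a]
    tauto
  · obtain ⟨a, ha, h1⟩ := hy h
    refine ⟨a, ha, ?_⟩
    rw [mem_sep_trans u y a, sep_comm u y]
    tauto

theorem subset_hull (X : Set (W G)) : X ⊆ hull X := fun a ha _ => ⟨a, ha, by simp⟩

theorem hull_subset {X Y : Set (W G)} (hne : X.Nonempty) (hY : Cvx Y) (hXY : X ⊆ Y) :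
    hull X ⊆ Y := by
  intro y hy
  obtain ⟨g, hg, hgate⟩ := exists_gate hY (hne.mono hXY) y
  have : sep y g = ∅ := by
    by_contra e
    obtain ⟨k, hk⟩ := Finset.nonempty_iff_ne_empty.2 e
    obtain ⟨a, ha, h1⟩ := hy k
    exact h1 (hgate a (hXY ha) hk)
  rw [eq_of_sep_empty this]
  exact hg

theorem mem_smul_iff {X : Set (W G)} {g y : W G} : y ∈ g • X ↔ g⁻¹ * y ∈ X :=
  Set.mem_smul_set_iff_inv_smul_mem

theorem mul_mem_smul_iff {X : Set (W G)} {g y : W G} : g * y ∈ g • X ↔ y ∈ X := by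
  rw [mem_smul_iff, inv_mul_cancel_left]

theorem hull_smul (X : Set (W G)) (g : W G) : hull (g • X) = g • hull X := by
  ext y
  rw [mem_smul_iff]
  constructor
  · intro h k
    obtain ⟨_, ⟨a, ha, rfl⟩, h1⟩ := h (g • k)
    refine ⟨a, ha, fun x => h1 ?_⟩
    rw [← smul_mem_sep g, mul_inv_cancel_left] at x
    exact x
  · intro h k
    obtain ⟨a, ha, h1⟩ := h (g⁻¹ • k)
    refine ⟨g * a, ⟨a, ha, rfl⟩, fun x => h1 ?_⟩
    rw [← smul_mem_sep g, mul_inv_cancel_left, smul_inv_smul]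
    exact x

theorem hull_near [Finite S] {X : Set (W G)} {B : ℕ} (hne : X.Nonempty)
    (hq : ∀ a ∈ X, ∀ b ∈ X, ∀ u ∈ I a b, ∃ x ∈ X, d u x ≤ B) {y : W G} (hy : y ∈ hull X) :
    ∃ a ∈ X, d y a ≤ Nat.card S * B := by
  classical
  have hex : ∃ n, ∃ a ∈ X, d y a = n := by
    obtain ⟨a, ha⟩ := hne
    exact ⟨_, a, ha, rfl⟩
  obtain ⟨a, ha, e⟩ := Nat.find_spec hex
  refine ⟨a, ha, ?_⟩
  by_contra hlt
  obtain ⟨c, hc1, hc2⟩ := exists_chain (p := a) (q := y) (J := sep a y) (Finset.Subset.refl _) B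
    (by rw [d_comm] at hlt; exact not_le.1 hlt)
  obtain ⟨b, hb, h1⟩ := hy (c B)
  have h2 : c B ∈ sep a b := by
    have := (hc1 B le_rfl).1
    rw [mem_sep_trans a y b]; tauto
  have h3 : B + 1 ≤ gp a y b := by
    rw [← Finset.card_range (B + 1)]
    refine Finset.card_le_card_of_injOn c (fun i hi => ?_) fun i hi j hj e => ?_
    · have hi' : i ≤ B := Nat.lt_succ_iff.1 (Finset.mem_range.1 hi)
      refine Finset.mem_inter.2 ⟨(hc1 i hi').1, ?_⟩
      rcases Nat.eq_or_lt_of_le hi' with x | x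
      · rw [x]; exact h2
      · exact (hc2 i B x le_rfl).mem h2
    · have hi' : i ≤ B := Nat.lt_succ_iff.1 (Finset.mem_range.1 hi)
      have hj' : j ≤ B := Nat.lt_succ_iff.1 (Finset.mem_range.1 hj)
      by_contra hne
      rcases Nat.lt_or_gt_of_ne hne with x | x
      · exact (hc2 i j x hj').ne e
      · exact (hc2 j i x hi').ne e.symm
  obtain ⟨x, hx, h4⟩ := hq a ha b hb _ (med_mem_I₂ a y b)
  have h5 : d y a ≤ d y x := by rw [e]; exact Nat.find_min' hex ⟨x, hx, rfl⟩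
  have h6 := d_triangle y (med a y b) x
  have h7 := mem_I_iff_d.1 (med_mem_I₁ a y b)
  rw [d_med, d_comm (med a y b) y, d_comm a y] at h7
  omega

theorem hull_i4c [Finite S] {X : Set (W G)} {n : ℕ} (h1 : G1 X n) :
    I4c (hull X) (Nat.card S * (n + 1) + 1) := by
  intro p hp q hq hd
  obtain ⟨c, hc1, hc2⟩ := exists_chain (p := p) (q := q) (J := sep p q) (Finset.Subset.refl _)
    (n + 1) hd
  obtain ⟨a, ha, h2⟩ := hp (c 0)
  obtain ⟨b, hb, h3⟩ := hq (c (n + 1))
  have n1 : ∀ i ≤ n + 1, c i ∉ sep p a := by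
    intro i hi x
    rcases Nat.eq_zero_or_pos i with e | e
    · exact h2 (e ▸ x)
    · exact h2 ((hc2 0 i e hi).mem x)
  have l1 : ∀ i j, i < j → j ≤ n + 1 → Lt a (c i) (c j) := fun i j hij hj =>
    (hc2 i j hij hj).base (n1 i (by omega)) (n1 j hj)
  have t1 : c (n + 1) ∈ sep a q := by
    have := (hc1 _ le_rfl).1
    have := n1 _ le_rfl
    rw [mem_sep_trans a p q, sep_comm a p]; tauto
  have t2 : c (n + 1) ∈ sep a b := by
    rw [mem_sep_trans a q b]; tauto
  have m1 : ∀ i ≤ n + 1, c i ∈ sep a b := by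
    intro i hi
    rcases Nat.eq_or_lt_of_le hi with x | x
    · rw [x]; exact t2
    · exact (l1 i _ x le_rfl).mem t2
  obtain ⟨y, y', i1, i2, -, -, e⟩ := exists_bridge t2 (l1 0 (n + 1) (by omega) le_rfl)
  have hc := card_btw_ge_of_chain m1 l1 (show 0 < n + 1 by omega) le_rfl
  refine (h1 a ha b hb y (mem_I_trans_left i1 i2) y' i1 (by unfold d; rw [e]; omega)).mono
    (Zs_anti fun j hj => ?_)
  rw [e, mem_btw] at hj
  have a1 : j ∉ sep a p := fun x => h2 (mem_sep_comm.1 (hj.2.1.mem x))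
  have a2 := hj.2.2.mem t1
  rw [mem_sep_trans p a q, sep_comm p a]
  tauto

theorem core_convex (n : ℕ) (X : Set (W G)) : Cvx (core n X) := by
  exact hull_convex _

theorem subset_core (n : ℕ) (X : Set (W G)) : X ⊆ core n X := by
  exact (subset_hull X).trans (Set.subset_union_left.trans (subset_hull _))

theorem core_smul (n : ℕ) (X : Set (W G)) (g : W G) : core n (g • X) = g • core n X := by
  unfold core
  rw [← hull_smul, Set.smul_set_union, hull_smul]
  congr 2
  ext z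
  rw [mem_smul_iff]
  constructor
  · rintro ⟨_, ⟨p, hp, rfl⟩, _, ⟨q, hq, rfl⟩, h1, t, ht, rfl⟩
    refine ⟨p, hp, q, hq, by rwa [← d_smul g], t, by rwa [← Zs_smul g], ?_⟩
    simp [mul_assoc]
  · rintro ⟨p, hp, q, hq, h1, t, ht, e⟩
    refine ⟨g * p, ⟨p, hp, rfl⟩, g * q, ⟨q, hq, rfl⟩, by rwa [d_smul], t, by rwa [Zs_smul], ?_⟩
    rw [mul_assoc, ← e, mul_inv_cancel_left]

theorem core_subset {n n0 : ℕ} {X Y : Set (W G)} (hne : X.Nonempty) (hY : Cvx Y) (hXY : X ⊆ Y)
    (hsc : SC Y n0) (hn : n0 ≤ n) : core n X ⊆ Y := by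
  have h1 := hull_subset hne hY hXY
  refine hull_subset ((hne.mono (subset_hull X)).mono Set.subset_union_left) hY ?_
  rintro z (hz | ⟨p, hp, q, hq, hd, t, ht, rfl⟩)
  · exact h1 hz
  · exact hsc p (h1 hp) q (h1 hq) (hn.trans hd) t ht

theorem core_spec (G : SimpleGraph S) [Finite S] (n B : ℕ) :
    ∃ n1 n2 B' : ℕ, n ≤ n1 ∧ ∀ X : Set (W G), X.Nonempty → G1 X n → G2 X B →
      (∀ y ∈ core n1 X, ∃ a ∈ X, d y a ≤ B') ∧ I4c (core n1 X) n2 ∧ SC (core n1 X) n2 := by
  obtain ⟨N, hN⟩ : ∃ N, N = Nat.card S := ⟨_, rfl⟩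
  obtain ⟨n1, hn1⟩ : ∃ n1, n1 = N * (n + 1) + 1 + n := ⟨_, rfl⟩
  refine ⟨n1, N * (n1 + 4 + 1) + 1 + n1 + 2 * (N * 2 + 1),
    N * 2 + 1 + N * (2 * max n N + 2 * B), by omega, fun X hne h1 h2 => ?_⟩
  set X1 := hull X ∪ {z | ∃ p ∈ hull X, ∃ q ∈ hull X, n1 ≤ d p q ∧ ∃ t ∈ Zs p q, z = p * gen G t}
    with hX1
  have hne1 : X1.Nonempty := (hne.mono (subset_hull X)).mono Set.subset_union_left
  have q0 : ∀ a ∈ X, ∀ b ∈ X, ∀ u ∈ I a b, ∃ x ∈ X, d u x ≤ 2 * max n N + 2 * B := by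
    intro a ha b hb u hu
    obtain ⟨k, x, e0, ek, a1, a2⟩ := h2 a ha b hb
    obtain ⟨i, hi, a3⟩ := near_chain (h1 a ha b hb) e0 ek (fun i hi => (a1 i hi).2) a2 hu
    exact ⟨x i, (a1 i hi).1, hN ▸ a3⟩
  have i0 : I4c (hull X) n1 := fun p hp q hq hd => hull_i4c h1 p hp q hq (by rw [← hN]; omega)
  have c1 : ∀ a ∈ X1, ∃ p ∈ hull X, d a p ≤ 1 := by
    rintro a (ha | ⟨p, hp, q, hq, hd, t, ht, rfl⟩)
    · exact ⟨a, ha, by simp⟩
    · exact ⟨p, hp, by rw [d_comm, d_gen]⟩
  have c2 : ∀ a ∈ X1, ∀ b ∈ X1, ∃ p ∈ hull X, ∃ q ∈ hull X, ∀ u ∈ I a b,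
      d u (med p q u) ≤ 2 := by
    intro a ha b hb
    obtain ⟨p, hp, a1⟩ := c1 a ha
    obtain ⟨q, hq, a2⟩ := c1 b hb
    refine ⟨p, hp, q, hq, fun u hu => ?_⟩
    have := gp_le_near hu p q
    rw [d_med₃]
    omega
  have q1 : ∀ a ∈ X1, ∀ b ∈ X1, ∀ u ∈ I a b, ∃ x ∈ X1, d u x ≤ 2 := by
    intro a ha b hb u hu
    obtain ⟨p, hp, q, hq, h⟩ := c2 a ha b hb
    exact ⟨_, Or.inl (hull_convex X p hp q hq (med_mem_I₁ p q u)), h u hu⟩
  have g1 : G1 X1 (n1 + 4) := by
    intro a ha b hb u hu v hv hd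
    obtain ⟨p, hp, q, hq, h⟩ := c2 a ha b hb
    have a1 := h u hu
    have a2 := h v hv
    have a3 := d_triangle u (med p q u) v
    have a4 := d_triangle (med p q u) (med p q v) v
    rw [d_comm (med p q v) v] at a4
    refine (i0 _ (hull_convex X p hp q hq (med_mem_I₁ p q u)) _
      (hull_convex X p hp q hq (med_mem_I₁ p q v)) (by omega)).mono (Zs_anti fun j hj => ?_)
    rw [mem_sep_trans _ p, sep_comm _ p, sep_med, sep_med] at hj
    rw [mem_sep_trans _ p, sep_comm _ p]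
    simp only [Finset.mem_inter] at hj
    tauto
  have near1 : ∀ y ∈ core n1 X, ∃ p ∈ hull X, d y p ≤ N * 2 + 1 := by
    intro y hy
    obtain ⟨a, ha, a1⟩ := hull_near hne1 q1 hy
    obtain ⟨p, hp, a2⟩ := c1 a ha
    have := d_triangle y a p
    rw [← hN] at a1
    exact ⟨p, hp, by omega⟩
  refine ⟨fun y hy => ?_, fun p hp q hq hd => hull_i4c g1 p hp q hq (by rw [← hN]; omega), ?_⟩
  · obtain ⟨p, hp, a1⟩ := near1 y hy
    obtain ⟨a, ha, a2⟩ := hull_near hne q0 hp
    have := d_triangle y p a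
    rw [← hN] at a2
    exact ⟨a, ha, by omega⟩
  · intro p hp q hq hd t ht k
    by_cases e : k = hyp p t
    · have key : ∃ a ∈ X1, hyp p t ∈ sep p a := by
        by_cases e1 : hyp p t ∈ sep p q
        · obtain ⟨a, ha, a1⟩ := hq (hyp p t)
          refine ⟨a, ha, ?_⟩
          rw [mem_sep_trans p q a]; tauto
        · have hneX : (hull X).Nonempty := hne.mono (subset_hull X)
          obtain ⟨p0, hp0, hgp⟩ := exists_gate (hull_convex X) hneX p
          obtain ⟨q0', hq0, hgq⟩ := exists_gate (hull_convex X) hneX q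
          have s1 : sep p0 q0' ⊆ sep p q := fun j hj => ((mem_sep_gates hp0 hq0 hgp hgq).1 hj).1
          have d1 : d p p0 ≤ N * 2 + 1 := by
            obtain ⟨z, hz, a1⟩ := near1 p hp
            exact (Finset.card_le_card (hgp z hz)).trans a1
          have d2 : d q q0' ≤ N * 2 + 1 := by
            obtain ⟨z, hz, a1⟩ := near1 q hq
            exact (Finset.card_le_card (hgq z hz)).trans a1
          have a3 := d_triangle p p0 q
          have a4 := d_triangle p0 q0' q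
          rw [d_comm q0' q] at a4
          have hd0 : n1 ≤ d p0 q0' := by omega
          have hqc : q ∈ car (hyp p t) := (mem_car_iff (mem_car_hyp p t)).2 (mem_Zs_iff.1 ht)
          have hcar : p0 ∈ car (hyp p t) := par (i0 p0 hp0 q0' hq0 hd0) fun j hj =>
            cross_of_sep_car (mem_car_hyp p t) hqc (s1 hj) (fun x => e1 (x ▸ s1 hj))
          have hcar' : hyp p0 t = hyp p t := hcar
          by_cases e2 : hyp p t ∈ sep p p0
          · exact ⟨p0, Or.inl hp0, e2⟩
          · refine ⟨p0 * gen G t, Or.inr ⟨p0, hp0, q0', hq0, hd0, t, Zs_anti s1 ht, rfl⟩, ?_⟩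
            rw [mem_sep_mul_gen, hcar']
            tauto
      obtain ⟨a, ha, a1⟩ := key
      refine ⟨a, ha, ?_⟩
      rw [e, sep_step a1]
      simp
    · obtain ⟨a, ha, a1⟩ := hp k
      refine ⟨a, ha, ?_⟩
      rw [mem_sep_comm, mem_sep_mul_gen, sep_comm a p]
      tauto

end Pool.Agent.MP_c34dea_an.H66
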