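import Pool.Agent.MP_c34dea_an.H66.Spec

set_option autoImplicit false

open scoped Pointwise

namespace Pool.Agent.MP_c34dea_an.H66

variable {Γ : Type} [Group Γ]

theorem exists_Tr (H : Subgroup Γ) [H.FiniteIndex] : ∃ T, Tr H T := by
  classical
  have hf : Finite (Γ ⧸ H) := Subgroup.finite_quotient_of_finiteIndex
  have := Fintype.ofFinite (Γ ⧸ H)
  refine ⟨Finset.univ.image (fun q : Γ ⧸ H => (q.out)⁻¹), fun g => ?_⟩
  refine ⟨((g⁻¹ : Γ) : Γ ⧸ H).out⁻¹, ⟨Finset.mem_image.2 ⟨_, Finset.mem_univ _, rfl⟩, ?_⟩, ?_⟩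
  · have : ((g⁻¹ : Γ) : Γ ⧸ H) = ((((g⁻¹ : Γ) : Γ ⧸ H).out : Γ) : Γ ⧸ H) := by simp
    simpa using QuotientGroup.eq.1 this
  · rintro t ⟨ht, h⟩
    obtain ⟨q, -, rfl⟩ := Finset.mem_image.1 ht
    have : ((g⁻¹ : Γ) : Γ ⧸ H) = q := by
      rw [← QuotientGroup.out_eq' q]
      exact QuotientGroup.eq.2 (by simpa using h)
    rw [this]

theorem cover_of_fi (H : Subgroup Γ) [H.FiniteIndex] :
    ∃ F : Finset Γ, ∀ g, ∃ f ∈ F, g * f⁻¹ ∈ H := by
  obtain ⟨T, hT⟩ := exists_Tr H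
  exact ⟨T, fun g => (hT g).exists⟩

theorem fi_of_cover {H : Subgroup Γ} {F : Set Γ} (hF : F.Finite)
    (h : ∀ g, ∃ f ∈ F, g * f⁻¹ ∈ H) : H.FiniteIndex := by
  have : Finite (Γ ⧸ H) := by
    have := hF.to_subtype
    refine Finite.of_surjective (fun f : F => (((f : Γ)⁻¹ : Γ) : Γ ⧸ H)) fun q => ?_
    obtain ⟨g, rfl⟩ := QuotientGroup.mk_surjective q
    obtain ⟨f, hf, h1⟩ := h g⁻¹
    refine ⟨⟨f, hf⟩, QuotientGroup.eq.2 ?_⟩
    simpa using H.inv_mem h1
  exact Subgroup.finiteIndex_of_finite_quotient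

theorem Tr.eq {H : Subgroup Γ} {T : Finset Γ} (hT : Tr H T) {a b : Γ} (ha : a ∈ T) (hb : b ∈ T)
    (h : a * b⁻¹ ∈ H) : a = b :=
  (hT a).unique ⟨ha, by simp⟩ ⟨hb, h⟩

/-- sums of invariant functions over transversals of a subgroup -/
theorem Tr.sum_le {H H' : Subgroup Γ} (hle : H' ≤ H) {T T' : Finset Γ} (hT : Tr H T)
    (hT' : Tr H' T') : ∃ k : ℕ, ∀ f : Γ → ℕ, (∀ γ ∈ H, ∀ g, f (γ * g) = f g) →
      ∑ t ∈ T', f t = k * ∑ t ∈ T, f t := by
  classical
  choose τ hτ using fun g => (hT g).exists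
  choose τ' hτ' using fun g => (hT' g).exists
  have fib : ∀ a ∈ T, ∀ b ∈ T, (T'.filter (fun t => τ t = a)).card ≤
      (T'.filter (fun t => τ t = b)).card := by
    intro a _ b hb
    refine Finset.card_le_card_of_injOn (fun t => τ' (t * a⁻¹ * b)) (fun t ht => ?_)
      fun t ht t' ht' e => ?_
    · have ht' := Finset.mem_filter.1 ht
      refine Finset.mem_filter.2 ⟨(hτ' _).1, ?_⟩
      refine hT.eq (hτ _).1 hb ?_
      have h1 := (hτ (τ' (t * a⁻¹ * b))).2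
      have h2 := hle (hτ' (t * a⁻¹ * b)).2
      have h3 := (hτ t).2
      rw [ht'.2] at h3
      have := H.mul_mem (H.mul_mem (H.inv_mem h1) (H.inv_mem h2)) h3
      simpa [mul_assoc] using this
    · have h1 := (hτ' (t * a⁻¹ * b)).2
      have h2 := (hτ' (t' * a⁻¹ * b)).2
      have e' : τ' (t * a⁻¹ * b) = τ' (t' * a⁻¹ * b) := e
      rw [e'] at h1
      have := H'.mul_mem h1 (H'.inv_mem h2)
      exact hT'.eq (Finset.mem_filter.1 ht).1 (Finset.mem_filter.1 ht').1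
        (by simpa [mul_assoc] using this)
  refine ⟨(T'.filter (fun t => τ t = τ 1)).card, fun f hf => ?_⟩
  rw [← Finset.sum_fiberwise_of_maps_to (s := T') (t := T) (g := τ) (fun t _ => (hτ t).1),
    Finset.mul_sum]
  refine Finset.sum_congr rfl fun a ha => ?_
  have : ∀ t ∈ T'.filter (fun t => τ t = a), f t = f a := by
    intro t ht
    have h3 := (hτ t).2
    rw [(Finset.mem_filter.1 ht).2] at h3
    simpa using hf _ h3 a
  rw [Finset.sum_congr rfl this, Finset.sum_const, smul_eq_mul,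
    le_antisymm (fib a ha _ (hτ 1).1) (fib _ (hτ 1).1 a ha)]

theorem Dense.of_le {H H' : Subgroup Γ} [H.FiniteIndex] (hle : H' ≤ H) {f : Γ → ℕ} {a b : ℕ}
    (hf : ∀ γ ∈ H, ∀ g, f (γ * g) = f g) (h : Dense H f a b) : Dense H' f a b := by
  intro T' hT'
  obtain ⟨T, hT⟩ := exists_Tr H
  obtain ⟨k, hk⟩ := Tr.sum_le hle hT hT'
  have h1 := hk (fun _ => 1) (fun _ _ _ => rfl)
  simp only [Finset.sum_const, smul_eq_mul, mul_one] at h1
  rw [hk f hf, h1, mul_left_comm, mul_left_comm b]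
  exact Nat.mul_le_mul_left k (h T hT)

theorem Task.of_le {H H' K : Subgroup Γ} [H.FiniteIndex] (hle : H' ≤ H)
    {u : Γ → Fin R0 → Option Γ} (h : Task H K u) : Task H' K u :=
  ⟨fun γ hγ => h.inv γ (hle hγ), h.inj,
    h.dense.of_le hle (fun γ hγ g => by simp only [h.inv γ hγ g]), h.sparse⟩

theorem Sys.of_le {H H' : Subgroup Γ} [H.FiniteIndex] (hle : H' ≤ H)
    {u : Γ → Fin R0 → Option Γ} {b : ℕ} {Sg : Set (Γ × List Let × Γ)} (h : Sys u H b Sg) :
    Sys u H' b Sg := by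
  refine ⟨h.b_pos, h.walk, fun γ hγ => h.inv γ (hle hγ), h.rev, h.imm,
    h.dense.of_le hle fun γ hγ g => ?_⟩
  have : {p : List Let × Γ | (γ * g, p.1, p.2) ∈ Sg} =
      (fun p : List Let × Γ => (p.1, γ * p.2)) '' {p : List Let × Γ | (g, p.1, p.2) ∈ Sg} := by
    ext p
    constructor
    · intro hp
      refine ⟨(p.1, γ⁻¹ * p.2), ?_, by simp⟩
      simpa using h.inv _ (H.inv_mem hγ) _ _ _ hp
    · rintro ⟨p, hp, rfl⟩
      exact h.inv γ hγ _ _ _ hp
  show Set.ncard _ = Set.ncard _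
  rw [this, Set.ncard_image_of_injective]
  intro p q e
  simp only [Prod.mk.injEq, mul_right_inj] at e
  exact Prod.ext e.1 e.2

theorem St.mono {u u' : Γ → Fin R0 → Option Γ} (h : ∀ g i w, u' g i = some w → u g i = some w)
    {g g' : Γ} {a : Let} (hs : St u' g a g') : St u g a g' := by
  rcases hs with ⟨h1, w, h2, h3⟩ | ⟨h1, w, h2, h3⟩
  · exact Or.inl ⟨h1, w, h _ _ _ h2, h3⟩
  · exact Or.inr ⟨h1, w, h _ _ _ h2, h3⟩

theorem Wk.mono {u u' : Γ → Fin R0 → Option Γ} (h : ∀ g i w, u' g i = some w → u g i = some w)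
    {g g' : Γ} {l : List Let} (hs : Wk u' g l g') : Wk u g l g' := by
  induction hs with
  | nil g => exact Wk.nil g
  | cons h1 _ ih => exact Wk.cons (h1.mono h) ih

theorem Sys.mono {u u' : Γ → Fin R0 → Option Γ} (h : ∀ g i w, u' g i = some w → u g i = some w)
    {H : Subgroup Γ} {b : ℕ} {Sg : Set (Γ × List Let × Γ)} (hs : Sys u' H b Sg) :
    Sys u H b Sg :=
  ⟨hs.b_pos, fun g l g' x => ⟨(hs.walk g l g' x).1.mono h, (hs.walk g l g' x).2⟩, hs.inv, hs.rev,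
    hs.imm, hs.dense⟩

theorem Cov.mono {K K' : Subgroup Γ} (h : K ≤ K') {U : Set Γ} {C : ℕ} (hc : Cov K U C) :
    Cov K' U C := by
  obtain ⟨F, h1, h2⟩ := hc
  refine ⟨F, h1, fun g hg => ?_⟩
  obtain ⟨f, hf, h3⟩ := h2 g hg
  exact ⟨f, hf, h h3⟩

theorem Cov.subset {K : Subgroup Γ} {U U' : Set Γ} (h : U' ⊆ U) {C : ℕ} (hc : Cov K U C) :
    Cov K U' C := by
  obtain ⟨F, h1, h2⟩ := hc
  exact ⟨F, h1, fun g hg => h2 g (h hg)⟩

theorem FamOK.mono {H H' K K' : Subgroup Γ} (hH : H' ≤ H) (hK : K ≤ K') {f : Fam Γ}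
    (h : FamOK H K f) : FamOK H' K' f :=
  ⟨h.m_pos, fun γ hγ => h.inv γ (hH hγ),
    fun U hU => (h.fin U hU).imp fun _ hc => hc.mono hK, h.mult⟩

theorem PMetric.mono {H H' K K' : Subgroup Γ} (hH : H' ≤ H) (hK : K ≤ K') {de : Γ → Γ → ℕ}
    {C1 : ℕ} (h : PMetric H K de C1) : PMetric H' K' de C1 :=
  ⟨h.self, h.symm, h.tri, fun γ hγ => h.inv γ (hH hγ), fun g n => (h.ball g n).mono hK⟩

theorem exists_NB_of_reachable {V : Type} {𝒢 : SimpleGraph V} {a b : V} (h : 𝒢.Reachable a b) :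
    ∃ x k, NB 𝒢 x k ∧ x 0 = a ∧ x k = b := by
  classical
  rw [SimpleGraph.reachable_iff_reflTransGen] at h
  induction h with
  | refl => exact ⟨fun _ => a, 0, ⟨fun i hi => by omega, fun i hi => by omega⟩, rfl, rfl⟩
  | @tail b c _ hbc ih =>
    obtain ⟨x, k, hx, h0, hk⟩ := ih
    by_cases e : 1 ≤ k ∧ x (k - 1) = c
    · exact ⟨x, k - 1, ⟨fun i hi => hx.1 i (by omega), fun i hi => hx.2 i (by omega)⟩, h0, e.2⟩
    · refine ⟨Function.update x (k + 1) c, k + 1, ⟨fun i hi => ?_, fun i hi => ?_⟩, ?_, ?_⟩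
      · by_cases e1 : i = k
        · rw [e1, Function.update_self, Function.update_of_ne (by omega), hk]
          exact hbc
        · rw [Function.update_of_ne (by omega), Function.update_of_ne (by omega)]
          exact hx.1 i (by omega)
      · by_cases e1 : i + 2 = k + 1
        · rw [e1, Function.update_self, Function.update_of_ne (by omega)]
          intro e2
          exact e ⟨by omega, by rw [e2]; congr 1; omega⟩
        · rw [Function.update_of_ne e1, Function.update_of_ne (by omega)]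
          exact hx.2 i (by omega)
      · rw [Function.update_of_ne (by omega), h0]
      · rw [Function.update_self]

theorem NB.reachable {V : Type} {𝒢 : SimpleGraph V} {x : ℕ → V} {k : ℕ} (h : NB 𝒢 x k) {i : ℕ}
    (hi : i ≤ k) : 𝒢.Reachable (x 0) (x i) := by
  induction i with
  | zero => rfl
  | succ i ih => exact (ih (by omega)).trans (h.1 i (by omega)).reachable

theorem ball_ncard {S : Type} [Finite S] {G : SimpleGraph S} (p : W G) (n : ℕ) :
    {q | d p q ≤ n}.ncard ≤ (Nat.card S + 1) ^ n := by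
  induction n with
  | zero =>
    have : {q | d p q ≤ 0} ⊆ {p} := fun q hq => (eq_of_d_eq_zero (Nat.le_zero.1 hq)).symm
    simpa using Set.ncard_le_ncard this
  | succ n ih =>
    have hsub : {q | d p q ≤ n + 1} ⊆
        (fun x : W G × Option S => x.1 * x.2.elim 1 (gen G)) '' ({q | d p q ≤ n} ×ˢ Set.univ) := by
      intro q hq
      by_cases e : q = p
      · exact ⟨(p, none), ⟨by simp, trivial⟩, by simp [e]⟩
      · obtain ⟨s, hs⟩ := exists_step e
        have := d_step hs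
        refine ⟨(q * gen G s, some s), ⟨?_, trivial⟩, by simp⟩
        have hq' : d p q ≤ n + 1 := hq
        show d p (q * gen G s) ≤ n
        rw [d_comm] at hq' ⊢
        omega
    have hfin : ({q | d p q ≤ n} ×ˢ (Set.univ : Set (Option S))).Finite :=
      (ball_finite p n).prod Set.finite_univ
    refine (Set.ncard_le_ncard hsub (hfin.image _)).trans ((Set.ncard_image_le hfin).trans ?_)
    rw [Set.ncard_prod, Set.ncard_univ, pow_succ]
    have : Nat.card (Option S) = Nat.card S + 1 := Finite.card_option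
    rw [this]
    exact Nat.mul_le_mul_right _ ih

theorem fill (hD : LevelsStmt) (hE : SharpStmt) (hF : CellsStmt) : FillStmt := by
  intro S _ G n0 l B
  obtain ⟨D, hF⟩ := hF S G n0 l B
  refine ⟨D, fun m0 => ?_⟩
  obtain ⟨mmax, hF⟩ := hF m0
  refine ⟨mmax, fun c Y Δ 𝒢 Des hne hA hFo hP => ?_⟩
  obtain ⟨cell, n, B1, D0, hC, hO, hV⟩ := hF c Y Δ 𝒢 Des hA hFo hP
  obtain ⟨MA, hMA, hD⟩ := hD S G Y Δ _ n hC
  obtain ⟨ωV, RV, hV⟩ := hV MA
  refine ⟨cell, n, B1, max n ωV, hC, hO, fun ω hω => ?_⟩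
  obtain ⟨MB, hD⟩ := hD ω
  obtain ⟨N1, R1, hE⟩ := hE S G Y Δ _ n ω ωV MA MB RV hC hMA ((le_max_left _ _).trans hω)
    ((le_max_right _ _).trans hω)
  refine ⟨N1, fun R => ?_⟩
  obtain ⟨S3, hS3, G3, lab, Δ3, K, hcol⟩ := hD D0 (R + R1 + RV)
  let L : Lab G (Gp G3 (cell '' Y) K) := ⟨lab, fun h k hc => by
    rw [st_Gp]; exact Or.inl (mem_st_of_adj (hcol.cross_adj h k hc))⟩
  have hvec := hV S3 lab Δ3 hcol.le hcol.inv
    (fun δ hδ y hy => hcol.disp δ hδ y (by omega)) hcol.x1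
  obtain ⟨hfill, n', B', g1, g2⟩ := hE D0 (R + R1 + RV) (by omega) S3 G3 Δ3 K L hcol hvec
  obtain ⟨n1, n2, B2, -, hcore⟩ := core_spec (Gp G3 (cell '' Y) K) n' B'
  obtain ⟨c1, c2, c3⟩ := hcore _ (hne.image _) g1 g2
  refine ⟨S3, hS3, _, L, Δ3, core n1 (L.phi '' Y), n2, B2, hcol.le, hcol.fi, hcol.inv,
    fun δ hδ y hy => hcol.disp δ hδ y (by omega), hfill, core_convex _ _, subset_core _ _,
    fun y' hy' => ?_, fun δ hδ y' hy' => ?_, c2, c3⟩
  · obtain ⟨_, ⟨y, hy, rfl⟩, h⟩ := c1 y' hy'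
    exact ⟨y, hy, h⟩
  · have e : L.phi δ • (L.phi '' Y) = L.phi '' Y := by
      ext z
      constructor
      · rintro ⟨_, ⟨y, hy, rfl⟩, rfl⟩
        exact ⟨δ * y, hA.inv δ (hcol.le hδ) y hy, L.phi_mul_of_inv (hcol.inv δ hδ) y⟩
      · rintro ⟨y, hy, rfl⟩
        refine ⟨_, ⟨δ⁻¹ * y, hA.inv _ (hcol.le (Δ3.inv_mem hδ)) y hy, rfl⟩, ?_⟩
        show L.phi δ * L.phi (δ⁻¹ * y) = L.phi y
        rw [← L.phi_mul_of_inv (hcol.inv δ hδ), mul_inv_cancel_left]
    rw [← e, core_smul]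
    exact ⟨y', hy', rfl⟩

end Pool.Agent.MP_c34dea_an.H66
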