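import Pool.Agent.MP_c34dea_an.H66.E3

set_option autoImplicit false

open scoped symmDiff Pointwise

namespace Pool.Agent.MP_c34dea_an.H66.E

variable {S : Type} {G : SimpleGraph S}

theorem chain_inj {p : W G} {e : ℕ → Hyp G} {H : ℕ} (hl : ∀ i j, i < j → j ≤ H → Lt p (e i) (e j))
    {i j : ℕ} (hi : i ≤ H) (hj : j ≤ H) (eq : e i = e j) : i = j := by
  by_contra hne
  rcases lt_or_gt_of_ne hne with l | l
  · exact (hl i j l hj).ne eq
  · exact (hl j i l hi).ne eq.symm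

theorem chain_lo {p q : W G} {k k' : Hyp G} {e : ℕ → Hyp G} {H : ℕ}
    (he : ∀ i ≤ H, e i ∈ btw p q k k') (hl : ∀ i j, i < j → j ≤ H → Lt p (e i) (e j)) {m : ℕ}
    (hm : m ≤ H) : m ≤ (btw p q k (e m)).card := by
  conv_lhs => rw [← Finset.card_range m]
  refine Finset.card_le_card_of_injOn e (fun i hi => ?_) (fun i hi j hj => ?_)
  · have hi' : i < m := by simpa using hi
    have := mem_btw.1 (he i (by omega))
    exact mem_btw.2 ⟨this.1, this.2.1, hl _ _ hi' hm⟩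
  · have hi' : i < m := by simpa using hi
    have hj' : j < m := by simpa using hj
    exact chain_inj hl (by omega) (by omega)

theorem chain_hi {p q : W G} {k k' : Hyp G} {e : ℕ → Hyp G} {H : ℕ}
    (he : ∀ i ≤ H, e i ∈ btw p q k k') (hl : ∀ i j, i < j → j ≤ H → Lt p (e i) (e j)) (m : ℕ) :
    H - m ≤ (btw p q (e m) k').card := by
  conv_lhs => rw [← Finset.card_range (H - m)]
  refine Finset.card_le_card_of_injOn (fun i => e (m + 1 + i)) (fun i hi => ?_)
    (fun i hi j hj eq => ?_)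
  · have hi' : i < H - m := by simpa using hi
    have := mem_btw.1 (he (m + 1 + i) (by omega))
    exact mem_btw.2 ⟨this.1, hl _ _ (by omega) (by omega), this.2.2⟩
  · have hi' : i < H - m := by simpa using hi
    have hj' : j < H - m := by simpa using hj
    have := chain_inj hl (by omega) (by omega) eq
    omega

theorem mem_sep_of_sides {a x y : W G} {H : Hyp G} (h1 : H ∉ sep a x) (h2 : H ∈ sep a y) :
    H ∈ sep x y := by
  rw [mem_sep_trans a x y] at h2
  tauto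

variable {Y : Set (W G)} {Δ : Subgroup (W G)}
  {𝒯 : Set (Set (W G))} {n ω ωV MA MB RV D0 R : ℕ} {S3 : Type} {G3 : SimpleGraph S3}
  {Δ3 : Subgroup (W G)} {K : Set (W G) → Set S3} {L : Lab G (Gp G3 𝒯 K)}

namespace Ctx

variable (c : Ctx Y Δ 𝒯 n ω ωV MA MB RV D0 R G3 Δ3 K L) [Finite S]
include c

section

variable {N : ℕ} {z : ℕ → W G} {J : ℕ → Prop} {τ : ℕ → Set (W G)}
  (g : GP Y 𝒯 c.ker ω N z J τ)
include g

theorem g1_chain {H : ℕ → Hyp (Gp G3 𝒯 K)} {Z : Set S3}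
    (hH : ∀ i ≤ MB + 5, H i ∈ sep (L.phi (z 0)) (L.phi (z N)))
    (hl : ∀ i j, i < j → j ≤ MB + 5 → Lt (L.phi (z 0)) (H i) (H j))
    (hZ : ∀ M, Lt (L.phi (z 0)) (H 0) M → Lt (L.phi (z 0)) M (H (MB + 5)) →
      Z ⊆ st (Gp G3 𝒯 K) M.1) : Clq (Gp G3 𝒯 K) Z := by
  classical
  have hex : ∃ j, H (MB + 3) ∈ sep (L.phi (z 0)) (L.phi (z j)) := ⟨N, hH _ (by omega)⟩
  obtain ⟨c1, hc1, top, hmin⟩ : ∃ c1, c1 ≤ N ∧ H (MB + 3) ∈ sep (L.phi (z 0)) (L.phi (z c1)) ∧
      ∀ j, j < c1 → H (MB + 3) ∉ sep (L.phi (z 0)) (L.phi (z j)) :=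
    ⟨Nat.find hex, Nat.find_min' hex (hH _ (by omega)), Nat.find_spec hex,
      fun j hj => Nat.find_min hex hj⟩
  have hpos : 0 < c1 := by
    rcases Nat.eq_zero_or_pos c1 with e | e
    · rw [e] at top; simp at top
    · exact e
  have up : ∀ j, j ≤ c1 → H (MB + 4) ∉ sep (L.phi (z 0)) (L.phi (z j)) := by
    have l := hl (MB + 3) (MB + 4) (by omega) (by omega)
    intro j hj h
    rcases eq_or_lt_of_le hj with e | hj
    · obtain ⟨m, rfl⟩ : ∃ m, c1 = m + 1 := ⟨c1 - 1, by omega⟩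
      subst e
      exact c.blk_one g (b := m) (by omega) (mem_sep_of_sides (hmin m (by omega)) top)
        (mem_sep_of_sides (fun x => hmin m (by omega) (l.mem x)) h) l
    · exact hmin j hj (l.mem h)
  obtain ⟨c0, -, h01, bot, hmax⟩ := last_jump
    (J := fun j => H 2 ∉ sep (L.phi (z 0)) (L.phi (z j))) (b := 0) (b' := c1)
    ⟨0, le_rfl, hpos, by simp⟩
  have two : ∀ j, c0 < j → j ≤ c1 → H 2 ∈ sep (L.phi (z 0)) (L.phi (z j)) := by
    intro j h1 h2
    rcases eq_or_lt_of_le h2 with e | h2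
    · rw [e]; exact (hl 2 (MB + 3) (by omega) (by omega)).mem top
    · exact not_not.1 (hmax j h1 h2)
  have lo : ∀ j, c0 ≤ j → j ≤ c1 → H 1 ∈ sep (L.phi (z 0)) (L.phi (z j)) := by
    have l := hl 1 2 (by omega) (by omega)
    intro j h1 h2
    rcases eq_or_lt_of_le h1 with e | h1
    · subst e
      by_contra h
      have a := two (c0 + 1) (by omega) h01
      exact c.blk_one g (b := c0) (by omega) (mem_sep_of_sides h (l.mem a))
        (mem_sep_of_sides bot a) l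
    · exact l.mem (two j h1 h2)
  by_cases ex : ∃ j, c0 ≤ j ∧ j < c1 ∧ J j
  · obtain ⟨j, j1, j2, hJ⟩ := ex
    have jN : j < N := by omega
    obtain ⟨M, i1, i2, a1, a2⟩ := c.six g jN hJ
    have hT := (g.jump j jN hJ).1
    obtain ⟨i3, a3⟩ := atmost_one (P := fun i => Mk L N z J τ j (M i) ∧ Cross (H 0) (M i)) (by
      rintro i i' h1 h2 ⟨m1, x1⟩ ⟨m2, x2⟩
      exact (hl 0 1 (by omega) (by omega)).not_mem_of_car
        (par2 (c.blk_car g jN m1.1).1 (c.blk_car g jN m2.1).1 x1 x2 (clq_K hT) (a2 i i' h1 h2))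
        (lo j j1 j2.le))
    obtain ⟨i4, a4⟩ := atmost_one
      (P := fun i => Mk L N z J τ j (M i) ∧ Cross (H (MB + 5)) (M i)) (by
      rintro i i' h1 h2 ⟨m1, x1⟩ ⟨m2, x2⟩
      exact up j j2.le ((hl (MB + 4) (MB + 5) (by omega) le_rfl).mem_of_car
        (par2 (c.blk_car g jN m1.1).1 (c.blk_car g jN m2.1).1 x1 x2 (clq_K hT) (a2 i i' h1 h2))))
    have key : ∀ i, i < 6 → i ≠ i1 ∧ i ≠ i2 ∧ i ≠ i3 ∧ i ≠ i4 →
        Z ⊆ st (Gp G3 𝒯 K) (M i).1 := by
      intro i hi ⟨n1, n2, n3, n4⟩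
      have m := a1 i hi n1 n2
      have b1 := c.mk_mem g (Nat.zero_le j) jN le_rfl m
      have b2 := c.mk_not_mem g (Nat.zero_le j) jN.le jN (Or.inr le_rfl) m
      have b3 := c.mk_mem g (Nat.zero_le j) (Nat.lt_succ_self j) jN m
      have b4 := (hl 0 1 (by omega) (by omega)).mem (lo j j1 j2.le)
      have b5 : H (MB + 5) ∉ sep (L.phi (z 0)) (L.phi (z (j + 1))) :=
        fun x => up (j + 1) j2 ((hl (MB + 4) (MB + 5) (by omega) le_rfl).mem x)
      refine hZ _ ?_ ?_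
      · rcases trichotomy (hH 0 (by omega)) b1 (fun e => b2 (e ▸ b4)) with x | x | x
        · exact x
        · exact absurd (x.mem b4) b2
        · exact absurd ⟨m, x⟩ (a3 i hi n3)
      · rcases trichotomy (hH (MB + 5) le_rfl) b1 (fun e => b5 (e ▸ b3)) with x | x | x
        · exact absurd (x.mem b3) b5
        · exact x
        · exact absurd ⟨m, x⟩ (a4 i hi n4)
    obtain ⟨i, i', b1, b2, b3, b4⟩ := two_of_six i1 i2 i3 i4
    exact (clq_K hT).mono fun t ht => a2 i i' b1 b2 ⟨key i (by omega) b3 ht, key i' b2 b4 ht⟩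
  · have hf : ∀ j, c0 ≤ j → j < c1 → ¬ J j := fun j a b x => ex ⟨j, a, b, x⟩
    have hP := g.mem c0 (by omega)
    have hQ := g.mem c1 hc1
    have hN := (g.geo c0 c1 h01.le hc1 hf).2
    have hd := c.t2 hP hQ hN
    have nb : ∀ i, i ≤ MB + 1 → H (i + 2) ∉ sep (L.phi (z 0)) (L.phi (z c0)) := by
      intro i hi x
      rcases Nat.eq_zero_or_pos i with e | e
      · subst e; exact bot x
      · exact bot ((hl 2 (i + 2) (by omega) (by omega)).mem x)
    have hpre : ∀ i, ∃ h, i ≤ MB + 1 → h ∈ sep (z c0) (z c1) ∧ L.hmap h = H (i + 2) := by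
      intro i
      by_cases hi : i ≤ MB + 1
      · have a : H (i + 2) ∈ sep (L.phi (z 0)) (L.phi (z c1)) := by
          rcases eq_or_lt_of_le hi with e | hi
          · subst e; exact top
          · exact (hl (i + 2) (MB + 3) (by omega) (by omega)).mem top
        obtain ⟨k, hk, e⟩ :=
          Finset.mem_image.1 (L.sep_phi_subset _ _ (mem_sep_of_sides (nb i hi) a))
        exact ⟨k, fun _ => ⟨hk, e⟩⟩
      · obtain ⟨h, -⟩ := Finset.card_pos.1 (show 0 < (sep (z c0) (z c1)).card by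
          have := (g.geo c0 c1 h01.le hc1 hf).1
          unfold d at this
          omega)
        exact ⟨h, fun x => absurd x hi⟩
    choose e he using hpre
    have el : ∀ i j, i < j → j ≤ MB + 1 → Lt (z c0) (e i) (e j) := by
      intro i j h1 h2
      refine c.lt_of_lt_p hd (he i (by omega)).1 (he j h2).1 ?_
      rw [(he i (by omega)).2, (he j h2).2]
      exact (hl _ _ (by omega) (by omega)).base (nb i (by omega)) (nb j h2)
    have e0 := he 0 (by omega)
    have e1 := he (MB + 1) le_rfl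
    have l01 := el 0 (MB + 1) (by omega) le_rfl
    by_cases hR : (btw (z c0) (z c1) (e 0) (e (MB + 1))).card ≤ R
    · have h3 := card_btw_ge_of_chain (fun i hi => (he i hi).1) el (i := 0) (j := MB + 1)
        (by omega) le_rfl
      refine clq_Gp ((c.kz hP hQ hN e1.1 l01 (by omega) hR).mono fun t ht => ⟨?_, ?_⟩)
      · have := hZ (H (0 + 2)) (hl _ _ (by omega) (by omega)) (hl _ _ (by omega) le_rfl) ht
        rwa [← e0.2] at this
      · have := hZ (H (MB + 1 + 2)) (hl _ _ (by omega) (by omega)) (hl _ _ (by omega) le_rfl) ht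
        rwa [← e1.2] at this
    · have hR' := c.hR
      obtain ⟨f, hf', fl⟩ := exists_chain (btw_subset_sep (z c0) (z c1) (e 0) (e (MB + 1)))
        (2 * nOne S MB + MB + 1) (by omega)
      have key : ∀ i, nOne S MB ≤ i → i ≤ nOne S MB + MB + 1 →
          Z ⊆ st (Gp G3 𝒯 K) (L.lab (f i)) := by
        intro i h1 h2
        have a := mem_btw.1 (hf' i (by omega)).1
        have a1 := chain_lo (fun i hi => (hf' i hi).1) fl (m := i) (by omega)
        have a2 := chain_hi (fun i hi => (hf' i hi).1) fl i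
        have b1 := (L.lt_or_crossE hd a.1 a.2.1).resolve_right
          (c.t3 hP hQ hN a.1 a.2.1 (by omega))
        have b2 := (L.lt_or_crossE hd e1.1 a.2.2).resolve_right
          (c.t3 hP hQ hN e1.1 a.2.2 (by omega))
        obtain ⟨j, j1, j2, j3⟩ := exists_block h01.le a.1
        have b3 : L.hmap (f i) ∉ sep (L.phi (z c0)) (L.phi (z 0)) := fun x =>
          c.mk_not_mem g (Nat.zero_le c0) (by omega) (m := j) (by omega) (Or.inr j1)
            (c.free_mk g (by omega) (hf j j1 j2) j3) (mem_sep_comm.1 x)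
        rw [e0.2] at b1
        rw [e1.2] at b2
        exact hZ (L.hmap (f i))
          ((hl 0 (0 + 2) (by omega) (by omega)).trans
            (b1.base (fun x => nb 0 (by omega) (mem_sep_comm.1 x)) b3))
          ((b2.base b3 (fun x => nb (MB + 1) le_rfl (mem_sep_comm.1 x))).trans
            (hl _ _ (by omega) le_rfl))
      have h3 := card_btw_ge_of_chain (fun i hi => (mem_btw.1 (hf' i hi).1).1) fl
        (i := nOne S MB) (j := nOne S MB + MB + 1) (by omega) (by omega)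
      have a0 := mem_btw.1 (hf' (nOne S MB) (by omega)).1
      have a1 := mem_btw.1 (hf' (nOne S MB + MB + 1) (by omega)).1
      refine clq_Gp ((c.kz hP hQ hN a1.1 (fl (nOne S MB) _ (by omega) (by omega)) (by omega)
        ?_).mono fun t ht => ⟨key _ le_rfl (by omega) ht, key _ (by omega) le_rfl ht⟩)
      refine le_trans (Finset.card_le_card fun j hj => ?_)
        ((hf' (nOne S MB + MB + 1) (by omega)).2.trans ?_)
      · have := mem_btw.1 hj
        exact Finset.mem_filter.2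
          ⟨mem_btw.2 ⟨this.1, a0.2.1.trans this.2.1, this.2.2.trans a1.2.2⟩, this.2.2⟩
      · have : Nat.card S * (nOne S MB + MB + 1) ≤ Nat.card S * (2 * nOne S MB + MB + 1) :=
          Nat.mul_le_mul_left _ (by omega)
        omega

theorem g1_half [Finite S3] {u v : W (Gp G3 𝒯 K)} (hu : u ∈ I (L.phi (z 0)) (L.phi (z N)))
    (h : Nat.card S3 * (MB + 5) < (sep (L.phi (z 0)) u \ sep (L.phi (z 0)) v).card) :
    Clq (Gp G3 𝒯 K) (Zs u v) := by
  obtain ⟨H, h1, h2⟩ := exists_chain (q := L.phi (z N)) (Finset.sdiff_subset.trans hu) (MB + 5) h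
  refine c.g1_chain g (fun i hi => hu (Finset.mem_sdiff.1 (h1 i hi).1).1) h2
    fun M l1 l2 t ht => ht M (mem_sep_comm.1 (mem_sep_of_sides (a := L.phi (z 0)) ?_ ?_))
  · exact fun x => (Finset.mem_sdiff.1 (h1 0 (by omega)).1).2 (l1.mem x)
  · exact l2.mem (Finset.mem_sdiff.1 (h1 _ le_rfl).1).1

end

omit [Finite S] in
theorem path' {p q : W G} (hp : p ∈ Y) (hq : q ∈ Y) :
    ∃ (N : ℕ) (z : ℕ → W G) (J : ℕ → Prop) (τ : ℕ → Set (W G)),
      GP Y 𝒯 c.ker ω N z J τ ∧ z 0 = p ∧ L.phi (z N) = L.phi q ∧ ∃ μ ∈ c.ker, z N = μ * q := by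
  obtain ⟨N, z, J, τ, g, h0, μ, hμ, hN⟩ := c.exists_path hp hq
  refine ⟨N, z, J, τ, g, h0, ?_, μ, hμ, hN⟩
  rw [hN, L.phi_mul_of_inv (c.col.inv μ hμ.1), hμ.2, one_mul]

theorem g1 [Finite S3] : G1 (L.phi '' Y) (2 * (Nat.card S3 * (MB + 5)) + 1) := by
  rintro _ ⟨p, hp, rfl⟩ _ ⟨q, hq, rfl⟩ u hu v hv hd
  obtain ⟨N, z, J, τ, g, h0, hN, -⟩ := c.path' hp hq
  rw [← h0, ← hN] at hu hv
  have h1 : sep u v ⊆ (sep (L.phi (z 0)) u \ sep (L.phi (z 0)) v) ∪
      (sep (L.phi (z 0)) v \ sep (L.phi (z 0)) u) := by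
    intro k hk
    rw [mem_sep_trans u (L.phi (z 0)) v, sep_comm u] at hk
    simpa only [Finset.mem_union, Finset.mem_sdiff] using hk
  have h2 := (Finset.card_le_card h1).trans (Finset.card_union_le _ _)
  unfold d at hd
  by_cases e : Nat.card S3 * (MB + 5) < (sep (L.phi (z 0)) u \ sep (L.phi (z 0)) v).card
  · exact c.g1_half g hu e
  · rw [Zs_comm]
    exact c.g1_half g hv (by omega)

theorem g2 [Finite S3] : G2 (L.phi '' Y) (Nat.card S3) := by
  rintro _ ⟨p, hp, rfl⟩ _ ⟨q, hq, rfl⟩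
  obtain ⟨N, z, J, τ, g, h0, hN, -⟩ := c.path' hp hq
  refine ⟨N, fun i => L.phi (z i), by simp only [h0], hN,
    fun i hi => ⟨⟨_, g.mem i hi, rfl⟩, ?_⟩, fun i hi => ?_⟩
  · rw [← h0, ← hN]
    exact c.gp_le g hi
  · obtain ⟨A, h1, h2⟩ := c.blk_clq g hi
    exact d_le_card_of_clq h1 h2

theorem inj {p q : W G} (hp : p ∈ Y) (hq : q ∈ Y) (h : L.phi p = L.phi q) :
    ∃ μ ∈ Δ3, L.phi μ = 1 ∧ q = μ * p := by
  obtain ⟨N, z, J, τ, g, h0, hN, μ, hμ, e⟩ := c.path' hq hp
  rcases Nat.eq_zero_or_pos N with x | x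
  · subst x
    exact ⟨μ, hμ.1, hμ.2, by rw [← h0, e]⟩
  · obtain ⟨M, hM⟩ := c.exists_mk g x
    have := c.mk_mem g le_rfl x le_rfl hM
    rw [h0, hN, h] at this
    simp at this

end Ctx

theorem _root_.Pool.Agent.MP_c34dea_an.H66.sharp : SharpStmt := by
  intro S _ G Y Δ 𝒯 n ω ωV MA MB RV cs hMA hω hωV
  refine ⟨nOne S MB, RV + n + Nat.card S * (2 * nOne S MB + MB + 1), ?_⟩
  intro D0 R hR S3 _ G3 Δ3 K L col vec
  have c : Ctx Y Δ 𝒯 n ω ωV MA MB RV D0 R G3 Δ3 K L := ⟨cs, col, vec, hMA, hω, hωV, hR⟩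
  exact ⟨⟨fun p hp q hq hN => c.t2 hp hq hN,
    fun p hp q hq hN k k' hk' hlt h => c.t3 hp hq hN hk' hlt h,
    fun p hp q hq h => c.inj hp hq h,
    fun T hT x hx y hy => d_le_card_of_clq (clq_K hT) fun k hk => c.lab_K hT hx hy hk⟩,
    _, _, c.g1, c.g2⟩

end Pool.Agent.MP_c34dea_an.H66.E
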