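import Pool.Agent.MP_c34dea_an.H66.FPar

set_option autoImplicit false

open scoped symmDiff Pointwise

namespace Pool.Agent.MP_c34dea_an.H66

namespace FW

variable {S : Type} {G : SimpleGraph S}

/-- the component of a vertex -/
def comp (𝒢 : SimpleGraph (W G)) (a : W G) : Set (W G) := {b | 𝒢.Reachable a b}

variable {Y : Set (W G)} {Δ : Subgroup (W G)} {𝒢 : SimpleGraph (W G)}
  {Des : W G → W G → Hyp G → Prop} {l B c : ℕ}

theorem comp_eq {a b : W G} (h : 𝒢.Reachable a b) : comp 𝒢 a = comp 𝒢 b :=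
  Set.ext fun _ => ⟨fun e => h.symm.trans e, fun e => h.trans e⟩

theorem mem_of_reach (F : Forest Y Δ 𝒢 Des l B c) {a b : W G} (ha : a ∈ Y)
    (h : 𝒢.Reachable a b) : b ∈ Y := by
  rw [SimpleGraph.reachable_iff_reflTransGen] at h
  induction h with
  | refl => exact ha
  | tail _ hbc _ => exact F.mem _ _ hbc.symm

theorem reach_mul (F : Forest Y Δ 𝒢 Des l B c) {δ : W G} (hδ : δ ∈ Δ) {a b : W G}
    (h : 𝒢.Reachable a b) : 𝒢.Reachable (δ * a) (δ * b) := by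
  rw [SimpleGraph.reachable_iff_reflTransGen] at h
  induction h with
  | refl => rfl
  | tail _ hbc ih => exact ih.trans (F.inv δ hδ _ _ hbc).reachable

theorem comp_smul (F : Forest Y Δ 𝒢 Des l B c) {δ : W G} (hδ : δ ∈ Δ) (a : W G) :
    δ • comp 𝒢 a = comp 𝒢 (δ * a) := by
  ext b
  constructor
  · rintro ⟨b, hb, rfl⟩
    exact reach_mul F hδ hb
  · intro hb
    refine ⟨δ⁻¹ * b, ?_, by simp⟩
    have := reach_mul F (Δ.inv_mem hδ) hb
    rwa [inv_mul_cancel_left] at this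

theorem comp_g2 (g : Geo id 𝒢 Des l B c) (a : W G) : G2 (comp 𝒢 a) (max B l) := by
  intro p hp q hq
  obtain ⟨x, k, hx, x0, xk⟩ := exists_nb (SimpleGraph.Reachable.trans (G := 𝒢) hp.symm hq)
  refine ⟨k, x, x0, xk, fun i hi => ⟨?_, ?_⟩, fun i hi => ?_⟩
  · exact SimpleGraph.Reachable.trans (G := 𝒢) hp (x0 ▸ nb_reach hx hi)
  · have := g.grom x k hx i hi
    simp only [id, x0, xk] at this
    exact this.trans (le_max_left _ _)
  · exact (g.step _ _ (hx.1 i hi)).trans (le_max_right _ _)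

end FW

open FW in
theorem cells : CellsStmt := by
  intro S _ G n0 l B
  obtain ⟨n1, n2, B1, hn1, hcore⟩ := core_spec G n0 (max B l)
  refine ⟨2 * max n0 (Nat.card S) + 2 * max B l + B + 4 * B1, fun m0 => ?_⟩
  set D := 2 * max n0 (Nat.card S) + 2 * max B l + B + 4 * B1 with hD
  refine ⟨(m0 * l + 2 * D) + 2 * D + l * (m0 * l + 2 * D), fun c Y Δ 𝒢 Des hY F hP => ?_⟩
  set P := l * (m0 * l + 2 * D) + 2 * B1 + 1 with hPdef
  have sub : ∀ a ∈ Y, comp 𝒢 a ⊆ Y := fun a ha b hb => mem_of_reach F ha hb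
  have self : ∀ a, a ∈ comp 𝒢 a := fun a => SimpleGraph.Reachable.refl (G := 𝒢) a
  have i4 : ∀ p ∈ Y, ∀ q ∈ Y, ∀ u ∈ I p q, ∀ v ∈ I p q, n0 ≤ d u v → Clq G (Zs u v) :=
    fun p hp q hq u hu v hv h => hY.i4c u (hY.cvx p hp q hq hu) v (hY.cvx p hp q hq hv) h
  have spec : ∀ a ∈ Y, (∀ y ∈ core n1 (comp 𝒢 a), ∃ a' ∈ comp 𝒢 a, d y a' ≤ B1) ∧
      I4c (core n1 (comp 𝒢 a)) n2 ∧ SC (core n1 (comp 𝒢 a)) n2 := fun a ha =>
    hcore _ ⟨a, self a⟩ (fun p hp q hq => i4 p (sub a ha hp) q (sub a ha hq)) (comp_g2 F.geo a)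
  have pc : ∀ a ∈ Y, ∀ a' ∈ Y, ∀ p q, p ∈ core n1 (comp 𝒢 a) → q ∈ core n1 (comp 𝒢 a) →
      p ∈ core n1 (comp 𝒢 a') → q ∈ core n1 (comp 𝒢 a') → P ≤ d p q → 𝒢.Reachable a a' := by
    intro a ha a' ha' p q h1 h2 h3 h4 hd
    obtain ⟨x, hx, dx⟩ := (spec a ha).1 p h1
    obtain ⟨y, hy, dy⟩ := (spec a ha).1 q h2
    obtain ⟨x', hx', dx'⟩ := (spec a' ha').1 p h3
    obtain ⟨y', hy', dy'⟩ := (spec a' ha').1 q h4
    have hx : 𝒢.Reachable a x := hx
    have hy : 𝒢.Reachable a y := hy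
    have rx' : 𝒢.Reachable a' x' := hx'
    have ry' : 𝒢.Reachable a' y' := hy'
    have t1 := d_triangle x p x'
    have t2 := d_triangle y q y'
    have t3 := d_triangle p x q
    have t4 := d_triangle x y q
    rw [d_comm x p] at t1
    rw [d_comm y q] at t2 t4
    have := reach_of_close F.geo (n0 := n0) (B1 := B1) (le_of_eq hD.symm) le_rfl hP
      (hx.symm.trans hy) (rx'.symm.trans ry') (i4 x' (sub a' ha' hx') y' (sub a' ha' hy'))
      (by omega) (by omega) (by omega)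
    exact hx.trans (this.trans rx'.symm)
  have smul : ∀ δ ∈ Δ, ∀ a, δ • core n1 (comp 𝒢 a) = core n1 (comp 𝒢 (δ * a)) :=
    fun δ hδ a => by rw [← core_smul, comp_smul F hδ]
  refine ⟨fun a => core n1 (comp 𝒢 a), n0 + n2 + P, B1,
    2 * B1 + l * (2 * B1 + 2 * (l * (c + 1)) + 1), ?_, ?_, fun MA => ?_⟩
  · refine ⟨by omega, ⟨hY.cvx, hY.inv, fun p hp q hq h => hY.i4c p hp q hq (by omega),
      fun p hp q hq h => hY.sc p hp q hq (by omega), hY.coc⟩, ?_, ?_, ?_, ?_, ?_, ?_, fun y => ?_⟩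
    · rintro _ ⟨a, -, rfl⟩
      exact core_convex _ _
    · rintro _ ⟨a, -, rfl⟩
      exact ⟨a, subset_core _ _ (self a)⟩
    · rintro _ ⟨a, ha, rfl⟩
      exact core_subset ⟨a, self a⟩ hY.cvx (sub a ha) hY.sc hn1
    · rintro δ hδ _ ⟨a, ha, rfl⟩
      exact ⟨δ * a, hY.inv δ hδ a ha, (smul δ hδ a).symm⟩
    · rintro _ ⟨a, ha, rfl⟩ p hp q hq h
      exact (spec a ha).2.2 p hp q hq (by omega)
    · rintro _ ⟨a, ha, rfl⟩ _ ⟨a', ha', rfl⟩ p q h1 h2 h3 h4 hd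
      show core n1 (comp 𝒢 a) = core n1 (comp 𝒢 a')
      rw [comp_eq (pc a ha a' ha' p q h1 h2 h3 h4 (by omega))]
    · refine ((ball_finite y B1).image (fun a => core n1 (comp 𝒢 a))).subset ?_
      rintro _ ⟨⟨a, ha, rfl⟩, hy⟩
      obtain ⟨a', h1, h2⟩ := (spec a ha).1 y hy
      exact ⟨a', h2, by show core n1 (comp 𝒢 a') = core n1 (comp 𝒢 a); rw [comp_eq h1]⟩
  · exact ⟨fun a => subset_core _ _ (self a), fun a a' h => by rw [comp_eq h],
      fun a ha y hy => (spec a ha).1 y hy⟩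
  · set m1 := (2 * B1 + 6) * ((c + 1) * (MA + 1)) with hm1
    set m2 := (2 * B1 + l * m1 + 6) * ((c + 1) * (MA + 1)) with hm2
    refine ⟨P + 2 * B1 + l * m1 + 1, l * (m1 + 1) + l * (m2 + 1), ?_⟩
    rintro S3 lab Δ3 hle hinv hfree hx1 _ ⟨a0, ha0, rfl⟩ α hα β hβ
    by_cases far : d α β < P
    · refine Or.inl ⟨1, Δ3.one_mem, one_smul _ _, fun e => ?_, by rw [one_mul]; omega⟩
      rw [one_mul, cnt_eq_zero (by simp)]
      exact Even.zero
    have : Nonempty (Hyp G) := by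
      have : 0 < (sep α β).card := by unfold d at far; omega
      exact ⟨(Finset.card_pos.1 this).choose⟩
    set T := core n1 (comp 𝒢 a0) with hT
    have inT : ∀ v, 𝒢.Reachable a0 v → v ∈ T := fun v hv => subset_core _ _ hv
    have X : Ctx 𝒢 Des l B c lab (Δ3 ⊓ MulAction.stabilizer (W G) T) a0
        (l * (m1 + 1) + l * (m2 + 1)) := by
      refine ⟨F.geo, by rw [mul_add_one]; omega, fun μ hμ v hv => ?_,
        fun μ hμ => F.dinv μ (hle hμ.1), fun μ hμ => hinv μ hμ.1, fun μ hμ => hfree μ hμ.1,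
        fun v w h hv hd a b ha hb k hk e => ?_⟩
      · have e : μ • T = T := hμ.2
        rw [hT, smul μ (hle hμ.1)] at e
        exact (pc a0 ha0 (μ * a0) (hY.inv μ (hle hμ.1) a0 ha0) α β hα hβ (e ▸ hα) (e ▸ hβ)
          (not_lt.1 far)).trans (reach_mul F (hle hμ.1) hv)
      · have adj := F.geo.adj _ _ _ hd
        obtain ⟨μ, hμ, e1, e2⟩ := hx1 T ⟨a0, ha0, rfl⟩ h
          ⟨v, inT v hv, w, inT w (hv.trans adj.1.reachable), adj.2⟩
          (trans_of F.geo hd fun y hy => by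
            obtain ⟨a', h1, h2⟩ := (spec a0 ha0).1 y hy
            exact ⟨a', hv.symm.trans h1, h2⟩) k ⟨a, inT a ha, b, inT b hb, hk⟩ e
        exact ⟨μ, ⟨hμ, e1⟩, e2⟩
    obtain ⟨a, ha, da⟩ := (spec a0 ha0).1 α hα
    obtain ⟨b, hb, db⟩ := (spec a0 ha0).1 β hβ
    rcases X.vec (B1 := B1) (MA := MA) (m1 := m1) (m2 := m2) le_rfl le_rfl (by omega) (by omega)
      ha hb da db with ⟨μ, hμ, h1, h2⟩ | ⟨p, q, hp, hq, h⟩
    · exact Or.inl ⟨μ, hμ.1, hμ.2, h1, by omega⟩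
    · exact Or.inr ⟨p, inT p hp, q, inT q hq, h⟩

end Pool.Agent.MP_c34dea_an.H66
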