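import Pool.Agent.MP_c34dea_an.H66.GEarly

set_option autoImplicit false

open scoped symmDiff Pointwise

namespace Pool.Agent.MP_c34dea_an.H66

namespace GG

variable {S : Type} {G : SimpleGraph S}

theorem gp_le_add (x u v a b : W G) : gp x u v ≤ gp x a b + d u a + d v b := by
  have hsub : sep x u ∩ sep x v ⊆ (sep x a ∩ sep x b) ∪ sep u a ∪ sep v b := by
    intro k hk
    have h1 := mem_sep_trans (h := k) x u a
    have h2 := mem_sep_trans (h := k) x v b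
    simp only [Finset.mem_union, Finset.mem_inter] at hk ⊢
    tauto
  have e1 := Finset.card_le_card hsub
  have e2 := Finset.card_union_le ((sep x a ∩ sep x b) ∪ sep u a) (sep v b)
  have e3 := Finset.card_union_le (sep x a ∩ sep x b) (sep u a)
  unfold gp d
  omega

section Geo

variable {V : Type} {ι : V → W G} {𝒢 : SimpleGraph V} {Des : V → V → Hyp G → Prop} {l B c : ℕ}

theorem d_walk (H : Geo ι 𝒢 Des l B c) {x : ℕ → V} {k : ℕ} (hx : NB 𝒢 x k) (i n : ℕ)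
    (h : i + n ≤ k) : d (ι (x i)) (ι (x (i + n))) ≤ n * l := by
  induction n with
  | zero => simp
  | succ n ih =>
    have h1 := ih (by omega)
    have h2 := H.step _ _ (hx.1 (i + n) (by omega))
    have h3 := d_triangle (ι (x i)) (ι (x (i + n))) (ι (x (i + n + 1)))
    rw [← add_assoc, add_mul]
    omega

theorem grom_walk (H : Geo ι 𝒢 Des l B c) {x : ℕ → V} {k : ℕ} (hx : NB 𝒢 x k) {i t j : ℕ}
    (h1 : i ≤ t) (h2 : t ≤ j) (h3 : j ≤ k) : gp (ι (x t)) (ι (x i)) (ι (x j)) ≤ B := by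
  have := H.grom _ _ (nb_shift hx i (j - i) (by omega)) (t - i) (by omega)
  simp only [Nat.add_zero] at this
  rwa [show i + (t - i) = t by omega, show i + (j - i) = j by omega] at this

theorem clean_right (H : Geo ι 𝒢 Des l B c) {x : ℕ → V} {k : ℕ} (hx : NB 𝒢 x k) {i j : ℕ}
    {h : Hyp G} (hD : Des (x i) (x (i + 1)) h) (h1 : i < j) (h2 : j ≤ k) :
    h ∉ sep (ι (x (i + 1))) (ι (x j)) := by
  have := H.clean _ (j - i - 1) h (nb_shift hx i (j - i - 1 + 1) (by omega)) hD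
  rwa [show i + (j - i - 1 + 1) = j by omega] at this

theorem clean_left (H : Geo ι 𝒢 Des l B c) {x : ℕ → V} {k : ℕ} (hx : NB 𝒢 x k) {i j : ℕ}
    {h : Hyp G} (hD : Des (x i) (x (i + 1)) h) (h1 : j ≤ i) (h2 : i < k) :
    h ∉ sep (ι (x j)) (ι (x i)) := by
  have := H.clean _ (i - j) h (nb_rev hx (i + 1) (i - j + 1) h2 (by omega)) (H.symm _ _ _ hD)
  rw [show i + 1 - (i - j + 1) = j by omega] at this
  exact fun hh => this (mem_sep_comm.1 hh)

theorem des_mem (H : Geo ι 𝒢 Des l B c) {x : ℕ → V} {k : ℕ} (hx : NB 𝒢 x k) {i j : ℕ}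
    {h : Hyp G} (hD : Des (x i) (x (i + 1)) h) (h1 : i < j) (h2 : j ≤ k) :
    h ∈ sep (ι (x 0)) (ι (x j)) := by
  have a1 := clean_left H hx hD (Nat.zero_le i) (by omega)
  have a2 := clean_right H hx hD h1 h2
  have a3 := (H.adj _ _ _ hD).2
  exact (mem_sep_trans _ (ι (x (i + 1))) _).2
    (Or.inl ⟨(mem_sep_trans _ (ι (x i)) _).2 (Or.inr ⟨a3, a1⟩), a2⟩)

theorem des_lt (H : Geo ι 𝒢 Des l B c) {x : ℕ → V} {k : ℕ} (hx : NB 𝒢 x k) {i j : ℕ}
    {h h' : Hyp G} (hD : Des (x i) (x (i + 1)) h) (hD' : Des (x j) (x (j + 1)) h')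
    (h1 : i + (c + 1) ≤ j) (h2 : j < k) : Lt (ι (x 0)) h h' := by
  have a1 := des_mem H hx hD (show i < j by omega) h2.le
  have a2 := clean_left H hx hD' (Nat.zero_le j) h2
  have hne : h ≠ h' := by
    rintro rfl
    exact a2 a1
  rcases trichotomy (des_mem H hx hD (show i < k by omega) le_rfl) (des_mem H hx hD' h2 le_rfl) hne
    with y | y | y
  · exact y
  · exact absurd (y.mem a1) a2
  · refine absurd y (H.nest _ (j - i) h h' (nb_shift hx i (j - i + 1) (by omega)) (by omega) hD ?_)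
    rwa [show i + (j - i) = j by omega, show i + (j - i + 1) = j + 1 by omega]

theorem noRun [Finite S] (H : Geo ι 𝒢 Des l B c) {Y : Set (W G)} {n0 m ω : ℕ}
    {𝒯 : Set (Set (W G))} (hY : Cvx Y) (h4 : I4c Y n0) (hT : ∀ T ∈ 𝒯, Cvx T)
    (hmem : ∀ v, ι v ∈ Y) {D0 : ℕ} (hD0 : D0 = 2 * max n0 (Nat.card S) + 2 * max l B)
    (hω : 2 * D0 + m * l ≤ ω)
    (hav : ∀ x, NB 𝒢 x m → ∀ T ∈ 𝒯,
      ¬ (Near (B + 2 * D0) (ι (x 0)) T ∧ Near (B + 2 * D0) (ι (x m)) T))
    {x : ℕ → V} {k : ℕ} (hx : NB 𝒢 x k) : NoRun 𝒯 ω (ι (x 0)) (ι (x k)) := by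
  have key : ∀ T ∈ 𝒯, ∀ u ∈ T, ∀ v ∈ T, ∀ i j, i ≤ j → j ≤ k → d u (ι (x i)) ≤ D0 →
      d v (ι (x j)) ≤ D0 → d u v ≤ ω := by
    intro T hT' u hu v hv i j hij hj h1 h2
    by_cases hm : i + m ≤ j
    · refine absurd ⟨⟨u, hu, ?_⟩, ⟨med (ι (x (i + m))) u v, hT T hT' u hu v hv (med_mem_I₃ _ _ _), ?_⟩⟩
        (hav _ (nb_shift hx i m (by omega)) T hT')
      · rw [d_comm]
        simp only [Nat.add_zero]
        omega
      · rw [d_med]
        have a1 := gp_le_add (ι (x (i + m))) u v (ι (x i)) (ι (x j))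
        have a2 := grom_walk H hx (Nat.le_add_right i m) hm hj
        omega
    · have a1 := d_walk H hx i (j - i) (by omega)
      rw [show i + (j - i) = j by omega] at a1
      have a2 : (j - i) * l ≤ m * l := Nat.mul_le_mul_right _ (by omega)
      have a3 := d_triangle u (ι (x i)) v
      have a4 := d_triangle (ι (x i)) (ι (x j)) v
      rw [d_comm v] at h2
      omega
  intro T hT' u hu v hv hd
  have hI := hY _ (hmem (x 0)) _ (hmem (x k))
  have near : ∀ w ∈ I (ι (x 0)) (ι (x k)), ∃ i ≤ k, d w (ι (x i)) ≤ D0 := by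
    intro w hw
    rw [hD0]
    exact near_chain (x := fun i => ι (x i)) (fun u hu v hv => h4 u (hI hu) v (hI hv)) rfl rfl
      (fun i hi => (H.grom x k hx i hi).trans (le_max_right _ _))
      (fun i hi => (H.step _ _ (hx.1 i hi)).trans (le_max_left _ _)) hw
  have t1 := d_triangle u v (ι (x k))
  have t2 := d_triangle (ι (x 0)) u v
  have t3 := d_triangle (ι (x 0)) u (ι (x k))
  have t4 := d_triangle (ι (x 0)) v (ι (x k))
  obtain ⟨i, hi, h1⟩ := near u (mem_I_iff_d.2 (by omega))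
  obtain ⟨j, hj, h2⟩ := near v (mem_I_iff_d.2 (by omega))
  rcases le_total i j with hij | hij
  · exact key T hT' u hu v hv i j hij hj h1 h2
  · rw [d_comm]
    exact key T hT' v hv u hu j i hij hi h2 h1

end Geo

end GG

open GG

theorem transfer : TransferStmt := by
  intro S _ G n0 l B
  refine ⟨B + 2 * (2 * max n0 (Nat.card S) + 2 * max l B), fun m =>
    ⟨2 * (2 * max n0 (Nat.card S) + 2 * max l B) + m * l, ?_⟩⟩
  intro Y 𝒯 ω N1 c S' G' L Δ3 V ι 𝒢 Des hY h4 hT hmem hω hF H hav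
  have nr : ∀ {x : ℕ → V} {k : ℕ}, NB 𝒢 x k → NoRun 𝒯 ω (ι (x 0)) (ι (x k)) :=
    fun hx => noRun H hY h4 hT hmem rfl hω hav hx
  have iso : ∀ {x : ℕ → V} {k : ℕ}, NB 𝒢 x k → ∀ i j, i ≤ j → j ≤ k →
      d (L.phi (ι (x i))) (L.phi (ι (x j))) = d (ι (x i)) (ι (x j)) := by
    intro x k hx i j hij hj
    have := hF.t2 _ (hmem _) _ (hmem _) (nr (nb_shift hx i (j - i) (by omega)))
    simp only [Nat.add_zero] at this
    rwa [show i + (j - i) = j by omega] at this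
  have iso1 : ∀ v v', 𝒢.Adj v v' → d (L.phi (ι v)) (L.phi (ι v')) = d (ι v) (ι v') := by
    intro v v' h
    simpa using iso (nb_one h) 0 1 (by omega) le_rfl
  refine ⟨fun v v' h => (L.d_phi_le _ _).trans (H.step v v' h), fun x k hx => ?_,
    fun x k hx i hi => ?_, fun v v' h => ?_, ?_, ?_, ?_, ?_⟩
  · rw [iso hx 0 k (by omega) le_rfl]
    exact H.rate x k hx
  · have a1 := d_add_eq (L.phi (ι (x 0))) (L.phi (ι (x i))) (L.phi (ι (x k)))
    have a2 := d_add_eq (ι (x 0)) (ι (x i)) (ι (x k))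
    rw [iso hx 0 i (by omega) hi, iso hx i k hi le_rfl, iso hx 0 k (by omega) le_rfl] at a1
    have a3 := H.grom x k hx i hi
    omega
  · obtain ⟨h', hh⟩ := H.ex v v' h
    exact ⟨_, h', hh, rfl⟩
  · rintro v v' _ ⟨h, hh, rfl⟩
    exact ⟨h, H.symm _ _ _ hh, rfl⟩
  · rintro v v' _ ⟨h, hh, rfl⟩
    obtain ⟨a1, a2⟩ := H.adj _ _ _ hh
    refine ⟨a1, ?_⟩
    rw [L.sep_phi_of_d_eq (iso1 v v' a1)]
    exact Finset.mem_image_of_mem _ a2
  · rintro x k _ hx ⟨h, hh, rfl⟩ hm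
    obtain ⟨j, hj, e⟩ := Finset.mem_image.1 (L.sep_phi_subset _ _ hm)
    have a1 := H.clean x k h hx hh
    have a2 := (H.adj _ _ _ hh).2
    have a3 : h ∈ sep (ι (x 0)) (ι (x (k + 1))) :=
      (mem_sep_trans _ (ι (x 1)) _).2 (Or.inl ⟨a2, a1⟩)
    by_cases hj0 : j ∈ sep (ι (x 0)) (ι (x 1))
    · exact a1 (L.injOn_of_d_eq (iso hx 0 1 (by omega) (by omega)) hj0 a2 e ▸ hj)
    · have a4 : j ∈ sep (ι (x 0)) (ι (x (k + 1))) :=
        (mem_sep_trans _ (ι (x 1)) _).2 (Or.inr ⟨hj, hj0⟩)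
      exact a1 (L.injOn_of_d_eq (iso hx 0 (k + 1) (by omega) le_rfl) a4 a3 e ▸ hj)
  · rintro x N _ _ hx hN ⟨h, hh, rfl⟩ ⟨h', hh', rfl⟩
    have hidx : ∀ t, t ≤ N1 + 1 → t * (c + 1) + (c + 1) ≤ N := by
      intro t ht
      have : (t + 1) * (c + 1) ≤ (N1 + 2) * (c + 1) := Nat.mul_le_mul_right _ (by omega)
      rw [mul_comm (N1 + 2), add_mul, one_mul] at this
      omega
    have hex : ∀ t : ℕ, ∃ (i : ℕ) (e : Hyp G), t ≤ N1 + 1 → Des (x i) (x (i + 1)) e ∧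
        (t = 0 → e = h) ∧ (t = N1 + 1 → e = h') ∧ i = if t = N1 + 1 then N else t * (c + 1) := by
      intro t
      by_cases h0 : t = 0
      · refine ⟨0, h, fun _ => ⟨hh, fun _ => rfl, fun e => by omega, ?_⟩⟩
        rw [if_neg (by omega), h0, zero_mul]
      by_cases h1 : t = N1 + 1
      · exact ⟨N, h', fun _ => ⟨hh', fun e => absurd e h0, fun _ => rfl, by rw [if_pos h1]⟩⟩
      by_cases h2 : t ≤ N1 + 1
      · have := hidx t h2
        obtain ⟨e, he⟩ := H.ex _ _ (hx.1 (t * (c + 1)) (by omega))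
        exact ⟨_, e, fun _ => ⟨he, fun e => absurd e h0, fun e => absurd e h1, by rw [if_neg h1]⟩⟩
      · exact ⟨0, h, fun e => absurd e h2⟩
    choose i e he using hex
    have hi : ∀ t, t ≤ N1 + 1 → i t ≤ N := by
      intro t ht
      have := hidx t ht
      rw [(he t ht).2.2.2]
      split_ifs <;> omega
    have hmem' : ∀ t ≤ N1 + 1, e t ∈ sep (ι (x 0)) (ι (x (N + 1))) := fun t ht =>
      des_mem H hx (he t ht).1 (Nat.lt_succ_of_le (hi t ht)) le_rfl
    have hlt : ∀ s t, s < t → t ≤ N1 + 1 → Lt (ι (x 0)) (e s) (e t) := by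
      intro s t hst ht
      refine des_lt H hx (he s (by omega)).1 (he t ht).1 ?_ (Nat.lt_succ_of_le (hi t ht))
      rw [(he s (by omega)).2.2.2, (he t ht).2.2.2, if_neg (by omega)]
      have a1 := hidx s (by omega)
      have a2 : (s + 1) * (c + 1) ≤ t * (c + 1) := Nat.mul_le_mul_right _ hst
      rw [add_mul, one_mul] at a2
      split_ifs <;> omega
    have a1 := card_btw_ge_of_chain hmem' hlt (show 0 < N1 + 1 by omega) le_rfl
    have a2 := hlt 0 (N1 + 1) (by omega) le_rfl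
    have a3 := hmem' (N1 + 1) le_rfl
    rw [(he 0 (by omega)).2.1 rfl, (he (N1 + 1) le_rfl).2.2.1 rfl] at a1 a2
    rw [(he (N1 + 1) le_rfl).2.2.1 rfl] at a3
    exact hF.t3 _ (hmem _) _ (hmem _) (nr hx) h h' a3 a2 (by omega)

theorem push : PushStmt := by
  intro S G V ι 𝒢 Des l B c H hl
  have hadj : ∀ p q, (pushG ι 𝒢).Adj p q ↔ ∃ v w, 𝒢.Adj v w ∧ ι v = p ∧ ι w = q := by
    intro p q
    unfold pushG
    rw [SimpleGraph.fromRel_adj]
    constructor
    · rintro ⟨-, ⟨v, w, h⟩ | ⟨v, w, h1, h2, h3⟩⟩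
      · exact ⟨v, w, h⟩
      · exact ⟨w, v, h1.symm, h3, h2⟩
    · rintro ⟨v, w, h1, rfl, rfl⟩
      refine ⟨fun e => ?_, Or.inl ⟨v, w, h1, rfl, rfl⟩⟩
      have := H.rate _ 1 (nb_one h1)
      simp [e] at this
  have hstep : ∀ v q, (pushG ι 𝒢).Adj (ι v) q → ∃ w, 𝒢.Adj v w ∧ ι w = q := by
    intro v q h
    obtain ⟨v', w', h1, h2, h3⟩ := (hadj _ _).1 h
    obtain ⟨w, h4, h5, -⟩ := hl v' v w' h2 h1
    exact ⟨w, h4, h5.trans h3⟩
  have hinj : ∀ v w w', 𝒢.Adj v w → 𝒢.Adj v w' → ι w = ι w' → w = w' := by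
    intro v w w' h1 h2 e
    by_contra hne
    have hx : NB 𝒢 (fun i => if i = 0 then w else if i = 1 then v else w') 2 := by
      refine ⟨fun i hi => ?_, fun i hi => ?_⟩
      · interval_cases i
        · simpa using h1.symm
        · simpa using h2
      · obtain rfl : i = 0 := by omega
        simpa using fun x => hne x.symm
    have := H.rate _ 2 hx
    simp [e] at this
  have hlift : ∀ x k v0, NB (pushG ι 𝒢) x k → ι v0 = x 0 →
      ∃ z, z 0 = v0 ∧ NB 𝒢 z k ∧ ∀ i ≤ k, ι (z i) = x i := by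
    intro x k v0 hx h0
    have hnext : ∀ (i : ℕ) (v : V), ∃ w, i < k → ι v = x i → 𝒢.Adj v w ∧ ι w = x (i + 1) := by
      intro i v
      by_cases h : i < k ∧ ι v = x i
      · obtain ⟨w, hw⟩ := hstep v (x (i + 1)) (h.2 ▸ hx.1 i h.1)
        exact ⟨w, fun _ _ => hw⟩
      · exact ⟨v, fun h1 h2 => absurd ⟨h1, h2⟩ h⟩
    choose f hf using hnext
    let z : ℕ → V := fun i => Nat.rec v0 f i
    have hz : ∀ i ≤ k, ι (z i) = x i := by
      intro i
      induction i with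
      | zero => exact fun _ => h0
      | succ i ih => exact fun hi => (hf i (z i) hi (ih (by omega))).2
    refine ⟨z, rfl, ⟨fun i hi => (hf i (z i) hi (hz i hi.le)).1, fun i hi e => ?_⟩, hz⟩
    apply hx.2 i hi
    rw [← hz _ hi, ← hz i (by omega), e]
  have hdes : ∀ (x : ℕ → W G) (z : ℕ → V) (k i : ℕ) (h : Hyp G), NB 𝒢 z k →
      (∀ i ≤ k, ι (z i) = x i) → i < k → (∃ v w, Des v w h ∧ ι v = x i ∧ ι w = x (i + 1)) →
      Des (z i) (z (i + 1)) h := by
    rintro x z k i h hz he hi ⟨v, w, h1, h2, h3⟩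
    obtain ⟨w', h4, h5, h6⟩ := hl v (z i) w (h2.trans (he i hi.le).symm) (H.adj _ _ _ h1).1
    rw [← hinj _ _ _ h4 (hz.1 i hi) (h5.trans (h3.trans (he _ hi).symm))]
    exact h6 h h1
  have hlift' : ∀ x k, NB (pushG ι 𝒢) x (k + 1) →
      ∃ z, NB 𝒢 z (k + 1) ∧ ∀ i ≤ k + 1, ι (z i) = x i := by
    intro x k hx
    obtain ⟨v, w, -, h2, -⟩ := (hadj _ _).1 (hx.1 0 (by omega))
    obtain ⟨z, -, h⟩ := hlift x _ v hx h2
    exact ⟨z, h⟩
  refine ⟨⟨fun p q h => ?_, fun x k hx => ?_, fun x k hx i hi => ?_, fun p q h => ?_, ?_, ?_,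
    fun x k h hx hD => ?_, fun x N h h' hx hN hD hD' => ?_⟩, hadj, hlift, fun v q h => ?_,
    fun v w h => ?_⟩
  · obtain ⟨v, w, h1, rfl, rfl⟩ := (hadj _ _).1 h
    exact H.step v w h1
  · cases k with
    | zero => simp
    | succ k =>
      obtain ⟨z, hz, he⟩ := hlift' x k hx
      have := H.rate z _ hz
      rwa [he 0 (by omega), he _ le_rfl] at this
  · cases k with
    | zero =>
      obtain rfl : i = 0 := by omega
      rw [gp_self]
      omega
    | succ k =>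
      obtain ⟨z, hz, he⟩ := hlift' x k hx
      have := H.grom z _ hz i hi
      rwa [he 0 (by omega), he _ le_rfl, he i hi] at this
  · obtain ⟨v, w, h1, rfl, rfl⟩ := (hadj _ _).1 h
    obtain ⟨e, he⟩ := H.ex v w h1
    exact ⟨e, v, w, he, rfl, rfl⟩
  · rintro _ _ h ⟨v, w, h1, rfl, rfl⟩
    exact ⟨w, v, H.symm _ _ _ h1, rfl, rfl⟩
  · rintro _ _ h ⟨v, w, h1, rfl, rfl⟩
    exact ⟨(hadj _ _).2 ⟨v, w, (H.adj _ _ _ h1).1, rfl, rfl⟩, (H.adj _ _ _ h1).2⟩
  · obtain ⟨z, hz, he⟩ := hlift' x k hx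
    have := H.clean z k h hz (hdes x z _ 0 h hz he (by omega) hD)
    rwa [he 1 (by omega), he _ le_rfl] at this
  · obtain ⟨z, hz, he⟩ := hlift' x N hx
    exact H.nest z N h h' hz hN (hdes x z _ 0 h hz he (by omega) hD)
      (hdes x z _ N h' hz he (by omega) hD')
  · rw [SimpleGraph.reachable_iff_reflTransGen] at h
    induction h with
    | refl => exact ⟨v, SimpleGraph.Reachable.refl v, rfl⟩
    | tail _ h2 ih =>
      obtain ⟨w, h3, rfl⟩ := ih
      obtain ⟨w', h4, h5⟩ := hstep w _ h2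
      exact ⟨w', h3.trans h4.reachable, h5⟩
  · rw [SimpleGraph.reachable_iff_reflTransGen] at h
    induction h with
    | refl => exact SimpleGraph.Reachable.refl _
    | tail _ h2 ih => exact ih.trans ((hadj _ _).2 ⟨_, _, h2, rfl, rfl⟩).reachable

end Pool.Agent.MP_c34dea_an.H66
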