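import Pool.Agent.MP_c34dea_an.H66.Spec
import Pool.Agent.MP_c34dea_an.H66.HNormA

set_option autoImplicit false
set_option linter.unusedSectionVars false

open scoped Pointwise

namespace Pool.Agent.MP_c34dea_an.H66.HNorm

open Finset

variable {Γ : Type} [Group Γ]

theorem linv_linv (a : Let) : linv (linv a) = a := by
  obtain ⟨i, b⟩ := a
  simp [linv]

theorem St_rev {u : Γ → Fin R0 → Option Γ} {g g' : Γ} {a : Let} (h : St u g a g') :
    St u g' (linv a) g := by
  obtain ⟨i, b⟩ := a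
  rcases h with ⟨h1, w, h2, h3⟩ | ⟨h1, w, h2, h3⟩
  · simp only at h1
    subst h1
    exact Or.inr ⟨rfl, w, h2, h3⟩
  · simp only at h1
    subst h1
    exact Or.inl ⟨rfl, w, h2, h3⟩

theorem St_mul {H : Subgroup Γ} {u : Γ → Fin R0 → Option Γ}
    (hinv : ∀ γ ∈ H, ∀ g, u (γ * g) = u g) {γ : Γ} (hγ : γ ∈ H) {g g' : Γ} {a : Let}
    (h : St u g a g') : St u (γ * g) a (γ * g') := by
  rcases h with ⟨h1, w, h2, h3⟩ | ⟨h1, w, h2, h3⟩
  · exact Or.inl ⟨h1, w, by rw [hinv γ hγ]; exact h2, by rw [h3, mul_assoc]⟩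
  · exact Or.inr ⟨h1, w, by rw [hinv γ hγ]; exact h2, by rw [h3, mul_assoc]⟩

theorem Wk_mul {H : Subgroup Γ} {u : Γ → Fin R0 → Option Γ}
    (hinv : ∀ γ ∈ H, ∀ g, u (γ * g) = u g) {γ : Γ} (hγ : γ ∈ H) {g g' : Γ} {l : List Let}
    (h : Wk u g l g') : Wk u (γ * g) l (γ * g') := by
  induction h with
  | nil g => exact Wk.nil _
  | cons h1 _ ih => exact Wk.cons (St_mul hinv hγ h1) ih

/-- words of length `k` read along a walk from `g` to a point with property `P` -/
def WL (u : Γ → Fin R0 → Option Γ) (g : Γ) (k : ℕ) (P : Γ → Prop) : Set (List Let) :=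
  {l | l.length = k ∧ ∃ g', Wk u g l g' ∧ P g'}

theorem WL_finite (u : Γ → Fin R0 → Option Γ) (g : Γ) (k : ℕ) (P : Γ → Prop) :
    (WL u g k P).Finite :=
  (List.finite_length_eq Let k).subset fun _ h => h.1

theorem WL_mono {u : Γ → Fin R0 → Option Γ} {g : Γ} {k : ℕ} {P P' : Γ → Prop}
    (h : ∀ g', P g' → P' g') : (WL u g k P).ncard ≤ (WL u g k P').ncard :=
  Set.ncard_le_ncard (fun _ ⟨h1, g', h2, h3⟩ => ⟨h1, g', h2, h g' h3⟩) (WL_finite _ _ _ _)

theorem WL_mul {H : Subgroup Γ} {u : Γ → Fin R0 → Option Γ}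
    (hinv : ∀ γ ∈ H, ∀ g, u (γ * g) = u g) {γ : Γ} (hγ : γ ∈ H) (g : Γ) (k : ℕ)
    {P P' : Γ → Prop} (h : ∀ g', P' (γ * g') ↔ P g') : WL u (γ * g) k P' = WL u g k P := by
  ext l
  constructor
  · rintro ⟨h1, g', h2, h3⟩
    have h4 := Wk_mul hinv (H.inv_mem hγ) h2
    rw [inv_mul_cancel_left] at h4
    refine ⟨h1, γ⁻¹ * g', h4, (h _).mp ?_⟩
    rw [mul_inv_cancel_left]
    exact h3
  · rintro ⟨h1, g', h2, h3⟩
    exact ⟨h1, γ * g', Wk_mul hinv hγ h2, (h _).mpr h3⟩

open Classical in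
theorem WL_succ {u : Γ → Fin R0 → Option Γ}
    (hinj : ∀ g a g' g'', St u g a g' → St u g a g'' → g' = g'') (g : Γ) (k : ℕ)
    (P : Γ → Prop) :
    (WL u g (k + 1) P).ncard ≤
      ∑ a : Let, if h : ∃ g', St u g a g' then (WL u h.choose k P).ncard else 0 := by
  let F : Let → Finset (List Let) := fun a =>
    if h : ∃ g', St u g a g' then ((WL_finite u h.choose k P).toFinset.image (a :: ·)) else ∅
  obtain ⟨A, hA, hA'⟩ : ∃ A : Finset Let, A = Finset.univ ∧ ∀ a, a ∈ A :=
    ⟨Finset.univ, rfl, Finset.mem_univ⟩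
  rw [← hA]
  have h1 : WL u g (k + 1) P ⊆ ↑(A.biUnion F) := by
    rintro l ⟨hl, g', hw, hP⟩
    cases hw with
    | nil => exact absurd hl (Nat.succ_ne_zero k).symm
    | @cons _ g1 _ a l' hs hw' =>
      have hex : ∃ g', St u g a g' := ⟨g1, hs⟩
      have he : hex.choose = g1 := hinj _ _ _ _ hex.choose_spec hs
      refine Finset.mem_coe.mpr (Finset.mem_biUnion.mpr ⟨a, hA' a, ?_⟩)
      simp only [F, dif_pos hex, Finset.mem_image, Set.Finite.mem_toFinset]
      refine ⟨l', ⟨by simpa using hl, g', ?_, hP⟩, rfl⟩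
      rw [he]
      exact hw'
  refine le_trans (Set.ncard_le_ncard h1 (Finset.finite_toSet _)) ?_
  rw [Set.ncard_coe_finset]
  refine le_trans Finset.card_biUnion_le (Finset.sum_le_sum ?_)
  intro a _
  simp only [F]
  split_ifs with h
  · refine le_trans Finset.card_image_le ?_
    rw [Set.ncard_eq_toFinset_card _ (WL_finite u h.choose k P)]
  · simp

/-- the setoid of right cosets -/
def kS (K : Subgroup Γ) : Setoid Γ where
  r g g' := g * g'⁻¹ ∈ K
  iseqv := ⟨fun g => by simp [K.one_mem], fun {g g'} h => by simpa using K.inv_mem h,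
    fun {g g' g''} h h' => by simpa [mul_assoc] using K.mul_mem h h'⟩

/-- the space of right cosets -/
def Om (K : Subgroup Γ) : Type := Quotient (kS K)

/-- the coset of an element -/
def om (K : Subgroup Γ) (g : Γ) : Om K := Quotient.mk (kS K) g

theorem om_eq {K : Subgroup Γ} {g g' : Γ} : om K g = om K g' ↔ g * g'⁻¹ ∈ K := Quotient.eq

theorem om_out {K : Subgroup Γ} (ω : Om K) : om K ω.out = ω := Quotient.out_eq ω

theorem om_mul {K : Subgroup Γ} {κ : Γ} (hκ : κ ∈ K) (g : Γ) : om K (κ * g) = om K g :=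
  om_eq.mpr (by simpa using hκ)

open Classical in
/-- the adjacency kernel on the coset space -/
noncomputable def ker (K : Subgroup Γ) (u : Γ → Fin R0 → Option Γ) (x y : Om K) : ℝ :=
  ∑ a : Let, if ∃ g', St u x.out a g' ∧ om K g' = y then 1 else 0

section Ker

variable {H K : Subgroup Γ} {u : Γ → Fin R0 → Option Γ}

theorem ker_nonneg (x y : Om K) : 0 ≤ ker K u x y := by
  unfold ker
  apply Finset.sum_nonneg
  intro a _
  split_ifs <;> norm_num

theorem ex_rev (hKH : K ≤ H) (hT : Task H K u) {x y : Om K} {a : Let}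
    (h : ∃ g', St u x.out a g' ∧ om K g' = y) : ∃ g', St u y.out (linv a) g' ∧ om K g' = x := by
  obtain ⟨g', h1, h2⟩ := h
  have hk : y.out * g'⁻¹ ∈ K := om_eq.mp (by rw [om_out, h2])
  have h3 := St_mul hT.inv (hKH hk) (St_rev h1)
  rw [inv_mul_cancel_right] at h3
  exact ⟨_, h3, by rw [om_mul hk, om_out]⟩

theorem ker_symm (hKH : K ≤ H) (hT : Task H K u) (x y : Om K) : ker K u x y = ker K u y x := by
  classical
  unfold ker
  let e : Let ≃ Let := ⟨linv, linv, linv_linv, linv_linv⟩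
  rw [← Equiv.sum_comp e]
  apply Finset.sum_congr rfl
  intro a _
  apply if_congr _ rfl rfl
  constructor
  · intro h
    have := ex_rev hKH hT h
    simpa [e, linv_linv] using this
  · intro h
    exact ex_rev hKH hT h

open Classical in
theorem ker_sum (hT : Task H K u) (x : Om K) (F : Finset (Om K)) (c : Om K → ℝ) :
    ∑ y ∈ F, ker K u x y * c y =
      ∑ a : Let, if h : ∃ g', St u x.out a g' then
        (if om K h.choose ∈ F then c (om K h.choose) else 0) else 0 := by
  unfold ker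
  simp only [Finset.sum_mul]
  rw [Finset.sum_comm]
  apply Finset.sum_congr rfl
  intro a _
  split_ifs with h h'
  · rw [Finset.sum_eq_single_of_mem _ h']
    · rw [if_pos ⟨_, h.choose_spec, rfl⟩, one_mul]
    · intro y _ hy
      rw [if_neg, zero_mul]
      rintro ⟨g', h1, h2⟩
      apply hy
      rw [← h2, hT.inj _ _ _ _ h1 h.choose_spec]
  · apply Finset.sum_eq_zero
    intro y hy
    rw [if_neg, zero_mul]
    rintro ⟨g', h1, h2⟩
    apply h'
    rw [← hT.inj _ _ _ _ h1 h.choose_spec, h2]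
    exact hy
  · apply Finset.sum_eq_zero
    intro y _
    rw [if_neg, zero_mul]
    rintro ⟨g', h1, _⟩
    exact h ⟨g', h1⟩

theorem ker_deg (hT : Task H K u) (x : Om K) (F : Finset (Om K)) :
    ∑ y ∈ F, ker K u x y ≤ 16384 := by
  have h1 := ker_sum hT x F (fun _ => 1)
  simp only [mul_one] at h1
  rw [h1]
  calc _ ≤ ∑ _a : Let, (1 : ℝ) := by
        apply Finset.sum_le_sum
        intro a _
        split_ifs <;> norm_num
    _ = 16384 := by
        simp only [Finset.sum_const, Finset.card_univ, Fintype.card_prod, Fintype.card_fin,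
          Fintype.card_bool, nsmul_eq_mul]
        norm_num

open Classical in
theorem ker_sparse (hKH : K ≤ H) (hT : Task H K u) (F : Finset (Om K)) :
    ∑ x ∈ F, ∑ y ∈ F, ker K u x y ≤ 4 * F.card := by
  let E : Bool → Om K → Om K → ℝ := fun b x y =>
    ∑ i : Fin R0, if ∃ g', St u x.out (i, b) g' ∧ om K g' = y then 1 else 0
  have h1 : ∀ x y, ker K u x y = E true x y + E false x y := by
    intro x y
    unfold ker
    rw [Fintype.sum_prod_type_right]
    simp only [E, Fintype.sum_bool]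
  have h2 : ∀ x y, E false x y = E true y x := by
    intro x y
    apply Finset.sum_congr rfl
    intro i _
    apply if_congr _ rfl rfl
    exact ⟨fun h => ex_rev hKH hT h, fun h => ex_rev hKH hT h⟩
  have h3 : ∑ x ∈ F, ∑ y ∈ F, E true x y ≤ 2 * F.card := by
    have hinj : Function.Injective (fun x : Om K => x.out) := Quotient.out_injective
    let F' : Finset Γ := F.image (fun x => x.out)
    have hsep : Sepd K F' := by
      intro g hg g' hg' hk
      obtain ⟨x, _, rfl⟩ := Finset.mem_image.mp hg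
      obtain ⟨y, _, rfl⟩ := Finset.mem_image.mp hg'
      have := om_eq.mpr hk
      rw [om_out, om_out] at this
      rw [this]
    have hsp := hT.sparse F' hsep
    have hc : F'.card = F.card := Finset.card_image_of_injective _ hinj
    rw [hc] at hsp
    let D : Finset (Om K × Om K × Fin R0) := (F ×ˢ F ×ˢ Finset.univ).filter
      fun p => ∃ g', St u p.1.out (p.2.2, true) g' ∧ om K g' = p.2.1
    have h4 : ∑ x ∈ F, ∑ y ∈ F, E true x y = D.card := by
      simp only [D, E, Finset.card_filter, Finset.sum_product, Nat.cast_sum, Nat.cast_ite,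
        Nat.cast_one, Nat.cast_zero]
    rw [h4]
    have h5 : D.card ≤ {p : Γ × Fin R0 | p.1 ∈ F' ∧ ∃ w, u p.1 p.2 = some w ∧
        ∃ g' ∈ F', p.1 * w * g'⁻¹ ∈ K}.ncard := by
      rw [← Set.ncard_coe_finset]
      refine Set.ncard_le_ncard_of_injOn (fun p => (p.1.out, p.2.2)) ?_ ?_ ?_
      · rintro ⟨x, y, i⟩ hp
        simp only [D, Finset.coe_filter, Finset.mem_product, Finset.mem_univ, and_true,
          Set.mem_ofPred_eq] at hp
        obtain ⟨⟨hx, hy⟩, g', hs, hg'⟩ := hp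
        rcases hs with ⟨_, w, hw, rfl⟩ | ⟨hf, _⟩
        · refine ⟨Finset.mem_image_of_mem _ hx, w, hw, y.out, Finset.mem_image_of_mem _ hy, ?_⟩
          exact om_eq.mp (by rw [hg', om_out])
        · simp at hf
      · rintro ⟨x, y, i⟩ hp ⟨x', y', i'⟩ hp' he
        simp only [D, Finset.coe_filter, Finset.mem_product, Finset.mem_univ, and_true,
          Set.mem_ofPred_eq] at hp hp'
        simp only [Prod.mk.injEq] at he
        obtain ⟨he1, rfl⟩ := he
        obtain rfl := hinj he1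
        obtain ⟨_, g1, hs1, rfl⟩ := hp
        obtain ⟨_, g2, hs2, rfl⟩ := hp'
        rw [hT.inj _ _ _ _ hs1 hs2]
      · exact (Set.Finite.prod F'.finite_toSet Set.finite_univ).subset
          fun p hp => ⟨hp.1, Set.mem_univ _⟩
    exact_mod_cast le_trans h5 hsp
  simp only [h1, h2, Finset.sum_add_distrib]
  rw [Finset.sum_comm (f := fun x y => E true y x)]
  linarith

/-- number of walks of length `k` from a coset into a finite set of cosets -/
noncomputable def NW (K : Subgroup Γ) (u : Γ → Fin R0 → Option Γ) (k : ℕ) (x : Om K)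
    (U : Finset (Om K)) : ℝ :=
  ((WL u x.out k fun g' => om K g' ∈ U).ncard : ℝ)

theorem NW_om (hKH : K ≤ H) (hT : Task H K u) (k : ℕ) (g : Γ) (U : Finset (Om K)) :
    NW K u k (om K g) U = ((WL u g k fun g' => om K g' ∈ U).ncard : ℝ) := by
  unfold NW
  have hk : (om K g).out * g⁻¹ ∈ K := om_eq.mp (om_out _)
  have h1 : (om K g).out = (om K g).out * g⁻¹ * g := by rw [inv_mul_cancel_right]
  rw [h1, WL_mul hT.inv (hKH hk)]
  intro g'
  rw [om_mul hk]

open Classical in
theorem NW_sum (hKH : K ≤ H) (hT : Task H K u) (k : ℕ) (B U : Finset (Om K)) :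
    2 * ∑ x ∈ B, NW K u k x U ≤ 512 ^ k * (B.card + U.card) := by
  apply sum_bound _ _ _ _ (by positivity)
  obtain ⟨A, hA⟩ : ∃ A : Finset Let, ∀ a, a ∈ A := ⟨Finset.univ, Finset.mem_univ⟩
  let nb : Om K → Finset (Om K) := fun x => A.image fun a : Let =>
    if h : ∃ g', St u x.out a g' then om K h.choose else x
  apply sq_bound (ker K u) ker_nonneg (ker_symm hKH hT) (ker_sparse hKH hT) (ker_deg hT) nb
    (fun k x => NW K u k x U)
  · intro k x
    unfold NW
    positivity
  · intro B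
    calc _ ≤ ∑ x ∈ B, if x ∈ U then (1 : ℝ) else 0 := by
          apply Finset.sum_le_sum
          intro x _
          unfold NW
          split_ifs with hx
          · have h1 : (WL u x.out 0 fun g' => om K g' ∈ U) ⊆ {[]} := by
              rintro l ⟨hl, _⟩
              exact List.length_eq_zero_iff.mp hl
            have h2 := Set.ncard_le_ncard h1 (Set.finite_singleton _)
            rw [Set.ncard_singleton] at h2
            have h3 : ((WL u x.out 0 fun g' => om K g' ∈ U).ncard : ℝ) ≤ 1 := by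
              exact_mod_cast h2
            have h4 : (0 : ℝ) ≤ ((WL u x.out 0 fun g' => om K g' ∈ U).ncard : ℝ) := by
              positivity
            nlinarith
          · have h1 : (WL u x.out 0 fun g' => om K g' ∈ U) = ∅ := by
              apply Set.eq_empty_of_forall_notMem
              rintro l ⟨hl, g', hw, hP⟩
              rw [List.length_eq_zero_iff.mp hl] at hw
              cases hw
              rw [om_out] at hP
              exact hx hP
            simp [h1]
      _ ≤ U.card := by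
          rw [Finset.sum_boole]
          exact_mod_cast Finset.card_le_card fun x hx => (Finset.mem_filter.mp hx).2
  · intro k x
    rw [ker_sum hT]
    have h1 := WL_succ hT.inj x.out k (fun g' => om K g' ∈ U)
    have h2 : NW K u (k + 1) x U ≤ ((∑ a : Let, if h : ∃ g', St u x.out a g' then
        (WL u h.choose k fun g' => om K g' ∈ U).ncard else 0 : ℕ) : ℝ) := by
      unfold NW
      exact_mod_cast h1
    refine le_trans h2 (le_of_eq ?_)
    rw [Nat.cast_sum]
    apply Finset.sum_congr rfl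
    intro a _
    split_ifs with h h'
    · rw [NW_om hKH hT]
    · exfalso
      apply h'
      exact Finset.mem_image.mpr ⟨a, hA a, dif_pos h⟩
    · exact Nat.cast_zero

end Ker

section Main

variable {H K : Subgroup Γ} {u : Γ → Fin R0 → Option Γ}

/-- walks from a separated finite set into finitely many cosets -/
theorem walks_le (hKH : K ≤ H) (hT : Task H K u) (k : ℕ) (U1 U2 : Finset Γ) (hs : Sepd K U1) :
    2 * ∑ g ∈ U1, (WL u g k fun g' => ∃ f ∈ U2, g' * f⁻¹ ∈ K).ncard ≤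
      512 ^ k * (U1.card + U2.card) := by
  classical
  have h1 := NW_sum hKH hT k (U1.image (om K)) (U2.image (om K))
  have hinj : Set.InjOn (om K) U1 := fun g hg g' hg' h => hs g hg g' hg' (om_eq.mp h)
  rw [Finset.sum_image hinj, Finset.card_image_of_injOn hinj] at h1
  have h2 : ((U2.image (om K)).card : ℝ) ≤ U2.card := by exact_mod_cast Finset.card_image_le
  have h3 : ∀ g ∈ U1, NW K u k (om K g) (U2.image (om K)) =
      ((WL u g k fun g' => ∃ f ∈ U2, g' * f⁻¹ ∈ K).ncard : ℝ) := by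
    intro g _
    rw [NW_om hKH hT]
    congr 3
    ext g'
    rw [Finset.mem_image]
    constructor
    · rintro ⟨f, hf, h⟩
      exact ⟨f, hf, om_eq.mp h.symm⟩
    · rintro ⟨f, hf, h⟩
      exact ⟨f, hf, (om_eq.mpr h).symm⟩
  rw [Finset.sum_congr rfl h3] at h1
  have h4 : (512 : ℝ) ^ k * (U1.card + (U2.image (om K)).card) ≤ 512 ^ k * (U1.card + U2.card) :=
    mul_le_mul_of_nonneg_left (by linarith) (by positivity)
  exact_mod_cast le_trans h1 h4

/-- walks from a point into a set covered by `C` cosets -/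
theorem walks_cov (hKH : K ≤ H) (hT : Task H K u) (k : ℕ) (g : Γ) {U : Set Γ} {C : ℕ}
    (hU : Cov K U C) : 2 * (WL u g k fun g' => g' ∈ U).ncard ≤ 512 ^ k * (1 + C) := by
  obtain ⟨F, hF, hc⟩ := hU
  have h1 := walks_le hKH hT k {g} F (by
    intro a ha b hb _
    rw [Finset.mem_singleton.mp ha, Finset.mem_singleton.mp hb])
  rw [Finset.sum_singleton, Finset.card_singleton] at h1
  have h2 : (WL u g k fun g' => g' ∈ U).ncard ≤
      (WL u g k fun g' => ∃ f ∈ F, g' * f⁻¹ ∈ K).ncard := WL_mono hc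
  calc _ ≤ 2 * _ := Nat.mul_le_mul_left 2 h2
    _ ≤ _ := h1
    _ ≤ _ := Nat.mul_le_mul_left _ (by omega)

/-- the same with the target taken modulo `K` -/
theorem walks_cov' (hKH : K ≤ H) (hT : Task H K u) (k : ℕ) (g : Γ) {U : Set Γ} {C : ℕ}
    (hU : Cov K U C) :
    2 * (WL u g k fun g' => ∃ f ∈ U, g' * f⁻¹ ∈ K).ncard ≤ 512 ^ k * (1 + C) := by
  apply walks_cov hKH hT k g (U := {g' | ∃ f ∈ U, g' * f⁻¹ ∈ K})
  obtain ⟨F, hF, hc⟩ := hU
  refine ⟨F, hF, ?_⟩
  rintro g' ⟨f, hf, h⟩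
  obtain ⟨f', hf', h'⟩ := hc f hf
  exact ⟨f', hf', by simpa [mul_assoc] using K.mul_mem h h'⟩

/-- walks closed modulo `K` -/
theorem walks_closed (hKH : K ≤ H) (hT : Task H K u) (k : ℕ) (g : Γ) :
    (WL u g k fun g' => g' * g⁻¹ ∈ K).ncard ≤ 512 ^ k := by
  have h1 := walks_le hKH hT k {g} {g} (by
    intro a ha b hb _
    rw [Finset.mem_singleton.mp ha, Finset.mem_singleton.mp hb])
  simp only [Finset.sum_singleton, Finset.card_singleton, Finset.mem_singleton,
    exists_eq_left] at h1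
  omega

/-- the action of `H` on the coset space of a normal subgroup `K` -/
@[reducible] def actH (hN : NormalIn K H) : MulAction H (Om K) where
  smul γ := Quotient.map (fun g => (γ : Γ) * g) (by
    intro g g' h
    have h1 := hN.2 γ γ.2 _ h
    show (γ : Γ) * g * ((γ : Γ) * g')⁻¹ ∈ K
    simpa [mul_assoc] using h1)
  one_smul ω := by
    induction ω using Quotient.inductionOn with
    | _ g => exact congrArg (om K) (one_mul g)
  mul_smul a b ω := by
    induction ω using Quotient.inductionOn with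
    | _ g => exact congrArg (om K) (mul_assoc (a : Γ) b g)

/-- walks between two points of a member of an invariant family -/
theorem fam_le (hN : NormalIn K H) (hT : Task H K u) (f : Fam Γ) (hf : FamOK H K f)
    (T : Finset Γ) (hTr : Tr H T) (k : ℕ) :
    ∑ t ∈ T, (WL u t k fun g' => ∃ U ∈ f.U, t ∈ U ∧ g' ∈ U).ncard ≤ f.C * 512 ^ k * T.card := by
  classical
  let _ := actH hN
  have hKH := hN.1
  have hsm : ∀ (γ : H) (g : Γ), γ • om K g = om K ((γ : Γ) * g) := fun _ _ => rfl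
  have hfin : ∀ U ∈ f.U, (om K '' U).Finite := by
    intro U hU
    obtain ⟨C, F, _, hF⟩ := hf.fin U hU
    apply (F.finite_toSet.image (om K)).subset
    rintro _ ⟨g, hg, rfl⟩
    obtain ⟨a, ha, h⟩ := hF g hg
    exact ⟨a, ha, (om_eq.mpr h).symm⟩
  let bar : Set Γ → Finset (Om K) := fun U => if h : (om K '' U).Finite then h.toFinset else ∅
  have hbar : ∀ U ∈ f.U, ∀ ω, ω ∈ bar U ↔ ∃ g ∈ U, om K g = ω := by
    intro U hU ω
    simp only [bar, dif_pos (hfin U hU), Set.Finite.mem_toFinset, Set.mem_image]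
  have hbs : ∀ (γ : H), ∀ U ∈ f.U, bar ((γ : Γ) • U) = γ • bar U := by
    intro γ U hU
    ext ω
    rw [hbar _ (hf.inv γ γ.2 U hU), Finset.mem_smul_finset]
    constructor
    · rintro ⟨_, ⟨g, hg, rfl⟩, rfl⟩
      exact ⟨om K g, (hbar U hU _).mpr ⟨g, hg, rfl⟩, rfl⟩
    · rintro ⟨ω', h, rfl⟩
      obtain ⟨g, hg, rfl⟩ := (hbar U hU _).mp h
      exact ⟨γ * g, ⟨g, hg, rfl⟩, rfl⟩
  have hKtriv : ∀ (γ : H), (γ : Γ) ∈ K → ∀ ω : Om K, γ • ω = ω := by
    intro γ hγ ω
    rw [← om_out ω, hsm, om_mul hγ]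
  let 𝒰 : Om K → Finset (Finset (Om K)) := fun ω => (hf.mult ω.out).1.toFinset.image bar
  have h𝒰 : ∀ ω V, V ∈ 𝒰 ω ↔ ω ∈ V ∧ ∃ U ∈ f.U, bar U = V := by
    intro ω V
    simp only [𝒰, Finset.mem_image, Set.Finite.mem_toFinset, Set.mem_ofPred_eq]
    constructor
    · rintro ⟨U, ⟨hU, h⟩, rfl⟩
      exact ⟨(hbar U hU _).mpr ⟨_, h, om_out _⟩, U, hU, rfl⟩
    · rintro ⟨h, U, hU, rfl⟩
      obtain ⟨g, hg, hω⟩ := (hbar U hU _).mp h
      have hk : ω.out * g⁻¹ ∈ K := om_eq.mp (by rw [om_out, hω])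
      refine ⟨(ω.out * g⁻¹) • U, ⟨hf.inv _ (hKH hk) U hU, g, hg, by simp⟩, ?_⟩
      rw [hbs ⟨_, hKH hk⟩ U hU]
      ext ω'
      rw [Finset.mem_smul_finset]
      constructor
      · rintro ⟨y, hy, rfl⟩
        rw [hKtriv _ hk]
        exact hy
      · intro hy
        exact ⟨ω', hy, hKtriv _ hk _⟩
  have hinj : Set.InjOn (om K) T := by
    intro g hg g' hg' h
    obtain ⟨t, _, ht⟩ := hTr g
    rw [ht g ⟨hg, by simp [H.one_mem]⟩, ht g' ⟨hg', hKH (om_eq.mp h)⟩]
  have main := transport (Q := H) (Ω := Om K) ?_ (T.image (om K)) ?_ ?_ 𝒰 ?_ ?_ ?_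
    (NW K u k) ?_ (512 ^ k) ?_
  · rw [Finset.sum_image hinj, Finset.sum_image hinj] at main
    have h1 : ∑ t ∈ T, ((𝒰 (om K t)).card : ℝ) ≤ f.C * T.card := by
      calc _ ≤ ∑ _t ∈ T, (f.C : ℝ) := by
            apply Finset.sum_le_sum
            intro t _
            have a1 := (hf.mult (om K t).out).2
            rw [Set.ncard_eq_toFinset_card _ (hf.mult (om K t).out).1] at a1
            exact_mod_cast le_trans Finset.card_image_le a1
        _ = _ := by simp [mul_comm]
    have h2 : ∀ t ∈ T, ((WL u t k fun g' => ∃ U ∈ f.U, t ∈ U ∧ g' ∈ U).ncard : ℝ) ≤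
        ∑ V ∈ 𝒰 (om K t), NW K u k (om K t) V := by
      intro t _
      have a1 : (WL u t k fun g' => ∃ U ∈ f.U, t ∈ U ∧ g' ∈ U) ⊆
          ↑((𝒰 (om K t)).biUnion fun V => (WL_finite u t k fun g' => om K g' ∈ V).toFinset) := by
        rintro l ⟨hl, g', hw, U, hU, h1, h2⟩
        simp only [Finset.coe_biUnion, Set.mem_iUnion, Finset.mem_coe, Set.Finite.mem_toFinset]
        exact ⟨bar U, (h𝒰 _ _).mpr ⟨(hbar U hU _).mpr ⟨t, h1, rfl⟩, U, hU, rfl⟩, hl, g', hw,
          (hbar U hU _).mpr ⟨g', h2, rfl⟩⟩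
      have a2 := Set.ncard_le_ncard a1 (Finset.finite_toSet _)
      rw [Set.ncard_coe_finset] at a2
      have a3 := le_trans a2 Finset.card_biUnion_le
      simp only [NW_om hKH hT]
      rw [← Nat.cast_sum]
      apply Nat.cast_le.mpr
      refine le_trans a3 (le_of_eq ?_)
      apply Finset.sum_congr rfl
      intro V _
      rw [Set.ncard_eq_toFinset_card _ (WL_finite u t k fun g' => om K g' ∈ V)]
    have h3 := le_trans (Finset.sum_le_sum h2) main
    have h4 : (512 : ℝ) ^ k * ∑ t ∈ T, ((𝒰 (om K t)).card : ℝ) ≤ 512 ^ k * (f.C * T.card) :=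
      mul_le_mul_of_nonneg_left h1 (by positivity)
    have h5 : ((∑ t ∈ T, (WL u t k fun g' => ∃ U ∈ f.U, t ∈ U ∧ g' ∈ U).ncard : ℕ) : ℝ) ≤
        ((f.C * 512 ^ k * T.card : ℕ) : ℝ) := by
      push_cast
      linarith
    exact_mod_cast h5
  · intro γ ω h
    apply hKtriv
    rw [← om_out ω, hsm, om_eq] at h
    simpa using h
  · intro ω
    obtain ⟨g, rfl⟩ : ∃ g, om K g = ω := ⟨_, om_out ω⟩
    obtain ⟨t, ⟨ht, h⟩, _⟩ := hTr g
    refine ⟨⟨(g * t⁻¹)⁻¹, H.inv_mem h⟩, ?_⟩
    rw [hsm]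
    apply Finset.mem_image.mpr
    refine ⟨t, ht, ?_⟩
    congr 1
    simp
  · intro ω hω γ hγ
    obtain ⟨t, ht, rfl⟩ := Finset.mem_image.mp hω
    obtain ⟨t', ht', h⟩ := Finset.mem_image.mp hγ
    rw [← h]
    rw [hsm, om_eq] at h
    have h1 : t' * t⁻¹ ∈ H := by
      have := H.mul_mem (hKH h) γ.2
      simpa [mul_assoc] using this
    obtain ⟨s, _, hs⟩ := hTr t'
    rw [hs t' ⟨ht', by simp [H.one_mem]⟩, hs t ⟨ht, h1⟩]
  · intro ω V hV
    exact ((h𝒰 ω V).mp hV).1
  · intro ω V hV ω' hω'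
    exact (h𝒰 ω' V).mpr ⟨hω', ((h𝒰 ω V).mp hV).2⟩
  · intro γ ω V hV
    obtain ⟨h1, U, hU, rfl⟩ := (h𝒰 ω V).mp hV
    exact (h𝒰 _ _).mpr ⟨Finset.smul_mem_smul_finset h1, _, hf.inv γ γ.2 U hU, hbs γ U hU⟩
  · intro γ ω V
    rw [← om_out ω, hsm, NW_om hKH hT, NW_om hKH hT, WL_mul hT.inv γ.2]
    intro g'
    rw [← hsm, Finset.smul_mem_smul_finset_iff]
  · intro ω V _
    have := NW_sum hKH hT k V V
    linarith

end Main

end Pool.Agent.MP_c34dea_an.H66.HNorm
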