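import Pool.Agent.MP_c34dea_an.H66.H2
import Pool.Agent.MP_c34dea_an.H66.HNorm
import Pool.Agent.MP_c34dea_an.H66.Avg

set_option autoImplicit false

namespace Pool.Agent.MP_c34dea_an.H66.HNorm

open Finset

/-- pruning a symmetric kernel to a core of large degree -/
theorem prune {Ω : Type} [DecidableEq Ω] (m : Ω → Ω → ℝ) (h0 : ∀ x y, 0 ≤ m x y)
    (hsy : ∀ x y, m x y = m y x) (V : Finset Ω) (c : ℝ) :
    ∃ C ⊆ V, (∀ v ∈ C, c ≤ ∑ y ∈ C, m v y) ∧
      ∑ x ∈ V, ∑ y ∈ V, m x y - 2 * c * V.card ≤ ∑ x ∈ C, ∑ y ∈ C, m x y - 2 * c * C.card := by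
  obtain ⟨C, hC, hmax⟩ := Finset.exists_max_image V.powerset
    (fun C => ∑ x ∈ C, ∑ y ∈ C, m x y - 2 * c * C.card) ⟨∅, by simp⟩
  refine ⟨C, Finset.mem_powerset.mp hC, ?_, hmax V (Finset.mem_powerset_self V)⟩
  intro v hv
  obtain ⟨B, hv', rfl⟩ : ∃ B : Finset Ω, v ∉ B ∧ C = insert v B :=
    ⟨C.erase v, Finset.notMem_erase v C, (Finset.insert_erase hv).symm⟩
  have h1 := hmax B (Finset.mem_powerset.mpr
    ((Finset.subset_insert v B).trans (Finset.mem_powerset.mp hC)))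
  simp only [Finset.sum_insert hv', Finset.card_insert_of_notMem hv', Finset.sum_add_distrib]
    at h1 ⊢
  have h2 : ∑ x ∈ B, m x v = ∑ x ∈ B, m v x := Finset.sum_congr rfl fun x _ => hsy x v
  have h3 := h0 v v
  push_cast at h1
  linarith

variable {Γ : Type} [Group Γ]

open Classical in
/-- the step along a letter, extended by the identity -/
noncomputable def nx (u : Γ → Fin R0 → Option Γ) (g : Γ) (a : Let) : Γ :=
  if h : ∃ g', St u g a g' then h.choose else g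

section

variable {H K : Subgroup Γ} {u : Γ → Fin R0 → Option Γ}

theorem nx_eq (hT : Task H K u) {g g' : Γ} {a : Let} (h : St u g a g') : nx u g a = g' := by
  have hex : ∃ g', St u g a g' := ⟨g', h⟩
  rw [nx, dif_pos hex]
  exact hT.inj _ _ _ _ hex.choose_spec h

theorem nx_mul (hT : Task H K u) {γ : Γ} (hγ : γ ∈ H) (g : Γ) (a : Let) :
    nx u (γ * g) a = γ * nx u g a := by
  by_cases h : ∃ g', St u g a g'
  · obtain ⟨g', h⟩ := h
    rw [nx_eq hT h, nx_eq hT (St_mul hT.inv hγ h)]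
  · have h' : ¬ ∃ g', St u (γ * g) a g' := by
      rintro ⟨g', h'⟩
      have := St_mul hT.inv (H.inv_mem hγ) h'
      rw [inv_mul_cancel_left] at this
      exact h ⟨_, this⟩
    rw [nx, nx, dif_neg h, dif_neg h']

/-- the invariant core of large degree -/
theorem core [H.FiniteIndex] (hT : Task H K u) :
    ∃ G : Rnd.Gr Let H, G.iv = linv ∧ G.Big ∧ Tr H G.T ∧
      (∀ g a, G.E g a → St u g a (G.s g a)) ∧ 3276 * G.T.card ≤ ∑ t ∈ G.T, G.deg t := by
  classical
  obtain ⟨T, hTr⟩ := exists_Tr H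
  have hex : ∀ g, ∃ t, t ∈ T ∧ g * t⁻¹ ∈ H := fun g => (hTr g).exists
  choose ρ hρT hρH using hex
  have hρ : ∀ g t, t ∈ T → g * t⁻¹ ∈ H → ρ g = t := fun g t ht h =>
    (hTr g).unique ⟨hρT g, hρH g⟩ ⟨ht, h⟩
  have hρt : ∀ t ∈ T, ρ t = t := fun t ht => hρ t t ht (by simp [H.one_mem])
  have hρm : ∀ γ ∈ H, ∀ g, ρ (γ * g) = ρ g := fun γ hγ g =>
    hρ _ _ (hρT g) (by rw [mul_assoc]; exact H.mul_mem hγ (hρH g))
  have hρg : ∀ g, ρ g * g⁻¹ ∈ H := fun g => by simpa using H.inv_mem (hρH g)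
  obtain ⟨A, hA, hA'⟩ : ∃ A : Finset Let, A = Finset.univ ∧ ∀ a, a ∈ A :=
    ⟨Finset.univ, rfl, Finset.mem_univ⟩
  let P : Γ → Let → Γ → Prop := fun x a y => ∃ g', St u (ρ x) a g' ∧ ρ g' = ρ y
  have hP : ∀ x a y, P x a y → P y (linv a) x := by
    rintro x a y ⟨g', h1, h2⟩
    have h3 := St_mul hT.inv (hρg g') (St_rev h1)
    rw [inv_mul_cancel_right, h2] at h3
    refine ⟨_, h3, ?_⟩
    rw [← h2, hρm _ (hρg g'), hρt _ (hρT x)]
  let m : Γ → Γ → ℝ := fun x y => ∑ a ∈ A, if P x a y then 1 else 0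
  have h0 : ∀ x y, 0 ≤ m x y := fun x y =>
    Finset.sum_nonneg fun a _ => by split_ifs <;> norm_num
  have hsy : ∀ x y, m x y = m y x := by
    intro x y
    apply Finset.sum_nbij' linv linv (fun a _ => hA' _) (fun a _ => hA' _)
      (fun a _ => linv_linv a) (fun a _ => linv_linv a)
    intro a _
    apply if_congr _ rfl rfl
    refine ⟨hP x a y, fun h => ?_⟩
    have := hP _ _ _ h
    rwa [linv_linv] at this
  have hsum : ∀ C ⊆ T, ∀ x, ∑ y ∈ C, m x y =
      ((A.filter fun a => ∃ g', St u (ρ x) a g' ∧ ρ g' ∈ C).card : ℝ) := by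
    intro C hC x
    simp only [m]
    rw [Finset.sum_comm, Finset.card_filter]
    push_cast
    apply Finset.sum_congr rfl
    intro a _
    split_ifs with h
    · obtain ⟨g', h1, h2⟩ := h
      rw [Finset.sum_eq_single_of_mem _ h2]
      · exact if_pos ⟨g', h1, (hρt _ (hρT g')).symm⟩
      · intro y hy hne
        apply if_neg
        rintro ⟨g'', h3, h4⟩
        apply hne
        rw [hT.inj _ _ _ _ h1 h3, h4, hρt y (hC hy)]
    · apply Finset.sum_eq_zero
      intro y hy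
      apply if_neg
      rintro ⟨g', h3, h4⟩
      exact h ⟨g', h3, by rw [h4, hρt y (hC hy)]; exact hy⟩
  obtain ⟨C, hC, hdeg, htot⟩ := prune m h0 hsy T 2048
  let E : Γ → Let → Prop := fun g a => ρ g ∈ C ∧ ∃ g', St u g a g' ∧ ρ g' ∈ C
  have hE : ∀ γ ∈ H, ∀ g a, E g a → E (γ * g) a := by
    rintro γ hγ g a ⟨h1, g', h2, h3⟩
    exact ⟨by rw [hρm γ hγ]; exact h1, γ * g', St_mul hT.inv hγ h2, by rw [hρm γ hγ]; exact h3⟩
  let G : Rnd.Gr Let H :=
    { iv := linv
      iv_iv := linv_linv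
      card := by
        simp only [Fintype.card_prod, Fintype.card_fin, Fintype.card_bool]
        norm_num [R0]
      E := E
      s := nx u
      T := T
      gam := fun g => ρ g * g⁻¹
      rev := by
        rintro g a ⟨h1, g', h2, h3⟩
        rw [nx_eq hT h2, nx_eq hT (St_rev h2)]
        exact ⟨⟨h3, g, St_rev h2, h1⟩, rfl⟩
      invE := hE
      invs := fun γ hγ g a => nx_mul hT hγ g a
      gamH := hρg
      repT := fun g => by rw [inv_mul_cancel_right]; exact hρT g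
      uniq := fun t ht γ hγ h => by
        rw [← hρt _ h, hρm γ hγ, hρt t ht] }
  have hGdeg : ∀ g, ρ g ∈ C → (G.deg g : ℝ) = ∑ y ∈ C, m g y := by
    intro g hg
    rw [hsum C hC, Rnd.Gr.deg, ← hA]
    congr 2
    ext a
    simp only [Finset.mem_filter, hA', true_and]
    constructor
    · intro h
      have := hE _ (hρg g) g a h
      rw [inv_mul_cancel_right] at this
      exact this.2
    · intro h
      have h1 : E (ρ g) a := ⟨by rw [hρt _ (hρT g)]; exact hg, h⟩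
      have := hE _ (hρH g) _ a h1
      rw [inv_mul_cancel_right] at this
      exact this
  refine ⟨G, rfl, ?_, hTr, ?_, ?_⟩
  · intro g a h
    have h1 := hGdeg g h.1
    have h2 := hdeg _ h.1
    have h3 : ∑ y ∈ C, m (ρ g) y = ∑ y ∈ C, m g y := by
      rw [hsum C hC, hsum C hC, hρt _ (hρT g)]
    have h4 : (2048 : ℝ) ≤ G.deg g := by linarith
    exact_mod_cast h4
  · rintro g a ⟨_, g', h2, _⟩
    show St u g a (nx u g a)
    rw [nx_eq hT h2]
    exact h2
  · show 3276 * T.card ≤ ∑ t ∈ T, G.deg t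
    have h1 : ∑ x ∈ C, ∑ y ∈ C, m x y ≤ ∑ t ∈ T, (G.deg t : ℝ) := by
      rw [← Finset.sum_congr rfl fun x hx => hGdeg x (by rw [hρt x (hC hx)]; exact hx)]
      exact Finset.sum_le_sum_of_subset_of_nonneg hC fun _ _ _ => by positivity
    have h2 : ∑ t ∈ T, (({i | u t i ≠ none}.ncard : ℕ) : ℝ) ≤ ∑ x ∈ T, ∑ y ∈ T, m x y := by
      apply Finset.sum_le_sum
      intro t ht
      rw [hsum T subset_rfl, hρt t ht, ← Set.ncard_coe_finset]
      apply Nat.cast_le.mpr
      refine Set.ncard_le_ncard_of_injOn (fun i => (i, true)) ?_ ?_ (Finset.finite_toSet _)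
      · intro i hi
        obtain ⟨w, hw⟩ := Option.ne_none_iff_exists'.mp hi
        exact Finset.mem_coe.mpr (Finset.mem_filter.mpr
          ⟨hA' _, t * w, Or.inl ⟨rfl, w, hw, rfl⟩, hρT _⟩)
      · intro i _ j _ h
        exact (Prod.mk.inj h).1
    have h3 := hT.dense T hTr
    have h4 : ((9 * 8192 * T.card : ℕ) : ℝ) ≤ ((10 * ∑ t ∈ T, {i | u t i ≠ none}.ncard : ℕ) : ℝ) :=
      Nat.cast_le.mpr h3
    have h5 : (0 : ℝ) ≤ C.card := Nat.cast_nonneg _
    have h6 : (0 : ℝ) ≤ T.card := Nat.cast_nonneg _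
    have h7 : ((3276 * T.card : ℕ) : ℝ) ≤ ((∑ t ∈ T, G.deg t : ℕ) : ℝ) := by
      push_cast at h4 ⊢
      linarith
    exact_mod_cast h7

end

end Pool.Agent.MP_c34dea_an.H66.HNorm
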