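import Pool.Agent.MP_c34dea_an.H66.H4
import Pool.Agent.MP_c34dea_an.H66.HCore

set_option autoImplicit false

/-! Module H: the random construction. -/

namespace Pool.Agent.MP_c34dea_an.H66

open Finset Rnd HNorm
open scoped Pointwise

namespace Rnd

theorem x_le (C l : ℕ) (hC : 1 ≤ C) (hl : 8 ≤ l) {x : ℝ}
    (hx : x = 8 * (512 / 2047) ^ ((C + 1) * l)) :
    0 ≤ x ∧ x ≤ 256⁻¹ ∧ ((1 + C ^ l : ℕ) : ℝ) * x ≤ 4⁻¹ := by
  have h1 : (1 : ℝ) ≤ C ^ l := one_le_pow₀ (by exact_mod_cast hC)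
  have h2 : (C : ℝ) * (512 / 2047) ^ C ≤ 1 := by
    have : (C : ℝ) ≤ 2 ^ C := by exact_mod_cast Nat.lt_two_pow_self.le
    refine (mul_le_mul_of_nonneg_right this (by positivity)).trans ?_
    rw [← mul_pow]
    exact pow_le_one₀ (by norm_num) (by norm_num)
  have h3 : (C : ℝ) ^ l * x ≤ 8 * (512 / 2047) ^ 8 := by
    rw [hx, add_mul, one_mul, pow_add, pow_mul, mul_left_comm, ← mul_assoc ((C : ℝ) ^ l), ← mul_pow]
    exact mul_le_mul_of_nonneg_left ((mul_le_of_le_one_left (by positivity)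
      (pow_le_one₀ (by positivity) h2)).trans (pow_le_pow_of_le_one (by norm_num) (by norm_num) hl))
      (by norm_num)
  have h0 : 0 ≤ x := by rw [hx]; positivity
  push_cast
  refine ⟨h0, ?_, ?_⟩ <;> nlinarith

theorem pair_sum {x : ℝ} (h0 : 0 ≤ x) (hx : x ≤ 256⁻¹) (N C C' M : ℕ) :
    ∑ m ∈ Ico (16 * (C * C') + 1) M, ∑ m' ∈ Ico m M, (N : ℝ) * (C * (64 ^ m * (C' * x ^ m'))) ≤
      N * 4⁻¹ := by
  refine (sum_le_sum (g := fun m => N * (2 * (C * C') * 2⁻¹ ^ m : ℝ)) fun m _ => ?_).trans ?_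
  · have h1 : ∑ i ∈ Ico m M, x ^ i ≤ 2 * x ^ m := by
      refine (geom_sum_Ico_le_of_lt_one h0 (by linarith)).trans ?_
      rw [div_le_iff₀ (by linarith)]
      nlinarith [pow_nonneg h0 m]
    have h2 : 64 ^ m * x ^ m ≤ 2⁻¹ ^ m := by
      rw [← mul_pow]
      exact pow_le_pow_left₀ (by positivity) (by linarith) _
    simp only [← mul_sum]
    refine mul_le_mul_of_nonneg_left ?_ (by positivity)
    calc _ ≤ C * (64 ^ m * (C' * (2 * x ^ m))) := by gcongr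
      _ = 2 * (C * C') * (64 ^ m * x ^ m) := by ring
      _ ≤ _ := by gcongr
  · simp only [← mul_sum]
    refine mul_le_mul_of_nonneg_left ((mul_le_mul_of_nonneg_left (geom_sum_Ico_le_of_lt_one
      (by norm_num) (by norm_num)) (by positivity)).trans ?_) (by positivity)
    have : ((16 * (C * C') + 1 : ℕ) : ℝ) ≤ 2 ^ (16 * (C * C') + 1) := by
      exact_mod_cast Nat.lt_two_pow_self.le
    rw [inv_pow, inv_eq_one_div (2 ^ _), div_right_comm, ← mul_div_assoc,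
      div_le_iff₀ (by positivity)]
    push_cast at this
    linarith

end Rnd

/-- module H -/
theorem random : RandomStmt := by
  intro C1 L βs h1
  obtain ⟨n, hn⟩ : ∃ n, n = 131072 * C1 * (C1 + 1) * L := ⟨_, rfl⟩
  refine ⟨(C1 + 1) * (8 * C1 * ((βs + 1) * 2 ^ n)), (βs + 1) * 2 ^ n,
    fun CD => ⟨16 * (CD * (1 + CD)) + 1, ?_⟩⟩
  intro Γ _ H K u de Nr fams mmax hH hN hT hM hL hNr hNi hf hfs hm hdeep
  obtain ⟨G, hiv, hb, hTr, hst, hd⟩ := HNorm.core hT
  have hwk : ∀ l g, G.V g l → Wk u g l (G.en g l) := by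
    intro l
    induction l with
    | nil => exact fun g _ => Wk.nil g
    | cons a l ih => exact fun g h => Wk.cons (hst g a h.1) (ih _ h.2)
  have hcnt : ∀ g k (P : Γ → Prop), G.cnt g k P ≤ (WL u g k P).ncard := fun g k P =>
    G.cnt_le (WL_finite _ _ _ _) fun l h1 h2 h3 => ⟨h1, _, hwk l g h2, h3⟩
  have htot := hb.tot_le de L hM.self hM.tri fun g a h => hL _ _ _ (hst g a h)
  have hpos : ∀ k, ∃ b, (C1 + 1) * (8 * C1 * ((βs + 1) * 2 ^ k)) = b + 1 := fun k =>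
    Nat.exists_eq_add_one.2 (by positivity)
  choose bb hbb using hpos
  obtain ⟨k, hk, hp⟩ := pigeon (fun k => G.tot de (bb k + 1) / (bb k + 1 : ℕ))
    (G.T.card * (16384 * L)) n (by
      rw [div_le_iff₀ (by positivity)]
      exact (htot _).2.trans_eq (by ring)) (div_nonneg (htot _).1 (by positivity))
  have e2 : bb (k + 1) + 1 = 2 * (bb k + 1) := by rw [← hbb, ← hbb]; ring
  have hle : (βs + 1) * 2 ^ k ≤ (βs + 1) * 2 ^ n :=
    Nat.mul_le_mul_left _ (Nat.pow_le_pow_right two_pos (by omega))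
  have hβ1 : βs + 1 ≤ (βs + 1) * 2 ^ k := Nat.le_mul_of_pos_right _ (by positivity)
  have hbk := hbb k
  simp only [e2] at hp
  generalize bb k = b at hp hbk
  generalize (βs + 1) * 2 ^ k = β at hle hβ1 hbk
  have hbm : b + 1 ≤ (C1 + 1) * (8 * C1 * ((βs + 1) * 2 ^ n)) := by rw [← hbk]; gcongr
  obtain ⟨x0, x1, x2⟩ := x_le C1 (8 * C1 * β) h1 (by nlinarith) rfl
  rw [hbk] at x0 x1 x2
  choose F hF1 hF2 using id hNr
  have c1 := hb.clash b
  have c2 := hb.cost1 b 1 (fun g g' => de g g' ≤ 8 * C1 * β)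
    (c := G.T.card * (1 + C1 ^ (8 * C1 * β) : ℕ)) (by
      refine mod_cast (sum_le_card_nsmul _ _ (512 ^ (1 * (b + 1)) * (1 + C1 ^ (8 * C1 * β)))
        fun t _ => (hcnt _ _ _).trans ?_).trans_eq (by rw [smul_eq_mul]; ring)
      exact (Nat.le_mul_of_pos_left _ two_pos).trans (walks_cov hN.1 hT _ t (hM.ball t _)))
  have c3 := hb.junc de hM.symm hM.tri hM.inv b β (by omega)
  have c4 := cl_exf (Ico 1 (mmax + 1)) _ _ fun d hd' => hb.cost1 b d
    (fun g g' => G.rep g = G.rep g') (c := G.T.card) (by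
      refine mod_cast (sum_le_card_nsmul _ _ (512 ^ (d * (b + 1))) fun t _ =>
        (G.cnt_le (WL_finite _ _ _ _) fun l h1 h2 h3 => ⟨h1, _, hwk l t h2, ?_⟩).trans
          (walks_closed hN.1 hT _ t)).trans_eq (smul_eq_mul _ _)
      obtain ⟨γ, hγ, e⟩ := G.exists_of_rep h3
      rw [← e, mul_inv_cancel_right]
      exact hdeep γ hγ t l (e ▸ hwk l t h2)
        (h1 ▸ Nat.mul_le_mul (Nat.le_of_lt_succ (mem_Ico.1 hd').2) hbm))
  have c5 := cl_ex fams _ (fun f => G.T.card * (f.C / 2 ^ f.m : ℝ)) fun f hf' =>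
    (hb.cost1 b f.m (fun g g' => ∃ U ∈ f.U, g ∈ U ∧ g' ∈ U) (c := f.C * G.T.card) (by
      refine mod_cast ((sum_le_sum fun t _ => hcnt _ _ _).trans
        (fam_le hN hT f (hf f hf').1 _ hTr _)).trans_eq (by ring))).imp (fun _ h => h) (by
      rw [mul_comm (f.C : ℝ), mul_assoc, div_eq_mul_inv (f.C : ℝ), ← inv_pow]
      gcongr
      linarith)
  have c6 := cl_exf (Ico (16 * (CD * (1 + CD)) + 1) (mmax + 1)) _ _ fun m _ =>
    cl_exf (Ico m (mmax + 1)) _ _ fun m' _ => hb.cost3 b m m' F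
      (fun g g' => ∃ f ∈ {g' | Nr g g'}, g' * f⁻¹ ∈ K) (c := 1 + CD) hF1 fun f g =>
        (hcnt _ _ _).trans ((Nat.le_mul_of_pos_left _ two_pos).trans
          (walks_cov' hN.1 hT _ f (hNr g)))
  obtain ⟨S, hS, hden⟩ := hb.select hd b ((c1.or (c2.or (c3.or (c4.or (c5.or c6))))).imp
    (fun _ h => h) (by
      have N0 : (0 : ℝ) ≤ G.T.card := Nat.cast_nonneg _
      have a2 := mul_le_mul_of_nonneg_left x2 N0
      have a4 := mul_le_mul_of_nonneg_left ((geom_sum_Ico_le_of_lt_one (m := 1) (n := mmax + 1) x0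
        (by linarith)).trans (b := _) (c := 4⁻¹) (by
          rw [div_le_iff₀ (by linarith)]
          linarith)) N0
      have a5 := mul_le_mul_of_nonneg_left hfs N0
      have a6 := pair_sum x0 x1 G.T.card CD (1 + CD) (mmax + 1)
      have a3 : (2 * G.tot de (b + 1) - G.tot de (2 * (b + 1))) / (8 * β) ≤ G.T.card * 4⁻¹ := by
        have b0 : (0 : ℝ) < β := by exact_mod_cast (by omega : 0 < β)
        have b1 : ((b + 1 : ℕ) : ℝ) = (C1 + 1) * (8 * C1 * β) := by exact_mod_cast hbk.symm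
        have b2 : (n : ℝ) = 131072 * C1 * (C1 + 1) * L := by exact_mod_cast hn
        have b3 : (0 : ℝ) < (b + 1 : ℕ) := by positivity
        rw [Nat.cast_mul, Nat.cast_ofNat, ← mul_div_mul_left _ _ (two_ne_zero), ← sub_div,
          div_mul_eq_mul_div, div_le_iff₀ (by positivity)] at hp
        rw [div_le_iff₀ (by positivity)]
        refine le_of_mul_le_mul_right (hp.trans ?_) (by positivity : (0 : ℝ) < n + 1)
        rw [b1, b2]
        nlinarith [mul_nonneg N0 b0.le]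
      rw [List.sum_map_mul_left, ← mul_sum, pow_one, mul_assoc]
      linarith)) (by
    rintro _ (⟨t, -, l, l', -, -, -, rfl⟩ | ⟨t, -, l, -, -, -, rfl⟩ | ⟨t, -, l, l', -, -, -, rfl⟩ |
      ⟨d, hd, t, -, l, -, -, -, rfl⟩ | ⟨f, hf', t, -, l, -, -, -, rfl⟩ |
      ⟨m, hm, m', -, t, -, f, -, l, l', -, -, -, -, rfl⟩)
    · exact List.cons_ne_nil _ _
    · exact G.cl_ne _ _ le_rfl _ _
    · exact List.cons_ne_nil _ _
    · exact G.cl_ne _ _ (mem_Ico.1 hd).1 _ _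
    · exact G.cl_ne _ _ (hf f hf').1.m_pos _ _
    · exact List.append_ne_nil_of_left_ne_nil
        (G.cl_ne _ _ (le_add_self.trans (mem_Ico.1 hm).1) _ _) _)
  have hadj : ∀ g g', (sysG (G.Sg (b + 1) S)).Adj g g' → ∃ l, (g, l, g') ∈ G.Sg (b + 1) S :=
    fun g g' h => h.2.elim id fun ⟨l, h⟩ => ⟨_, hb.Sg_rev h⟩
  have hch : ∀ x m, NB (sysG (G.Sg (b + 1) S)) x m → ∃ lw, G.Ch (b + 1) S x lw m := by
    intro x m h
    choose! lw hlw using fun i hi => hadj _ _ (h.1 i hi)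
    exact ⟨lw, hlw, h.2⟩
  have hdist : ∀ {x lw m}, G.Ch (b + 1) S x lw m → m ≤ mmax →
      ∀ i j, i < j → j ≤ m → G.rep (x i) ≠ G.rep (x j) := fun h hm => h.dist fun d h1 h2 l h =>
    hS l (.inr (.inr (.inr (.inl ⟨d, mem_Ico.2 ⟨h1, by omega⟩, h⟩))))
  have himm : ∀ g l g' l' g'', (g, l, g') ∈ G.Sg (b + 1) S → (g, l', g'') ∈ G.Sg (b + 1) S →
      l ≠ l' → l.head? ≠ l'.head? := fun g l g' l' g'' h h' e =>
    Gr.av2 (fun l h => hS l (.inl h)) (fun _ _ _ _ _ h => h) h h' e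
      (hdist (Gr.ch_one h') (by omega) 0 1 one_pos le_rfl)
  refine ⟨β, b + 1, G.Sg (b + 1) S, by omega, hle, hbm, ⟨le_add_self, fun g l g' h => ?_,
    fun γ hγ g l g' => Gr.Sg_mul hγ, fun g l g' h => ?_, fun g l g' l' g'' h h' e => ?_,
    fun T' hT' => ?_⟩, ⟨fun g g' h => ?_, fun g a c ha hc hac => ?_⟩, fun f hf' x hx U hU h => ?_,
    fun x y m m' hx hy h1 h2 h3 h4 h5 => ?_⟩
  · have := Gr.of_w h.1
    refine ⟨(show G.en g l = g' from h.2.2.1) ▸ hwk l g this.1, h.2.1, ?_⟩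
    rw [Red, ← hiv]
    exact this.2
  · rw [lrev, ← hiv]
    exact hb.Sg_rev h
  · obtain rfl : l = l' := by_contra fun e' => himm g l g' l' g'' h h' e' e
    exact ⟨rfl, h.2.2.1.symm.trans h'.2.2.1⟩
  · obtain ⟨j, hj⟩ := Tr.sum_le le_rfl hTr hT'
    have := hj (fun _ => 1) fun _ _ _ => rfl
    simp only [sum_const, smul_eq_mul, mul_one] at this
    rw [hj _ fun γ hγ g => Gr.ncard_mul hγ _ _ g, this, one_mul, mul_left_comm]
    exact Nat.mul_le_mul_left _ hden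
  · obtain ⟨l, h⟩ := hadj _ _ h
    have := (Gr.ch_one h).av1 (fun i j _ _ => by omega) (Q := fun g g' => de g g' ≤ 8 * C1 * β)
      (fun l h => hS l (.inr (.inl h))) fun γ hγ g g' h => by rwa [hM.inv γ hγ]
    exact (not_le.1 this).le
  · obtain ⟨l, h⟩ := hadj _ _ ha
    obtain ⟨l', h'⟩ := hadj _ _ hc
    have e : l ≠ l' := fun e => hac (h.2.2.1.symm.trans ((congrArg _ e).trans h'.2.2.1))
    have := Gr.av2 (fun l h => hS l (.inr (.inr (.inl h)))) (fun γ hγ g l l' h => by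
      simpa only [G.en_mul hγ, hM.inv γ hγ] using h) h h' e
      (hdist (Gr.ch_one h') (by omega) 0 1 one_pos le_rfl)
    rw [show G.en g l = a from h.2.2.1, show G.en g l' = c from h'.2.2.1] at this
    exact not_lt.1 fun h2 => this ⟨himm g l a l' c h h' e, h2⟩
  · obtain ⟨lw, hx⟩ := hch _ _ hx
    exact hx.av1 (fun i j h1 h2 => hdist hx (hf f hf').2 i j h1 h2.le)
      (fun l h => hS l (.inr (.inr (.inr (.inr (.inl ⟨f, hf', h⟩))))))
      (fun γ hγ g g' ⟨U, h1, h2, h3⟩ => ⟨γ • U, (hf f hf').1.inv γ hγ U h1,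
        Set.smul_mem_smul_set h2, Set.smul_mem_smul_set h3⟩) ⟨U, hU, h⟩
  · obtain ⟨lw, hx⟩ := hch _ _ hx
    obtain ⟨lw', hy⟩ := hch _ _ hy
    by_contra hno
    have g0 := G.gamH (x 0)
    obtain ⟨f, hf1, hf2⟩ := hF2 _ _ (hNi _ g0 _ _ h4)
    refine hx.av3 hy (fun i j a c => hdist hx (h2.trans h3) i j a c.le)
      (fun i j a c => hdist hy h3 i j a c.le)
      (fun i hi j hj e => hno ⟨i, hi, j, hj, G.exists_of_rep e⟩)
      (fun l h => hS l (.inr (.inr (.inr (.inr (.inr ⟨m, mem_Ico.2 ⟨h1, by omega⟩, m',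
        mem_Ico.2 ⟨h2, by omega⟩, h⟩))))))
      (H.mul_mem (H.inv_mem (hN.1 hf2)) g0) ?_ ⟨_, hNi _ g0 _ _ h5, ?_⟩
    · simpa [mul_assoc, Gr.rep] using hf1
    · simpa [mul_assoc] using K.inv_mem hf2

end Pool.Agent.MP_c34dea_an.H66
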