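import Pool.Agent.MP_c34dea_an.H66.Spec

set_option autoImplicit false

namespace Pool.Agent.MP_c34dea_an.H66

namespace IAux

open Finset

/-- the point lies over `F` -/
def Ins (H : Subgroup Γ0) (F : Finset Γ0) (g : Γ0) : Prop := ∃ f ∈ F, g * f⁻¹ ∈ H

/-- reduced words over `F` without bad factor -/
def Ok (H : Subgroup Γ0) (F : Finset Γ0) (𝔅 : Set (Γ0 × List (Fin 5))) (g0 : Γ0)
    (w : List (Fin 5)) : Prop :=
  RedW w ∧ (∀ u v, w = u ++ v → Ins H F (g0 * word G0 u)) ∧ ¬ HasBad 𝔅 g0 w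

variable {H : Subgroup Γ0} {F : Finset Γ0} {𝔅 : Set (Γ0 × List (Fin 5))} {g0 : Γ0}

theorem Ok.left {u v : List (Fin 5)} (h : Ok H F 𝔅 g0 (u ++ v)) : Ok H F 𝔅 g0 u := by
  refine ⟨List.IsChain.left_of_append h.1, fun a b e => h.2.1 a (b ++ v) (by simp [e]), ?_⟩
  rintro ⟨w1, w2, w3, e, hb⟩
  exact h.2.2 ⟨w1, w2, w3 ++ v, by simp [e], hb⟩

theorem Ok.short {k : ℕ} (hk : F.card ≤ k)
    (hc : ∀ g w, w ≠ [] → RedW w → w.length ≤ k → g * word G0 w * g⁻¹ ∈ H → HasBad 𝔅 g w)
    {w : List (Fin 5)} (h : Ok H F 𝔅 g0 w) : w.length < F.card := by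
  by_contra hn
  have hn := not_lt.1 hn
  choose f hf hf' using fun i : ℕ => h.2.1 (w.take i) (w.drop i) (List.take_append_drop i w).symm
  obtain ⟨i, hi, j, hj, hij, e⟩ := exists_ne_map_eq_of_card_lt_of_maps_to
    (s := range (F.card + 1)) (t := F) (by simp) (f := f) (fun i _ => hf i)
  wlog hlt : i < j generalizing i j
  · exact this j hj i hi hij.symm e.symm (by omega)
  have hj' : j ≤ F.card := by simpa [Nat.lt_succ_iff] using hj
  have e1 : w.take j = w.take i ++ (w.take j).drop i := by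
    conv_lhs => rw [← List.take_append_drop i (w.take j), List.take_take, min_eq_left hlt.le]
  have hl : ((w.take j).drop i).length = j - i := by
    rw [List.length_drop, List.length_take, min_eq_left (hj'.trans hn)]
  have e2 : w = w.take i ++ (w.take j).drop i ++ w.drop j := by
    rw [← e1, List.take_append_drop]
  have hr : RedW ((w.take j).drop i) := by
    have := h.1
    rw [e2] at this
    exact List.IsChain.right_of_append (List.IsChain.left_of_append this)
  have hb := hc (g0 * word G0 (w.take i)) ((w.take j).drop i)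
    (fun h0 => by rw [h0] at hl; simp at hl; omega) hr (by omega) (by
      have := H.mul_mem (hf' j) (H.inv_mem (hf' i))
      rw [e, e1, word_append] at this
      simpa [mul_assoc] using this)
  obtain ⟨w1, w2, w3, e3, hb⟩ := hb
  refine h.2.2 ⟨w.take i ++ w1, w2, w3 ++ w.drop j, ?_, ?_⟩
  · conv_lhs => rw [e2, e3]
    simp
  · rwa [word_append, ← mul_assoc]

theorem nil_not_bad (hW : Weight 𝔅 (1 / 4)) (g : Γ0) : (g, []) ∉ 𝔅 := by
  intro h
  have := hW g {[]} (by simpa using h)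
  norm_num at this

theorem ok_nil (hW : Weight 𝔅 (1 / 4)) (h0 : g0 ∈ F) : Ok H F 𝔅 g0 [] := by
  refine ⟨List.IsChain.nil, fun u v e => ⟨g0, h0, ?_⟩, ?_⟩
  · have : u = [] := (List.append_eq_nil_iff.1 e.symm).1
    simp [this]
  · rintro ⟨w1, w2, w3, e, hb⟩
    have : w2 = [] := (List.append_eq_nil_iff.1 (List.append_eq_nil_iff.1 e.symm).1).2
    exact nil_not_bad hW _ (this ▸ hb)

theorem ext_cases (hW : Weight 𝔅 (1 / 4)) {w : List (Fin 5)} {s : Fin 5} (h : Ok H F 𝔅 g0 w)
    (hs : ∀ t ∈ w.getLast?, t ≠ s) (hi : Ins H F (g0 * word G0 w * gen G0 s)) :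
    Ok H F 𝔅 g0 (w ++ [s]) ∨ ∃ w1 w2, w ++ [s] = w1 ++ w2 ∧ Ok H F 𝔅 g0 w1 ∧
      (g0 * word G0 w1, w2) ∈ 𝔅 := by
  by_cases hb : HasBad 𝔅 g0 (w ++ [s])
  · right
    obtain ⟨w1, w2, w3, e, hb⟩ := hb
    rcases List.eq_nil_or_concat' w3 with rfl | ⟨w4, t, rfl⟩
    · rw [List.append_nil] at e
      refine ⟨w1, w2, e, ?_, hb⟩
      rcases List.eq_nil_or_concat' w2 with rfl | ⟨w4, t, rfl⟩
      · exact absurd hb (nil_not_bad hW _)
      · rw [← List.append_assoc] at e
        have := (List.append_inj' e rfl).1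
        rw [this] at h
        exact h.left
    · rw [← List.append_assoc] at e
      exact absurd ⟨w1, w2, w4, (List.append_inj' e rfl).1, hb⟩ h.2.2
  · left
    refine ⟨List.IsChain.append h.1 (List.isChain_singleton s) ?_, fun u v e => ?_, hb⟩
    · intro a ha b hb'
      have : s = b := by simpa using hb'
      exact this ▸ hs a ha
    · rcases List.eq_nil_or_concat' v with rfl | ⟨v', t, rfl⟩
      · rw [List.append_nil] at e
        rw [← e, word_append, ← mul_assoc]
        simpa using hi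
      · rw [← List.append_assoc] at e
        exact h.2.1 u v' (List.append_inj' e rfl).1

open Classical in
theorem no_core {k : ℕ} (hk : F.card ≤ k) (hW : Weight 𝔅 (1 / 4))
    (hc : ∀ g w, w ≠ [] → RedW w → w.length ≤ k → g * word G0 w * g⁻¹ ∈ H → HasBad 𝔅 g w)
    (h0 : g0 ∈ F)
    (hd : ∀ f ∈ F, 3 ≤ (univ.filter fun s => Ins H F (f * gen G0 s)).card) : False := by
  have hfin : {w | Ok H F 𝔅 g0 w}.Finite :=
    (List.finite_length_lt (Fin 5) F.card).subset fun w hw => Ok.short hk hc hw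
  set A := hfin.toFinset with hA
  have mA : ∀ w, w ∈ A ↔ Ok H F 𝔅 g0 w := fun w => by simp [hA]
  set L := (List.finite_length_le (Fin 5) F.card).toFinset with hL
  have mL : ∀ w, w ∈ L ↔ w.length ≤ F.card := fun w => by simp [hL]
  set X : List (Fin 5) → Finset (Fin 5) := fun w => univ.filter fun s =>
    (∀ t ∈ w.getLast?, t ≠ s) ∧ Ins H F (g0 * word G0 w * gen G0 s) with hX
  have hX2 : ∀ w ∈ A, 2 ≤ (X w).card := by
    intro w hw
    obtain ⟨f, hf, hf'⟩ := ((mA w).1 hw).2.1 w [] (by simp)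
    have h1 := hd f hf
    have h2 : (univ.filter fun s => Ins H F (f * gen G0 s)) ⊆ insert (w.getLast?.getD 0) (X w) := by
      intro s hs
      obtain ⟨f', hf1, hf2⟩ := (mem_filter.1 hs).2
      by_cases e : s = w.getLast?.getD 0
      · exact mem_insert.2 (Or.inl e)
      · refine mem_insert.2 (Or.inr (mem_filter.2 ⟨mem_univ _, fun t ht e' => e ?_, f', hf1, ?_⟩))
        · rw [Option.mem_def.1 ht, e']; rfl
        · simpa [mul_assoc] using H.mul_mem hf' hf2
    have h3 := (card_le_card h2).trans (card_insert_le _ _)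
    omega
  set U := A.biUnion fun w => (X w).image fun s => w ++ [s] with hU
  have low : 3 / 2 * ∑ w ∈ A, (3 / 4 : ℝ) ^ w.length ≤ ∑ u ∈ U, (3 / 4 : ℝ) ^ u.length := by
    rw [hU, sum_biUnion, mul_sum]
    · refine sum_le_sum fun w hw => ?_
      rw [sum_image fun s _ t _ e => by simpa using e]
      simp only [List.length_append, List.length_singleton, sum_const, nsmul_eq_mul, pow_succ]
      have h1 : (2 : ℝ) ≤ (X w).card := by exact_mod_cast hX2 w hw
      have h2 : (0 : ℝ) ≤ (3 / 4 : ℝ) ^ w.length := by positivity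
      nlinarith
    · intro w _ w' _ hne
      refine disjoint_left.2 fun u hu hu' => hne ?_
      obtain ⟨s, -, rfl⟩ := mem_image.1 hu
      obtain ⟨s', -, e⟩ := mem_image.1 hu'
      exact ((List.append_inj' e rfl).1).symm
  set B : List (Fin 5) → Finset (List (Fin 5)) := fun w1 =>
    L.filter fun w2 => (g0 * word G0 w1, w2) ∈ 𝔅 with hB
  have up : ∀ u ∈ U, (3 / 4 : ℝ) ^ u.length ≤ (if u ∈ A.erase [] then (3 / 4 : ℝ) ^ u.length else 0) +
      ∑ w1 ∈ A, ∑ w2 ∈ B w1,
        if w1 ++ w2 = u then (3 / 4 : ℝ) ^ w1.length * (3 / 4 : ℝ) ^ w2.length else 0 := by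
    intro u hu
    obtain ⟨w, hw, hu⟩ := mem_biUnion.1 hu
    obtain ⟨s, hs, rfl⟩ := mem_image.1 hu
    have hs' := (mem_filter.1 hs).2
    have nn : ∀ w1 w2 : List (Fin 5), (0 : ℝ) ≤ if w1 ++ w2 = w ++ [s] then
        (3 / 4 : ℝ) ^ w1.length * (3 / 4 : ℝ) ^ w2.length else 0 := fun w1 w2 => by
      split_ifs <;> positivity
    rcases ext_cases hW ((mA w).1 hw) hs'.1 hs'.2 with h | ⟨w1, w2, e, h1, h2⟩
    · rw [if_pos (mem_erase.2 ⟨by simp, (mA _).2 h⟩)]
      exact le_add_of_nonneg_right (sum_nonneg fun w1 _ => sum_nonneg fun w2 _ => nn w1 w2)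
    · refine le_add_of_nonneg_of_le (by split_ifs <;> positivity) ?_
      refine le_trans ?_ (single_le_sum (fun w1 _ => sum_nonneg fun w2 _ => nn w1 w2)
        ((mA w1).2 h1))
      have hl := congrArg List.length e
      have hw' := Ok.short hk hc ((mA w).1 hw)
      simp only [List.length_append, List.length_singleton] at hl
      refine le_trans ?_ (single_le_sum (fun w2 _ => nn w1 w2)
        (mem_filter.2 ⟨(mL w2).2 (by omega), h2⟩))
      rw [if_pos e.symm, ← pow_add, e, List.length_append]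
  have h1 := sum_le_sum up
  rw [sum_add_distrib, ← sum_filter, sum_comm] at h1
  have h2 : ∑ u ∈ U.filter (fun u => u ∈ A.erase []), (3 / 4 : ℝ) ^ u.length ≤
      ∑ u ∈ A.erase [], (3 / 4 : ℝ) ^ u.length :=
    sum_le_sum_of_subset_of_nonneg (fun u hu => (mem_filter.1 hu).2) fun _ _ _ => by positivity
  have h3 := add_sum_erase A (fun u => (3 / 4 : ℝ) ^ u.length) ((mA []).2 (ok_nil hW h0))
  have h4 : ∑ w1 ∈ A, ∑ u ∈ U, ∑ w2 ∈ B w1,
      (if w1 ++ w2 = u then (3 / 4 : ℝ) ^ w1.length * (3 / 4 : ℝ) ^ w2.length else 0) ≤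
      ∑ w1 ∈ A, (3 / 4 : ℝ) ^ w1.length * (1 / 4) := by
    refine sum_le_sum fun w1 _ => ?_
    rw [sum_comm]
    refine le_trans (sum_le_sum fun w2 _ => ?_) (?_ : ∑ w2 ∈ B w1,
      (3 / 4 : ℝ) ^ w1.length * (3 / 4 : ℝ) ^ w2.length ≤ _)
    · rw [sum_ite_eq]
      split_ifs
      · exact le_rfl
      · positivity
    · rw [← mul_sum]
      exact mul_le_mul_of_nonneg_left (hW _ (B w1) fun w2 h => (mem_filter.1 h).2) (by positivity)
  rw [← sum_mul] at h4
  have h5 : (0 : ℝ) ≤ ∑ w ∈ A, (3 / 4 : ℝ) ^ w.length := sum_nonneg fun _ _ => by positivity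
  simp only [List.length_nil, pow_zero] at h3
  linarith

open Classical in
theorem darts_le {k : ℕ} (hW : Weight 𝔅 (1 / 4))
    (hc : ∀ g w, w ≠ [] → RedW w → w.length ≤ k → g * word G0 w * g⁻¹ ∈ H → HasBad 𝔅 g w)
    (F : Finset Γ0) (hS : Sepd H F) (hk : F.card ≤ k) :
    ((F ×ˢ (univ : Finset (Fin 5))).filter fun p => Ins H F (p.1 * gen G0 p.2)).card ≤
      4 * F.card := by
  induction F using Finset.strongInduction with
  | H F ih =>
    rcases F.eq_empty_or_nonempty with rfl | ⟨g0, h0⟩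
    · simp
    by_cases hd : ∀ f ∈ F, 3 ≤ (univ.filter fun s => Ins H F (f * gen G0 s)).card
    · exact (no_core hk hW hc h0 hd).elim
    push Not at hd
    obtain ⟨v, hv, hd⟩ := hd
    have h1 := ih (F.erase v) (erase_ssubset hv)
      (fun g hg g' hg' => hS g (mem_of_mem_erase hg) g' (mem_of_mem_erase hg'))
      ((card_erase_le).trans hk)
    set D := univ.filter fun s => Ins H F (v * gen G0 s) with hD
    set P := (F ×ˢ (univ : Finset (Fin 5))).filter fun p => p.1 * gen G0 p.2 * v⁻¹ ∈ H with hP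
    have h2 : P.card ≤ D.card := by
      refine card_le_card_of_injOn Prod.snd (fun p hp => ?_) fun p hp q hq e => ?_
      · obtain ⟨a, b⟩ := mem_filter.1 (mem_coe.1 hp)
        refine mem_coe.2 (mem_filter.2 ⟨mem_univ _, p.1, (mem_product.1 a).1, ?_⟩)
        simpa [mul_assoc] using H.inv_mem b
      · obtain ⟨a, b⟩ := mem_filter.1 (mem_coe.1 hp)
        obtain ⟨a', b'⟩ := mem_filter.1 (mem_coe.1 hq)
        refine Prod.ext (hS _ (mem_product.1 a).1 _ (mem_product.1 a').1 ?_) e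
        have := H.mul_mem b (H.inv_mem b')
        rw [e] at this
        simpa [mul_assoc, ← mul_assoc (gen G0 q.2), gen_mul_self] using this
    have h3 : ((F ×ˢ (univ : Finset (Fin 5))).filter fun p => Ins H F (p.1 * gen G0 p.2)) ⊆
        ((F.erase v ×ˢ (univ : Finset (Fin 5))).filter
          fun p => Ins H (F.erase v) (p.1 * gen G0 p.2)) ∪ (D.image (fun s => (v, s)) ∪ P) := by
      rintro ⟨g, s⟩ hp
      obtain ⟨a, f, hf, b⟩ := mem_filter.1 hp
      have a' := (mem_product.1 a).1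
      by_cases e1 : g = v
      · subst e1
        exact mem_union_right _ (mem_union_left _
          (mem_image.2 ⟨s, mem_filter.2 ⟨mem_univ _, f, hf, b⟩, rfl⟩))
      by_cases e2 : f = v
      · subst e2
        exact mem_union_right _ (mem_union_right _ (mem_filter.2 ⟨a, b⟩))
      · exact mem_union_left _ (mem_filter.2 ⟨mem_product.2 ⟨mem_erase.2 ⟨e1, a'⟩, mem_univ _⟩,
          f, mem_erase.2 ⟨e2, hf⟩, b⟩)
    have h4 := (card_le_card h3).trans ((card_union_le _ _).trans
      (Nat.add_le_add h1 ((card_union_le _ _).trans (Nat.add_le_add card_image_le h2))))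
    have h5 := card_erase_add_one hv
    omega

end IAux

open Classical in
theorem nh : NHStmt := by
  intro H 𝔅 k _ hW hc F hS hk
  refine le_trans (le_of_eq ?_) (IAux.darts_le hW hc F hS hk)
  rw [← Set.ncard_coe_finset]
  congr 1
  ext p
  simp [IAux.Ins]

end Pool.Agent.MP_c34dea_an.H66
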