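import Pool.Agent.MP_c34dea_an.H66.D4
import Pool.Agent.MP_c34dea_an.H66.E4
import Pool.Agent.MP_c34dea_an.H66.F
import Pool.Agent.MP_c34dea_an.H66.GTrans
import Pool.Agent.MP_c34dea_an.H66.H
import Pool.Agent.MP_c34dea_an.H66.I
import Pool.Agent.MP_c34dea_an.H66.Avg

set_option autoImplicit false

namespace Pool.Agent.MP_c34dea_an.H66

theorem fillThm : FillStmt := fill levels sharp cells

end Pool.Agent.MP_c34dea_an.H66
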