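import Mathlib

set_option autoImplicit false

open scoped symmDiff Pointwise

namespace Pool.Agent.MP_c34dea_an.H66

section Group

variable {S : Type} (G : SimpleGraph S)

/-- relators of the right-angled Coxeter group -/
def rels : Set (FreeGroup S) :=
  {r | (∃ s, r = FreeGroup.of s * FreeGroup.of s) ∨
    ∃ s t, G.Adj s t ∧
      r = FreeGroup.of s * FreeGroup.of t * (FreeGroup.of t * FreeGroup.of s)⁻¹}

/-- the right-angled Coxeter group of a graph -/
def W : Type := PresentedGroup (rels G)

noncomputable instance : Group (W G) := inferInstanceAs (Group (PresentedGroup (rels G)))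

def gen (s : S) : W G := PresentedGroup.of (rels := rels G) s

/-- closed star -/
def st (s : S) : Set S := {t | t = s ∨ G.Adj s t}

/-- parabolic subgroup -/
noncomputable def Par (A : Set S) : Subgroup (W G) := Subgroup.closure (gen G '' A)

noncomputable def word (l : List S) : W G := (l.map (gen G)).prod

variable {G}

theorem gen_mul_self (s : S) : gen G s * gen G s = 1 := by
  have h : (PresentedGroup.mk (rels G)) (FreeGroup.of s * FreeGroup.of s) = 1 :=
    PresentedGroup.one_of_mem (Or.inl ⟨s, rfl⟩)
  rw [map_mul] at h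
  exact h

@[simp] theorem gen_inv (s : S) : (gen G s)⁻¹ = gen G s :=
  inv_eq_of_mul_eq_one_right (gen_mul_self s)

@[simp] theorem mul_gen_gen (x : W G) (s : S) : x * gen G s * gen G s = x := by
  rw [mul_assoc, gen_mul_self, mul_one]

theorem gen_comm_of_adj {s t : S} (h : G.Adj s t) : gen G s * gen G t = gen G t * gen G s := by
  have h1 : (PresentedGroup.mk (rels G))
      (FreeGroup.of s * FreeGroup.of t * (FreeGroup.of t * FreeGroup.of s)⁻¹) = 1 :=
    PresentedGroup.one_of_mem (Or.inr ⟨s, t, h, rfl⟩)
  rw [map_mul, map_inv, mul_inv_eq_one, map_mul, map_mul] at h1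
  exact h1

theorem mem_st_self (s : S) : s ∈ st G s := Or.inl rfl

theorem mem_st_of_adj {s t : S} (h : G.Adj s t) : t ∈ st G s := Or.inr h

theorem mem_st_symm {s t : S} (h : t ∈ st G s) : s ∈ st G t := by
  rcases h with h | h
  · exact Or.inl h.symm
  · exact Or.inr h.symm

theorem mem_st_comm {s t : S} : t ∈ st G s ↔ s ∈ st G t := ⟨mem_st_symm, mem_st_symm⟩

theorem gen_comm {s t : S} (h : t ∈ st G s) : gen G s * gen G t = gen G t * gen G s := by
  rcases h with h | h
  · rw [h]
  · exact gen_comm_of_adj h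

theorem gen_mem_Par {A : Set S} {s : S} (h : s ∈ A) : gen G s ∈ Par G A :=
  Subgroup.subset_closure ⟨s, h, rfl⟩

theorem Par_mono {A B : Set S} (h : A ⊆ B) : Par G A ≤ Par G B :=
  Subgroup.closure_mono (Set.image_mono h)

theorem Par_univ : Par G Set.univ = ⊤ := by
  have := PresentedGroup.closure_range_of (rels G)
  unfold Par
  rw [Set.image_univ]
  exact this

theorem Par_empty : Par G ∅ = ⊥ := by
  unfold Par
  simp

@[simp] theorem word_nil : word G [] = 1 := rfl

@[simp] theorem word_cons (s : S) (l : List S) : word G (s :: l) = gen G s * word G l := by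
  simp [word]

@[simp] theorem word_append (l l' : List S) : word G (l ++ l') = word G l * word G l' := by
  simp [word]

theorem word_reverse (l : List S) : word G l.reverse = (word G l)⁻¹ := by
  induction l with
  | nil => simp
  | cons s l ih => simp [ih]

theorem word_mem_Par {A : Set S} {l : List S} (h : ∀ s ∈ l, s ∈ A) : word G l ∈ Par G A := by
  induction l with
  | nil => simp
  | cons s l ih =>
    rw [word_cons]
    exact Subgroup.mul_mem _ (gen_mem_Par (h s (by simp))) (ih fun t ht => h t (by simp [ht]))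

theorem exists_word_of_mem_Par {A : Set S} {g : W G} (h : g ∈ Par G A) :
    ∃ l : List S, (∀ s ∈ l, s ∈ A) ∧ word G l = g := by
  induction h using Subgroup.closure_induction with
  | mem x hx =>
    obtain ⟨s, hs, rfl⟩ := hx
    exact ⟨[s], by simpa using hs, by simp⟩
  | one => exact ⟨[], by simp, rfl⟩
  | mul x y _ _ hx hy =>
    obtain ⟨l, hl, rfl⟩ := hx
    obtain ⟨l', hl', rfl⟩ := hy
    refine ⟨l ++ l', ?_, by simp⟩
    intro s hs
    rcases List.mem_append.1 hs with h | h
    · exact hl s h
    · exact hl' s h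
  | inv x _ hx =>
    obtain ⟨l, hl, rfl⟩ := hx
    exact ⟨l.reverse, fun s hs => hl s (List.mem_reverse.1 hs), word_reverse l⟩

theorem exists_word (g : W G) : ∃ l : List S, word G l = g := by
  have : g ∈ Par G Set.univ := by rw [Par_univ]; trivial
  obtain ⟨l, -, hl⟩ := exists_word_of_mem_Par this
  exact ⟨l, hl⟩

/-- induction by right multiplication inside a parabolic subgroup -/
theorem Par_ind {A : Set S} {P : W G → Prop} (h1 : P 1)
    (hs : ∀ g s, g ∈ Par G A → s ∈ A → P g → P (g * gen G s)) {g : W G} (hg : g ∈ Par G A) :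
    P g := by
  obtain ⟨l, hl, rfl⟩ := exists_word_of_mem_Par hg
  induction l using List.reverseRecOn with
  | nil => exact h1
  | append_singleton l s ih =>
    have hl' : ∀ t ∈ l, t ∈ A := fun t ht => hl t (by simp [ht])
    have := hs (word G l) s (word_mem_Par hl') (hl s (by simp)) (ih hl' (word_mem_Par hl'))
    simpa using this

/-- induction by right multiplication -/
theorem W_ind {P : W G → Prop} (h1 : P 1) (hs : ∀ g s, P g → P (g * gen G s)) (g : W G) :
    P g :=
  Par_ind (A := Set.univ) h1 (fun g s _ _ h => hs g s h) (by rw [Par_univ]; trivial)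

theorem comm_of_mem_Par_st {s : S} {g : W G} (h : g ∈ Par G (st G s)) :
    g * gen G s = gen G s * g := by
  refine Par_ind (P := fun g => g * gen G s = gen G s * g) (by simp) ?_ h
  intro g t _ ht ih
  rw [mul_assoc, ← gen_comm ht, ← mul_assoc, ih, mul_assoc]

theorem comm_of_mem_Par {A B : Set S} (hAB : ∀ s ∈ A, ∀ t ∈ B, t ∈ st G s) {a b : W G}
    (ha : a ∈ Par G A) (hb : b ∈ Par G B) : a * b = b * a := by
  refine Par_ind (P := fun a => a * b = b * a) (by simp) ?_ ha
  intro g s _ hs ih
  have h1 : b ∈ Par G (st G s) := Par_mono (fun t ht => hAB s hs t ht) hb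
  rw [mul_assoc, ← comm_of_mem_Par_st h1, ← mul_assoc, ih, mul_assoc]

/-- homomorphisms out of the group -/
noncomputable def lift {H : Type*} [Group H] (f : S → H) (h1 : ∀ s, f s * f s = 1)
    (h2 : ∀ s t, G.Adj s t → f s * f t = f t * f s) : W G →* H :=
  PresentedGroup.toGroup (rels := rels G) (f := f) (by
    rintro r (⟨s, rfl⟩ | ⟨s, t, hst, rfl⟩)
    · simp [h1]
    · simp [h2 s t hst])

@[simp] theorem lift_gen {H : Type*} [Group H] (f : S → H) (h1 : ∀ s, f s * f s = 1)
    (h2 : ∀ s t, G.Adj s t → f s * f t = f t * f s) (s : S) :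
    lift f h1 h2 (gen G s) = f s :=
  PresentedGroup.toGroup.of _

theorem hom_ext {H : Type*} [Group H] {f g : W G →* H} (h : ∀ s, f (gen G s) = g (gen G s)) :
    f = g := by
  ext x
  induction x using W_ind with
  | h1 => simp
  | hs x s ih => simp [ih, h]

open Classical in
/-- the retraction onto a parabolic subgroup -/
noncomputable def retr (G : SimpleGraph S) (A : Set S) : W G →* W G :=
  lift (fun s => if s ∈ A then gen G s else 1)
    (fun s => by split_ifs <;> simp [gen_mul_self])
    (fun s t h => by split_ifs <;> simp [gen_comm_of_adj h])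

theorem retr_gen_of_mem {A : Set S} {s : S} (h : s ∈ A) : retr G A (gen G s) = gen G s := by
  simp [retr, h]

theorem retr_gen_of_not_mem {A : Set S} {s : S} (h : s ∉ A) : retr G A (gen G s) = 1 := by
  simp [retr, h]

theorem retr_mem_Par_inter {A B : Set S} {g : W G} (h : g ∈ Par G B) :
    retr G A g ∈ Par G (A ∩ B) := by
  refine Par_ind (P := fun g => retr G A g ∈ Par G (A ∩ B)) (by simp) ?_ h
  intro g s _ hs ih
  rw [map_mul]
  by_cases hA : s ∈ A
  · rw [retr_gen_of_mem hA]
    exact Subgroup.mul_mem _ ih (gen_mem_Par ⟨hA, hs⟩)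
  · rw [retr_gen_of_not_mem hA, mul_one]
    exact ih

theorem retr_mem_Par (A : Set S) (g : W G) : retr G A g ∈ Par G A := by
  have h : g ∈ Par G Set.univ := by rw [Par_univ]; trivial
  simpa using retr_mem_Par_inter (A := A) h

theorem retr_of_mem_Par {A : Set S} {g : W G} (h : g ∈ Par G A) : retr G A g = g := by
  refine Par_ind (P := fun g => retr G A g = g) (by simp) ?_ h
  intro g s _ hs ih
  rw [map_mul, ih, retr_gen_of_mem hs]

theorem retr_retr (A B : Set S) (g : W G) : retr G A (retr G B g) = retr G (A ∩ B) g := by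
  induction g using W_ind with
  | h1 => simp
  | hs g s ih =>
    rw [map_mul, map_mul, map_mul, ih]
    by_cases hB : s ∈ B
    · rw [retr_gen_of_mem hB]
      by_cases hA : s ∈ A
      · rw [retr_gen_of_mem hA, retr_gen_of_mem (show s ∈ A ∩ B from ⟨hA, hB⟩)]
      · rw [retr_gen_of_not_mem hA, retr_gen_of_not_mem (show s ∉ A ∩ B from fun h => hA h.1)]
    · rw [retr_gen_of_not_mem hB, retr_gen_of_not_mem (show s ∉ A ∩ B from fun h => hB h.2)]
      simp

theorem Par_inf (A B : Set S) : Par G A ⊓ Par G B = Par G (A ∩ B) := by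
  apply le_antisymm
  · rintro g ⟨hA, hB⟩
    rw [← retr_of_mem_Par hA]
    exact retr_mem_Par_inter hB
  · exact le_inf (Par_mono Set.inter_subset_left) (Par_mono Set.inter_subset_right)

/-- right action generated by commuting involutions -/
noncomputable def ractHom {X : Type*} (τ : S → X → X) (h1 : ∀ s x, τ s (τ s x) = x)
    (h2 : ∀ s t, G.Adj s t → ∀ x, τ s (τ t x) = τ t (τ s x)) : W G →* Equiv.Perm X :=
  lift (fun s => (⟨τ s, τ s, h1 s, h1 s⟩ : Equiv.Perm X))
    (fun s => by ext x; exact h1 s x) (fun s t h => by ext x; exact h2 s t h x)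

noncomputable def ract {X : Type*} (τ : S → X → X) (h1 : ∀ s x, τ s (τ s x) = x)
    (h2 : ∀ s t, G.Adj s t → ∀ x, τ s (τ t x) = τ t (τ s x)) (x : X) (g : W G) : X :=
  ractHom τ h1 h2 g⁻¹ x

section
variable {X : Type*} {τ : S → X → X} {h1 : ∀ s x, τ s (τ s x) = x}
    {h2 : ∀ s t, G.Adj s t → ∀ x, τ s (τ t x) = τ t (τ s x)}

@[simp] theorem ract_one (x : X) : ract τ h1 h2 x 1 = x := by simp [ract]

theorem ract_mul (x : X) (g g' : W G) :
    ract τ h1 h2 x (g * g') = ract τ h1 h2 (ract τ h1 h2 x g) g' := by
  simp [ract]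

theorem ract_gen (x : X) (s : S) : ract τ h1 h2 x (gen G s) = τ s x := by
  simp [ract, ractHom]

theorem ract_mul_gen (x : X) (g : W G) (s : S) :
    ract τ h1 h2 x (g * gen G s) = τ s (ract τ h1 h2 x g) := by
  rw [ract_mul, ract_gen]
end

end Group

section Hyperplanes

variable {S : Type} (G : SimpleGraph S)

/-- hyperplanes of the Cayley graph -/
def Hyp : Type := Σ s : S, W G ⧸ Par G (st G s)

variable {G}

/-- the hyperplane dual to the edge from `x` to `x * s` -/
noncomputable def hyp (x : W G) (s : S) : Hyp G := ⟨s, (x : W G ⧸ Par G (st G s))⟩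

@[simp] theorem hyp_fst (x : W G) (s : S) : (hyp x s).1 = s := rfl

theorem hyp_eq_iff {x y : W G} {s : S} : hyp x s = hyp y s ↔ x⁻¹ * y ∈ Par G (st G s) := by
  unfold hyp
  constructor
  · intro h
    have h2 := (Sigma.mk.inj_iff.1 h).2
    exact QuotientGroup.eq.1 (eq_of_heq h2)
  · intro h
    rw [QuotientGroup.eq.2 h]

theorem hyp_label_eq {x y : W G} {s t : S} (h : hyp x s = hyp y t) : s = t :=
  congrArg Sigma.fst h

theorem exists_hyp (h : Hyp G) : ∃ x, hyp x h.1 = h := by
  obtain ⟨s, q⟩ := h
  obtain ⟨x, rfl⟩ := QuotientGroup.mk_surjective q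
  exact ⟨x, rfl⟩

theorem hyp_mul_of_mem {x g : W G} {s : S} (h : g ∈ Par G (st G s)) : hyp (x * g) s = hyp x s := by
  symm
  rw [hyp_eq_iff]
  simpa using h

theorem hyp_mul_gen {x : W G} {s t : S} (h : t ∈ st G s) : hyp (x * gen G t) s = hyp x s :=
  hyp_mul_of_mem (gen_mem_Par h)

@[simp] theorem hyp_mul_self (x : W G) (s : S) : hyp (x * gen G s) s = hyp x s :=
  hyp_mul_gen (mem_st_self s)

noncomputable instance : MulAction (W G) (Hyp G) where
  smul g h := ⟨h.1, g • h.2⟩
  one_smul h := by
    obtain ⟨s, q⟩ := h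
    show (⟨s, (1 : W G) • q⟩ : Hyp G) = ⟨s, q⟩
    rw [one_smul]
  mul_smul a b h := by
    obtain ⟨s, q⟩ := h
    show (⟨s, (a * b) • q⟩ : Hyp G) = ⟨s, a • b • q⟩
    rw [mul_smul]

@[simp] theorem smul_hyp (g x : W G) (s : S) : g • hyp x s = hyp (g * x) s := rfl

@[simp] theorem smul_fst (g : W G) (h : Hyp G) : (g • h).1 = h.1 := rfl

noncomputable instance : DecidableEq (Hyp G) := Classical.decEq _

/-- the carrier of a hyperplane -/
def car (h : Hyp G) : Set (W G) := {y | hyp y h.1 = h}

theorem mem_car_hyp (x : W G) (s : S) : x ∈ car (hyp x s) := rfl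

theorem car_nonempty (h : Hyp G) : (car h).Nonempty := exists_hyp h

theorem mem_car_iff {h : Hyp G} {x y : W G} (hx : x ∈ car h) :
    y ∈ car h ↔ x⁻¹ * y ∈ Par G (st G h.1) := by
  have hx' : hyp x h.1 = h := hx
  rw [← hyp_eq_iff, hx']
  exact eq_comm

theorem mul_gen_mem_car {h : Hyp G} {x : W G} (hx : x ∈ car h) {t : S} (ht : t ∈ st G h.1) :
    x * gen G t ∈ car h := by
  have hx' : hyp x h.1 = h := hx
  show hyp (x * gen G t) h.1 = h
  rw [hyp_mul_gen ht, hx']

theorem smul_mem_car {h : Hyp G} {x : W G} (g : W G) : g * x ∈ car (g • h) ↔ x ∈ car h := by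
  show hyp (g * x) h.1 = g • h ↔ hyp x h.1 = h
  rw [← smul_hyp, smul_left_cancel_iff]

noncomputable def sepStep (s : S) (p : W G × Finset (Hyp G)) : W G × Finset (Hyp G) :=
  (p.1 * gen G s, p.2 ∆ {hyp p.1 s})

theorem sepStep_inv (s : S) (p : W G × Finset (Hyp G)) : sepStep s (sepStep s p) = p := by
  obtain ⟨x, F⟩ := p
  simp [sepStep]

theorem sepStep_comm (s t : S) (h : G.Adj s t) (p : W G × Finset (Hyp G)) :
    sepStep s (sepStep t p) = sepStep t (sepStep s p) := by
  obtain ⟨x, F⟩ := p
  simp only [sepStep]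
  rw [hyp_mul_gen (mem_st_of_adj h), hyp_mul_gen (mem_st_of_adj h.symm), mul_assoc, mul_assoc,
    gen_comm_of_adj h, symmDiff_right_comm]

noncomputable def sepc (g : W G) : W G × Finset (Hyp G) :=
  ract (sepStep (G := G)) sepStep_inv sepStep_comm (1, ∅) g

theorem sepc_fst (g : W G) : (sepc g).1 = g := by
  induction g using W_ind with
  | h1 => simp [sepc]
  | hs g s ih =>
    unfold sepc at ih ⊢
    rw [ract_mul_gen]
    simp [sepStep, ih]

theorem sepc_mul_gen (g : W G) (s : S) : (sepc (g * gen G s)).2 = (sepc g).2 ∆ {hyp g s} := by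
  have := sepc_fst g
  unfold sepc at this ⊢
  rw [ract_mul_gen]
  simp [sepStep, this]

/-- the hyperplanes separating two vertices -/
noncomputable def sep (p q : W G) : Finset (Hyp G) := (sepc p).2 ∆ (sepc q).2

/-- the word metric -/
noncomputable def d (p q : W G) : ℕ := (sep p q).card

@[simp] theorem sep_self (p : W G) : sep p p = ∅ := by simp [sep]

theorem sep_comm (p q : W G) : sep p q = sep q p := symmDiff_comm _ _

theorem sep_trans (p q r : W G) : sep p r = sep p q ∆ sep q r := by
  unfold sep
  rw [symmDiff_assoc, symmDiff_symmDiff_cancel_left]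

theorem sep_mul_gen (p q : W G) (s : S) : sep p (q * gen G s) = sep p q ∆ {hyp q s} := by
  unfold sep
  rw [sepc_mul_gen, symmDiff_assoc]

@[simp] theorem sep_gen (p : W G) (s : S) : sep p (p * gen G s) = {hyp p s} := by
  rw [sep_mul_gen]; simp

theorem mem_sep_trans {h : Hyp G} (p q r : W G) :
    h ∈ sep p r ↔ (h ∈ sep p q ∧ h ∉ sep q r) ∨ (h ∈ sep q r ∧ h ∉ sep p q) := by
  rw [sep_trans p q r, Finset.mem_symmDiff]

theorem mem_sep_comm {h : Hyp G} {p q : W G} : h ∈ sep p q ↔ h ∈ sep q p := by rw [sep_comm]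

theorem mem_sep_mul_gen {h : Hyp G} {p q : W G} {s : S} :
    h ∈ sep p (q * gen G s) ↔ (h ∈ sep p q ∧ h ≠ hyp q s) ∨ (h = hyp q s ∧ h ∉ sep p q) := by
  rw [sep_mul_gen, Finset.mem_symmDiff]; simp

theorem smul_mem_sep {h : Hyp G} (g p q : W G) : g • h ∈ sep (g * p) (g * q) ↔ h ∈ sep p q := by
  have key : ∀ w : W G, ∀ h : Hyp G, g • h ∈ sep (g * p) (g * (p * w)) ↔ h ∈ sep p (p * w) := by
    intro w
    induction w using W_ind with
    | h1 => simp
    | hs w s ih =>
      intro h
      rw [← mul_assoc p, ← mul_assoc g, mem_sep_mul_gen, mem_sep_mul_gen, ih, ← smul_hyp]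
      simp only [ne_eq, smul_left_cancel_iff]
  simpa using key (p⁻¹ * q) h

theorem sep_smul (g p q : W G) : sep (g * p) (g * q) = (sep p q).image (fun h => g • h) := by
  ext h
  rw [Finset.mem_image]
  constructor
  · intro hh
    refine ⟨g⁻¹ • h, ?_, by simp⟩
    rw [← smul_mem_sep g]
    simpa using hh
  · rintro ⟨k, hk, rfl⟩
    exact (smul_mem_sep g p q).2 hk

@[simp] theorem d_self (p : W G) : d p p = 0 := by simp [d]

theorem d_comm (p q : W G) : d p q = d q p := by unfold d; rw [sep_comm]

@[simp] theorem d_gen (p : W G) (s : S) : d p (p * gen G s) = 1 := by simp [d]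

theorem d_smul (g p q : W G) : d (g * p) (g * q) = d p q := by
  unfold d
  rw [sep_smul, Finset.card_image_of_injective _ (MulAction.injective g)]

theorem sep_subset_union (p q r : W G) : sep p r ⊆ sep p q ∪ sep q r := by
  intro h hh
  rw [mem_sep_trans p q r] at hh
  rw [Finset.mem_union]
  tauto

theorem d_triangle (p q r : W G) : d p r ≤ d p q + d q r :=
  (Finset.card_le_card (sep_subset_union p q r)).trans (Finset.card_union_le _ _)

theorem d_word_le (p : W G) (l : List S) : d p (p * word G l) ≤ l.length := by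
  induction l generalizing p with
  | nil => simp
  | cons s l ih =>
    have h1 := d_triangle p (p * gen G s) (p * word G (s :: l))
    have h2 := ih (p * gen G s)
    rw [d_gen] at h1
    rw [word_cons, ← mul_assoc] at h1 ⊢
    simp only [List.length_cons]
    omega

/-- labels of separating hyperplanes of a parabolic element -/
theorem label_mem_of_mem_Par {A : Set S} {p q : W G} (h : p⁻¹ * q ∈ Par G A) {k : Hyp G}
    (hk : k ∈ sep p q) : k.1 ∈ A := by
  have key : ∀ w ∈ Par G A, ∀ k ∈ sep p (p * w), k.1 ∈ A := by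
    intro w hw
    refine Par_ind (P := fun w => ∀ k ∈ sep p (p * w), k.1 ∈ A) (by simp) ?_ hw
    intro w s _ hs ih k hk
    rw [← mul_assoc, mem_sep_mul_gen] at hk
    rcases hk with hk | hk
    · exact ih k hk.1
    · rw [hk.1]; exact hs
  exact key _ h k (by simpa using hk)

/-- the list of hyperplanes crossed by a word read from `p` -/
noncomputable def hlist : W G → List S → List (Hyp G)
  | _, [] => []
  | p, s :: l => hyp p s :: hlist (p * gen G s) l

theorem hlist_length (p : W G) (l : List S) : (hlist p l).length = l.length := by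
  induction l generalizing p with
  | nil => rfl
  | cons s l ih => simp [hlist, ih]

theorem mem_hlist {p : W G} {l : List S} {h : Hyp G} (hh : h ∈ hlist p l) :
    ∃ l1 l2, l = l1 ++ h.1 :: l2 ∧ hyp (p * word G l1) h.1 = h := by
  induction l generalizing p with
  | nil => simp [hlist] at hh
  | cons s l ih =>
    simp only [hlist, List.mem_cons] at hh
    rcases hh with hh | hh
    · exact ⟨[], l, by simp [hh], by simp [hh]⟩
    · obtain ⟨l1, l2, e1, e2⟩ := ih hh
      exact ⟨s :: l1, l2, by simp [e1], by simpa [mul_assoc] using e2⟩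

theorem mem_sep_word_iff (p : W G) (l : List S) (h : Hyp G) :
    h ∈ sep p (p * word G l) ↔ Odd ((hlist p l).count h) := by
  induction l generalizing p with
  | nil => simp [hlist]
  | cons s l ih =>
    rw [word_cons, ← mul_assoc, mem_sep_trans p (p * gen G s), ih, sep_gen, hlist,
      List.count_cons]
    by_cases e : hyp p s = h
    · simp [e, Nat.odd_add_one]
    · have e' : ¬ h = hyp p s := fun x => e x.symm
      simp [e, e']

theorem exists_geodesic_aux (n : ℕ) : ∀ (p : W G) (l : List S), l.length = n →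
    ∃ l' : List S, word G l' = word G l ∧ (hlist p l').Nodup := by
  induction n using Nat.strong_induction_on with
  | _ n ih =>
    intro p l hl
    cases l with
    | nil => exact ⟨[], rfl, by simp [hlist]⟩
    | cons s l =>
      simp only [List.length_cons] at hl
      obtain ⟨l', e, hn⟩ := ih l.length (by omega) (p * gen G s) l rfl
      by_cases hm : hyp p s ∈ hlist (p * gen G s) l'
      · obtain ⟨l1, l2, e1, e2⟩ := mem_hlist hm
        simp only [hyp_fst] at e1 e2
        have hc : word G l1 ∈ Par G (st G s) := by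
          have : hyp (p * gen G s) s = hyp (p * gen G s * word G l1) s := by
            rw [e2, hyp_mul_self]
          have h3 := hyp_eq_iff.1 this
          rwa [inv_mul_cancel_left] at h3
        have hw : word G (s :: l) = word G (l1 ++ l2) := by
          rw [word_cons, ← e, e1, word_append, word_cons, word_append, ← mul_assoc (word G l1),
            comm_of_mem_Par_st hc, ← mul_assoc, ← mul_assoc, gen_mul_self, one_mul]
        have hlen : l'.length ≤ l.length := by
          have h1 := d_word_le (p * gen G s) l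
          have h2 : sep (p * gen G s) (p * gen G s * word G l') = (hlist (p * gen G s) l').toFinset := by
            ext h
            rw [mem_sep_word_iff, List.mem_toFinset]
            by_cases hh : h ∈ hlist (p * gen G s) l'
            · simp [List.count_eq_one_of_mem hn hh, hh]
            · simp [List.count_eq_zero_of_not_mem hh, hh]
          unfold d at h1
          rw [← e, h2, List.toFinset_card_of_nodup hn, hlist_length] at h1
          exact h1
        have hlt : (l1 ++ l2).length < n := by
          rw [e1] at hlen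
          simp only [List.length_append, List.length_cons] at hlen ⊢
          omega
        obtain ⟨l'', e', hn'⟩ := ih _ hlt p (l1 ++ l2) rfl
        exact ⟨l'', e'.trans hw.symm, hn'⟩
      · refine ⟨s :: l', by rw [word_cons, word_cons, e], ?_⟩
        simp only [hlist, List.nodup_cons]
        exact ⟨hm, hn⟩

theorem exists_step {p q : W G} (h : p ≠ q) : ∃ s, hyp p s ∈ sep p q := by
  obtain ⟨l, hl⟩ := exists_word (p⁻¹ * q)
  obtain ⟨l', e, hn⟩ := exists_geodesic_aux _ p l rfl
  have hq : q = p * word G l' := by rw [e, hl]; simp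
  cases l' with
  | nil => exact absurd (by simpa using hq.symm) h
  | cons s l' =>
    refine ⟨s, ?_⟩
    rw [hq, mem_sep_word_iff, List.count_eq_one_of_mem hn (by simp [hlist])]
    exact odd_one

theorem eq_of_sep_empty {p q : W G} (h : sep p q = ∅) : p = q := by
  by_contra hne
  obtain ⟨s, hs⟩ := exists_step hne
  simp [h] at hs

theorem eq_of_d_eq_zero {p q : W G} (h : d p q = 0) : p = q :=
  eq_of_sep_empty (Finset.card_eq_zero.1 h)

theorem eq_of_sep_eq {p u v : W G} (h : sep p u = sep p v) : u = v := by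
  apply eq_of_sep_empty
  rw [sep_trans u p v, sep_comm u p, h]
  simp

theorem sep_step {p q : W G} {s : S} (h : hyp p s ∈ sep p q) :
    sep (p * gen G s) q = (sep p q).erase (hyp p s) := by
  ext k
  rw [mem_sep_comm, mem_sep_mul_gen, Finset.mem_erase, sep_comm q p]
  constructor
  · rintro (hk | hk)
    · exact ⟨hk.2, hk.1⟩
    · exact absurd (hk.1 ▸ h) hk.2
  · intro hk
    exact Or.inl ⟨hk.2, hk.1⟩

theorem sep_step_not {p q : W G} {s : S} (h : hyp p s ∉ sep p q) :
    sep (p * gen G s) q = insert (hyp p s) (sep p q) := by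
  ext k
  rw [mem_sep_comm, mem_sep_mul_gen, Finset.mem_insert, sep_comm q p]
  constructor
  · rintro (hk | hk)
    · exact Or.inr hk.1
    · exact Or.inl hk.1
  · rintro (hk | hk)
    · exact Or.inr ⟨hk, hk ▸ h⟩
    · exact Or.inl ⟨hk, fun e => h (e ▸ hk)⟩

theorem d_step {p q : W G} {s : S} (h : hyp p s ∈ sep p q) : d (p * gen G s) q + 1 = d p q := by
  unfold d
  rw [sep_step h, Finset.card_erase_add_one h]

theorem d_step_not {p q : W G} {s : S} (h : hyp p s ∉ sep p q) :
    d (p * gen G s) q = d p q + 1 := by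
  unfold d
  rw [sep_step_not h, Finset.card_insert_of_notMem h]

theorem hyp_mem_sep_iff {p q : W G} {s : S} : hyp p s ∈ sep p q ↔ d (p * gen G s) q < d p q := by
  by_cases h : hyp p s ∈ sep p q
  · have := d_step h
    simp only [h, true_iff]; omega
  · have := d_step_not h
    simp only [h, false_iff]; omega

/-- induction along geodesics towards a fixed target -/
theorem geod_ind {q : W G} {P : W G → Prop} (h0 : P q)
    (hs : ∀ p s, hyp p s ∈ sep p q → P (p * gen G s) → P p) (p : W G) : P p := by
  induction hn : d p q generalizing p with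
  | zero => rw [eq_of_d_eq_zero hn]; exact h0
  | succ n ih =>
    have hne : p ≠ q := by rintro rfl; simp at hn
    obtain ⟨s, hs'⟩ := exists_step hne
    have := d_step hs'
    exact hs p s hs' (ih _ (by omega))

theorem exists_geodesic (p q : W G) : ∃ l : List S, p * word G l = q ∧ l.length = d p q := by
  induction p using geod_ind (q := q) with
  | h0 => exact ⟨[], by simp, by simp⟩
  | hs p s hs ih =>
    obtain ⟨l, e1, e2⟩ := ih
    refine ⟨s :: l, by rw [word_cons, ← mul_assoc, e1], ?_⟩
    rw [List.length_cons, e2, d_step hs]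

theorem mem_Par_iff {A : Set S} {p q : W G} : p⁻¹ * q ∈ Par G A ↔ ∀ k ∈ sep p q, k.1 ∈ A := by
  refine ⟨fun h k hk => label_mem_of_mem_Par h hk, ?_⟩
  induction p using geod_ind (q := q) with
  | h0 => intro _; simp
  | hs p s hs ih =>
    intro h
    have h1 := ih (fun k hk => h k (by rw [sep_step hs] at hk; exact Finset.mem_of_mem_erase hk))
    have h2 : gen G s ∈ Par G A := gen_mem_Par (h _ hs)
    have : p⁻¹ * q = gen G s * ((p * gen G s)⁻¹ * q) := by
      simp [← mul_assoc, gen_mul_self]
    rw [this]
    exact Subgroup.mul_mem _ h2 h1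

theorem ball_finite [Finite S] (p : W G) (n : ℕ) : {q | d p q ≤ n}.Finite := by
  have : {q | d p q ≤ n} ⊆ (fun l => p * word G l) '' {l : List S | l.length ≤ n} := by
    intro q hq
    obtain ⟨l, e1, e2⟩ := exists_geodesic p q
    exact ⟨l, by simpa [e2] using hq, e1⟩
  exact ((List.finite_length_le S n).image _).subset this

end Hyperplanes

end Pool.Agent.MP_c34dea_an.H66
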