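import Pool.Agent.MP_c34dea_an.H66.Geom

set_option autoImplicit false

open scoped symmDiff Pointwise

namespace Pool.Agent.MP_c34dea_an.H66

variable {S : Type} {G : SimpleGraph S}

open Classical in
noncomputable def foldStep (Ω : Set (W G)) (s : S) (x : W G) : W G :=
  if x ∈ Ω ∧ x * gen G s ∈ Ω then x * gen G s else x

theorem foldStep_pos {Ω : Set (W G)} {s : S} {x : W G} (hx : x ∈ Ω) (hs : x * gen G s ∈ Ω) :
    foldStep Ω s x = x * gen G s := by
  unfold foldStep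
  rw [if_pos ⟨hx, hs⟩]

theorem foldStep_neg {Ω : Set (W G)} {s : S} {x : W G} (h : ¬(x ∈ Ω ∧ x * gen G s ∈ Ω)) :
    foldStep Ω s x = x := by
  unfold foldStep
  rw [if_neg h]

theorem foldStep_inv (Ω : Set (W G)) (s : S) (x : W G) : foldStep Ω s (foldStep Ω s x) = x := by
  by_cases h : x ∈ Ω ∧ x * gen G s ∈ Ω
  · rw [foldStep_pos h.1 h.2, foldStep_pos h.2 (by rw [mul_gen_gen]; exact h.1), mul_gen_gen]
  · rw [foldStep_neg h, foldStep_neg h]

theorem foldStep_mem {Ω : Set (W G)} (s : S) {x : W G} (hx : x ∈ Ω) : foldStep Ω s x ∈ Ω := by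
  by_cases h : x * gen G s ∈ Ω
  · rw [foldStep_pos hx h]; exact h
  · rw [foldStep_neg fun e => h e.2]; exact hx

/-- a common neighbour of two points of a convex set -/
theorem Cvx.corner {Ω : Set (W G)} (hΩ : Cvx Ω) {s t : S} (hst : s ≠ t) {x : W G}
    (hs : x * gen G s ∈ Ω) (ht : x * gen G t ∈ Ω) : x ∈ Ω := by
  refine hΩ _ hs _ ht fun k hk => ?_
  rw [sep_comm, sep_gen, Finset.mem_singleton] at hk
  rw [mem_sep_mul_gen, sep_comm, sep_gen, Finset.mem_singleton, hk]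
  exact Or.inl ⟨rfl, fun e => hst (hyp_label_eq e)⟩

/-- the fourth corner of a square -/
theorem Cvx.square {Ω : Set (W G)} (hΩ : Cvx Ω) {s t : S} (h : G.Adj s t) {x : W G}
    (hs : x * gen G s ∈ Ω) (ht : x * gen G t ∈ Ω) : x * gen G s * gen G t ∈ Ω := by
  refine hΩ.corner h.ne (x := x * gen G s * gen G t) ?_ (by rw [mul_gen_gen]; exact hs)
  rw [mul_assoc x, gen_comm_of_adj h, ← mul_assoc, mul_gen_gen]
  exact ht

theorem foldStep_comm {Ω : Set (W G)} (hΩ : Cvx Ω) (s t : S) (h : G.Adj s t) (x : W G) :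
    foldStep Ω s (foldStep Ω t x) = foldStep Ω t (foldStep Ω s x) := by
  have hc : x * gen G t * gen G s = x * gen G s * gen G t := by
    rw [mul_assoc, mul_assoc, gen_comm_of_adj h]
  by_cases hx : x ∈ Ω
  · by_cases ha : x * gen G s ∈ Ω
    · by_cases hb : x * gen G t ∈ Ω
      · have h1 := hΩ.square h ha hb
        rw [foldStep_pos hx ha, foldStep_pos hx hb, foldStep_pos ha h1,
          foldStep_pos hb (by rw [hc]; exact h1), hc]
      · have h1 : x * gen G s * gen G t ∉ Ω := fun e =>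
          hb (hΩ.corner h.ne (by rw [hc]; exact e) (by rw [mul_gen_gen]; exact hx))
        rw [foldStep_neg (s := t) (x := x) fun e => hb e.2, foldStep_pos hx ha,
          foldStep_neg fun e => h1 e.2]
    · rw [foldStep_neg (s := s) (x := x) fun e => ha e.2]
      by_cases hb : x * gen G t ∈ Ω
      · have h1 : x * gen G t * gen G s ∉ Ω := fun e =>
          ha (hΩ.corner h.ne (by rw [mul_gen_gen]; exact hx) (by rw [← hc]; exact e))
        rw [foldStep_pos hx hb, foldStep_neg fun e => h1 e.2]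
      · rw [foldStep_neg (s := t) (x := x) fun e => hb e.2, foldStep_neg fun e => ha e.2]
  · rw [foldStep_neg (s := t) (x := x) fun e => hx e.1,
      foldStep_neg (s := s) (x := x) fun e => hx e.1, foldStep_neg fun e => hx e.1]

theorem foldStep_smul (Ω : Set (W G)) (s : S) (a x : W G) :
    foldStep (a • Ω) s (a * x) = a * foldStep Ω s x := by
  have e : ∀ y : W G, a * y ∈ a • Ω ↔ y ∈ Ω := fun y => Set.smul_mem_smul_set_iff
  by_cases h : x ∈ Ω ∧ x * gen G s ∈ Ω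
  · rw [foldStep_pos h.1 h.2, foldStep_pos ((e _).2 h.1) (by rw [mul_assoc, e]; exact h.2),
      mul_assoc]
  · rw [foldStep_neg h, foldStep_neg (by rw [mul_assoc, e, e]; exact h)]

open Classical in
/-- the folding right action on a convex set -/
noncomputable def fold (Ω : Set (W G)) (x g : W G) : W G :=
  if h : Cvx Ω then ract (foldStep Ω) (foldStep_inv Ω) (foldStep_comm h) x g else x

theorem fold_of_not {Ω : Set (W G)} (h : ¬Cvx Ω) (x g : W G) : fold Ω x g = x := by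
  unfold fold
  rw [dif_neg h]

theorem fold_one (Ω : Set (W G)) (x : W G) : fold Ω x 1 = x := by
  unfold fold
  split_ifs
  · exact ract_one x
  · rfl

theorem fold_mul (Ω : Set (W G)) (x g g' : W G) : fold Ω x (g * g') = fold Ω (fold Ω x g) g' := by
  unfold fold
  split_ifs
  · exact ract_mul x g g'
  · rfl

theorem fold_mul_gen {Ω : Set (W G)} (hΩ : Cvx Ω) (x g : W G) (s : S) :
    fold Ω x (g * gen G s) = foldStep Ω s (fold Ω x g) := by
  unfold fold
  rw [dif_pos hΩ, dif_pos hΩ]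
  exact ract_mul_gen x g s

theorem fold_gen {Ω : Set (W G)} (hΩ : Cvx Ω) (x : W G) (s : S) :
    fold Ω x (gen G s) = foldStep Ω s x := by
  have := fold_mul_gen hΩ x 1 s
  rwa [one_mul, fold_one] at this

theorem fold_mem {Ω : Set (W G)} {x : W G} (hx : x ∈ Ω) (g : W G) : fold Ω x g ∈ Ω := by
  by_cases hΩ : Cvx Ω
  · induction g using W_ind with
    | h1 => rw [fold_one]; exact hx
    | hs g s ih => rw [fold_mul_gen hΩ]; exact foldStep_mem s ih
  · rw [fold_of_not hΩ]; exact hx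

theorem fold_Par (Ω : Set (W G)) (x : W G) {A : Set S} {g : W G} (hg : g ∈ Par G A) :
    x⁻¹ * fold Ω x g ∈ Par G A := by
  by_cases hΩ : Cvx Ω
  · refine Par_ind (P := fun g => x⁻¹ * fold Ω x g ∈ Par G A) (by simp [fold_one]) ?_ hg
    intro g s _ hs ih
    rw [fold_mul_gen hΩ]
    by_cases h : fold Ω x g ∈ Ω ∧ fold Ω x g * gen G s ∈ Ω
    · rw [foldStep_pos h.1 h.2, ← mul_assoc]
      exact Subgroup.mul_mem _ ih (gen_mem_Par hs)
    · rw [foldStep_neg h]; exact ih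
  · rw [fold_of_not hΩ]; simp

theorem fold_geod {Ω : Set (W G)} (hΩ : Cvx Ω) {x y : W G} (hx : x ∈ Ω) (hy : y ∈ Ω) :
    fold Ω x (x⁻¹ * y) = y := by
  induction x using geod_ind (q := y) with
  | h0 => rw [inv_mul_cancel, fold_one]
  | hs p s hs ih =>
    have h1 : p * gen G s ∈ Ω := hΩ p hx y hy (mul_gen_mem_I hs)
    have e : p⁻¹ * y = gen G s * ((p * gen G s)⁻¹ * y) := by
      simp [← mul_assoc, gen_mul_self]
    rw [e, fold_mul, fold_gen hΩ, foldStep_pos hx h1]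
    exact ih h1

theorem fold_smul {Ω : Set (W G)} (hΩ : Cvx Ω) (a x g : W G) :
    fold (a • Ω) (a * x) g = a * fold Ω x g := by
  induction g using W_ind with
  | h1 => rw [fold_one, fold_one]
  | hs g s ih => rw [fold_mul_gen hΩ, fold_mul_gen (hΩ.smul a), ih, foldStep_smul]

theorem fold_inter {Ω : Set (W G)} (hΩ : Cvx Ω) (x : W G) {A : Set S} {g : W G}
    (hg : g ∈ Par G A) : fold Ω x g = fold (Ω ∩ {y | x⁻¹ * y ∈ Par G A}) x g := by
  refine Par_ind (P := fun g => fold Ω x g = fold (Ω ∩ {y | x⁻¹ * y ∈ Par G A}) x g)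
    (by rw [fold_one, fold_one]) ?_ hg
  intro g s hg hs ih
  have h1 := fold_Par Ω x hg
  have h2 : x⁻¹ * (fold Ω x g * gen G s) ∈ Par G A := by
    rw [← mul_assoc]
    exact Subgroup.mul_mem _ h1 (gen_mem_Par hs)
  rw [fold_mul_gen hΩ, fold_mul_gen (hΩ.inter (coset_convex x A)), ← ih]
  by_cases h : fold Ω x g ∈ Ω ∧ fold Ω x g * gen G s ∈ Ω
  · rw [foldStep_pos h.1 h.2, foldStep_pos (Ω := Ω ∩ _) ⟨h.1, h1⟩ ⟨h.2, h2⟩]
  · rw [foldStep_neg h, foldStep_neg (Ω := Ω ∩ _) fun e => h ⟨e.1.1, e.2.1⟩]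

theorem fold_edge {Ω : Set (W G)} (hΩ : Cvx Ω) {x : W G} {c : S} (hx : x ∈ Ω)
    (hc : x * gen G c ∈ Ω) {g : W G} (hg : g ∈ Par G (st G c)) : fold Ω x g * gen G c ∈ Ω := by
  refine Par_ind (P := fun g => fold Ω x g * gen G c ∈ Ω) (by rw [fold_one]; exact hc) ?_ hg
  intro g t _ ht ih
  rw [fold_mul_gen hΩ]
  by_cases h : fold Ω x g ∈ Ω ∧ fold Ω x g * gen G t ∈ Ω
  · rw [foldStep_pos h.1 h.2]
    rcases ht with e | e
    · rw [e, mul_gen_gen]; exact h.1
    · exact hΩ.square e.symm h.2 ih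
  · rw [foldStep_neg h]; exact ih

/-- pointed members of a family of sets -/
abbrev FPair (𝒞 : Set (Set (W G))) : Type := {p : Set (W G) × W G // p.1 ∈ 𝒞 ∧ p.2 ∈ p.1}

/-- orbits of pointed sets -/
def fSetoid (𝒞 : Set (Set (W G))) (D : Subgroup (W G)) : Setoid (FPair 𝒞) where
  r p q := ∃ δ ∈ D, δ • p.1.1 = q.1.1 ∧ δ * p.1.2 = q.1.2
  iseqv :=
    { refl := fun p => ⟨1, D.one_mem, one_smul _ _, one_mul _⟩
      symm := by
        rintro p q ⟨δ, hδ, h1, h2⟩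
        exact ⟨δ⁻¹, D.inv_mem hδ, by rw [← h1, inv_smul_smul], by rw [← h2, inv_mul_cancel_left]⟩
      trans := by
        rintro p q r ⟨δ, hδ, h1, h2⟩ ⟨ε, hε, h3, h4⟩
        exact ⟨ε * δ, D.mul_mem hε hδ, by rw [mul_smul, h1, h3], by rw [mul_assoc, h2, h4]⟩ }

/-- one folding step on pointed sets -/
noncomputable def fStep (𝒞 : Set (Set (W G))) (s : S) (p : FPair 𝒞) : FPair 𝒞 :=
  ⟨(p.1.1, foldStep p.1.1 s p.1.2), p.2.1, foldStep_mem s p.2.2⟩

/-- one folding step on orbits -/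
noncomputable def qStep (𝒞 : Set (Set (W G))) (D : Subgroup (W G)) (s : S) :
    Quotient (fSetoid 𝒞 D) → Quotient (fSetoid 𝒞 D) :=
  Quotient.map' (fStep 𝒞 s) (by
    rintro p q ⟨δ, hδ, h1, h2⟩
    refine ⟨δ, hδ, h1, ?_⟩
    show δ * foldStep p.1.1 s p.1.2 = foldStep q.1.1 s q.1.2
    rw [← h1, ← h2, foldStep_smul])

theorem qStep_mk (𝒞 : Set (Set (W G))) (D : Subgroup (W G)) (s : S) (p : FPair 𝒞) :
    qStep 𝒞 D s (Quotient.mk _ p) = Quotient.mk _ (fStep 𝒞 s p) := rfl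

/-- kernel of the folding action on pairs modulo a cocompact group -/
theorem exists_foldKer [Finite S] (𝒞 : Set (Set (W G))) (D : Subgroup (W G))
    (hc : ∀ Ω ∈ 𝒞, Cvx Ω) (hinv : ∀ δ ∈ D, ∀ Ω ∈ 𝒞, δ • Ω ∈ 𝒞)
    (hfin : ∃ F : Set (Set (W G) × W G), F.Finite ∧
      ∀ Ω ∈ 𝒞, ∀ x ∈ Ω, ∃ δ ∈ D, (δ • Ω, δ * x) ∈ F) :
    ∃ M : Subgroup (W G), M.Normal ∧ M.FiniteIndex ∧
      ∀ g, g ∈ M ↔ ∀ Ω ∈ 𝒞, ∀ x ∈ Ω, ∃ δ ∈ D, δ • Ω = Ω ∧ fold Ω x g = δ * x := by
  have h1 : ∀ s q, qStep 𝒞 D s (qStep 𝒞 D s q) = q := by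
    intro s q
    induction q using Quotient.inductionOn with
    | h p =>
      rw [qStep_mk, qStep_mk]
      congr 1
      exact Subtype.ext (Prod.ext rfl (foldStep_inv _ _ _))
  have h2 : ∀ s t, G.Adj s t → ∀ q, qStep 𝒞 D s (qStep 𝒞 D t q) = qStep 𝒞 D t (qStep 𝒞 D s q) := by
    intro s t h q
    induction q using Quotient.inductionOn with
    | h p =>
      rw [qStep_mk, qStep_mk, qStep_mk, qStep_mk]
      congr 1
      exact Subtype.ext (Prod.ext rfl (foldStep_comm (hc _ p.2.1) s t h _))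
  have key : ∀ (p : FPair 𝒞) (g : W G), ract (qStep 𝒞 D) h1 h2 (Quotient.mk _ p) g =
      Quotient.mk _ (⟨(p.1.1, fold p.1.1 p.1.2 g), p.2.1, fold_mem p.2.2 g⟩ : FPair 𝒞) := by
    intro p g
    induction g using W_ind with
    | h1 =>
      rw [ract_one]
      congr 1
      exact Subtype.ext (Prod.ext rfl (fold_one _ _).symm)
    | hs g s ih =>
      rw [ract_mul_gen, ih, qStep_mk]
      congr 1
      exact Subtype.ext (Prod.ext rfl (fold_mul_gen (hc _ p.2.1) _ _ _).symm)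
  obtain ⟨F, hF, hFm⟩ := hfin
  have hfinQ : Finite (Quotient (fSetoid 𝒞 D)) := by
    have : Finite {p : FPair 𝒞 // p.1 ∈ F} := by
      have := hF.to_subtype
      refine Finite.of_injective (fun p => (⟨p.1.1, p.2⟩ : F)) fun p q e => ?_
      have e' : p.1.1 = q.1.1 := congrArg (fun x : F => x.1) e
      exact Subtype.ext (Subtype.ext e')
    refine Finite.of_surjective
      (fun p : {p : FPair 𝒞 // p.1 ∈ F} => (Quotient.mk _ p.1 : Quotient (fSetoid 𝒞 D))) fun q => ?_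
    induction q using Quotient.inductionOn with
    | h p =>
      obtain ⟨δ, hδ, hm⟩ := hFm _ p.2.1 _ p.2.2
      refine ⟨⟨⟨(δ • p.1.1, δ * p.1.2), hinv δ hδ _ p.2.1, Set.smul_mem_smul_set p.2.2⟩, hm⟩, ?_⟩
      exact Eq.symm (Quotient.sound ⟨δ, hδ, rfl, rfl⟩)
  refine ⟨(ractHom (qStep 𝒞 D) h1 h2).ker, inferInstance, inferInstance, fun g => ?_⟩
  rw [← Subgroup.inv_mem_iff, MonoidHom.mem_ker, Equiv.ext_iff]
  constructor
  · intro h Ω hΩ x hx
    have h3 := (key ⟨(Ω, x), hΩ, hx⟩ g).symm.trans (h (Quotient.mk _ ⟨(Ω, x), hΩ, hx⟩))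
    obtain ⟨δ, hδ, e1, e2⟩ := Quotient.exact h3.symm
    exact ⟨δ, hδ, e1, e2.symm⟩
  · intro h q
    induction q using Quotient.inductionOn with
    | h p =>
      obtain ⟨δ, hδ, e1, e2⟩ := h _ p.2.1 _ p.2.2
      exact (key p g).trans (Eq.symm (Quotient.sound ⟨δ, hδ, e1, e2.symm⟩))

/-- `M` folds all convex sets of diameter at most `R` trivially -/
def Deep (M : Subgroup (W G)) (R : ℕ) : Prop :=
  ∀ g ∈ M, ∀ Ω : Set (W G), Cvx Ω → (∀ a ∈ Ω, ∀ b ∈ Ω, d a b ≤ R) → ∀ x ∈ Ω, fold Ω x g = x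

theorem exists_deep (G : SimpleGraph S) [Finite S] (R : ℕ) :
    ∃ M : Subgroup (W G), M.Normal ∧ M.FiniteIndex ∧ Deep M R := by
  have hb := ball_finite (1 : W G) R
  obtain ⟨M, h1, h2, h3⟩ := exists_foldKer {Ω : Set (W G) | Cvx Ω ∧ Ω ⊆ {q | d 1 q ≤ R}} ⊥
    (fun Ω h => h.1)
    (fun δ hδ Ω h => by rw [Subgroup.mem_bot.1 hδ, one_smul]; exact h)
    ⟨_, hb.finite_subsets.prod hb, fun Ω h x hx =>
      ⟨1, Subgroup.one_mem _, by rw [one_smul, one_mul]; exact ⟨h.2, h.2 hx⟩⟩⟩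
  refine ⟨M, h1, h2, fun g hg Ω hΩ hd x hx => ?_⟩
  have hsub : x⁻¹ • Ω ⊆ {q | d 1 q ≤ R} := by
    rintro _ ⟨y, hy, rfl⟩
    have := hd x hx y hy
    rw [← d_smul x⁻¹, inv_mul_cancel] at this
    exact this
  obtain ⟨δ, hδ, -, e⟩ := (h3 g).1 hg _ ⟨hΩ.smul x⁻¹, hsub⟩ (x⁻¹ * x) (Set.smul_mem_smul_set hx)
  rw [Subgroup.mem_bot.1 hδ, one_mul, fold_smul hΩ] at e
  exact mul_left_cancel e

theorem Deep.mono {M M' : Subgroup (W G)} {R : ℕ} (h : Deep M R) (hle : M' ≤ M) : Deep M' R :=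
  fun g hg => h g (hle hg)

/-- `a` and `b` lie in one coset of the parabolic subgroup of `A` modulo `N` -/
def Rl (N : Subgroup (W G)) (A : Set S) (a b : W G) : Prop := a⁻¹ * b ∈ Par G A ⊔ N

theorem Rl.refl (N : Subgroup (W G)) (A : Set S) (a : W G) : Rl N A a a := by
  simp [Rl]

theorem Rl.symm {N : Subgroup (W G)} {A : Set S} {a b : W G} (h : Rl N A a b) : Rl N A b a := by
  have := Subgroup.inv_mem _ h
  simpa [Rl] using this

theorem Rl.trans {N : Subgroup (W G)} {A : Set S} {a b c : W G} (h : Rl N A a b)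
    (h' : Rl N A b c) : Rl N A a c := by
  have := Subgroup.mul_mem _ h h'
  simpa [Rl, mul_assoc] using this

theorem Rl.mono {N : Subgroup (W G)} {A B : Set S} {a b : W G} (h : Rl N A a b) (hAB : A ⊆ B) :
    Rl N B a b :=
  (sup_le_sup_right (Par_mono hAB) N) h

theorem Rl.of_Par {N : Subgroup (W G)} {A : Set S} {a b : W G} (h : a⁻¹ * b ∈ Par G A) :
    Rl N A a b :=
  (le_sup_left : Par G A ≤ Par G A ⊔ N) h

theorem Rl.exists {N : Subgroup (W G)} (hN : N.Normal) {A : Set S} {a b : W G}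
    (h : Rl N A a b) : ∃ g ∈ Par G A, ∃ m ∈ N, b = a * g * m := by
  obtain ⟨g, hg, m, hm, e⟩ := Subgroup.mem_sup_of_normal_right.1 h
  exact ⟨g, hg, m, hm, by rw [mul_assoc, e, mul_inv_cancel_left]⟩

theorem d_le_of_mem_I {a b u v : W G} (hu : u ∈ I a b) (hv : v ∈ I a b) : d u v ≤ d a b := by
  refine Finset.card_le_card fun k hk => ?_
  rw [mem_sep_trans u a v, sep_comm u a] at hk
  rcases hk with x | x
  · exact hu x.1
  · exact hv x.1

theorem Deep.fold_I {N : Subgroup (W G)} {R : ℕ} (h : Deep N R) {a b x m : W G}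
    (hd : d a b ≤ R) (hx : x ∈ I a b) (hm : m ∈ N) : fold (I a b) x m = x :=
  h m hm _ (I_convex a b) (fun _ hu _ hv => (d_le_of_mem_I hu hv).trans hd) x hx

theorem Deep.disp {N : Subgroup (W G)} {R : ℕ} (hN : N.Normal) (h : Deep N R) {g y : W G}
    (hg : g ∈ N) (hd : d y (g * y) ≤ R) : g = 1 := by
  have hm : y⁻¹ * (g * y) ∈ N := by
    rw [← mul_assoc]
    exact hN.conj_mem' g hg y
  have h1 := h.fold_I hd (left_mem_I _ _) hm
  rw [fold_geod (I_convex _ _) (left_mem_I _ _) (right_mem_I _ _)] at h1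
  exact mul_eq_right.1 h1

theorem Deep.ex2 {N : Subgroup (W G)} {R : ℕ} (hN : N.Normal) (h : Deep N R) {A B : Set S}
    {a u b : W G} (hd : d a b ≤ R) (h1 : Rl N A a u) (h2 : Rl N B u b) :
    ∃ u' ∈ I a b, a⁻¹ * u' ∈ Par G A ∧ u'⁻¹ * b ∈ Par G B := by
  obtain ⟨g, hg, m, hm, e1⟩ := h1.exists hN
  obtain ⟨g', hg', m', hm', e2⟩ := h2.exists hN
  have e : a⁻¹ * b = g * m * g' * m' := by rw [e2, e1]; group
  have ha := left_mem_I a b
  have h3 := fold_geod (I_convex a b) ha (right_mem_I a b)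
  rw [e, fold_mul, fold_mul, fold_mul, h.fold_I hd (fold_mem ha g) hm,
    h.fold_I hd (fold_mem (fold_mem ha g) g') hm'] at h3
  refine ⟨fold (I a b) a g, fold_mem ha g, fold_Par _ _ hg, ?_⟩
  have h4 := fold_Par (I a b) (fold (I a b) a g) hg'
  rwa [h3] at h4

theorem Deep.ex1 {N : Subgroup (W G)} {R : ℕ} (hN : N.Normal) (h : Deep N R) {A : Set S}
    {a b : W G} (hd : d a b ≤ R) (h1 : Rl N A a b) : a⁻¹ * b ∈ Par G A := by
  obtain ⟨u, -, h2, h3⟩ := h.ex2 hN hd h1 (Rl.refl N A b)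
  have := Subgroup.mul_mem _ h2 h3
  simpa [mul_assoc] using this

end Pool.Agent.MP_c34dea_an.H66
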