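import Pool.Agent.MP_c34dea_an.H66.Retr

set_option autoImplicit false

open scoped symmDiff Pointwise

namespace Pool.Agent.MP_c34dea_an.H66

variable {S : Type} {G : SimpleGraph S}

namespace C2

open Classical in
/-- parity of the number of hyperplanes of `T` separating `1` from `g` -/
noncomputable def ev (T : Set (Hyp G)) (g : W G) : ZMod 2 :=
  ∑ h ∈ sep 1 g, if h ∈ T then 1 else 0

theorem ev_one (T : Set (Hyp G)) : ev T 1 = 0 := by simp [ev]

open Classical in
theorem ev_mul_gen (T : Set (Hyp G)) (g : W G) (s : S) :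
    ev T (g * gen G s) = ev T g + if hyp g s ∈ T then 1 else 0 := by
  unfold ev
  rw [sep_mul_gen]
  by_cases h : hyp g s ∈ sep 1 g
  · have e : sep 1 g ∆ {hyp g s} = (sep 1 g).erase (hyp g s) := by
      ext k
      rw [Finset.mem_symmDiff, Finset.mem_erase, Finset.mem_singleton]
      constructor
      · rintro (x | x)
        · exact ⟨x.2, x.1⟩
        · exact absurd (x.1 ▸ h) x.2
      · intro x
        exact Or.inl ⟨x.2, x.1⟩
    rw [e, ← Finset.sum_erase_add _ _ h, add_assoc, CharTwo.add_self_eq_zero, add_zero]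
  · have e : sep 1 g ∆ {hyp g s} = insert (hyp g s) (sep 1 g) := by
      ext k
      rw [Finset.mem_symmDiff, Finset.mem_insert, Finset.mem_singleton]
      constructor
      · rintro (x | x)
        · exact Or.inr x.1
        · exact Or.inl x.1
      · rintro (x | x)
        · exact Or.inr ⟨x, x ▸ h⟩
        · exact Or.inl ⟨x, fun y => h (y ▸ x)⟩
    rw [e, Finset.sum_insert h, add_comm]

theorem ev_mul_gen_pos {T : Set (Hyp G)} {g : W G} {s : S} (h : hyp g s ∈ T) :
    ev T (g * gen G s) = ev T g + 1 := by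
  rw [ev_mul_gen, if_pos h]

theorem ev_mul_gen_neg {T : Set (Hyp G)} {g : W G} {s : S} (h : hyp g s ∉ T) :
    ev T (g * gen G s) = ev T g := by
  rw [ev_mul_gen, if_neg h, add_zero]

/-- the preimage of a set of hyperplanes under a translation -/
def pull (T : Set (Hyp G)) (g : W G) : Set (Hyp G) := {h | g • h ∈ T}

theorem ev_mul (T : Set (Hyp G)) (g g' : W G) : ev T (g * g') = ev T g + ev (pull T g) g' := by
  induction g' using W_ind with
  | h1 => simp [ev_one]
  | hs g' s ih =>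
    rw [← mul_assoc]
    by_cases h : hyp (g * g') s ∈ T
    · rw [ev_mul_gen_pos h, ev_mul_gen_pos (show hyp g' s ∈ pull T g from h), ih, add_assoc]
    · rw [ev_mul_gen_neg h, ev_mul_gen_neg (show hyp g' s ∉ pull T g from h), ih]

theorem ev_congr {T T' : Set (Hyp G)} {A : Set S}
    (h : ∀ x ∈ Par G A, ∀ s ∈ A, hyp x s ∈ T ↔ hyp x s ∈ T') {g : W G} (hg : g ∈ Par G A) :
    ev T g = ev T' g := by
  refine Par_ind (P := fun g => ev T g = ev T' g) (by simp [ev_one]) ?_ hg
  intro g s hg hs ih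
  by_cases e : hyp g s ∈ T
  · rw [ev_mul_gen_pos e, ev_mul_gen_pos ((h g hg s hs).1 e), ih]
  · rw [ev_mul_gen_neg e, ev_mul_gen_neg (fun x => e ((h g hg s hs).2 x)), ih]

theorem ev_empty (g : W G) : ev (∅ : Set (Hyp G)) g = 0 := by simp [ev]

theorem ev_eq_zero {T : Set (Hyp G)} {A : Set S}
    (h : ∀ x ∈ Par G A, ∀ s ∈ A, hyp x s ∉ T) {g : W G} (hg : g ∈ Par G A) : ev T g = 0 := by
  rw [ev_congr (T' := ∅) (fun x hx s hs => by simp [h x hx s hs]) hg, ev_empty]

/-- invariant sets of hyperplanes with label `z` -/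
def Adm (K : Subgroup (W G)) (z : S) (T : Set (Hyp G)) : Prop :=
  (∀ h ∈ T, h.1 = z) ∧ ∀ k ∈ K, ∀ h ∈ T, k • h ∈ T

theorem Adm.pull_eq {K : Subgroup (W G)} {z : S} {T : Set (Hyp G)} (hT : Adm K z T) {k : W G}
    (hk : k ∈ K) : pull T k = T := by
  ext h
  constructor
  · intro x
    have := hT.2 k⁻¹ (K.inv_mem hk) _ x
    simpa using this
  · exact hT.2 k hk h

theorem Adm.pull {K : Subgroup (W G)} (hK : K.Normal) {z : S} {T : Set (Hyp G)} (hT : Adm K z T)
    (a : W G) : Adm K z (pull T a) := by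
  refine ⟨fun h hh => hT.1 (a • h) hh, fun k hk h hh => ?_⟩
  have := hT.2 _ (hK.conj_mem k hk a) _ hh
  show a • k • h ∈ T
  simpa [mul_smul] using this

theorem Adm.ev_compl {K : Subgroup (W G)} {z : S} {T : Set (Hyp G)} (hT : Adm K z T) {g : W G}
    (hg : g ∈ Par G {z}ᶜ) : ev T g = 0 :=
  ev_eq_zero (A := {z}ᶜ) (fun x _ s hs h => hs (hT.1 (hyp x s) h)) hg

/-- elements of `K` with vanishing lamp vector at the letter `z` -/
noncomputable def LK (K : Subgroup (W G)) (z : S) : Subgroup (W G) where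
  carrier := {g | g ∈ K ∧ ∀ T, Adm K z T → ev T g = 0}
  one_mem' := ⟨K.one_mem, fun T _ => ev_one T⟩
  mul_mem' := by
    rintro a b ⟨ha, ha'⟩ ⟨hb, hb'⟩
    refine ⟨K.mul_mem ha hb, fun T hT => ?_⟩
    rw [ev_mul, hT.pull_eq ha, ha' T hT, hb' T hT, add_zero]
  inv_mem' := by
    rintro a ⟨ha, ha'⟩
    refine ⟨K.inv_mem ha, fun T hT => ?_⟩
    have := ev_mul T a a⁻¹
    rw [mul_inv_cancel, ev_one, hT.pull_eq ha, ha' T hT, zero_add] at this
    exact this.symm

theorem mem_LK {K : Subgroup (W G)} {z : S} {g : W G} :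
    g ∈ LK K z ↔ g ∈ K ∧ ∀ T, Adm K z T → ev T g = 0 := Iff.rfl

theorem LK_mono {K K' : Subgroup (W G)} (h : K ≤ K') (z : S) : LK K z ≤ LK K' z :=
  fun _ hg => ⟨h hg.1, fun T hT => hg.2 T ⟨hT.1, fun k hk => hT.2 k (h hk)⟩⟩

theorem LK_normal {K : Subgroup (W G)} (hK : K.Normal) (z : S) : (LK K z).Normal := by
  refine ⟨fun g hg a => ⟨hK.conj_mem g hg.1 a, fun T hT => ?_⟩⟩
  have h1 := hT.pull hK a
  have h2 := ev_mul T a a⁻¹
  rw [mul_inv_cancel, ev_one] at h2
  rw [mul_assoc, ev_mul, ev_mul, h1.pull_eq hg.1, hg.2 _ h1, zero_add]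
  exact h2.symm

theorem finiteIndex_of_map {H : Type} [Group H] (Z : Subgroup H) {F : Type} [Finite F] (f : H → F)
    (h : ∀ a b, f a = f b → a⁻¹ * b ∈ Z) : Z.FiniteIndex := by
  have : Finite (H ⧸ Z) := by
    refine Finite.of_injective (fun q : H ⧸ Z => f q.out) fun q q' e => ?_
    rw [← q.out_eq', ← q'.out_eq']
    exact QuotientGroup.eq.2 (h _ _ e)
  exact Subgroup.finiteIndex_of_finite_quotient

theorem LK_finiteIndex {K : Subgroup (W G)} (hK : K.Normal) (hf : K.FiniteIndex) (z : S) :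
    (LK K z).FiniteIndex := by
  have fin : Finite {T : Set (Hyp G) // Adm K z T} := by
    refine Finite.of_injective
      (fun T : {T : Set (Hyp G) // Adm K z T} => {q : W G ⧸ K | hyp q.out z ∈ T.1}) ?_
    have key : ∀ T T' : {T : Set (Hyp G) // Adm K z T},
        {q : W G ⧸ K | hyp q.out z ∈ T.1} = {q : W G ⧸ K | hyp q.out z ∈ T'.1} → T.1 ⊆ T'.1 := by
      intro T T' e h hh
      obtain ⟨x, hx⟩ := exists_hyp h
      rw [T.2.1 h hh] at hx
      obtain ⟨k, hk⟩ := QuotientGroup.mk_out_eq_mul K x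
      have h1 : hyp (x : W G ⧸ K).out z = (x * k * x⁻¹) • h := by
        rw [hk, ← hx, smul_hyp]
        simp
      have hk' : x * k * x⁻¹ ∈ K := hK.conj_mem _ k.2 x
      have h2 : (x : W G ⧸ K) ∈ {q : W G ⧸ K | hyp q.out z ∈ T.1} := by
        show hyp (x : W G ⧸ K).out z ∈ T.1
        rw [h1]
        exact T.2.2 _ hk' h hh
      rw [e] at h2
      have h3 : hyp (x : W G ⧸ K).out z ∈ T'.1 := h2
      rw [h1] at h3
      have h4 : h ∈ pull T'.1 (x * k * x⁻¹) := h3
      rwa [T'.2.pull_eq hk'] at h4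
    intro T T' e
    exact Subtype.ext (Set.Subset.antisymm (key T T' e) (key T' T e.symm))
  refine finiteIndex_of_map (LK K z)
    (fun g => ((g : W G ⧸ K), fun T : {T : Set (Hyp G) // Adm K z T} => ev T.1 g)) ?_
  intro a b e
  have e1 : a⁻¹ * b ∈ K := QuotientGroup.eq.1 (congrArg Prod.fst e)
  refine ⟨e1, fun T hT => ?_⟩
  have h1 := hT.pull hK a⁻¹
  have e2 : ev (pull T a⁻¹) a = ev (pull T a⁻¹) b := congrFun (congrArg Prod.snd e) ⟨_, h1⟩
  have h2 := ev_mul T a⁻¹ a
  rw [inv_mul_cancel, ev_one] at h2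
  rw [ev_mul, ← e2]
  exact h2.symm

theorem exists_of_mem_sup {K : Subgroup (W G)} (hK : K.Normal) {P : Subgroup (W G)} {w : W G}
    (h : w ∈ P ⊔ K) : ∃ c ∈ P, ∃ k ∈ K, w = c * k := by
  have h1 : w ∈ ((P ⊔ K : Subgroup (W G)) : Set (W G)) := h
  rw [Subgroup.mul_normal] at h1
  obtain ⟨c, hc, k, hk, e⟩ := h1
  exact ⟨c, hc, k, hk, e.symm⟩

/-- transfer of the lamp condition to a smaller group on a parabolic subgroup -/
theorem LK_transfer {K K' : Subgroup (W G)} (hK : K.Normal) (hK' : K'.Normal) {z : S} {A : Set S}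
    (h : ∀ w ∈ Par G A, ∀ c ∈ Par G (st G z), ∀ k ∈ K', w = c * k →
      ∃ c' ∈ Par G (st G z), ∃ k' ∈ K, w = c' * k')
    {g : W G} (hA : g ∈ Par G A) (hg : g ∈ LK K' z) (hgK : g ∈ K) : g ∈ LK K z := by
  refine ⟨hgK, fun T hT => ?_⟩
  have hT' : Adm K' z {h | ∃ k ∈ K', ∃ x ∈ Par G A, hyp x z ∈ T ∧ h = k • hyp x z} := by
    constructor
    · rintro _ ⟨k, -, x, -, -, rfl⟩
      rfl
    · rintro k hk _ ⟨k', hk', x, hx, hx', rfl⟩
      exact ⟨k * k', K'.mul_mem hk hk', x, hx, hx', by rw [mul_smul]⟩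
  rw [← hg.2 _ hT']
  refine ev_congr (fun x hx s _ => ⟨fun e => ?_, ?_⟩) hA
  · have e1 : s = z := hT.1 _ e
    subst e1
    exact ⟨1, K'.one_mem, x, hx, e, by rw [one_smul]⟩
  · rintro ⟨k, hk, y, hy, hy', e⟩
    rw [smul_hyp] at e
    have e1 : s = z := hyp_label_eq e
    subst e1
    have e2 := hyp_eq_iff.1 e
    obtain ⟨c, hc, k', hk', e3⟩ := h (x⁻¹ * y) (Subgroup.mul_mem _ (Subgroup.inv_mem _ hx) hy)
      _ e2 (y⁻¹ * k⁻¹ * y⁻¹⁻¹) (hK'.conj_mem _ (K'.inv_mem hk) _) (by group)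
    have e4 : hyp x s = (y * k'⁻¹ * y⁻¹) • hyp y s := by
      rw [smul_hyp, hyp_eq_iff]
      have : x⁻¹ * (y * k'⁻¹ * y⁻¹ * y) = (x⁻¹ * y) * k'⁻¹ := by group
      rw [this, e3]
      simpa using hc
    rw [e4]
    exact hT.2 _ (hK.conj_mem _ (K.inv_mem hk') _) _ hy'

/-- elements all of whose retractions inside `U` lie in `M` -/
noncomputable def M0 (M : Subgroup (W G)) (U : Set S) : Subgroup (W G) :=
  ⨅ U' : {U' : Set S // U' ⊆ U}, M.comap (retr G U'.1)

theorem mem_M0 {M : Subgroup (W G)} {U : Set S} {g : W G} :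
    g ∈ M0 M U ↔ ∀ U' ⊆ U, retr G U' g ∈ M := by
  unfold M0
  rw [Subgroup.mem_iInf]
  exact ⟨fun h U' hU => h ⟨U', hU⟩, fun h U' => h U'.1 U'.2⟩

theorem ncard_lt [Finite S] {U : Set S} {z : S} (hz : z ∈ U) : (U \ {z}).ncard < U.ncard :=
  Set.ncard_lt_ncard ⟨Set.sdiff_subset, fun h => (h hz).2 rfl⟩ (Set.toFinite U)

/-- the lamp recursion -/
noncomputable def NU [Finite S] (M : Subgroup (W G)) (U : Set S) : Subgroup (W G) :=
  M0 M U ⊓ ⨅ z : U, LK (NU M (U \ {z.1})) z.1
termination_by U.ncard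
decreasing_by exact ncard_lt z.2

variable [Finite S]

theorem mem_NU {M : Subgroup (W G)} {U : Set S} {g : W G} :
    g ∈ NU M U ↔ g ∈ M0 M U ∧ ∀ z ∈ U, g ∈ LK (NU M (U \ {z})) z := by
  rw [NU, Subgroup.mem_inf, Subgroup.mem_iInf]
  exact and_congr Iff.rfl ⟨fun h z hz => h ⟨z, hz⟩, fun h z => h z.1 z.2⟩

theorem set_ind {P : Set S → Prop} (h : ∀ U, (∀ z ∈ U, P (U \ {z})) → P U) (U : Set S) : P U := by
  induction hn : U.ncard using Nat.strong_induction_on generalizing U with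
  | _ n ih => exact h U fun z hz => ih _ (hn ▸ ncard_lt hz) _ rfl

theorem NU_normal {M : Subgroup (W G)} (hM : M.Normal) (U : Set S) : (NU M U).Normal := by
  induction U using set_ind with
  | h U ih =>
    refine ⟨fun g hg a => ?_⟩
    rw [mem_NU] at hg ⊢
    refine ⟨?_, fun z hz => (LK_normal (ih z hz) z).conj_mem g (hg.2 z hz) a⟩
    rw [mem_M0]
    intro U' hU'
    rw [map_mul, map_mul, map_inv]
    exact hM.conj_mem _ (mem_M0.1 hg.1 U' hU') _

theorem NU_finiteIndex {M : Subgroup (W G)} (hM : M.Normal) (hf : M.FiniteIndex) (U : Set S) :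
    (NU M U).FiniteIndex := by
  induction U using set_ind with
  | h U ih =>
    have h1 : (M0 M U).FiniteIndex := by
      refine Subgroup.finiteIndex_iInf fun U' => ?_
      refine finiteIndex_of_map _ (fun g => ((retr G U'.1 g : W G) : W G ⧸ M)) fun a b e => ?_
      have := QuotientGroup.eq.1 e
      rw [Subgroup.mem_comap, map_mul, map_inv]
      exact this
    have h2 : (⨅ z : U, LK (NU M (U \ {z.1})) z.1).FiniteIndex :=
      Subgroup.finiteIndex_iInf fun z => LK_finiteIndex (NU_normal hM _) (ih z.1 z.2) _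
    rw [NU]
    infer_instance

theorem gen_mem_NU (M : Subgroup (W G)) (U : Set S) : ∀ s ∉ U, gen G s ∈ NU M U := by
  induction U using set_ind with
  | h U ih =>
    intro s hs
    rw [mem_NU, mem_M0]
    refine ⟨fun U' hU' => ?_, fun z hz => ⟨ih z hz s fun x => hs x.1, fun T hT => ?_⟩⟩
    · rw [retr_gen_of_not_mem fun x => hs (hU' x)]
      exact M.one_mem
    · refine hT.ev_compl (gen_mem_Par ?_)
      rintro rfl
      exact hs hz

theorem inv_mul_retr_mem {M : Subgroup (W G)} (hM : M.Normal) (U : Set S) (g : W G) :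
    g⁻¹ * retr G U g ∈ NU M U := by
  induction g using W_ind with
  | h1 => simp
  | hs g s ih =>
    by_cases hs : s ∈ U
    · have := (NU_normal hM U).conj_mem _ ih (gen G s)⁻¹
      rw [map_mul, retr_gen_of_mem hs, mul_inv_rev]
      simpa only [inv_inv, mul_assoc] using this
    · have := Subgroup.mul_mem _ (Subgroup.inv_mem _ (gen_mem_NU M U s hs)) ih
      rw [map_mul, retr_gen_of_not_mem hs, mul_inv_rev, mul_one]
      simpa only [mul_assoc] using this

theorem retr_mem_NU {M : Subgroup (W G)} (hM : M.Normal) {U : Set S} {g : W G} :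
    retr G U g ∈ NU M U ↔ g ∈ NU M U := by
  have h := inv_mul_retr_mem hM U g
  constructor
  · intro x
    have := Subgroup.mul_mem _ x (Subgroup.inv_mem _ h)
    simpa using this
  · intro x
    have := Subgroup.mul_mem _ x h
    simpa using this

theorem NU_anti (M : Subgroup (W G)) (U : Set S) : ∀ U' ⊆ U, NU M U ≤ NU M U' := by
  induction U using set_ind with
  | h U ih =>
    intro U' hU' g hg
    by_cases e : U ⊆ U'
    · rwa [Set.Subset.antisymm hU' e]
    · obtain ⟨z, hz, hz'⟩ := Set.not_subset.1 e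
      refine ih z hz U' (fun x hx => ⟨hU' hx, ?_⟩) ((mem_NU.1 hg).2 z hz).1
      rintro rfl
      exact hz' hx

theorem NU_up {M : Subgroup (W G)} (hM : M.Normal) (U : Set S) :
    ∀ U' ⊆ U, ∀ g ∈ NU M U', g ∈ Par G U' → g ∈ NU M U := by
  induction U using set_ind with
  | h U ih =>
    intro U' hU' g hg hP
    rw [mem_NU, mem_M0]
    refine ⟨fun V _ => ?_, fun z hz => ?_⟩
    · rw [← retr_of_mem_Par hP, retr_retr]
      exact mem_M0.1 (mem_NU.1 hg).1 _ Set.inter_subset_right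
    · by_cases hz' : z ∈ U'
      · have hsub : U' \ {z} ⊆ U \ {z} := Set.sdiff_subset_sdiff_left hU'
        have hr : ∀ w ∈ Par G U', retr G (U \ {z}) w = retr G (U' \ {z}) w := by
          intro w hw
          have e : (U \ {z}) ∩ U' = U' \ {z} := by
            ext x
            exact ⟨fun h => ⟨h.2, h.1.2⟩, fun h => ⟨hsub h, h.1⟩⟩
          conv_lhs => rw [← retr_of_mem_Par hw, retr_retr, e]
        have hk : ∀ k ∈ NU M (U' \ {z}), retr G (U' \ {z}) k ∈ NU M (U \ {z}) := fun k hk =>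
          ih z hz _ hsub _ ((retr_mem_NU hM).2 hk) (retr_mem_Par _ _)
        have hg' := (mem_NU.1 hg).2 z hz'
        refine LK_transfer (NU_normal hM _) (NU_normal hM _) ?_ hP hg' ?_
        · intro w hw c hc k hk' e
          refine ⟨retr G (U' \ {z}) c,
            Par_mono Set.inter_subset_right (retr_mem_Par_inter hc),
            retr G (U' \ {z}) k * (w⁻¹ * retr G (U \ {z}) w)⁻¹,
            Subgroup.mul_mem _ (hk k hk') (Subgroup.inv_mem _ (inv_mul_retr_mem hM _ w)), ?_⟩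
          rw [← mul_assoc, ← map_mul, ← e, hr w hw]
          simp
        · rw [← retr_mem_NU hM, hr g hP]
          exact hk g hg'.1
      · refine ⟨ih z hz U' (fun x hx => ⟨hU' hx, ?_⟩) g hg hP, fun T hT => ?_⟩
        · rintro rfl
          exact hz' hx
        · refine hT.ev_compl (Par_mono (fun x hx => ?_) hP)
          rintro rfl
          exact hz' hx

theorem NU_mono {M M' : Subgroup (W G)} (h : M ≤ M') (U : Set S) : NU M U ≤ NU M' U := by
  induction U using set_ind with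
  | h U ih =>
    intro g hg
    rw [mem_NU, mem_M0] at hg ⊢
    exact ⟨fun U' hU' => h (hg.1 U' hU'), fun z hz => LK_mono (ih z hz) z (hg.2 z hz)⟩

theorem NU_local {M M' : Subgroup (W G)} {D : Set S} (h : M ⊓ Par G D = M' ⊓ Par G D)
    (U : Set S) : U ⊆ D → NU M U = NU M' U := by
  induction U using set_ind with
  | h U ih =>
    intro hU
    ext g
    rw [mem_NU, mem_NU, mem_M0, mem_M0]
    refine and_congr (forall₂_congr fun U' hU' => ?_) (forall₂_congr fun z hz => ?_)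
    · have hP : retr G U' g ∈ Par G D := Par_mono (hU'.trans hU) (retr_mem_Par _ _)
      constructor
      · intro x
        have : retr G U' g ∈ M ⊓ Par G D := ⟨x, hP⟩
        rw [h] at this
        exact this.1
      · intro x
        have : retr G U' g ∈ M' ⊓ Par G D := ⟨x, hP⟩
        rw [← h] at this
        exact this.1
    · rw [ih z hz (Set.sdiff_subset.trans hU)]

theorem NU_inf_Par {M : Subgroup (W G)} (hM : M.Normal) (D : Set S) :
    NU M Set.univ ⊓ Par G D = NU M D ⊓ Par G D := by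
  ext g
  exact ⟨fun x => ⟨NU_anti M _ D (Set.subset_univ D) x.1, x.2⟩,
    fun x => ⟨NU_up hM _ D (Set.subset_univ D) g x.1 x.2, x.2⟩⟩

theorem retr_NU {M : Subgroup (W G)} (hM : M.Normal) : Retr (NU M Set.univ) where
  normal := NU_normal hM _
  retr := fun U g hg => NU_up hM _ U (Set.subset_univ U) _
    ((retr_mem_NU hM).2 (NU_anti M _ U (Set.subset_univ U) hg)) (retr_mem_Par _ _)
  se := by
    intro z B l r hl hr h
    obtain ⟨b, hb, m, hm, e⟩ := exists_of_mem_sup (NU_normal hM _) h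
    have hK := NU_normal hM (Set.univ \ {z})
    have hm' := (mem_NU.1 hm).2 z trivial
    have hT : Adm (NU M (Set.univ \ {z})) z {h | ∃ k ∈ NU M (Set.univ \ {z}), h = k • hyp l z} := by
      constructor
      · rintro _ ⟨k, -, rfl⟩
        rfl
      · rintro k hk _ ⟨k', hk', rfl⟩
        exact ⟨k * k', Subgroup.mul_mem _ hk hk', by rw [mul_smul]⟩
    have h1 := ev_mul {h | ∃ k ∈ NU M (Set.univ \ {z}), h = k • hyp l z} (l * gen G z) r
    have h0 : hyp l z ∈ {h | ∃ k ∈ NU M (Set.univ \ {z}), h = k • hyp l z} :=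
      ⟨1, Subgroup.one_mem _, by rw [one_smul]⟩
    rw [(hT.pull hK _).ev_compl hr, add_zero,
      ev_mul_gen_pos h0, hT.ev_compl hl, zero_add, e,
      ev_mul, hm'.2 _ (hT.pull hK b), add_zero] at h1
    have h2 : ∃ x ∈ Par G B, ∃ s ∈ B,
        hyp x s ∈ {h | ∃ k ∈ NU M (Set.univ \ {z}), h = k • hyp l z} := by
      by_contra hc
      have h3 := ev_eq_zero (T := {h | ∃ k ∈ NU M (Set.univ \ {z}), h = k • hyp l z})
        (fun x hx s hs h => hc ⟨x, hx, s, hs, h⟩) hb
      rw [h3] at h1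
      exact zero_ne_one h1
    obtain ⟨x, hx, s, hs, k, hk, e1⟩ := h2
    rw [smul_hyp] at e1
    have e2 : s = z := hyp_label_eq e1
    subst e2
    have e3 := hyp_eq_iff.1 e1
    have hk' : l⁻¹ * k⁻¹ * l⁻¹⁻¹ ∈ NU M (Set.univ \ {s}) :=
      hK.conj_mem _ (Subgroup.inv_mem _ hk) _
    have hl' : l ∈ Par G (Set.univ \ {s}) :=
      Par_mono (B := Set.univ \ {s}) (fun x hx => ⟨trivial, hx⟩) hl
    refine ⟨hs, retr G (Set.univ \ {s}) x,
      Par_mono Set.inter_subset_right (retr_mem_Par_inter hx),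
      retr G (Set.univ \ {s}) (x⁻¹ * (k * l)),
      Par_mono Set.inter_subset_right (retr_mem_Par_inter e3),
      retr G (Set.univ \ {s}) (l⁻¹ * k⁻¹ * l⁻¹⁻¹),
      NU_up hM _ _ (Set.subset_univ _) _ ((retr_mem_NU hM).2 hk') (retr_mem_Par _ _), ?_⟩
    rw [← map_mul, ← map_mul]
    have : x * (x⁻¹ * (k * l)) * (l⁻¹ * k⁻¹ * l⁻¹⁻¹) = l := by group
    rw [this, retr_of_mem_Par hl']

end C2

/-- existence of the operator `M ↦ N(M)` -/
theorem exists_NM' (G : SimpleGraph S) [Finite S] :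
    ∃ NM : Subgroup (W G) → Subgroup (W G),
      (∀ M, M.Normal → M.FiniteIndex → Retr (NM M) ∧ (NM M).FiniteIndex ∧ NM M ≤ M) ∧
      (∀ M M', M.Normal → M'.Normal → M ≤ M' → NM M ≤ NM M') ∧
      (∀ M M' (D : Set S), M.Normal → M'.Normal → M ⊓ Par G D = M' ⊓ Par G D →
        NM M ⊓ Par G D = NM M' ⊓ Par G D) := by
  refine ⟨fun M => C2.NU M Set.univ, fun M hM hf =>
    ⟨C2.retr_NU hM, C2.NU_finiteIndex hM hf _, fun g hg => ?_⟩,
    fun M M' _ _ h => C2.NU_mono h _, fun M M' D hM hM' h => ?_⟩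
  · have := C2.mem_M0.1 (C2.mem_NU.1 hg).1 Set.univ le_rfl
    rwa [retr_of_mem_Par (by rw [Par_univ]; trivial)] at this
  · show C2.NU M Set.univ ⊓ Par G D = C2.NU M' Set.univ ⊓ Par G D
    rw [C2.NU_inf_Par hM, C2.NU_inf_Par hM', C2.NU_local h D le_rfl]

end Pool.Agent.MP_c34dea_an.H66
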