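import Pool.Agent.MP_c34dea_an.H66.Retr

set_option autoImplicit false

open scoped symmDiff Pointwise

namespace Pool.Agent.MP_c34dea_an.H66

variable {S : Type} {G : SimpleGraph S} {N : Subgroup (W G)}

theorem c3_ex (hN : N.Normal) {A : Set S} {x : W G} (h : x ∈ Par G A ⊔ N) :
    ∃ g ∈ Par G A, ∃ m ∈ N, g * m = x :=
  Subgroup.mem_sup_of_normal_right.1 h

theorem c3_ex' (hN : N.Normal) {A : Set S} {a b : W G} (h : Rl N A a b) :
    ∃ g ∈ Par G A, ∃ m ∈ N, b = a * g * m := by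
  obtain ⟨g, hg, m, hm, e⟩ := c3_ex hN h
  exact ⟨g, hg, m, hm, by rw [mul_assoc, e, mul_inv_cancel_left]⟩

theorem c3_retr (hN : Retr N) (U : Set S) {B : Set S} {x : W G} (h : x ∈ Par G B ⊔ N) :
    retr G U x ∈ Par G (U ∩ B) ⊔ N := by
  obtain ⟨g, hg, m, hm, rfl⟩ := c3_ex hN.normal h
  rw [map_mul]
  exact Subgroup.mul_mem_sup (retr_mem_Par_inter hg) (hN.retr U m hm)

theorem c3_retr' (hN : Retr N) (U : Set S) {A B : Set S} {x : W G} (h : x ∈ Par G B ⊔ N)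
    (hA : U ∩ B ⊆ A) : retr G U x ∈ Par G A ⊔ N :=
  sup_le_sup_right (Par_mono hA) N (c3_retr hN U h)

theorem c3_self (hN : Retr N) {U : Set S} {x : W G} (h : x ∈ Par G U ⊔ N) :
    (retr G U x)⁻¹ * x ∈ N := by
  obtain ⟨g, hg, m, hm, rfl⟩ := c3_ex hN.normal h
  rw [map_mul, retr_of_mem_Par hg, mul_inv_rev, mul_assoc, inv_mul_cancel_left]
  exact N.mul_mem (N.inv_mem (hN.retr U m hm)) hm

theorem Retr.inter' (hN : Retr N) {a b : W G} {A X : Set S}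
    (h1 : Rl N A a b) (h2 : Rl N X a b) : Rl N (A ∩ X) a b := by
  have := Subgroup.mul_mem _ (c3_retr hN A h2) (Subgroup.mem_sup_right (c3_self hN h1))
  rwa [mul_inv_cancel_left] at this

theorem Retr.ret' (hN : Retr N) {a b u1 u2 u3 u4 : W G}
    {X A E A' Y : Set S} (h1 : Rl N X a u1) (h2 : Rl N A u1 u2) (h3 : Rl N E u2 u3)
    (h4 : Rl N A' u3 u4) (h5 : Rl N Y u4 b) (hab : Rl N A a b) (hA' : X ∩ A' ⊆ A)
    (hY : X ∩ Y ⊆ A) : ∃ u, Rl N A a u ∧ Rl N E u u2 := by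
  have hw : Rl N (X ∪ A) a u2 :=
    (h1.mono Set.subset_union_left).trans (h2.mono Set.subset_union_right)
  have a1 := c3_retr' hN (X ∪ A) (A := A) hab Set.inter_subset_right
  have a2 := c3_retr' hN (X ∪ A) (A := A) h4.symm fun s hs => hs.1.elim (fun h => hA' ⟨h, hs.2⟩) id
  have a3 := c3_retr' hN (X ∪ A) (A := A) h5.symm fun s hs => hs.1.elim (fun h => hY ⟨h, hs.2⟩) id
  have a4 := c3_retr' hN (X ∪ A) (A := E) h3 Set.inter_subset_right
  have a6 := hN.normal.mem_comm (c3_self hN hw)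
  refine ⟨u2 * H66.retr G (X ∪ A) (u2⁻¹ * u3), ?_, ?_⟩
  · have := Subgroup.mul_mem _ (Subgroup.mem_sup_right a6)
      (Subgroup.mul_mem _ (Subgroup.mul_mem _ a1 a3) a2)
    simpa [Rl, mul_assoc] using this
  · have := Subgroup.inv_mem _ a4
    simpa [Rl, mul_assoc] using this

theorem Retr.sep3' (hN : Retr N) {a b u u' : W G} {h : Hyp G}
    {B C C' : Set S} (hh : h ∈ sep a b) (hu : ∀ k ∈ sep a b, k.1 = h.1 → k = h)
    (hC : h.1 ∉ C) (hC' : h.1 ∉ C') (h1 : Rl N C a u) (h2 : Rl N B u u') (h3 : Rl N C' u' b) :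
    h.1 ∈ B ∧ ∀ y ∈ car h, ∃ v, Rl N (st G h.1) y v ∧ Rl N B v u := by
  obtain ⟨y0, hy, hc, hn, hy'⟩ := exists_cross_pt hh
  have hl : a⁻¹ * y0 ∈ Par G {h.1}ᶜ := mem_Par_iff.2 fun k hk e => hn (hu k (hy hk) e ▸ hk)
  have hr : (y0 * gen G h.1)⁻¹ * b ∈ Par G {h.1}ᶜ := mem_Par_iff.2 fun k hk e => by
    have e' := hu k (sep_right_subset_of_mem_I hy' hk) e
    have h4 : h ∈ sep a (y0 * gen G h.1) := by
      rw [mem_sep_trans a y0, mem_sep_car_gen hc]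
      simp [hn]
    exact Finset.disjoint_left.1 (mem_I_iff_disjoint.1 hy') h4 (e' ▸ hk)
  obtain ⟨c, hc1, m1, hm1, e1⟩ := c3_ex' hN.normal h1
  obtain ⟨c2, hc2, m2, hm2, e2⟩ := c3_ex' hN.normal h3
  have hc1' : c ∈ Par G {h.1}ᶜ := Par_mono (Set.subset_compl_singleton_iff.2 hC) hc1
  have hc2' : c2 ∈ Par G {h.1}ᶜ := Par_mono (Set.subset_compl_singleton_iff.2 hC') hc2
  have e3 : c⁻¹ * (a⁻¹ * y0) * gen G h.1 * ((y0 * gen G h.1)⁻¹ * b * c2⁻¹) =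
      m1 * (u⁻¹ * u') * (c2 * m2 * c2⁻¹) := by
    generalize gen G h.1 = z
    rw [e1, e2]
    group
  obtain ⟨hB, β, hβ, c0, hc0, m, hm, e⟩ := hN.se h.1 B (c⁻¹ * (a⁻¹ * y0))
    ((y0 * gen G h.1)⁻¹ * b * c2⁻¹) (Subgroup.mul_mem _ (Subgroup.inv_mem _ hc1') hl)
    (Subgroup.mul_mem _ hr (Subgroup.inv_mem _ hc2')) (by
      rw [e3]
      exact Subgroup.mul_mem _ (Subgroup.mul_mem _ (Subgroup.mem_sup_right hm1) h2)
        (Subgroup.mem_sup_right (hN.normal.conj_mem _ hm2 c2)))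
  refine ⟨hB, fun y hy1 => ⟨a * c * β, (Rl.of_Par ((mem_car_iff hy1).1 hc)).trans (Rl.symm ?_), ?_⟩⟩
  · have : (a * c * β)⁻¹ * y0 = c0 * m := by
      rw [mul_assoc β, ← inv_mul_eq_iff_eq_mul] at e
      rw [← e]
      group
    rw [Rl, this]
    exact Subgroup.mul_mem_sup hc0 hm
  · have : (a * c * β)⁻¹ * u = β⁻¹ * m1 := by
      rw [e1]
      group
    rw [Rl, this]
    exact Subgroup.mul_mem_sup (Subgroup.inv_mem _ hβ) hm1

theorem Retr.seh' (hN : Retr N) {a b : W G} {h : Hyp G} {B : Set S}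
    (hh : h ∈ sep a b) (hu : ∀ k ∈ sep a b, k.1 = h.1 → k = h) (hab : Rl N B a b) :
    h.1 ∈ B ∧ ∀ y ∈ car h, ∃ u, Rl N (st G h.1) y u ∧ Rl N B u a :=
  hN.sep3' (C := ∅) (C' := ∅) hh hu id id (Rl.refl _ _ _) hab (Rl.refl _ _ _)

theorem c3_prod (hN : Retr N) {a u u' f : W G} {X Y B : Set S} (h1 : Rl N X a u) (h2 : Rl N B u f)
    (h3 : Rl N Y a u') (h4 : Rl N B u' f) : ∃ v, Rl N (X ∩ Y) a v ∧ Rl N B v f := by
  refine ⟨a * retr G X (a⁻¹ * u'), by simpa [Rl] using c3_retr hN X h3, Rl.trans ?_ h2⟩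
  have := Subgroup.mul_mem _ (c3_retr' hN X (h4.trans h2.symm) Set.inter_subset_right)
    (Subgroup.mem_sup_right (c3_self hN h1))
  simpa [Rl, mul_assoc] using this

theorem Retr.alg1' (hN : Retr N) {a b f : W G} {B : Set S}
    (h : ∀ k ∈ sep a b, k.1 ∈ B ∧ ∃ y ∈ car k, ∃ u, Rl N (st G k.1) y u ∧ Rl N B u f) :
    ∃ u, Rl N (Zs a b) a u ∧ Rl N B u f := by
  induction a using geod_ind (q := b) with
  | h0 =>
    refine ⟨f, Rl.of_Par ?_, Rl.refl _ _ _⟩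
    rw [show Zs b b = Set.univ from Set.eq_univ_of_forall fun t k hk => by simp at hk, Par_univ]
    trivial
  | hs a s hs ih =>
    obtain ⟨u', a1, a2⟩ := ih fun k hk =>
      h k (by rw [sep_step hs] at hk; exact Finset.mem_of_mem_erase hk)
    obtain ⟨hB, y, hy, u, a3, a4⟩ := h _ hs
    have a5 : Rl N (st G s) (a * gen G s) u :=
      (Rl.of_Par ((mem_car_iff (mul_gen_mem_car (mem_car_hyp a s) (mem_st_self s))).1 hy)).trans a3
    obtain ⟨v, a6, a7⟩ := c3_prod hN a1 a2 a5 a4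
    obtain ⟨ζ, hζ, m, hm, e⟩ := c3_ex' hN.normal a6
    refine ⟨a * ζ, Rl.of_Par ?_, Rl.trans ?_ a7⟩
    · rw [inv_mul_cancel_left]
      refine Par_mono (fun t ht k hk => ?_) hζ
      by_cases ek : k = hyp a s
      · rw [ek]
        exact ht.2
      · exact ht.1 k (by rw [sep_step hs]; exact Finset.mem_erase.2 ⟨ek, hk⟩)
    · have : (a * ζ)⁻¹ * v = gen G s * m := by
        rw [e, mul_assoc a (gen G s), ← comm_of_mem_Par_st (Par_mono Set.inter_subset_right hζ)]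
        group
      rw [Rl, this]
      exact Subgroup.mul_mem_sup (gen_mem_Par hB) hm

end Pool.Agent.MP_c34dea_an.H66
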