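import Pool.Agent.MP_c34dea_an.H66.C2
import Pool.Agent.MP_c34dea_an.H66.C3

set_option autoImplicit false

open scoped symmDiff Pointwise

namespace Pool.Agent.MP_c34dea_an.H66

variable {S : Type} {G : SimpleGraph S}

/-- existence of the operator `M ↦ N(M)` -/
theorem exists_NM (G : SimpleGraph S) [Finite S] :
    ∃ NM : Subgroup (W G) → Subgroup (W G),
      (∀ M, M.Normal → M.FiniteIndex → Retr (NM M) ∧ (NM M).FiniteIndex ∧ NM M ≤ M) ∧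
      (∀ M M', M.Normal → M'.Normal → M ≤ M' → NM M ≤ NM M') ∧
      (∀ M M' (D : Set S), M.Normal → M'.Normal → M ⊓ Par G D = M' ⊓ Par G D →
        NM M ⊓ Par G D = NM M' ⊓ Par G D) :=
  exists_NM' G

theorem Retr.seh {N : Subgroup (W G)} (hN : Retr N) {a b : W G} {h : Hyp G} {B : Set S}
    (hh : h ∈ sep a b) (hu : ∀ k ∈ sep a b, k.1 = h.1 → k = h) (hab : Rl N B a b) :
    h.1 ∈ B ∧ ∀ y ∈ car h, ∃ u, Rl N (st G h.1) y u ∧ Rl N B u a :=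
  Retr.seh' hN hh hu hab

/-- the form used for products: the ends `a`, `b` are moved inside parabolics avoiding the letter -/
theorem Retr.sep3 {N : Subgroup (W G)} (hN : Retr N) {a b u u' : W G} {h : Hyp G}
    {B C C' : Set S} (hh : h ∈ sep a b) (hu : ∀ k ∈ sep a b, k.1 = h.1 → k = h)
    (hC : h.1 ∉ C) (hC' : h.1 ∉ C') (h1 : Rl N C a u) (h2 : Rl N B u u') (h3 : Rl N C' u' b) :
    h.1 ∈ B ∧ ∀ y ∈ car h, ∃ v, Rl N (st G h.1) y v ∧ Rl N B v u :=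
  Retr.sep3' hN hh hu hC hC' h1 h2 h3

theorem Retr.alg1 {N : Subgroup (W G)} (hN : Retr N) {a b f : W G} {B : Set S}
    (h : ∀ k ∈ sep a b, k.1 ∈ B ∧ ∃ y ∈ car k, ∃ u, Rl N (st G k.1) y u ∧ Rl N B u f) :
    ∃ u, Rl N (Zs a b) a u ∧ Rl N B u f :=
  Retr.alg1' hN h

theorem Retr.inter {N : Subgroup (W G)} (hN : Retr N) {a b : W G} {A X : Set S}
    (h1 : Rl N A a b) (h2 : Rl N X a b) : Rl N (A ∩ X) a b :=
  Retr.inter' hN h1 h2

theorem Retr.ret {N : Subgroup (W G)} (hN : Retr N) {a b u1 u2 u3 u4 : W G}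
    {X A E A' Y : Set S} (h1 : Rl N X a u1) (h2 : Rl N A u1 u2) (h3 : Rl N E u2 u3)
    (h4 : Rl N A' u3 u4) (h5 : Rl N Y u4 b) (hab : Rl N A a b) (hA' : X ∩ A' ⊆ A)
    (hY : X ∩ Y ⊆ A) : ∃ u, Rl N A a u ∧ Rl N E u u2 :=
  Retr.ret' hN h1 h2 h3 h4 h5 hab hA' hY

end Pool.Agent.MP_c34dea_an.H66
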