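import Pool.Agent.MP_c34dea_an.H66.Spec
import Pool.Agent.MP_c34dea_an.H66.Sepa

set_option autoImplicit false

open scoped symmDiff Pointwise

namespace Pool.Agent.MP_c34dea_an.H66.LevD

variable {S : Type} {G : SimpleGraph S} {S' : Type} {G' : SimpleGraph S'}

/-- a labelling that projects back to the generators -/
structure Pj (L : Lab G G') (pj : S' → S) : Prop where
  lab : ∀ h, pj (L.lab h) = h.1
  adj : ∀ c c', G'.Adj c c' → G.Adj (pj c) (pj c')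
  cr : ∀ h k, Cross h k → G'.Adj (L.lab h) (L.lab k)

namespace Pj

variable {L : Lab G G'} {pj : S' → S} (H : Pj L pj)

include H

noncomputable def pr : W G' →* W G :=
  lift (fun c => gen G (pj c)) (fun _ => gen_mul_self _) fun c c' h => gen_comm_of_adj (H.adj c c' h)

theorem pr_gen (c : S') : H.pr (gen G' c) = gen G (pj c) := lift_gen _ _ _ c

theorem pr_phi (x : W G) : H.pr (L.phi x) = x := by
  induction x using W_ind with
  | h1 => simp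
  | hs x s ih => rw [L.phi_mul_gen, map_mul, ih, pr_gen, H.lab, hyp_fst]

theorem phi_inj : Function.Injective L.phi := Function.LeftInverse.injective H.pr_phi

theorem st_pj {c c' : S'} (h : c' ∈ st G' c) : pj c' ∈ st G (pj c) :=
  h.imp (congrArg pj) (H.adj _ _)

theorem pr_Par {A : Set S'} {B : Set S} (hA : ∀ c ∈ A, pj c ∈ B) {g : W G'} (h : g ∈ Par G' A) :
    H.pr g ∈ Par G B := by
  refine Par_ind (P := fun g => H.pr g ∈ Par G B) (by simp) ?_ h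
  intro g s _ hs ih
  rw [map_mul, pr_gen]
  exact Subgroup.mul_mem _ ih (gen_mem_Par (hA s hs))

theorem par_of {A : Set S'} {B : Set S} (hA : ∀ c ∈ A, pj c ∈ B) {x y : W G}
    (h : (L.phi x)⁻¹ * L.phi y ∈ Par G' A) : x⁻¹ * y ∈ Par G B := by
  simpa [H.pr_phi] using H.pr_Par hA h

theorem car_of {h : Hyp G} {x : W G} (hx : x ∈ car h) {u : W G'}
    (hu : (L.phi x)⁻¹ * u ∈ Par G' (st G' (L.lab h))) : H.pr u ∈ car h := by
  rw [mem_car_iff hx, ← H.lab h]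
  simpa [H.pr_phi] using H.pr_Par (fun c => H.st_pj) hu

theorem car_phi {h : Hyp G} {y : W G} (hy : L.phi y ∈ car (L.hmap h)) : y ∈ car h := by
  obtain ⟨x, hx⟩ := car_nonempty h
  simpa [H.pr_phi] using H.car_of hx ((mem_car_iff (L.phi_mem_car hx)).1 hy)

theorem hmap_inj : Function.Injective L.hmap := fun h k e => by
  obtain ⟨x, hx⟩ := car_nonempty k
  refine eq_of_mem_car_of_label (H.car_phi (e ▸ L.phi_mem_car hx)) hx ?_
  rw [← H.lab, ← H.lab, ← L.hmap_fst, e, L.hmap_fst]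

theorem d_phi (p q : W G) : d (L.phi p) (L.phi q) = d p q := L.d_eq_of_injOn H.hmap_inj.injOn

theorem mem_sep {p q : W G} {K : Hyp G'} :
    K ∈ sep (L.phi p) (L.phi q) ↔ ∃ k ∈ sep p q, L.hmap k = K := by
  rw [L.sep_phi_of_d_eq (H.d_phi p q), Finset.mem_image]

theorem par_iff {A : Set S'} {p q : W G} :
    (L.phi p)⁻¹ * L.phi q ∈ Par G' A ↔ ∀ k ∈ sep p q, L.lab k ∈ A :=
  ⟨fun h k hk => mem_Par_iff.1 h _ (H.mem_sep.2 ⟨k, hk, rfl⟩), L.phi_mem_Par⟩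

theorem mem_Z {p q : W G} {e : S'} :
    e ∈ Zs (L.phi p) (L.phi q) ↔ ∀ k ∈ sep p q, e ∈ st G' (L.lab k) := by
  refine ⟨fun h k hk => h _ (H.mem_sep.2 ⟨k, hk, rfl⟩), fun h K hK => ?_⟩
  obtain ⟨k, hk, rfl⟩ := H.mem_sep.1 hK
  exact h k hk

theorem pj_Z {p q : W G} {e : S'} (h : e ∈ Zs (L.phi p) (L.phi q)) : pj e ∈ Zs p q :=
  fun k hk => H.lab k ▸ H.st_pj (H.mem_Z.1 h k hk)

theorem I_phi {p q : W G} {u : W G'} (h : u ∈ I (L.phi p) (L.phi q)) :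
    ∃ v ∈ I p q, L.phi v = u := by
  induction hn : d (L.phi p) u generalizing p with
  | zero => exact ⟨p, left_mem_I p q, eq_of_d_eq_zero hn⟩
  | succ n ih =>
    obtain ⟨s, hs⟩ := exists_step (p := L.phi p) (q := u) (by rintro rfl; simp at hn)
    obtain ⟨k, hk, e⟩ := H.mem_sep.1 (h hs)
    have c : hyp p k.1 = k := H.car_phi (e ▸ mem_car_hyp _ s)
    have e2 : L.phi (p * gen G k.1) = L.phi p * gen G' s := by
      rw [L.phi_mul_gen, c, ← L.hmap_fst, e, hyp_fst]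
    have := d_step hs
    obtain ⟨v, hv, rfl⟩ := ih (p := p * gen G k.1) (by
      rw [e2, I, Set.mem_ofPred_eq, sep_step hs, sep_step (h hs)]
      exact Finset.erase_subset_erase _ h) (by rw [e2]; omega)
    exact ⟨v, mem_I_trans_right (mul_gen_mem_I (c.symm ▸ hk)) hv, rfl⟩

theorem cvx {Ω : Set (W G)} (h : Cvx Ω) : Cvx (L.phi '' Ω) := by
  rintro _ ⟨p, hp, rfl⟩ _ ⟨q, hq, rfl⟩ u hu
  obtain ⟨v, hv, rfl⟩ := H.I_phi hu
  exact ⟨v, h p hp q hq hv, rfl⟩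

end Pj

/-- elements that preserve the labelling -/
def stab (L : Lab G G') : Subgroup (W G) where
  carrier := {δ | ∀ h, L.lab (δ • h) = L.lab h}
  mul_mem' ha hb h := by rw [mul_smul, ha, hb]
  one_mem' h := by rw [one_smul]
  inv_mem' {a} ha h := by rw [← ha, smul_inv_smul]

noncomputable def phiHom (L : Lab G G') : stab L →* W G' :=
  MonoidHom.mk' (fun δ => L.phi δ) fun a b => L.phi_mul_of_inv a.2 b

/-- label preserving elements of `D` with image in `N` -/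
noncomputable def RD (L : Lab G G') (D : Subgroup (W G)) (N : Subgroup (W G')) : Subgroup (W G) :=
  (N.comap (phiHom L)).map (stab L).subtype ⊓ D

theorem mem_RD {L : Lab G G'} {D : Subgroup (W G)} {N : Subgroup (W G')} (h : D ≤ stab L)
    {δ : W G} : δ ∈ RD L D N ↔ δ ∈ D ∧ L.phi δ ∈ N :=
  ⟨fun ⟨⟨_, a, e⟩, b⟩ => ⟨b, e ▸ a⟩, fun ⟨a, b⟩ => ⟨⟨⟨δ, h a⟩, b, rfl⟩, a⟩⟩

theorem RD_fi {L : Lab G G'} {D Δ : Subgroup (W G)} {N : Subgroup (W G')} (h : D ≤ stab L)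
    (hD : (D.subgroupOf Δ).FiniteIndex) (hN : N.FiniteIndex) :
    ((RD L D N).subgroupOf Δ).FiniteIndex := by
  have h1 : ((N.comap (phiHom L)).map (stab L).subtype).relIndex (stab L) ≠ 0 := by
    rw [Subgroup.relIndex, Subgroup.subgroupOf,
      Subgroup.comap_map_eq_self_of_injective (stab L).subtype_injective, Subgroup.index_comap]
    exact Subgroup.isFiniteRelIndex_of_finiteIndex.relIndex_ne_zero
  exact ⟨Subgroup.relIndex_inf_ne_zero (Subgroup.relIndex_ne_zero_trans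
    (mt (Subgroup.relIndex_eq_zero_of_le_right h) h1) hD.index_ne_zero) hD.index_ne_zero⟩

theorem phi_smul {L : Lab G G'} {δ : W G} (h : δ ∈ stab L) (Ω : Set (W G)) :
    L.phi δ • L.phi '' Ω = L.phi '' (δ • Ω) := by
  rw [← Set.image_smul, ← Set.image_smul, Set.image_image, Set.image_image]
  exact Set.image_congr' fun x => (L.phi_mul_of_inv h x).symm

/-- `g` folds every pair of the family into the same orbit -/
def FK (L : Lab G G') (D : Subgroup (W G)) (𝒞 : Set (Set (W G))) (g : W G') : Prop :=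
  ∀ Ω ∈ 𝒞, ∀ x ∈ Ω, ∃ δ ∈ D, δ • Ω = Ω ∧ fold (L.phi '' Ω) (L.phi x) g = L.phi (δ * x)

theorem coc_of_fi {Y F : Set (W G)} {D Δ : Subgroup (W G)} (hD : (D.subgroupOf Δ).FiniteIndex)
    (hF : F.Finite) (h : ∀ y ∈ Y, ∃ δ ∈ Δ, δ * y ∈ F) :
    ∃ F' : Set (W G), F'.Finite ∧ ∀ y ∈ Y, ∃ δ ∈ D, δ * y ∈ F' := by
  refine ⟨Set.image2 (fun (q : Δ ⧸ D.subgroupOf Δ) f => (q.out : W G)⁻¹ * f) Set.univ F,
    Set.finite_univ.image2 _ hF, fun y hy => ?_⟩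
  obtain ⟨δ, a, b⟩ := h y hy
  refine ⟨_, (QuotientGroup.eq (s := D.subgroupOf Δ)).1
    (QuotientGroup.out_eq' ((⟨δ, a⟩ : Δ) : Δ ⧸ D.subgroupOf Δ)), (⟨δ, a⟩ : Δ), trivial, _, b, ?_⟩
  simp [mul_assoc]

theorem exists_FK [Finite S'] {L : Lab G G'} {pj : S' → S} (H : Pj L pj) {D : Subgroup (W G)}
    (hD : D ≤ stab L) {Y : Set (W G)} {𝒞 : Set (Set (W G))} (hc : ∀ Ω ∈ 𝒞, Cvx Ω)
    (hs : ∀ Ω ∈ 𝒞, Ω ⊆ Y) (hi : ∀ δ ∈ D, ∀ Ω ∈ 𝒞, δ • Ω ∈ 𝒞) (hl : ∀ y, {T | T ∈ 𝒞 ∧ y ∈ T}.Finite)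
    (hF : ∃ F : Set (W G), F.Finite ∧ ∀ y ∈ Y, ∃ δ ∈ D, δ * y ∈ F) :
    ∃ M : Subgroup (W G'), M.Normal ∧ M.FiniteIndex ∧ ∀ g, g ∈ M ↔ FK L D 𝒞 g := by
  obtain ⟨F, f1, f2⟩ := hF
  have mem : ∀ x, x ∈ (D.subgroupOf (stab L)).map (phiHom L) ↔ ∃ δ ∈ D, L.phi δ = x := fun x =>
    ⟨fun ⟨a, b, c⟩ => ⟨a, b, c⟩, fun ⟨a, b, c⟩ => ⟨⟨a, hD b⟩, b, c⟩⟩
  obtain ⟨M, m1, m2, m3⟩ := exists_foldKer ((L.phi '' ·) '' 𝒞)
    ((D.subgroupOf (stab L)).map (phiHom L)) (by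
      rintro _ ⟨Ω, a, rfl⟩
      exact H.cvx (hc Ω a)) (by
      rintro x hx _ ⟨Ω, a, rfl⟩
      obtain ⟨δ, b, rfl⟩ := (mem x).1 hx
      exact ⟨_, hi δ b Ω a, (phi_smul (hD b) Ω).symm⟩)
    ⟨⋃ y ∈ F, (fun T => (L.phi '' T, L.phi y)) '' {T | T ∈ 𝒞 ∧ y ∈ T},
      f1.biUnion fun y _ => (hl y).image _, by
      rintro _ ⟨Ω, a, rfl⟩ _ ⟨x, hx, rfl⟩
      obtain ⟨δ, b, c⟩ := f2 x (hs Ω a hx)
      refine ⟨_, (mem _).2 ⟨δ, b, rfl⟩, Set.mem_biUnion c ⟨δ • Ω, ⟨hi δ b Ω a, x, hx, rfl⟩, ?_⟩⟩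
      rw [phi_smul (hD b), L.phi_mul_of_inv (hD b)]⟩
  refine ⟨M, m1, m2, fun g => (m3 g).trans ⟨fun h Ω a x hx => ?_, ?_⟩⟩
  · obtain ⟨_, b', c, e⟩ := h _ ⟨Ω, a, rfl⟩ _ ⟨x, hx, rfl⟩
    obtain ⟨δ, b, rfl⟩ := (mem _).1 b'
    rw [phi_smul (hD b)] at c
    exact ⟨δ, b, H.phi_inj.image_injective c, by rw [e, L.phi_mul_of_inv (hD b)]⟩
  · rintro h _ ⟨Ω, a, rfl⟩ _ ⟨x, hx, rfl⟩
    obtain ⟨δ, b, c, e⟩ := h Ω a x hx
    exact ⟨_, (mem _).2 ⟨δ, b, rfl⟩, by rw [phi_smul (hD b), c],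
      by rw [e, L.phi_mul_of_inv (hD b)]⟩

theorem FK.base {L : Lab G G'} {pj : S' → S} (H : Pj L pj) {D : Subgroup (W G)}
    {𝒞 : Set (Set (W G))} {g m : W G'} (h : FK L D 𝒞 m) {Ω : Set (W G)} (a : Ω ∈ 𝒞) (c : Cvx Ω)
    {x y : W G} (hx : x ∈ Ω) (hy : y ∈ Ω) (e : L.phi y = L.phi x * g * m) :
    ∃ δ ∈ D, δ • Ω = Ω ∧ ∃ z ∈ Ω, L.phi z = fold (L.phi '' Ω) (L.phi x) g ∧ y = δ * z := by
  obtain ⟨z, hz, e1⟩ := fold_mem (Ω := L.phi '' Ω) ⟨x, hx, rfl⟩ g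
  obtain ⟨δ, b, e2, e3⟩ := h Ω a z hz
  refine ⟨δ, b, e2, z, hz, e1, H.phi_inj ?_⟩
  rw [← e3, e1, ← fold_mul, ← fold_geod (H.cvx c) ⟨x, hx, rfl⟩ ⟨y, hy, rfl⟩, e, mul_assoc,
    inv_mul_cancel_left]

/-- generators of the refined level -/
def RS (G' : SimpleGraph S') (N : Subgroup (W G')) : Type :=
  Σ c : S', W G' ⧸ (Par G' (st G' c) ⊔ N)

noncomputable def rk (N : Subgroup (W G')) (c : S') (f : W G') : RS G' N := ⟨c, f⟩

variable {N : Subgroup (W G')}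

theorem rk_surj (e : RS G' N) : ∃ c f, e = rk N c f := by
  obtain ⟨c, q⟩ := e
  obtain ⟨f, rfl⟩ := QuotientGroup.mk_surjective q
  exact ⟨c, f, rfl⟩

theorem rk_eq {c : S'} {f f' : W G'} : rk N c f = rk N c f' ↔ Rl N (st G' c) f f' :=
  ⟨fun h => QuotientGroup.eq.1 (eq_of_heq (Sigma.mk.inj_iff.1 h).2),
    fun h => congrArg (Sigma.mk c) (QuotientGroup.eq.2 h)⟩

theorem RS_finite [Finite S'] (h : N.FiniteIndex) : Finite (RS G' N) :=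
  have : ∀ c, (Par G' (st G' c) ⊔ N).FiniteIndex := fun _ => Subgroup.finiteIndex_of_le le_sup_right
  inferInstanceAs (Finite (Σ c : S', W G' ⧸ (Par G' (st G' c) ⊔ N)))

def RG (G' : SimpleGraph S') (N : Subgroup (W G')) : SimpleGraph (RS G' N) where
  Adj e e' := G'.Adj e.1 e'.1 ∧ ∃ u, rk N e.1 u = e ∧ rk N e'.1 u = e'
  symm := ⟨fun _ _ ⟨a, u, b, c⟩ => ⟨a.symm, u, c, b⟩⟩
  loopless := ⟨fun _ h => G'.irrefl h.1⟩

theorem mem_st_rk {c c' : S'} {f f' : W G'} : rk N c' f' ∈ st (RG G' N) (rk N c f) ↔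
    c' ∈ st G' c ∧ ∃ u, Rl N (st G' c) f u ∧ Rl N (st G' c') u f' := by
  constructor
  · rintro (h | ⟨a, u, b, c⟩)
    · obtain rfl : c' = c := congrArg Sigma.fst h
      exact ⟨mem_st_self _, f, Rl.refl _ _ _, (rk_eq.1 h).symm⟩
    · exact ⟨Or.inr a, u, (rk_eq.1 b).symm, rk_eq.1 c⟩
  · rintro ⟨rfl | h, u, b, c⟩
    · exact Or.inl (rk_eq.2 (b.trans c)).symm
    · exact Or.inr ⟨h, u, rk_eq.2 b.symm, rk_eq.2 c⟩

theorem rl_car (L : Lab G G') (N : Subgroup (W G')) {h : Hyp G} {x y : W G} (hx : x ∈ car h)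
    (hy : y ∈ car h) : Rl N (st G' (L.lab h)) (L.phi x) (L.phi y) :=
  Rl.of_Par ((mem_car_iff (L.phi_mem_car hx)).1 (L.phi_mem_car hy))

/-- the refined labelling -/
noncomputable def RL (L : Lab G G') (N : Subgroup (W G')) : Lab G (RG G' N) where
  lab h := rk N (L.lab h) (L.phi (car_nonempty h).choose)
  sq h k c := mem_st_rk.2 ⟨L.sq h k c, L.phi c.choose,
    rl_car L N (car_nonempty h).choose_spec c.choose_spec.1,
    rl_car L N c.choose_spec.2.1 (car_nonempty k).choose_spec⟩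

theorem RL_lab (L : Lab G G') {h : Hyp G} {y : W G} (hy : y ∈ car h) :
    (RL L N).lab h = rk N (L.lab h) (L.phi y) :=
  rk_eq.2 (rl_car L N (car_nonempty h).choose_spec hy)

theorem Pj.ref {L : Lab G G'} {pj : S' → S} (H : Pj L pj) (N : Subgroup (W G')) :
    Pj (RL L N) fun e => pj e.1 where
  lab := H.lab
  adj _ _ h := H.adj _ _ h.1
  cr h k c := ⟨H.cr h k c, L.phi c.choose, (RL_lab L c.choose_spec.1).symm,
    (RL_lab L c.choose_spec.2.1).symm⟩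

theorem rl_left (hN : N.Normal) (A : Set S') {m : W G'} (hm : m ∈ N) (a : W G') :
    Rl N A a (m * a) :=
  (le_sup_right : N ≤ Par G' A ⊔ N) (by simpa [mul_assoc] using hN.conj_mem m hm a⁻¹)

theorem RD_stab {L : Lab G G'} {D : Subgroup (W G)} (h : D ≤ stab L) (hN : N.Normal) :
    RD L D N ≤ stab (RL L N) := fun δ hδ k => by
  obtain ⟨a, b⟩ := (mem_RD h).1 hδ
  obtain ⟨y, hy⟩ := car_nonempty k
  rw [RL_lab L hy, RL_lab L ((smul_mem_car δ).2 hy), h a k, L.phi_mul_of_inv (h a), rk_eq]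
  exact (rl_left hN _ b _).symm

end Pool.Agent.MP_c34dea_an.H66.LevD
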