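import Pool.Agent.MP_c34dea_an.H66.D1

set_option autoImplicit false

open scoped symmDiff Pointwise

namespace Pool.Agent.MP_c34dea_an.H66.LevD

variable {S : Type} {G : SimpleGraph S} {S' : Type} {G' : SimpleGraph S'} {Y : Set (W G)}
  {Δ D : Subgroup (W G)} {𝒯 : Set (Set (W G))} {n R : ℕ} {L : Lab G G'} {pj : S' → S}
  {N : Subgroup (W G')} {A : Set (W G) → Set S'}

theorem sep_sub_of_mem_I {p q u v : W G} (hu : u ∈ I p q) (hv : v ∈ I p q) : sep u v ⊆ sep p q := by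
  intro k hk
  rw [mem_sep_trans u p v, sep_comm u p] at hk
  exact hk.elim (fun x => hu x.1) fun x => hv x.1

theorem d_le_of_mem_I {p q u v : W G} (hu : u ∈ I p q) (hv : v ∈ I p q) : d u v ≤ d p q :=
  Finset.card_le_card (sep_sub_of_mem_I hu hv)

theorem sep_par {p q ζ : W G} (h : ∀ k ∈ sep p q, ζ ∈ Par G (st G k.1)) :
    sep (p * ζ) (q * ζ) = sep p q := by
  induction p using geod_ind (q := q) with
  | h0 => simp
  | hs p s hs ih =>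
    have h1 : ζ ∈ Par G (st G s) := h (hyp p s) hs
    rw [sep_trans _ (p * gen G s * ζ), ih fun k hk => h k (by
      rw [sep_step hs] at hk; exact Finset.mem_of_mem_erase hk), mul_assoc,
      ← comm_of_mem_Par_st h1, ← mul_assoc, sep_gen, hyp_mul_of_mem h1, ← sep_gen, ← sep_trans]

theorem btw_mono {p q : W G} {a b k k' : Hyp G} (h : k = a ∨ Lt p a k) (h' : k' = b ∨ Lt p k' b) :
    btw p q k k' ⊆ btw p q a b := fun j hj => by
  obtain ⟨x, y, z⟩ := mem_btw.1 hj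
  exact mem_btw.2 ⟨x, h.elim (· ▸ y) (·.trans y), h'.elim (· ▸ z) z.trans⟩

theorem btw_sub {p q : W G} {a b k k' : Hyp G} (h : k ∈ btw p q a b) (h' : k' ∈ btw p q a b) :
    btw p q k k' ⊆ btw p q a b :=
  btw_mono (Or.inr (mem_btw.1 h).2.1) (Or.inr (mem_btw.1 h').2.2)

theorem exists_spaced [Finite S] {p q : W G} {J : Finset (Hyp G)} (hJ : J ⊆ sep p q) (r m : ℕ)
    (h : Nat.card S * (r * (m + 1)) < J.card) : ∃ c : ℕ → Hyp G, (∀ i ≤ r, c i ∈ J) ∧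
      ∀ i j, i < j → j ≤ r → Lt p (c i) (c j) ∧ m ≤ (btw p q (c i) (c j)).card := by
  obtain ⟨c, h1, h2⟩ := exists_chain hJ _ h
  refine ⟨fun i => c (i * (m + 1)), fun i hi => (h1 _ (Nat.mul_le_mul_right _ hi)).1,
    fun i j hij hj => ?_⟩
  have a : i * (m + 1) + (m + 1) ≤ j * (m + 1) := by
    rw [← add_one_mul]; exact Nat.mul_le_mul_right _ hij
  have b := Nat.mul_le_mul_right (m + 1) hj
  exact ⟨h2 _ _ (by omega) b,
    le_trans (by omega) (card_btw_ge_of_chain (fun i hi => hJ (h1 i hi).1) h2 (by omega) b)⟩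

/-- a level of the tower of labellings -/
structure Lev (Y : Set (W G)) (Δ : Subgroup (W G)) (n : ℕ) (L : Lab G G') (pj : S' → S)
    (D : Subgroup (W G)) : Prop where
  H : Pj L pj
  le : D ≤ Δ
  sb : D ≤ stab L
  fi : (D.subgroupOf Δ).FiniteIndex
  zx : ∀ p ∈ Y, ∀ q ∈ Y, n ≤ d p q → ∀ e ∈ Zs (L.phi p) (L.phi q), e = L.lab (hyp p (pj e))

/-- a subgroup by which a level can be refined -/
structure Good (Y : Set (W G)) (𝒯 : Set (Set (W G))) (R : ℕ) (L : Lab G G') (D : Subgroup (W G))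
    (N : Subgroup (W G')) : Prop where
  retr : Retr N
  fi : N.FiniteIndex
  deep : Deep N R
  fkY : ∀ g ∈ N, FK L D {Y} g
  fkT : ∀ g ∈ N, FK L D 𝒯 g

def Win (L : Lab G G') (R : ℕ) : Prop :=
  ∀ h k x y, x ∈ car h → y ∈ car k → d x y ≤ R → L.lab k ∈ st G' (L.lab h) → h = k ∨ Cross h k

/-- types of cells -/
structure Typ (𝒯 : Set (Set (W G))) (L : Lab G G') (D : Subgroup (W G))
    (A : Set (W G) → Set S') : Prop where
  real : ∀ T ∈ 𝒯, ∀ h ∈ WH T, L.lab h ∈ A T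
  full : ∀ T ∈ 𝒯, ∀ x ∈ T, ∀ s, L.lab (hyp x s) ∈ A T → x * gen G s ∈ T
  inv : ∀ δ ∈ D, ∀ T ∈ 𝒯, A (δ • T) = A T

theorem Lev.clq (V : Lev Y Δ n L pj D) (h4 : I4c Y n) {p q : W G} (hp : p ∈ Y) (hq : q ∈ Y)
    (hd : n ≤ d p q) : Clq G' (Zs (L.phi p) (L.phi q)) := fun e he e' he' => by
  rw [V.zx p hp q hq hd e he, V.zx p hp q hq hd e' he']
  rcases h4 p hp q hq hd _ (V.H.pj_Z he) _ (V.H.pj_Z he') with h | h
  · rw [h]; exact mem_st_self _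
  · exact L.sq _ _ (cross_hyp h)

theorem Lev.ref (V : Lev Y Δ n L pj D) (h4 : I4c Y n) (hN : Retr N) (fi : N.FiniteIndex) :
    Lev Y Δ n (RL L N) (fun e => pj e.1) (RD L D N) where
  H := V.H.ref N
  le := inf_le_right.trans V.le
  sb := RD_stab V.sb hN.normal
  fi := RD_fi V.sb V.fi fi
  zx p hp q hq hd e he := by
    obtain ⟨c, f, rfl⟩ := rk_surj e
    have h1 : ∀ k ∈ sep p q, ∀ y ∈ car k, c ∈ st G' (L.lab k) ∧
        ∃ u, Rl N (st G' (L.lab k)) (L.phi y) u ∧ Rl N (st G' c) u f := fun k hk y hy => by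
      have := (V.H.ref N).mem_Z.1 he k hk
      rwa [RL_lab L hy, mem_st_rk] at this
    have hc : c ∈ Zs (L.phi p) (L.phi q) :=
      V.H.mem_Z.2 fun k hk => (h1 k hk _ (car_nonempty k).choose_spec).1
    obtain ⟨u, a, b⟩ := hN.alg1 (a := L.phi p) (b := L.phi q) (f := f) (B := st G' c) fun K hK => by
      obtain ⟨k, hk, rfl⟩ := V.H.mem_sep.1 hK
      obtain ⟨y, hy⟩ := car_nonempty k
      exact ⟨mem_st_symm (h1 k hk y hy).1, _, L.phi_mem_car hy, (h1 k hk y hy).2⟩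
    rw [RL_lab L (mem_car_hyp p _)]
    change _ = rk N (L.lab (hyp p (pj c))) _
    rw [← V.zx p hp q hq hd c hc, rk_eq]
    exact ((a.mono (V.clq h4 hp hq hd c hc)).trans b).symm

theorem win_ref (H : Pj L pj) (hN : N.Normal) (hR : Deep N R) : Win (RL L N) R := by
  intro h k x y hx hy hd hk
  rw [RL_lab L hx, RL_lab L hy, mem_st_rk] at hk
  obtain ⟨a, u, b, c⟩ := hk
  obtain ⟨v, -, e1, e2⟩ := hR.ex2 hN (by rwa [H.d_phi]) b c
  have c1 := H.car_of hx e1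
  have c2 := H.car_of hy (by simpa using Subgroup.inv_mem _ e2)
  have := H.st_pj a
  rw [H.lab, H.lab] at this
  exact this.imp (fun e => eq_of_mem_car_of_label c1 c2 e.symm) fun e => ⟨_, c1, c2, e⟩

theorem disp_ref (H : Pj L pj) (sb : D ≤ stab L) (hN : N.Normal) (hR : Deep N R) {δ y : W G}
    (hδ : δ ∈ RD L D N) (hd : d y (δ * y) ≤ R) : δ = 1 := by
  obtain ⟨a, b⟩ := (mem_RD sb).1 hδ
  refine H.phi_inj ((hR.disp hN (y := L.phi y) b ?_).trans L.phi_one.symm)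
  rwa [← L.phi_mul_of_inv (sb a), H.d_phi]

theorem Typ.exact (τ : Typ 𝒯 L D A) {T : Set (W G)} (hT : T ∈ 𝒯) {x y : W G} (hx : x ∈ T)
    (h : ∀ k ∈ sep x y, L.lab k ∈ A T) : y ∈ T := by
  induction x using geod_ind (q := y) with
  | h0 => exact hx
  | hs x s hs ih =>
    exact ih (τ.full T hT x hx s (h _ hs)) fun k hk => h k (by
      rw [sep_step hs] at hk; exact Finset.mem_of_mem_erase hk)

theorem Typ.rl (τ : Typ 𝒯 L D A) {T : Set (W G)} (hT : T ∈ 𝒯) {x y : W G} (hx : x ∈ T)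
    (hy : y ∈ T) : Rl N (A T) (L.phi x) (L.phi y) :=
  Rl.of_Par (L.phi_mem_Par fun k hk => τ.real T hT k ⟨x, hx, y, hy, hk⟩)

theorem typ_zero (C : CellSys Y Δ 𝒯 n) (V : Lev Y Δ n L pj D) (γ : Good Y 𝒯 R L D N) :
    Typ 𝒯 (RL L N) (RD L D N) fun T => (RL L N).lab '' WH T where
  real _ _ h hh := ⟨h, hh, rfl⟩
  full T hT x hx s := by
    rintro ⟨k, hk, e⟩
    obtain ⟨y, hy, c, hy'⟩ := (mem_WH_iff (C.cvx T hT)).1 hk
    have e1 : L.lab k = L.lab (hyp x s) := congrArg Sigma.fst e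
    rw [RL_lab L c, RL_lab L (mem_car_hyp x s), ← e1, rk_eq] at e
    obtain ⟨g, hg, m, hm, e2⟩ := e.exists γ.retr.normal
    obtain ⟨δ, -, e3, z, -, e4, rfl⟩ := (γ.fkT m hm).base V.H hT (C.cvx T hT) hy hx e2
    obtain ⟨w, hw, e5⟩ := fold_edge (V.H.cvx (C.cvx T hT)) ⟨y, hy, rfl⟩ (c := L.lab k)
      ⟨_, hy', by rw [L.phi_mul_gen, show hyp y k.1 = k from c]⟩ hg
    have e6 := congrArg V.H.pr e5
    rw [← e4, map_mul, V.H.pr_phi, V.H.pr_phi, V.H.pr_gen, e1, V.H.lab, hyp_fst] at e6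
    rw [← e3, mul_assoc]
    exact ⟨_, e6 ▸ hw, rfl⟩
  inv δ hδ T _ := by
    have s := RD_stab V.sb γ.retr.normal hδ
    ext e
    refine ⟨?_, fun ⟨k, hk, e⟩ => ⟨δ • k, (smul_mem_WH δ).2 hk, (s k).trans e⟩⟩
    rintro ⟨k, hk, rfl⟩
    exact ⟨δ⁻¹ • k, (smul_mem_WH δ).1 (by rwa [smul_inv_smul]), by rw [← s, smul_inv_smul]⟩

/-- the refined types -/
def RA (L : Lab G G') (N : Subgroup (W G')) (A : Set (W G) → Set S') (T : Set (W G)) :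
    Set (RS G' N) := {e | e.1 ∈ A T ∧ ∃ x ∈ T, ∃ u, Rl N (A T) (L.phi x) u ∧ rk N e.1 u = e}

theorem Typ.mem_RA (τ : Typ 𝒯 L D A) {T : Set (W G)} (hT : T ∈ 𝒯) {x : W G} (hx : x ∈ T) {c : S'}
    {f : W G'} : rk N c f ∈ RA L N A T ↔
      c ∈ A T ∧ ∃ u, Rl N (A T) (L.phi x) u ∧ Rl N (st G' c) u f :=
  ⟨fun ⟨a, _, hy, u, b, e⟩ => ⟨a, u, (τ.rl hT hx hy).trans b, rk_eq.1 e⟩,
    fun ⟨a, u, b, e⟩ => ⟨a, x, hx, u, b, rk_eq.2 e⟩⟩

theorem Typ.RA_eq (τ : Typ 𝒯 L D A) {T T' : Set (W G)} (hT : T ∈ 𝒯) (hT' : T' ∈ 𝒯) {x x' : W G}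
    (hx : x ∈ T) (hx' : x' ∈ T') (e : A T' = A T) (r : Rl N (A T) (L.phi x) (L.phi x')) :
    RA L N A T' = RA L N A T := by
  ext e
  obtain ⟨c, f, rfl⟩ := rk_surj e
  rw [τ.mem_RA hT hx, τ.mem_RA hT' hx', e]
  exact and_congr_right fun _ => exists_congr fun u => and_congr_left fun _ =>
    ⟨r.trans, r.symm.trans⟩

theorem Typ.ref (τ : Typ 𝒯 L D A) (C : CellSys Y Δ 𝒯 n) (V : Lev Y Δ n L pj D) (hN : N.Normal) :
    Typ 𝒯 (RL L N) (RD L D N) (RA L N A) where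
  real T hT h hh := by
    obtain ⟨y, hy, c, -⟩ := (mem_WH_iff (C.cvx T hT)).1 hh
    rw [RL_lab L c, τ.mem_RA hT hy]
    exact ⟨τ.real T hT h hh, _, Rl.refl _ _ _, Rl.refl _ _ _⟩
  full T hT x hx s h := τ.full T hT x hx s h.1
  inv δ hδ T hT := by
    obtain ⟨a, b⟩ := (mem_RD V.sb).1 hδ
    obtain ⟨x, hx⟩ := C.ne T hT
    refine τ.RA_eq hT (C.inv δ (V.le a) T hT) hx ⟨x, hx, rfl⟩ (τ.inv δ a T hT) ?_
    change Rl _ _ _ (L.phi (δ * x))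
    rw [L.phi_mul_of_inv (V.sb a)]
    exact rl_left hN _ b _

theorem Typ.bfull (τ : Typ 𝒯 L D A) (H : Pj L pj) (hN : N.Normal) (hR : Deep N R) {T : Set (W G)}
    (hT : T ∈ 𝒯) {h : Hyp G} {y z : W G} (hy : y ∈ car h) (hz : z ∈ T) (hd : d y z ≤ R)
    (hh : (RL L N).lab h ∈ RA L N A T) : h ∈ WH T := by
  rw [RL_lab L hy, τ.mem_RA hT hz] at hh
  obtain ⟨a, u, b, c⟩ := hh
  obtain ⟨v, hv, e1, e2⟩ := hR.ex2 hN (by rwa [H.d_phi, d_comm]) b c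
  obtain ⟨w, -, rfl⟩ := H.I_phi hv
  have c1 := τ.exact hT hz (H.par_iff.1 e1)
  have c2 : w ∈ car h := H.pr_phi w ▸ H.car_of hy (by simpa using Subgroup.inv_mem _ e2)
  exact ⟨w, c1, _, τ.full T hT w c1 h.1 (by rwa [show hyp w h.1 = h from c2]), by
    rw [mem_sep_car_gen c2]; exact Finset.mem_singleton_self _⟩

theorem Typ.Z_sub (τ : Typ 𝒯 L D A) (C : CellSys Y Δ 𝒯 n) (V : Lev Y Δ n L pj D) {T : Set (W G)}
    (hT : T ∈ 𝒯) {y y' : W G} (hy : y ∈ T) (hy' : y' ∈ T) (hd : n ≤ d y y') :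
    Zs (L.phi y) (L.phi y') ⊆ A T := fun e he => by
  rw [V.zx y (C.sub T hT hy) y' (C.sub T hT hy') hd e he]
  exact τ.real T hT _ ⟨y, hy, _, C.sc T hT y hy y' hy' hd _ (V.H.pj_Z he), by simp⟩

theorem letter (H : Pj L pj) (hW : Win L R) (hN : Retr N) {p x x' : W G} {h h' k : Hyp G}
    (hx : x ∈ car h) (hx' : x' ∈ car h') (hd : d x x' ≤ R) (hk : k ∈ sep x x') (l1 : Lt p h k)
    (l2 : Lt p k h') {A1 A2 B : Set S'} {u1 u2 u3 u4 : W G'}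
    (r1 : Rl N (st G' (L.lab h)) (L.phi x) u1) (r2 : Rl N A1 u1 u2) (r3 : Rl N B u2 u3)
    (r4 : Rl N A2 u3 u4) (r5 : Rl N (st G' (L.lab h')) u4 (L.phi x')) (n1 : L.lab k ∉ A1)
    (n2 : L.lab k ∉ A2) :
    L.lab k ∈ B ∧ ∀ y ∈ car k, ∃ v, Rl N (st G' (L.lab k)) (L.phi y) v ∧ Rl N B v u2 := by
  obtain ⟨z, hz, cz, -⟩ := exists_cross_pt hk
  obtain ⟨a, b⟩ := hN.sep3 (h := L.hmap k) (C := st G' (L.lab h) ∪ A1) (C' := A2 ∪ st G' (L.lab h'))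
    (H.mem_sep.2 ⟨k, hk, rfl⟩) (fun K hK e => by
      obtain ⟨j, hj, rfl⟩ := H.mem_sep.1 hK
      obtain ⟨w, hw, cw, -⟩ := exists_cross_pt hj
      have e' : L.lab j = L.lab k := e
      rcases hW k j z w cz cw ((d_le_of_mem_I hz hw).trans hd) (e' ▸ mem_st_self _) with c | c
      · rw [c]
      · exact absurd (e' ▸ H.cr _ _ c) G'.irrefl)
    (fun c => c.elim (fun c => (hW h k x z hx cz ((d_le_of_mem_I (left_mem_I _ _) hz).trans hd)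
      c).elim l1.ne l1.not_cross) n1)
    (fun c => c.elim n2 fun c => (hW h' k x' z hx' cz
      ((d_le_of_mem_I (right_mem_I _ _) hz).trans hd) c).elim l2.ne.symm fun c => l2.not_cross c.symm)
    ((r1.mono Set.subset_union_left).trans (r2.mono Set.subset_union_right)) r3
    ((r4.mono Set.subset_union_left).trans (r5.mono Set.subset_union_right))
  exact ⟨a, fun y hy => b _ (L.phi_mem_car hy)⟩

theorem sepA (τ : Typ 𝒯 L D A) (C : CellSys Y Δ 𝒯 n) (V : Lev Y Δ n L pj D) (hW : Win L R)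
    (γ : Good Y 𝒯 R L D N) {T : Set (W G)} (hT : T ∈ 𝒯) {p q y y' : W G} {k k' : Hyp G}
    (hy : y ∈ Y) (hy' : y' ∈ Y) (c : y ∈ car k) (c' : y' ∈ car k') (e : sep y y' = btw p q k k')
    (h1 : n ≤ d y y') (h2 : d y y' ≤ R) (a : (RL L N).lab k ∈ RA L N A T)
    (a' : (RL L N).lab k' ∈ RA L N A T) : ∃ T' ∈ 𝒯, y ∈ T' ∧ y' ∈ T' ∧ A T' = A T ∧
      ∀ x ∈ T, Rl N (A T) (L.phi x) (L.phi y) := by
  obtain ⟨x, hx⟩ := C.ne T hT
  rw [RL_lab L c, τ.mem_RA hT hx] at a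
  rw [RL_lab L c', τ.mem_RA hT hx] at a'
  obtain ⟨-, u, r1, r2⟩ := a
  obtain ⟨-, u', r3, r4⟩ := a'
  have l := fun j (hj : j ∈ sep y y') => letter V.H hW γ.retr c c' h2 hj (mem_btw.1 (e ▸ hj)).2.1
    (mem_btw.1 (e ▸ hj)).2.2 r2.symm (Rl.refl N ∅ u) (r1.symm.trans r3) (Rl.refl N ∅ u') r4 id id
  obtain ⟨v, r5, r6⟩ := γ.retr.alg1 (a := L.phi y) (b := L.phi y') (f := L.phi x) (B := A T)
    fun K hK => by
      obtain ⟨j, hj, rfl⟩ := V.H.mem_sep.1 hK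
      obtain ⟨z, hz⟩ := car_nonempty j
      obtain ⟨w, b1, b2⟩ := (l j hj).2 z hz
      exact ⟨(l j hj).1, _, L.phi_mem_car hz, w, b1, b2.trans r1.symm⟩
  obtain ⟨g, hg, m, hm, rfl⟩ := r6.symm.exists γ.retr.normal
  obtain ⟨g', hg', m', hm', e1⟩ := r5.symm.exists γ.retr.normal
  have xY := C.sub T hT hx
  obtain ⟨δ, hδ, -, z, -, e2, e3⟩ := (γ.fkY _ (N.mul_mem (γ.retr.normal.conj_mem m hm g'⁻¹) hm')).base
    V.H rfl C.amb.cvx xY hy (g := g * g') (by rw [e1]; group)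
  obtain ⟨x0, -, e4⟩ := fold_mem (Ω := L.phi '' Y) ⟨x, xY, rfl⟩ g
  have b1 : x0 ∈ T := τ.exact hT hx (V.H.par_iff.1 (e4 ▸ fold_Par _ _ hg))
  have b2 : x0⁻¹ * z ∈ Par G (Zs y y') :=
    V.H.par_of (fun _ => V.H.pj_Z) (by rw [e2, fold_mul, ← e4]; exact fold_Par _ _ hg')
  have hT' := C.inv δ (V.le hδ) T hT
  have e5 := τ.inv δ hδ T hT
  have e6 : sep (δ * x0) (y' * (x0⁻¹ * z)⁻¹) = sep y y' := by
    rw [← sep_par (p := y) (q := y') (ζ := (x0⁻¹ * z)⁻¹) fun j hj =>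
      Par_mono (A := Zs y y') (fun t ht => ht j hj) (Subgroup.inv_mem _ b2), e3]
    congr 1
    group
  have b3 : δ * x0 ∈ δ • T := ⟨x0, b1, rfl⟩
  have b4 := τ.exact hT' b3 fun j hj => e5 ▸ (l j (e6 ▸ hj)).1
  obtain ⟨b5, b6⟩ := in_of_tall (C.cvx _ hT') (C.sc _ hT') C.n_pos (C.amb.i4c y hy y' hy' h1) h1
    fun j hj => ⟨_, b3, _, b4, e6 ▸ hj⟩
  exact ⟨_, hT', b5, b6, e5, fun x' hx' => ((τ.rl hT hx' hx).trans r6.symm).trans
    (r5.mono (e5 ▸ τ.Z_sub C V hT' b5 b6 h1)).symm⟩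

end Pool.Agent.MP_c34dea_an.H66.LevD
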