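import Pool.Agent.MP_c34dea_an.H66.D2

set_option autoImplicit false

open scoped symmDiff Pointwise

namespace Pool.Agent.MP_c34dea_an.H66.LevD

variable {S : Type} {G : SimpleGraph S} {S' : Type} {G' : SimpleGraph S'} {Y : Set (W G)}
  {Δ D : Subgroup (W G)} {𝒯 : Set (Set (W G))} {n R : ℕ} {L : Lab G G'} {pj : S' → S}
  {N : Subgroup (W G')} {A : Set (W G) → Set S'}

theorem bridge {Ω : Set (W G)} (c : Cvx Ω) {p q : W G} (hp : p ∈ Ω) (hq : q ∈ Ω) {k k' : Hyp G}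
    (hk' : k' ∈ sep p q) (h : Lt p k k') : ∃ y y', y ∈ Ω ∧ y' ∈ Ω ∧ y ∈ car k ∧ y' ∈ car k' ∧
      sep y y' = btw p q k k' ∧ d y y' = (btw p q k k').card ∧ y' ∈ I p q ∧ y ∈ I p y' := by
  obtain ⟨y, y', a, b, e1, e2, e⟩ := exists_bridge hk' h
  exact ⟨y, y', c p hp q hq (mem_I_trans_left a b), c p hp q hq a, e1, e2, e, by rw [d, e], a, b⟩

/-- the chain that joins the carrier of `h` to the coset of a refined generator -/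
def Chn (L : Lab G G') (N : Subgroup (W G')) (B : Set S') (h : Hyp G) (c : S') (f : W G') : Prop :=
  ∀ x ∈ car h, ∃ u1 u2, Rl N (st G' (L.lab h)) (L.phi x) u1 ∧ Rl N B u1 u2 ∧ Rl N (st G' c) u2 f

theorem chn_st {h : Hyp G} {c : S'} {f : W G'} (a : rk N c f ∈ st (RG G' N) ((RL L N).lab h)) :
    Chn L N ∅ h c f := fun x hx => by
  rw [RL_lab L hx, mem_st_rk] at a
  obtain ⟨-, u, b, e⟩ := a
  exact ⟨u, u, b, Rl.refl _ _ _, e⟩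

theorem chn_RA (τ : Typ 𝒯 L D A) {T : Set (W G)} (hT : T ∈ 𝒯) {h : Hyp G} {c : S'} {f : W G'}
    (a : (RL L N).lab h ∈ RA L N A T) (b : rk N c f ∈ RA L N A T) : Chn L N (A T) h c f :=
  fun x hx => by
  obtain ⟨-, z, hz, -⟩ := id a
  rw [RL_lab L hx, τ.mem_RA hT hz] at a
  rw [τ.mem_RA hT hz] at b
  obtain ⟨-, u, r1, r2⟩ := a
  obtain ⟨-, u', r3, r4⟩ := b
  exact ⟨u, u', r2.symm, r1.symm.trans r3, r4⟩

theorem chn_stp (τ : Typ 𝒯 L D A) {h : Hyp G} {c : S'} {f : W G'}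
    (a : rk N c f ∈ stp (RG G' N) 𝒯 (RA L N A) ((RL L N).lab h)) :
    ∃ B, Chn L N B h c f ∧ (B = ∅ ∨ ∃ T ∈ 𝒯, B = A T ∧ c ∈ B ∧ L.lab h ∈ B) :=
  a.elim (fun a => ⟨∅, chn_st a, Or.inl rfl⟩) fun ⟨T, hT, a, b⟩ =>
    ⟨A T, chn_RA τ hT a b, Or.inr ⟨T, hT, rfl, b.1, a.1⟩⟩

theorem let_st (H : Pj L pj) (hW : Win L R) (hN : Retr N) {p q : W G} {h h' k : Hyp G}
    (hh : h' ∈ sep p q) (l : Lt p h h') (hR : (btw p q h h').card ≤ R) (hk : k ∈ btw p q h h')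
    {A1 A2 : Set S'} {c : S'} {f : W G'} (c1 : Chn L N A1 h c f) (c2 : Chn L N A2 h' c f)
    (n1 : L.lab k ∉ A1) (n2 : L.lab k ∉ A2) : rk N c f ∈ st (RG G' N) ((RL L N).lab k) := by
  obtain ⟨x, x', -, -, a, a', e⟩ := exists_bridge hh l
  obtain ⟨u1, u2, r1, r2, r3⟩ := c1 x a
  obtain ⟨u4, u3, r4, r5, r6⟩ := c2 x' a'
  obtain ⟨y, hy⟩ := car_nonempty k
  obtain ⟨b1, b2⟩ := letter H hW hN a a' (by rwa [d, e]) (e ▸ hk) (mem_btw.1 hk).2.1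
    (mem_btw.1 hk).2.2 r1 r2 (r3.trans r6.symm) r5.symm r4.symm n1 n2
  obtain ⟨v, b3, b4⟩ := b2 y hy
  rw [RL_lab L hy, mem_st_rk]
  exact ⟨mem_st_symm b1, v, b3, b4.trans r3⟩

/-- common neighbours of two labels are neighbours of the labels in between -/
def Btw (L : Lab G G') (R : ℕ) : Prop :=
  ∀ p q h h', h' ∈ sep p q → Lt p h h' → (btw p q h h').card ≤ R →
    ∀ e ∈ st G' (L.lab h) ∩ st G' (L.lab h'), ∀ k ∈ btw p q h h', e ∈ st G' (L.lab k)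

theorem btw_ref (H : Pj L pj) (hW : Win L R) (hN : Retr N) : Btw (RL L N) R := by
  intro p q h h' hh l hR e he k hk
  obtain ⟨c, f, rfl⟩ := rk_surj e
  exact let_st H hW hN hh l hR hk (chn_st he.1) (chn_st he.2) id id

theorem Typ.of_btw (τ : Typ 𝒯 L D A) (C : CellSys Y Δ 𝒯 n) (V : Lev Y Δ n L pj D) {T : Set (W G)}
    (hT : T ∈ 𝒯) {p q : W G} (hp : p ∈ T) (hq : q ∈ T) {k k' : Hyp G} (hk : k' ∈ sep p q)
    (l : Lt p k k') (hn : n ≤ (btw p q k k').card) {e : S'}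
    (he : ∀ j ∈ btw p q k k', e ∈ st G' (L.lab j)) : e ∈ A T := by
  obtain ⟨y, y', a, a', -, -, e1, e2, -⟩ := bridge (C.cvx T hT) hp hq hk l
  exact τ.Z_sub C V hT a a' (e2 ▸ hn) (V.H.mem_Z.2 (e1 ▸ he))

/-- two spaced labels of one type lie over a cell of that type -/
def Run (Y : Set (W G)) (𝒯 : Set (Set (W G))) (n R : ℕ) (L : Lab G G')
    (A : Set (W G) → Set S') : Prop :=
  ∀ T ∈ 𝒯, ∀ p q y y' k k', y ∈ Y → y' ∈ Y → y ∈ car k → y' ∈ car k' → sep y y' = btw p q k k' →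
    n ≤ d y y' → d y y' ≤ R → L.lab k ∈ A T → L.lab k' ∈ A T →
    ∃ T' ∈ 𝒯, y ∈ T' ∧ y' ∈ T' ∧ A T' = A T

theorem run_ref (τ : Typ 𝒯 L D A) (C : CellSys Y Δ 𝒯 n) (V : Lev Y Δ n L pj D) (hW : Win L R)
    (γ : Good Y 𝒯 R L D N) : Run Y 𝒯 n R (RL L N) (RA L N A) := by
  intro T hT p q y y' k k' hy hy' c c' e h1 h2 a a'
  obtain ⟨T', hT', b, b', e1, r⟩ := sepA τ C V hW γ hT hy hy' c c' e h1 h2 a a'
  obtain ⟨x, hx⟩ := C.ne T hT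
  exact ⟨T', hT', b, b', τ.RA_eq hT hT' hx b e1 (r x hx)⟩

theorem Run.two (ρ : Run Y 𝒯 n R L A) (C : CellSys Y Δ 𝒯 n) {T T' : Set (W G)} (hT : T ∈ 𝒯)
    (hT' : T' ∈ 𝒯) {p q : W G} (hp : p ∈ T) (hq : q ∈ T) {k k' : Hyp G} (hk : k' ∈ sep p q)
    (l : Lt p k k') (h1 : n ≤ (btw p q k k').card) (h2 : (btw p q k k').card ≤ R)
    (a : L.lab k ∈ A T') (a' : L.lab k' ∈ A T') : A T' = A T := by
  obtain ⟨y, y', b, b', c, c', e1, e2, -⟩ := bridge (C.cvx T hT) hp hq hk l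
  obtain ⟨T'', hT'', f, f', e⟩ := ρ T' hT' p q y y' k k' (C.sub T hT b) (C.sub T hT b') c c' e1
    (e2 ▸ h1) (e2 ▸ h2) a a'
  rw [← e, C.pc T hT T'' hT'' y y' b b' f f' (e2 ▸ h1)]

/-- at most one of any two spaced letters has its label in `B` -/
def One (L : Lab G G') (m : ℕ) (p q : W G) (h h' : Hyp G) (B : Set S') : Prop :=
  ∀ k ∈ btw p q h h', ∀ k' ∈ btw p q h h', Lt p k k' → m ≤ (btw p q k k').card →
    L.lab k ∈ B → L.lab k' ∉ B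

theorem alpha [Finite S] (H : Pj L pj) (hW : Win L R) (hN : Retr N) {p q : W G} {h h' : Hyp G}
    (hh : h' ∈ sep p q) (l : Lt p h h') {m : ℕ}
    (h1 : Nat.card S * (5 * (m + 1)) < (btw p q h h').card) (hR : (btw p q h h').card ≤ R) :
    ∃ k ∈ btw p q h h', ∃ k' ∈ btw p q h h', Lt p k k' ∧ m ≤ (btw p q k k').card ∧
      ∀ A1 A2 c f, Chn L N A1 h c f → Chn L N A2 h' c f → One L m p q h h' A1 →
        One L m p q h h' A2 → ∀ j ∈ btw p q k k', rk N c f ∈ st (RG G' N) ((RL L N).lab j) := by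
  obtain ⟨c, c1, c2⟩ := exists_spaced (fun j hj => (mem_btw.1 hj).1) 5 m h1
  refine ⟨c 2, c1 2 (by omega), c 3, c1 3 (by omega), (c2 2 3 (by omega) (by omega)).1,
    (c2 2 3 (by omega) (by omega)).2, fun A1 A2 e f a1 a2 o1 o2 j hj => ?_⟩
  have o : ∀ {B}, One L m p q h h' B → ∀ i j, i < j → j ≤ 5 → L.lab (c i) ∈ B → L.lab (c j) ∉ B :=
    fun o i j x y => o _ (c1 i (by omega)) _ (c1 j y) (c2 i j x y).1 (c2 i j x y).2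
  have fr : ∀ i, i ≤ 3 → ∃ j, i ≤ j ∧ j ≤ i + 2 ∧ rk N e f ∈ st (RG G' N) ((RL L N).lab (c j)) :=
    fun i hi => by
    have : ∃ j, i ≤ j ∧ j ≤ i + 2 ∧ L.lab (c j) ∉ A1 ∧ L.lab (c j) ∉ A2 := by
      by_contra x
      have y : ∀ j, i ≤ j → j ≤ i + 2 → L.lab (c j) ∈ A1 ∨ L.lab (c j) ∈ A2 := fun j a b =>
        by_contra fun z => x ⟨j, a, b, not_or.1 z⟩
      rcases y i le_rfl (by omega) with y0 | y0 <;>
        rcases y (i + 1) (by omega) (by omega) with y1 | y1 <;>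
        rcases y (i + 2) (by omega) le_rfl with y2 | y2
      exacts [o o1 _ _ (by omega) (by omega) y0 y1, o o1 _ _ (by omega) (by omega) y0 y1,
        o o1 _ _ (by omega) (by omega) y0 y2, o o2 _ _ (by omega) (by omega) y1 y2,
        o o1 _ _ (by omega) (by omega) y1 y2, o o2 _ _ (by omega) (by omega) y0 y2,
        o o2 _ _ (by omega) (by omega) y0 y1, o o2 _ _ (by omega) (by omega) y0 y1]
    obtain ⟨j, a, b, x, y⟩ := this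
    exact ⟨j, a, b, let_st H hW hN hh l hR (c1 j (by omega)) a1 a2 x y⟩
  obtain ⟨i1, -, b1, s1⟩ := fr 0 (by omega)
  obtain ⟨i2, b2, b3, s2⟩ := fr 3 le_rfl
  refine btw_ref H hW hN p q (c i1) (c i2) (mem_btw.1 (c1 i2 b3)).1 (c2 i1 i2 (by omega) b3).1
    ((Finset.card_le_card (btw_sub (c1 i1 (by omega)) (c1 i2 b3))).trans hR) _ ⟨s1, s2⟩ j
    (btw_mono ?_ ?_ hj)
  · exact (Nat.eq_or_lt_of_le b1).imp (fun x => by rw [x]) fun x => (c2 i1 2 x (by omega)).1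
  · exact (Nat.eq_or_lt_of_le b2).imp (fun x => by rw [x]) fun x => (c2 3 i2 x b3).1

theorem beta (τ : Typ 𝒯 L D A) (hN : Retr N) {T : Set (W G)} (hT : T ∈ 𝒯) {x x' : W G}
    (hx : x ∈ T) (hx' : x' ∈ T) {h h' : Hyp G} (a : x ∈ car h) (a' : x' ∈ car h') {B : Set S'}
    {c : S'} {f : W G'} (c1 : Chn L N (A T) h c f) (c2 : Chn L N B h' c f) (hc : c ∈ A T)
    (s1 : st G' (L.lab h) ∩ B ⊆ A T) (s2 : st G' (L.lab h) ∩ st G' (L.lab h') ⊆ A T) :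
    rk N c f ∈ RA L N A T := by
  obtain ⟨u1, u2, r1, r2, r3⟩ := c1 x a
  obtain ⟨u4, u3, r4, r5, r6⟩ := c2 x' a'
  obtain ⟨u, b1, b2⟩ := hN.ret r1 r2 (r3.trans r6.symm) r5.symm r4.symm (τ.rl hT hx hx') s1 s2
  exact (τ.mem_RA hT hx).2 ⟨hc, u, b1, b2.trans r3⟩

theorem core_mem [Finite S] (τ : Typ 𝒯 L D A) (C : CellSys Y Δ 𝒯 n) (V : Lev Y Δ n L pj D)
    (hW : Win L R) (hB : Btw L R) (ρ : Run Y 𝒯 n R L A) (γ : Good Y 𝒯 R L D N) {T : Set (W G)}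
    (hT : T ∈ 𝒯) {p q : W G} (hp : p ∈ T) (hq : q ∈ T) {h h' : Hyp G} (hh : h' ∈ sep p q)
    (l : Lt p h h') (h1 : Nat.card S * (5 * (n + 1)) + 1 + n ≤ (btw p q h h').card)
    (hR : (btw p q h h').card ≤ R) {A1 A2 : Set S'} {c : S'} {f : W G'} (c1 : Chn L N A1 h c f)
    (c2 : Chn L N A2 h' c f) (t1 : A1 = ∅ ∨ ∃ T ∈ 𝒯, A1 = A T ∧ c ∈ A1)
    (t2 : A2 = ∅ ∨ ∃ T ∈ 𝒯, A2 = A T ∧ c ∈ A2) (s1 : c ∈ A1 → st G' (L.lab h) ∩ A2 ⊆ A T)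
    (s2 : c ∈ A2 → st G' (L.lab h') ∩ A1 ⊆ A T) : rk N c f ∈ RA L N A T := by
  obtain ⟨x, x', hx, hx', a, a', -⟩ := bridge (C.cvx T hT) hp hq hh l
  have ss : st G' (L.lab h) ∩ st G' (L.lab h') ⊆ A T := fun e he =>
    τ.of_btw C V hT hp hq hh l (by omega) (hB p q h h' hh l hR e he)
  by_cases e1 : A1 = A T ∧ c ∈ A1
  · exact beta τ γ.retr hT hx hx' a a' (e1.1 ▸ c1) c2 (e1.1 ▸ e1.2) (s1 e1.2) ss
  by_cases e2 : A2 = A T ∧ c ∈ A2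
  · exact beta τ γ.retr hT hx' hx a' a (e2.1 ▸ c2) c1 (e2.1 ▸ e2.2) (s2 e2.2)
      (Set.inter_comm _ _ ▸ ss)
  have o : ∀ B, (B = ∅ ∨ ∃ T ∈ 𝒯, B = A T ∧ c ∈ B) → ¬(B = A T ∧ c ∈ B) → One L n p q h h' B := by
    rintro _ (rfl | ⟨T', hT', rfl, b⟩) e k hk k' hk' l' g1 g2 g3
    · exact g2
    · exact e ⟨ρ.two C hT hT' hp hq (mem_btw.1 hk').1 l' g1
        ((Finset.card_le_card (btw_sub hk hk')).trans hR) g2 g3, b⟩
  obtain ⟨k, -, k', hk', l', g1, g2⟩ := alpha V.H hW γ.retr hh l (m := n) (by omega) hR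
  exact (τ.ref C V γ.retr.normal).of_btw C (V.ref C.amb.i4c γ.retr γ.fi) hT hp hq
    (mem_btw.1 hk').1 l' g1 (g2 _ _ _ _ c1 c2 (o _ t1 e1) (o _ t2 e2))

/-- stars meet the types of far labels inside the type of the cell -/
def SA (𝒯 : Set (Set (W G))) (m R : ℕ) (L : Lab G G') (A : Set (W G) → Set S') : Prop :=
  ∀ T ∈ 𝒯, ∀ T' ∈ 𝒯, ∀ p ∈ T, ∀ q ∈ T, ∀ h h', h' ∈ sep p q → Lt p h h' →
    m ≤ (btw p q h h').card → (btw p q h h').card ≤ R → L.lab h' ∈ A T' →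
    st G' (L.lab h) ∩ A T' ⊆ A T

theorem sa_ref [Finite S] (τ : Typ 𝒯 L D A) (C : CellSys Y Δ 𝒯 n) (V : Lev Y Δ n L pj D)
    (hW : Win L R) (hB : Btw L R) (ρ : Run Y 𝒯 n R L A) (γ : Good Y 𝒯 R L D N) :
    SA 𝒯 (Nat.card S * (5 * (n + 1)) + 1 + n) R (RL L N) (RA L N A) := by
  intro T hT T' hT' p hp q hq h h' hh l h1 hR a e he
  obtain ⟨c, f, rfl⟩ := rk_surj e
  exact core_mem τ C V hW hB ρ γ hT hp hq hh l h1 hR (chn_st he.1) (chn_RA τ hT' a he.2)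
    (Or.inl rfl) (Or.inr ⟨T', hT', rfl, he.2.1⟩) False.elim fun _ _ x => x.2.elim

theorem k3a_ref [Finite S] (τ : Typ 𝒯 L D A) (C : CellSys Y Δ 𝒯 n) (V : Lev Y Δ n L pj D)
    (hW : Win L R) (hB : Btw L R) (ρ : Run Y 𝒯 n R L A) (γ : Good Y 𝒯 R L D N)
    (σ : SA 𝒯 (Nat.card S * (5 * (n + 1)) + 1 + n) R L A) {T : Set (W G)}
    (hT : T ∈ 𝒯) {p q : W G} (hp : p ∈ T) (hq : q ∈ T) {h h' : Hyp G} (hh : h' ∈ sep p q)
    (l : Lt p h h') (h1 : Nat.card S * (5 * (n + 1)) + 1 + n ≤ (btw p q h h').card)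
    (hR : (btw p q h h').card ≤ R) : stp (RG G' N) 𝒯 (RA L N A) ((RL L N).lab h) ∩
      stp (RG G' N) 𝒯 (RA L N A) ((RL L N).lab h') ⊆ RA L N A T := by
  intro e he
  obtain ⟨c, f, rfl⟩ := rk_surj e
  obtain ⟨A1, c1, t1⟩ := chn_stp τ he.1
  obtain ⟨A2, c2, t2⟩ := chn_stp τ he.2
  refine core_mem τ C V hW hB ρ γ hT hp hq hh l h1 hR c1 c2
    (t1.imp_right fun ⟨T, a, b, x, _⟩ => ⟨T, a, b, x⟩)
    (t2.imp_right fun ⟨T, a, b, x, _⟩ => ⟨T, a, b, x⟩) (fun _ => ?_) fun _ => ?_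
  · rcases t2 with rfl | ⟨T', hT', rfl, -, b⟩
    · exact fun _ x => x.2.elim
    · exact σ T hT T' hT' p hp q hq h h' hh l h1 hR b
  · rcases t1 with rfl | ⟨T', hT', rfl, -, b⟩
    · exact fun _ x => x.2.elim
    · rw [← btw_rev hh (l.mem hh)] at h1 hR
      exact σ T hT T' hT' q hq p hp h' h (mem_sep_comm.1 (l.mem hh)) (l.rev hh) h1 hR b

theorem k3b_ref [Finite S] (τ : Typ 𝒯 L D A) (C : CellSys Y Δ 𝒯 n) (H : Pj L pj)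
    (hW : Win L R) (ρ : Run Y 𝒯 n R L A) (hN : Retr N) {ω : ℕ} {p q : W G} (hp : p ∈ Y)
    (hq : q ∈ Y) (r : NoRun 𝒯 ω p q) {h h' : Hyp G} (hh : h' ∈ sep p q) (l : Lt p h h')
    (h1 : Nat.card S * (5 * (n + ω + 1 + 1)) + 1 ≤ (btw p q h h').card)
    (hR : (btw p q h h').card ≤ R) : ∃ p' ∈ Y, ∃ q' ∈ Y, n ≤ d p' q' ∧ sep p' q' ⊆ btw p q h h' ∧
      ∀ e ∈ stp (RG G' N) 𝒯 (RA L N A) ((RL L N).lab h) ∩
        stp (RG G' N) 𝒯 (RA L N A) ((RL L N).lab h'),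
        ∀ j ∈ sep p' q', e ∈ st (RG G' N) ((RL L N).lab j) := by
  obtain ⟨k, hk, k', hk', l', g1, g2⟩ := alpha H hW hN hh l h1 hR
  obtain ⟨y, y', hy, hy', -, -, e1, e2, -⟩ := bridge C.amb.cvx hp hq (mem_btw.1 hk').1 l'
  refine ⟨y, hy, y', hy', by omega, e1 ▸ btw_sub hk hk', fun e he => ?_⟩
  obtain ⟨c, f, rfl⟩ := rk_surj e
  obtain ⟨A1, c1, t1⟩ := chn_stp τ he.1
  obtain ⟨A2, c2, t2⟩ := chn_stp τ he.2
  have o : ∀ B, (B = ∅ ∨ ∃ T ∈ 𝒯, B = A T) → One L (n + ω + 1) p q h h' B := by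
    rintro _ (rfl | ⟨T', hT', rfl⟩) j hj j' hj' l' g1 g2 g3
    · exact g2
    · obtain ⟨z, z', hz, hz', a, a', e1, e2, i1, i2⟩ := bridge C.amb.cvx hp hq (mem_btw.1 hj').1 l'
      obtain ⟨T, hT, b, b', -⟩ := ρ T' hT' p q z z' j j' hz hz' a a' e1 (by omega)
        (e2 ▸ (Finset.card_le_card (btw_sub hj hj')).trans hR) g2 g3
      have := r T hT z b z' b' (by rw [mem_I_iff_d.1 i2, mem_I_iff_d.1 i1])
      omega
  exact e1 ▸ g2 _ _ _ _ c1 c2 (o _ (t1.imp_right fun ⟨T, a, b, _⟩ => ⟨T, a, b⟩))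
    (o _ (t2.imp_right fun ⟨T, a, b, _⟩ => ⟨T, a, b⟩))

end Pool.Agent.MP_c34dea_an.H66.LevD
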