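import Pool.Agent.MP_c34dea_an.H66.D3

set_option autoImplicit false

open scoped symmDiff Pointwise

namespace Pool.Agent.MP_c34dea_an.H66

namespace LevD

variable {S : Type} {G : SimpleGraph S} {S' : Type} {G' : SimpleGraph S'} {Y : Set (W G)}
  {Δ D : Subgroup (W G)} {𝒯 : Set (Set (W G))} {n R : ℕ} {L : Lab G G'} {pj : S' → S}
  {N : Subgroup (W G')} {A : Set (W G) → Set S'}

theorem exists_mid {p q : W G} {m : ℕ} (h : m ≤ d p q) : ∃ u ∈ I p q, d p u = m := by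
  induction m with
  | zero => exact ⟨p, left_mem_I p q, d_self p⟩
  | succ m ih =>
    obtain ⟨u, hu, e⟩ := ih (by omega)
    have h1 := mem_I_iff_d.1 hu
    obtain ⟨s, hs⟩ := exists_step (p := u) (q := q) (by rintro rfl; omega)
    have h2 := mem_I_trans_right hu (mul_gen_mem_I hs)
    have h3 := mem_I_iff_d.1 h2
    have h4 := d_step hs
    exact ⟨_, h2, by omega⟩

/-- pieces labelled by the star of a transversal hyperplane are small -/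
def Small (Y : Set (W G)) (𝒯 : Set (Set (W G))) (D0 R : ℕ) (L : Lab G G')
    (A : Set (W G) → Set S') : Prop :=
  ∀ T ∈ 𝒯, ∀ h ∈ WH T, Trans D0 T h → ∀ y ∈ Y, ∀ y' ∈ Y,
    (∀ k ∈ sep y y', L.lab k ∈ A T ∩ st G' (L.lab h)) → d y y' ≤ R

theorem small_ref [Finite S] (τ : Typ 𝒯 L D A) (C : CellSys Y Δ 𝒯 n) (V : Lev Y Δ n L pj D)
    (hW : Win L R) (γ : Good Y 𝒯 R L D N) {D0 : ℕ} (hR : D0 + n + Nat.card S * (n + 1) < R) :
    Small Y 𝒯 D0 R (RL L N) (RA L N A) := by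
  intro T hT h hh tr y hy y0 hy0 hl0
  by_contra hd0
  obtain ⟨y', i, hd⟩ := exists_mid (p := y) (q := y0) (m := R) (by omega)
  have hy' := C.amb.cvx y hy y0 hy0 i
  have hl := fun k (hk : k ∈ sep y y') => hl0 k (i hk)
  obtain ⟨c, c1, c2⟩ := exists_spaced (Finset.Subset.refl (sep y y')) 1 n (by
    rw [one_mul]; exact (by omega : Nat.card S * (n + 1) < d y y'))
  obtain ⟨b, b', hb, hb', a, a', e1, e2, i1, i2⟩ :=
    bridge C.amb.cvx hy hy' (c1 1 le_rfl) (c2 0 1 one_pos le_rfl).1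
  have i3 := mem_I_trans_left i1 i2
  obtain ⟨-, -, -, -, -, r1⟩ := sepA τ C V hW γ hT hb hb' a a' e1 (e2 ▸ (c2 0 1 one_pos le_rfl).2)
    (hd ▸ d_le_of_mem_I i3 i1) (hl _ (c1 0 zero_le_one)).1 (hl _ (c1 1 le_rfl)).1
  obtain ⟨x, hx, cx, -⟩ := (mem_WH_iff (C.cvx T hT)).1 hh
  have r2 : Rl N (A T) (L.phi x) (L.phi y) :=
    (r1 x hx).trans (Rl.of_Par (L.phi_mem_Par fun k hk => (hl k (i3 hk)).1.1)).symm
  have V' := V.ref C.amb.i4c γ.retr γ.fi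
  have z1 := V'.H.mem_Z.2 fun k hk => mem_st_symm (hl k hk).2
  have z2 := V'.zx y hy y' hy' (by omega) _ z1
  have z3 := V'.H.pj_Z z1
  rw [V'.H.lab] at z2 z3
  have z4 : L.lab h = L.lab (hyp y h.1) := congrArg Sigma.fst z2
  rw [RL_lab L cx, RL_lab L (mem_car_hyp y h.1), ← z4, rk_eq] at z2
  obtain ⟨g, hg, m, hm, e3⟩ := (γ.retr.inter r2 z2).exists γ.retr.normal
  obtain ⟨δ, hδ, -, z, -, e4, rfl⟩ := (γ.fkY m hm).base V.H rfl C.amb.cvx (C.sub T hT hx) hy e3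
  have p1 : (L.phi x)⁻¹ * L.phi z ∈ Par G' (A T ∩ st G' (L.lab h)) := e4 ▸ fold_Par _ _ hg
  have zT := τ.exact hT hx fun k hk => (V.H.par_iff.1 p1 k hk).1
  have zc : z ∈ car h := V.H.pr_phi z ▸ V.H.car_of cx (Par_mono Set.inter_subset_right p1)
  obtain ⟨z', hz', rfl⟩ := τ.exact (C.inv δ (V.le hδ) T hT) (y := y') ⟨z, zT, rfl⟩ fun k hk =>
    τ.inv δ hδ T hT ▸ (hl k hk).1.1
  have := tr z zT z' hz' zc ((mem_car_iff zc).2 (by
    simpa [mul_assoc] using mem_Zs_iff.1 z3))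
  rw [← (d_smul δ z z').symm.trans hd] at hR
  omega

theorem exists_M [Finite S'] (C : CellSys Y Δ 𝒯 n) (V : Lev Y Δ n L pj D) (R : ℕ) :
    ∃ M : Subgroup (W G'), M.Normal ∧ M.FiniteIndex ∧ Deep M R ∧ (∀ g ∈ M, FK L D {Y} g) ∧
      ∀ g ∈ M, FK L D 𝒯 g := by
  obtain ⟨F, f1, f2⟩ := C.amb.coc
  obtain ⟨M1, a1, a2, a3⟩ := exists_deep G' R
  obtain ⟨M2, b1, b2, b3⟩ := exists_FK V.H V.sb (𝒞 := {Y}) (fun _ e => e ▸ C.amb.cvx)
    (fun _ e => e.le) (fun δ hδ _ e => by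
      rw [e]
      refine Set.Subset.antisymm ?_ fun y hy => ⟨_, C.amb.inv _ (Δ.inv_mem (V.le hδ)) y hy, by simp⟩
      rintro _ ⟨y, hy, rfl⟩
      exact C.amb.inv δ (V.le hδ) y hy)
    (fun y => (Set.finite_singleton Y).subset fun _ h => h.1) (coc_of_fi V.fi f1 f2)
  obtain ⟨M3, c1, c2, c3⟩ := exists_FK V.H V.sb C.cvx C.sub (fun δ hδ => C.inv δ (V.le hδ)) C.lf
    (coc_of_fi V.fi f1 f2)
  exact ⟨M1 ⊓ (M2 ⊓ M3), inferInstance, inferInstance, a3.mono inf_le_left,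
    fun g hg => (b3 g).1 hg.2.1, fun g hg => (c3 g).1 hg.2.2⟩

theorem exists_good [Finite S'] (C : CellSys Y Δ 𝒯 n) (V : Lev Y Δ n L pj D) (R : ℕ) :
    ∃ N, Good Y 𝒯 R L D N := by
  obtain ⟨M, a, b, c, e, f⟩ := exists_M C V R
  obtain ⟨NM, h, -⟩ := exists_NM G'
  obtain ⟨h1, h2, h3⟩ := h M a b
  exact ⟨_, h1, h2, c.mono h3, fun g hg => e g (h3 hg), fun g hg => f g (h3 hg)⟩

theorem exists_top [Finite S'] (τ : Typ 𝒯 L D A) (C : CellSys Y Δ 𝒯 n) (V : Lev Y Δ n L pj D)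
    {D0 : ℕ} (σ : Small Y 𝒯 D0 R L A) : ∃ N, Good Y 𝒯 R L D N ∧
      ∀ T ∈ 𝒯, ∀ h ∈ WH T, Trans D0 T h → ∀ k ∈ WH T, (RL L N).lab k = (RL L N).lab h →
        ∃ μ ∈ RD L D N, μ • T = T ∧ μ • h = k := by
  obtain ⟨M, a, b, c, e, f⟩ := exists_M C V R
  obtain ⟨NM, n1, n2, n3⟩ := exists_NM G'
  obtain ⟨h1, h2, -⟩ := n1 M a b
  obtain ⟨F, f1, f2⟩ := C.amb.coc
  obtain ⟨M', c1, c2, c3⟩ := exists_FK V.H (D := RD L D (NM M)) (inf_le_right.trans V.sb) C.cvx C.sub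
    (fun δ hδ => C.inv δ (V.le hδ.2)) C.lf (coc_of_fi (RD_fi V.sb V.fi h2) f1 f2)
  obtain ⟨g1, g2, g3⟩ := n1 (M ⊓ M') inferInstance inferInstance
  refine ⟨_, ⟨g1, g2, c.mono (g3.trans inf_le_left), fun g hg => e g (g3 hg).1,
    fun g hg => f g (g3 hg).1⟩, fun T hT h hh tr k hk e1 => ?_⟩
  obtain ⟨x, hx, cx, -⟩ := (mem_WH_iff (C.cvx T hT)).1 hh
  obtain ⟨x', hx', cx', -⟩ := (mem_WH_iff (C.cvx T hT)).1 hk
  have e2 : L.lab k = L.lab h := congrArg Sigma.fst e1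
  rw [RL_lab L cx, RL_lab L cx', e2, rk_eq] at e1
  obtain ⟨g, hg, m, hm, e3⟩ := (g1.inter (τ.rl hT hx hx') e1.symm).exists g1.normal
  obtain ⟨μ, hμ, e4, z, -, e5, rfl⟩ := ((c3 m).1 (g3 hm).2).base V.H hT (C.cvx T hT) hx hx' e3
  have p1 : (L.phi x)⁻¹ * L.phi z ∈ Par G' (A T ∩ st G' (L.lab h)) := e5 ▸ fold_Par _ _ hg
  have zc : z ∈ car h := V.H.pr_phi z ▸ V.H.car_of cx (Par_mono Set.inter_subset_right p1)
  obtain ⟨m1, m2⟩ := (mem_RD V.sb).1 hμ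
  have loc := n3 M (M ⊓ M') (A T ∩ st G' (L.lab h)) a inferInstance (le_antisymm
    (fun w hw => ⟨⟨hw.1, (c3 w).2 fun T' hT' y hy => ⟨1, one_mem _, one_smul _ _, by
      rw [one_mul, fold_inter (V.H.cvx (C.cvx T' hT')) _ hw.2]
      refine c w hw.1 _ ((V.H.cvx (C.cvx T' hT')).inter (coset_convex _ _)) ?_ _
        ⟨⟨y, hy, rfl⟩, by simp⟩
      rintro _ ⟨⟨u, hu, rfl⟩, u1⟩ _ ⟨⟨v, hv, rfl⟩, v1⟩
      rw [V.H.d_phi]
      refine σ T hT h hh tr u (C.sub T' hT' hu) v (C.sub T' hT' hv) (V.H.par_iff.1 ?_)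
      rw [Set.mem_ofPred_eq] at u1 v1
      simpa [mul_assoc] using Subgroup.mul_mem _ (Subgroup.inv_mem _ u1) v1⟩⟩, hw.2⟩)
    (inf_le_inf_right _ inf_le_left))
  rw [L.phi_mul_of_inv (V.sb m1)] at e3
  have e6 : L.phi μ =
      L.phi x * (g * m * g⁻¹ * (g * ((L.phi x)⁻¹ * L.phi z)⁻¹)) * (L.phi x)⁻¹ := by
    rw [eq_mul_inv_of_mul_eq e3]
    group
  have w1 : g * ((L.phi x)⁻¹ * L.phi z)⁻¹ ∈ NM M ⊓ Par G' (A T ∩ st G' (L.lab h)) := by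
    refine ⟨(Subgroup.mul_mem_cancel_left _ (h1.normal.conj_mem m
      (n2 _ M inferInstance a inf_le_left hm) g)).1 ?_, (Par G' _).mul_mem hg ((Par G' _).inv_mem p1)⟩
    rw [e6] at m2
    exact h1.normal.mem_comm_iff.1 m2 |> fun x => by simpa [mul_assoc] using x
  rw [loc] at w1
  refine ⟨μ, (mem_RD V.sb).2 ⟨m1, e6 ▸ g1.normal.conj_mem _
    (mul_mem (g1.normal.conj_mem m hm g) w1.1) _⟩, e4,
    eq_of_mem_car_of_label ((smul_mem_car μ).2 zc) cx' ?_⟩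
  rw [smul_fst, ← V.H.lab, ← e2, V.H.lab]

end LevD

open LevD in
theorem levels : LevelsStmt := by
  intro S _ G Y Δ 𝒯 n C
  refine ⟨Nat.card S * (5 * (n + 1)) + 1 + n, by omega, fun ω =>
    ⟨Nat.card S * (5 * (n + ω + 1 + 1)) + 1, fun D0 R => ?_⟩⟩
  obtain ⟨R', r1, r2⟩ : ∃ R', R ≤ R' ∧ D0 + n + Nat.card S * (n + 1) < R' :=
    ⟨R + (D0 + n + Nat.card S * (n + 1)) + 1, by omega, by omega⟩
  have V : Lev Y Δ n (⟨fun h => h.1, fun _ _ c => mem_st_of_adj c.adj⟩ : Lab G G) id Δ :=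
    ⟨⟨fun _ => rfl, fun _ _ h => h, fun _ _ c => c.adj⟩, le_rfl, fun _ _ _ => rfl,
      by rw [Subgroup.subgroupOf_self]; infer_instance, fun _ _ _ _ _ _ _ => rfl⟩
  obtain ⟨N, γ⟩ := exists_good C V R'
  have V0 := V.ref C.amb.i4c γ.retr γ.fi
  have W0 := win_ref V.H γ.retr.normal γ.deep
  have τ0 := typ_zero C V γ
  have := RS_finite γ.fi
  obtain ⟨N0, γ0⟩ := exists_good C V0 R'
  have V1 := V0.ref C.amb.i4c γ0.retr γ0.fi
  have W1 := win_ref V0.H γ0.retr.normal γ0.deep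
  have τ1 := τ0.ref C V0 γ0.retr.normal
  have := RS_finite γ0.fi
  obtain ⟨N1, γ1⟩ := exists_good C V1 R'
  have V2 := V1.ref C.amb.i4c γ1.retr γ1.fi
  have W2 := win_ref V1.H γ1.retr.normal γ1.deep
  have τ2 := τ1.ref C V1 γ1.retr.normal
  have ρ2 := run_ref τ1 C V1 W1 γ1
  have := RS_finite γ1.fi
  obtain ⟨N2, γ2, x1⟩ := exists_top τ2 C V2 (small_ref τ1 C V1 W1 γ1 r2)
  have V3 := V2.ref C.amb.i4c γ2.retr γ2.fi
  exact ⟨_, RS_finite γ2.fi, _, _, _, _, V3.le, V3.fi, V3.H.cr, V3.sb,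
    (τ2.ref C V2 γ2.retr.normal).real,
    fun h k x y a b c => win_ref V2.H γ2.retr.normal γ2.deep h k x y a b (c.trans r1),
    fun δ a y b => disp_ref V2.H V2.sb γ2.retr.normal γ2.deep a (b.trans r1),
    fun p a q b c => (V3.clq C.amb.i4c a b c).mono fun _ => V3.H.mem_Z.2,
    fun T a h y z b c e => τ2.bfull V2.H γ2.retr.normal γ2.deep a b c (e.trans r1),
    fun T a T' a' p b q c k k' e f g i => (run_ref τ2 C V2 W2 γ2).two C a a' b c e f g (i.trans r1),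
    fun T a p b q c k k' e f g i => k3a_ref τ2 C V2 W2 (btw_ref V1.H W1 γ1.retr) ρ2 γ2
      (sa_ref τ1 C V1 W1 (btw_ref V0.H W0 γ0.retr) (run_ref τ0 C V0 W0 γ0) γ1) a b c e f g
      (i.trans r1),
    fun p a q b c k k' e f g i => k3b_ref τ2 C V2.H W2 ρ2 γ2.retr a b c e f g (i.trans r1), x1⟩

end Pool.Agent.MP_c34dea_an.H66
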