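import Pool.Agent.MP_c34dea_an.H66.Spec

set_option autoImplicit false

open scoped symmDiff Pointwise

namespace Pool.Agent.MP_c34dea_an.H66.E

section General

variable {S : Type} {G : SimpleGraph S}

theorem _root_.Pool.Agent.MP_c34dea_an.H66.NoRun.symmE {𝒯 : Set (Set (W G))} {ω : ℕ} {p q : W G} (h : NoRun 𝒯 ω p q) :
    NoRun 𝒯 ω q p := by
  intro T hT u hu v hv e
  have := h T hT v hv u hu (by
    rw [d_comm p v, d_comm v u, d_comm u q, d_comm p q]; omega)
  rwa [d_comm]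

theorem btw_subset_sep (p q : W G) (k k' : Hyp G) : btw p q k k' ⊆ sep p q :=
  fun _ h => (mem_btw.1 h).1

theorem card_btw_le (p q : W G) (k k' : Hyp G) : (btw p q k k').card ≤ d p q :=
  Finset.card_le_card (btw_subset_sep p q k k')

theorem exists_point (p q : W G) : ∀ m, m ≤ d p q → ∃ u ∈ I p q, d p u = m := by
  intro m
  induction m with
  | zero => exact fun _ => ⟨p, left_mem_I p q, d_self p⟩
  | succ m ih =>
    intro hm
    obtain ⟨u, hu, e⟩ := ih (by omega)
    have h1 := mem_I_iff_d.1 hu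
    have hne : u ≠ q := by
      rintro rfl
      omega
    obtain ⟨s, hs⟩ := exists_step hne
    have h2 : u * gen G s ∈ I p q := mem_I_trans_right hu (mul_gen_mem_I hs)
    have h3 := mem_I_iff_d.1 h2
    have h4 := d_step hs
    exact ⟨_, h2, by omega⟩

theorem mem_car_of_clq {K : Set S} (hK : Clq G K) {u v : W G} (h : ∀ k ∈ sep u v, k.1 ∈ K)
    {k : Hyp G} (hk : k ∈ sep u v) : u ∈ car k := by
  obtain ⟨y, hy, hc, -, -⟩ := exists_cross_pt hk
  rw [mem_car_iff hc, mem_Par_iff]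
  intro j hj
  exact hK _ (h k hk) _ (h j (hy (mem_sep_comm.1 hj)))

theorem not_mem_sep_seq {x : ℕ → W G} {H : Hyp G} {i : ℕ} : ∀ j, i ≤ j →
    (∀ c, i ≤ c → c < j → H ∉ sep (x c) (x (c + 1))) → H ∉ sep (x i) (x j) := by
  intro j hj
  induction j, hj using Nat.le_induction with
  | base => simp
  | succ j hj ih =>
    intro h
    have h1 := ih fun c a b => h c a (by omega)
    have h2 := h j hj (by omega)
    rw [mem_sep_trans (x i) (x j)]
    tauto

theorem exists_block {x : ℕ → W G} {H : Hyp G} {i j : ℕ} (hij : i ≤ j) (h : H ∈ sep (x i) (x j)) :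
    ∃ c, i ≤ c ∧ c < j ∧ H ∈ sep (x c) (x (c + 1)) := by
  by_contra hn
  exact not_mem_sep_seq j hij (fun c a b e => hn ⟨c, a, b, e⟩) h

theorem mem_sep_seq {x : ℕ → W G} {H : Hyp G} {i j c : ℕ} (hic : i ≤ c) (hcj : c < j)
    (h : H ∈ sep (x c) (x (c + 1)))
    (hu : ∀ c', i ≤ c' → c' < j → c' ≠ c → H ∉ sep (x c') (x (c' + 1))) : H ∈ sep (x i) (x j) := by
  have h1 : H ∉ sep (x i) (x c) :=
    not_mem_sep_seq c hic fun c' a b => hu c' a (by omega) (by omega)
  have h2 : H ∉ sep (x (c + 1)) (x j) :=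
    not_mem_sep_seq j hcj fun c' a b => hu c' (by omega) b (by omega)
  rw [mem_sep_trans (x i) (x c), mem_sep_trans (x c) (x (c + 1)) (x j)]
  tauto

theorem two_of_six (a b c e : ℕ) : ∃ i j, i < j ∧ j < 6 ∧ (i ≠ a ∧ i ≠ b ∧ i ≠ c ∧ i ≠ e) ∧
    (j ≠ a ∧ j ≠ b ∧ j ≠ c ∧ j ≠ e) := by
  have h1 : 1 < (Finset.range 6 \ {a, b, c, e}).card := by
    have h2 := Finset.le_card_sdiff ({a, b, c, e} : Finset ℕ) (Finset.range 6)
    have h3 : ({a, b, c, e} : Finset ℕ).card ≤ 4 := Finset.card_le_four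
    rw [Finset.card_range] at h2
    omega
  obtain ⟨i, hi, j, hj, hne⟩ := Finset.one_lt_card.1 h1
  simp only [Finset.mem_sdiff, Finset.mem_range, Finset.mem_insert, Finset.mem_singleton,
    not_or] at hi hj
  rcases lt_or_gt_of_ne hne with h | h
  · exact ⟨i, j, h, hj.1, hi.2, hj.2⟩
  · exact ⟨j, i, h, hi.1, hj.2, hi.2⟩

theorem atmost_one {P : ℕ → Prop} (h : ∀ i j, i < j → j < 6 → P i → P j → False) :
    ∃ a, ∀ i, i < 6 → i ≠ a → ¬ P i := by
  by_cases e : ∃ a, a < 6 ∧ P a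
  · obtain ⟨a, ha, hP⟩ := e
    refine ⟨a, fun i hi hne hi' => ?_⟩
    rcases lt_or_gt_of_ne hne with l | l
    · exact h i a l ha hi' hP
    · exact h a i l hi hP hi'
  · exact ⟨0, fun i hi _ hi' => e ⟨i, hi, hi'⟩⟩

variable {S' : Type} {G' : SimpleGraph S'} (L : Lab G G')

theorem _root_.Pool.Agent.MP_c34dea_an.H66.Lab.mem_sep_IE
    {p q u : W G} (h : d (L.phi p) (L.phi q) = d p q) (hu : u ∈ I p q)
    {k : Hyp G} (hk : k ∈ sep p q) : L.hmap k ∈ sep (L.phi p) (L.phi u) ↔ k ∈ sep p u := by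
  rw [L.sep_phi_of_d_eq (L.d_eq_of_mem_I h (left_mem_I p q) hu), Finset.mem_image]
  constructor
  · rintro ⟨j, hj, e⟩
    rwa [← L.injOn_of_d_eq h (hu hj) hk e]
  · exact fun hk' => ⟨k, hk', rfl⟩

theorem _root_.Pool.Agent.MP_c34dea_an.H66.Lab.lt_or_crossE
    {p q : W G} (h : d (L.phi p) (L.phi q) = d p q) {k k' : Hyp G}
    (hk' : k' ∈ sep p q) (hlt : Lt p k k') :
    Lt (L.phi p) (L.hmap k) (L.hmap k') ∨ Cross (L.hmap k) (L.hmap k') := by
  have hk := hlt.mem hk'
  have m1 := (L.mem_sep_IE h (right_mem_I p q) hk).2 hk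
  have m2 := (L.mem_sep_IE h (right_mem_I p q) hk').2 hk'
  rcases trichotomy m1 m2 (fun e => hlt.ne (L.injOn_of_d_eq h hk hk' e)) with a | a | a
  · exact Or.inl a
  · exfalso
    obtain ⟨y, hy, hc, hn, hy'⟩ := exists_cross_pt hk
    have h1 : k ∈ sep p (y * gen G k.1) := by
      rw [mem_sep_trans p y, mem_sep_car_gen hc]
      simp [hn]
    have h2 := hlt.not_mem_of_car (mul_gen_mem_car hc (mem_st_self _))
    exact h2 ((L.mem_sep_IE h hy' hk').1 (a.mem ((L.mem_sep_IE h hy' hk).2 h1)))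
  · exact Or.inr a

end General

/-- the threshold for non-crossing -/
noncomputable def nOne (S : Type) (MB : ℕ) : ℕ := Nat.card S * (2 * (MB + 1)) + 1

/-- all hypotheses of module E -/
structure Ctx {S : Type} {G : SimpleGraph S} (Y : Set (W G)) (Δ : Subgroup (W G))
    (𝒯 : Set (Set (W G))) (n ω ωV MA MB RV D0 R : ℕ) {S3 : Type} (G3 : SimpleGraph S3)
    (Δ3 : Subgroup (W G)) (K : Set (W G) → Set S3) (L : Lab G (Gp G3 𝒯 K)) : Prop where
  cs : CellSys Y Δ 𝒯 n
  col : Colouring Y Δ 𝒯 n ω D0 MA MB R G3 L.lab Δ3 K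
  vec : Vec 𝒯 Δ3 L.lab ωV MA RV
  hMA : n ≤ MA
  hω : n ≤ ω
  hωV : ωV ≤ ω
  hR : RV + n + Nat.card S * (2 * nOne S MB + MB + 1) ≤ R

variable {S : Type} {G : SimpleGraph S} {Y : Set (W G)} {Δ : Subgroup (W G)}
  {𝒯 : Set (Set (W G))} {n ω ωV MA MB RV D0 R : ℕ} {S3 : Type} {G3 : SimpleGraph S3}
  {Δ3 : Subgroup (W G)} {K : Set (W G) → Set S3} {L : Lab G (Gp G3 𝒯 K)}

theorem clq_K {T : Set (W G)} (hT : T ∈ 𝒯) : Clq (Gp G3 𝒯 K) (K T) := by
  intro s hs t ht
  rw [st_Gp]
  exact Or.inr ⟨T, hT, hs, ht⟩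

theorem clq_Gp {A : Set S3} (h : Clq G3 A) : Clq (Gp G3 𝒯 K) A := by
  intro s hs t ht
  rw [st_Gp]
  exact Or.inl (h s hs t ht)

namespace Ctx

variable (c : Ctx Y Δ 𝒯 n ω ωV MA MB RV D0 R G3 Δ3 K L)
include c

theorem hR1 : n + Nat.card S * (MB + 1) ≤ R := by
  have h := c.hR
  have : Nat.card S * (MB + 1) ≤ Nat.card S * (2 * nOne S MB + MB + 1) :=
    Nat.mul_le_mul_left _ (by omega)
  omega

theorem hR2 : Nat.card S * (2 * nOne S MB) ≤ R := by
  have h := c.hR
  have : Nat.card S * (2 * nOne S MB) ≤ Nat.card S * (2 * nOne S MB + MB + 1) :=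
    Nat.mul_le_mul_left _ (by omega)
  omega

theorem cross_p {h k : Hyp G} (x : Cross h k) : Cross (L.hmap h) (L.hmap k) := by
  have := c.col.cross_adj h k x
  exact L.cross_hmap x ⟨this.ne, Or.inl (mem_st_of_adj this)⟩

theorem winLt {p q : W G} {k k' : Hyp G} (hk' : k' ∈ sep p q) (h : Lt p k k')
    (hR : (btw p q k k').card ≤ R) (hl : L.lab k' ∈ st G3 (L.lab k)) : False := by
  obtain ⟨y, y', -, -, h1, h2, h3⟩ := exists_bridge hk' h
  rcases c.col.win k k' y y' h1 h2 (by unfold d; rw [h3]; exact hR) hl with e | e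
  · exact h.ne e
  · exact h.not_cross e

theorem near {p q : W G} (hp : p ∈ Y) (hq : q ∈ Y) (hN : NoRun 𝒯 ω p q) {h k1 k2 : Hyp G}
    (hk2 : k2 ∈ sep p q) (l1 : Lt p h k1) (l2 : Lt p k1 k2) (hM : MB ≤ (btw p q k1 k2).card)
    (hR : (btw p q h k2).card ≤ R) (s1 : L.lab k1 ∈ st (Gp G3 𝒯 K) (L.lab h))
    (s2 : L.lab k2 ∈ st (Gp G3 𝒯 K) (L.lab h)) : False := by
  have hsub : btw p q k1 k2 ⊆ btw p q h k2 := fun j hj =>
    mem_btw.2 ⟨(mem_btw.1 hj).1, l1.trans (mem_btw.1 hj).2.1, (mem_btw.1 hj).2.2⟩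
  obtain ⟨p', -, q', -, h1, h2, h3⟩ := c.col.k3b p hp q hq hN k1 k2 hk2 l2 hM
    ((Finset.card_le_card hsub).trans hR)
  have hn := c.cs.n_pos
  obtain ⟨k, hk⟩ : (sep p' q').Nonempty := Finset.card_pos.1 (by unfold d at h1; omega)
  have h4 := h3 (L.lab h) ⟨by rw [← st_Gp]; exact mem_st_symm s1,
    by rw [← st_Gp]; exact mem_st_symm s2⟩ k hk
  have h5 := mem_btw.1 (h2 hk)
  refine c.winLt h5.1 (l1.trans h5.2.1) ((Finset.card_le_card fun j hj => ?_).trans hR)
    (mem_st_symm h4)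
  exact mem_btw.2 ⟨(mem_btw.1 hj).1, (mem_btw.1 hj).2.1, (mem_btw.1 hj).2.2.trans h5.2.2⟩

theorem kz {p q : W G} (hp : p ∈ Y) (hq : q ∈ Y) (hN : NoRun 𝒯 ω p q) {k k' : Hyp G}
    (hk' : k' ∈ sep p q) (l : Lt p k k') (hM : MB ≤ (btw p q k k').card)
    (hR : (btw p q k k').card ≤ R) :
    Clq G3 (st (Gp G3 𝒯 K) (L.lab k) ∩ st (Gp G3 𝒯 K) (L.lab k')) := by
  obtain ⟨p', hp', q', hq', h1, -, h3⟩ := c.col.k3b p hp q hq hN k k' hk' l hM hR
  refine (c.col.zc p' hp' q' hq' h1).mono fun e he => h3 e ?_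
  rwa [st_Gp, st_Gp] at he

variable [Finite S]

theorem chainNear {p q : W G} (hp : p ∈ Y) (hq : q ∈ Y) (hN : NoRun 𝒯 ω p q) {h : Hyp G}
    {J : Finset (Hyp G)} (hJ : J ⊆ sep p q)
    (h1 : ∀ k ∈ J, Lt p h k ∧ L.lab k ∈ st (Gp G3 𝒯 K) (L.lab h))
    (h2 : ∀ k ∈ J, ∀ j ∈ sep p q, Lt p h j → Lt p j k → j ∈ J) : J.card ≤ R := by
  classical
  by_contra hn
  have hR := c.hR1
  obtain ⟨e, he, hlt⟩ := exists_chain hJ (MB + 1) (by omega)
  have h3 := card_btw_ge_of_chain (fun i hi => hJ (he i hi).1) hlt (i := 0) (j := MB + 1)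
    (by omega) le_rfl
  have a0 := (he 0 (by omega)).1
  have a1 := (he (MB + 1) le_rfl).1
  refine c.near hp hq hN (hJ a1) (h1 _ a0).1 (hlt 0 (MB + 1) (by omega) le_rfl) (by omega) ?_
    (h1 _ a0).2 (h1 _ a1).2
  refine le_trans (Finset.card_le_card fun j hj => ?_) ((he (MB + 1) le_rfl).2.trans (by omega))
  have := mem_btw.1 hj
  exact Finset.mem_filter.2 ⟨h2 _ a1 j this.1 this.2.1 this.2.2, this.2.2⟩

theorem t2_aux {p q : W G} (hp : p ∈ Y) (hq : q ∈ Y) (hN : NoRun 𝒯 ω p q) (m : ℕ) :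
    ∀ h h', h' ∈ sep p q → Lt p h h' → (btw p q h h').card = m → L.hmap h ≠ L.hmap h' := by
  induction m using Nat.strong_induction_on with
  | _ m ih =>
    intro h h' hh' hlt hm e
    obtain ⟨y, y', -, -, h1, h2, h3⟩ := exists_bridge hh' hlt
    have key : ∀ k k', k ∈ btw p q h h' → k' ∈ btw p q h h' → Lt p k k' →
        L.hmap k ≠ L.hmap k' := by
      intro k k' hk hk' l
      have a := mem_btw.1 hk
      have b := mem_btw.1 hk'
      refine ih _ ?_ k k' b.1 l rfl
      rw [← hm]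
      refine Finset.card_lt_card ⟨fun j hj => ?_, fun x => ?_⟩
      · have := mem_btw.1 hj
        exact mem_btw.2 ⟨this.1, a.2.1.trans this.2.1, this.2.2.trans b.2.2⟩
      · exact (mem_btw.1 (x hk)).2.1.ne rfl
    have inj : Set.InjOn L.hmap (sep y y' : Set (Hyp G)) := by
      rw [h3]
      intro k hk k' hk' e'
      by_contra hne
      rcases trichotomy (mem_btw.1 hk).1 (mem_btw.1 hk').1 hne with a | a | a
      · exact key k k' hk hk' a e'
      · exact key k' k hk' hk a e'.symm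
      · exact (c.cross_p a).ne e'
    have h4 := L.sep_phi_of_d_eq (L.d_eq_of_injOn inj)
    have h5 : ∀ k ∈ btw p q h h', L.lab k ∈ st (Gp G3 𝒯 K) (L.lab h) := by
      intro k hk
      have a1 := L.phi_mem_car h1
      have a2 := L.phi_mem_car h2
      rw [← e] at a2
      exact label_mem_st_of_car (k := L.hmap k) a1 a2
        (by rw [h4, h3]; exact Finset.mem_image_of_mem _ hk)
    have h6 := c.chainNear hp hq hN (btw_subset_sep p q h h')
      (fun k hk => ⟨(mem_btw.1 hk).2.1, h5 k hk⟩)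
      (fun k hk j hj a b => mem_btw.2 ⟨hj, a, b.trans (mem_btw.1 hk).2.2⟩)
    have h7 : L.lab h = L.lab h' := congrArg Sigma.fst e
    exact c.winLt hh' hlt h6 (h7 ▸ mem_st_self _)

theorem t2 {p q : W G} (hp : p ∈ Y) (hq : q ∈ Y) (hN : NoRun 𝒯 ω p q) :
    d (L.phi p) (L.phi q) = d p q := by
  refine L.d_eq_of_injOn fun k hk k' hk' e => ?_
  by_contra hne
  rcases trichotomy hk hk' hne with a | a | a
  · exact c.t2_aux hp hq hN _ k k' hk' a rfl e
  · exact c.t2_aux hp hq hN _ k' k hk a rfl e.symm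
  · exact (c.cross_p a).ne e

omit [Finite S] in
theorem lt_of_lt_p {p q : W G} (h : d (L.phi p) (L.phi q) = d p q) {k k' : Hyp G}
    (hk : k ∈ sep p q) (hk' : k' ∈ sep p q) (hlt : Lt (L.phi p) (L.hmap k) (L.hmap k')) :
    Lt p k k' := by
  rcases trichotomy hk hk' (fun e => hlt.ne (by rw [e])) with a | a | a
  · exact a
  · rcases L.lt_or_crossE h hk a with b | b
    · exact absurd b hlt.asymm
    · exact absurd b.symm hlt.not_cross
  · exact absurd (c.cross_p a) hlt.not_cross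

theorem t3_aux {p q : W G} (hp : p ∈ Y) (hq : q ∈ Y) (hN : NoRun 𝒯 ω p q) (m : ℕ) :
    ∀ k k', k' ∈ sep p q → Lt p k k' → (btw p q k k').card = m → nOne S MB ≤ m →
      ¬ Cross (L.hmap k) (L.hmap k') := by
  have hd := c.t2 hp hq hN
  induction m using Nat.strong_induction_on with
  | _ m ih =>
    intro k k' hk' hlt hm hN1 hx
    have hk := hlt.mem hk'
    have alt : ∀ j ∈ btw p q k k', Cross (L.hmap k) (L.hmap j) ∨ Cross (L.hmap j) (L.hmap k') := by
      intro j hj
      have a := mem_btw.1 hj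
      rcases L.lt_or_crossE hd a.1 a.2.1 with b | b
      · rcases L.lt_or_crossE hd hk' a.2.2 with b' | b'
        · exact absurd hx (b.trans b').not_cross
        · exact Or.inr b'
      · exact Or.inl b
    by_cases hR : m ≤ R
    · obtain ⟨e, he, hl⟩ := exists_chain (btw_subset_sep p q k k') (2 * (MB + 1))
        (by unfold nOne at hN1; omega)
      have hs : ∀ i ≤ 2 * (MB + 1), e i ∈ sep p q := fun i hi => (mem_btw.1 (he i hi).1).1
      have sp : ∀ i j, i + (MB + 1) ≤ j → j ≤ 2 * (MB + 1) → MB ≤ (btw p q (e i) (e j)).card := by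
        intro i j h1 h2
        have := card_btw_ge_of_chain hs hl (i := i) (j := j) (by omega) h2
        omega
      have lo : ∀ i j, i + (MB + 1) ≤ j → j ≤ 2 * (MB + 1) → Cross (L.hmap k) (L.hmap (e i)) →
          Cross (L.hmap k) (L.hmap (e j)) → False := by
        intro i j h1 h2 x1 x2
        have a := mem_btw.1 (he i (by omega)).1
        have b := mem_btw.1 (he j h2).1
        refine c.near hp hq hN b.1 a.2.1 (hl i j (by omega) h2) (sp i j h1 h2) ?_
          (mem_st_of_adj x1.adj) (mem_st_of_adj x2.adj)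
        refine le_trans (Finset.card_le_card fun z hz => ?_) (hm.le.trans hR)
        have := mem_btw.1 hz
        exact mem_btw.2 ⟨this.1, this.2.1, this.2.2.trans b.2.2⟩
      have hi : ∀ i j, i + (MB + 1) ≤ j → j ≤ 2 * (MB + 1) → Cross (L.hmap (e i)) (L.hmap k') →
          Cross (L.hmap (e j)) (L.hmap k') → False := by
        intro i j h1 h2 x1 x2
        have a := mem_btw.1 (he i (by omega)).1
        have b := mem_btw.1 (he j h2).1
        refine c.near hq hp hN.symmE (mem_sep_comm.1 a.1) (b.2.2.rev hk')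
          ((hl i j (by omega) h2).rev b.1) ?_ ?_
          (mem_st_of_adj x2.symm.adj) (mem_st_of_adj x1.symm.adj)
        · rw [btw_rev b.1 a.1]
          exact sp i j h1 h2
        · rw [btw_rev hk' a.1]
          refine le_trans (Finset.card_le_card fun z hz => ?_) (hm.le.trans hR)
          have := mem_btw.1 hz
          exact mem_btw.2 ⟨this.1, a.2.1.trans this.2.1, this.2.2⟩
      rcases alt _ (he 0 (by omega)).1 with a | a <;>
        rcases alt _ (he (MB + 1) (by omega)).1 with b | b <;>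
        rcases alt _ (he (2 * (MB + 1)) le_rfl).1 with b' | b'
      · exact lo _ _ (by omega) (by omega) a b
      · exact lo _ _ (by omega) (by omega) a b
      · exact lo _ _ (by omega) (by omega) a b'
      · exact hi _ _ (by omega) (by omega) b b'
      · exact lo _ _ (by omega) (by omega) b b'
      · exact hi _ _ (by omega) (by omega) a b'
      · exact hi _ _ (by omega) (by omega) a b
      · exact hi _ _ (by omega) (by omega) a b
    · have hR2 := c.hR2
      obtain ⟨e, he, hl⟩ := exists_chain (btw_subset_sep p q k k') (2 * nOne S MB) (by omega)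
      have a := mem_btw.1 (he (nOne S MB) (by omega)).1
      have inj : ∀ i j, i ≤ 2 * nOne S MB → j ≤ 2 * nOne S MB → e i = e j → i = j := by
        intro i j hi hj eq
        by_contra hne
        rcases lt_or_gt_of_ne hne with l | l
        · exact (hl i j l hj).ne eq
        · exact (hl j i l hi).ne eq.symm
      rcases alt _ (he (nOne S MB) (by omega)).1 with b | b
      · refine ih _ ?_ _ _ a.1 a.2.1 rfl ?_ b
        · rw [← hm]
          refine Finset.card_lt_card ⟨fun j hj => ?_, fun x => ?_⟩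
          · have := mem_btw.1 hj
            exact mem_btw.2 ⟨this.1, this.2.1, this.2.2.trans a.2.2⟩
          · exact (mem_btw.1 (x (he (nOne S MB) (by omega)).1)).2.2.ne rfl
        · conv_lhs => rw [← Finset.card_range (nOne S MB)]
          refine Finset.card_le_card_of_injOn e (fun i hi => ?_) (fun i hi j hj => ?_)
          · have hi' : i < nOne S MB := by simpa using hi
            have := mem_btw.1 (he i (by omega)).1
            exact mem_btw.2 ⟨this.1, this.2.1, hl _ _ hi' (by omega)⟩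
          · have hi' : i < nOne S MB := by simpa using hi
            have hj' : j < nOne S MB := by simpa using hj
            exact inj i j (by omega) (by omega)
      · refine ih _ ?_ _ _ hk' a.2.2 rfl ?_ b
        · rw [← hm]
          refine Finset.card_lt_card ⟨fun j hj => ?_, fun x => ?_⟩
          · have := mem_btw.1 hj
            exact mem_btw.2 ⟨this.1, a.2.1.trans this.2.1, this.2.2⟩
          · exact (mem_btw.1 (x (he (nOne S MB) (by omega)).1)).2.1.ne rfl
        · conv_lhs => rw [← Finset.card_range (nOne S MB)]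
          refine Finset.card_le_card_of_injOn (fun i => e (nOne S MB + 1 + i)) (fun i hi => ?_)
            (fun i hi j hj eq => ?_)
          · have hi' : i < nOne S MB := by simpa using hi
            have := mem_btw.1 (he (nOne S MB + 1 + i) (by omega)).1
            exact mem_btw.2 ⟨this.1, hl _ _ (by omega) (by omega), this.2.2⟩
          · have hi' : i < nOne S MB := by simpa using hi
            have hj' : j < nOne S MB := by simpa using hj
            have := inj _ _ (by omega) (by omega) eq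
            omega

theorem t3 {p q : W G} (hp : p ∈ Y) (hq : q ∈ Y) (hN : NoRun 𝒯 ω p q) {k k' : Hyp G}
    (hk' : k' ∈ sep p q) (hlt : Lt p k k') (h : nOne S MB ≤ (btw p q k k').card) :
    ¬ Cross (L.hmap k) (L.hmap k') :=
  c.t3_aux hp hq hN _ k k' hk' hlt rfl h

/-- a free letter followed by a jump -/
theorem a2 {p q : W G} (hp : p ∈ Y) (hN : NoRun 𝒯 ω p q) {T : Set (W G)} (hT : T ∈ 𝒯)
    (hq : q ∈ T) {h : Hyp G} (hh : h ∈ sep p q) (hw : h ∉ WH T) (hK : L.lab h ∈ K T)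
    (hs : ∀ k ∈ sep p q, k ≠ h → L.lab k ∈ st (Gp G3 𝒯 K) (L.lab h)) : False := by
  obtain ⟨g, -, hg, h1⟩ := exists_up hh
  have h2 := c.chainNear hp (c.cs.sub T hT hq) hN (J := sep g q) (h := h)
    (fun k hk => ((h1 k).1 hk).1)
    (fun k hk => ⟨((h1 k).1 hk).2, hs k ((h1 k).1 hk).1 ((h1 k).1 hk).2.ne.symm⟩)
    (fun k _ j hj a _ => (h1 j).2 ⟨hj, a⟩)
  exact hw (c.col.bfull T hT h g q hg hq h2 hK)

/-- at most one spaced letter of a jump is bad -/
theorem bad {T T' : Set (W G)} (hT : T ∈ 𝒯) (hT' : T' ∈ 𝒯) (hne : T ≠ T') {α β Q p q : W G}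
    (hα : α ∈ T) (hβ : β ∈ T) (hd : n ≤ d β α) (hQ : Q ∈ T') (hN : NoRun 𝒯 ω β Q) (hp : p ∈ T)
    (hq : q ∈ T) (hpq : d p q ≤ RV) {e e' : Hyp G} (he' : e' ∈ sep p q) (hlt : Lt p e e')
    (hM : MA ≤ (btw p q e e').card) (k1 : L.lab e ∈ K T') (k2 : L.lab e' ∈ K T')
    (hs : ∀ k ∈ sep β Q, L.lab k ∈ st (Gp G3 𝒯 K) (L.lab e) ∧
      L.lab k ∈ st (Gp G3 𝒯 K) (L.lab e')) : False := by
  classical
  have hR := c.hR
  have hR1 := c.hR1
  have hb := card_btw_le p q e e'
  have hMA := c.hMA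
  have hβY := c.cs.sub T hT hβ
  by_cases hl : d β Q ≤ Nat.card S * (MB + 1)
  · have h1 := c.col.two T hT T' hT' p hp q hq e e' he' hlt (by omega) (by omega) k1 k2
    obtain ⟨u, hu, hdu⟩ := exists_point β α n hd
    have huT := c.cs.cvx T hT β hβ α hα hu
    have h2 : ∀ k ∈ sep β u, k ∈ WH T' := by
      intro k hk
      obtain ⟨y, hy, hc, -, -⟩ := exists_cross_pt hk
      refine c.col.bfull T' hT' k y Q hc hQ ?_ ?_
      · have a1 := d_triangle y β Q
        have a2 := mem_I_iff_d.1 hy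
        rw [d_comm y β] at a1
        omega
      · rw [h1]
        exact c.col.real T hT k ⟨β, hβ, u, huT, hk⟩
    obtain ⟨a1, a2⟩ := in_of_tall (c.cs.cvx T' hT') (c.cs.sc T' hT') c.cs.n_pos
      (c.cs.amb.i4c β hβY u (c.cs.sub T hT huT) hdu.ge) hdu.ge h2
    exact hne (c.cs.pc T hT T' hT' β u hβ huT a1 a2 hdu.ge)
  · obtain ⟨f, hf, hl'⟩ := exists_chain (Finset.Subset.refl (sep β Q)) (MB + 1)
      (by unfold d at hl; omega)
    have h3 := card_btw_ge_of_chain (fun i hi => (hf i hi).1) hl' (i := 0) (j := MB + 1)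
      (by omega) le_rfl
    have a0 := (hf 0 (by omega)).1
    have a1 := (hf (MB + 1) le_rfl).1
    have h4 := c.kz hβY (c.cs.sub T' hT' hQ) hN a1 (hl' 0 (MB + 1) (by omega) le_rfl) (by omega)
      (le_trans (Finset.card_le_card fun j hj =>
        Finset.mem_filter.2 ⟨(mem_btw.1 hj).1, (mem_btw.1 hj).2.2⟩)
        ((hf (MB + 1) le_rfl).2.trans (by omega)))
    exact c.winLt he' hlt (by omega)
      (h4 _ ⟨mem_st_symm (hs _ a0).1, mem_st_symm (hs _ a1).1⟩ _
        ⟨mem_st_symm (hs _ a0).2, mem_st_symm (hs _ a1).2⟩)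

end Ctx

end Pool.Agent.MP_c34dea_an.H66.E
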