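import Pool.Agent.MP_c34dea_an.H66.E1

set_option autoImplicit false

open scoped symmDiff Pointwise

namespace Pool.Agent.MP_c34dea_an.H66.E

variable {S : Type} {G : SimpleGraph S}

/-- cost of a path to the orbit of `q` -/
inductive Cost (Y : Set (W G)) (𝒯 : Set (Set (W G))) (Δ' : Subgroup (W G)) (ω : ℕ) (q : W G) :
    W G → ℕ → Prop
  | base (μ : W G) : μ ∈ Δ' → Cost Y 𝒯 Δ' ω q (μ * q) 0
  | free (z : W G) (s : S) (c : ℕ) : z ∈ Y → z * gen G s ∈ Y → Cost Y 𝒯 Δ' ω q (z * gen G s) c →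
      Cost Y 𝒯 Δ' ω q z (c + 1)
  | jump (T : Set (W G)) (z z' : W G) (c : ℕ) : T ∈ 𝒯 → z ∈ T → z' ∈ T →
      Cost Y 𝒯 Δ' ω q z' c → Cost Y 𝒯 Δ' ω q z (c + ω)

/-- least cost -/
noncomputable def pot (Y : Set (W G)) (𝒯 : Set (Set (W G))) (Δ' : Subgroup (W G)) (ω : ℕ)
    (q z : W G) : ℕ := sInf {c | Cost Y 𝒯 Δ' ω q z c}

/-- a path made of free steps and jumps with the properties of a least cost path -/
structure GP (Y : Set (W G)) (𝒯 : Set (Set (W G))) (Δ' : Subgroup (W G)) (ω N : ℕ)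
    (z : ℕ → W G) (J : ℕ → Prop) (τ : ℕ → Set (W G)) : Prop where
  mem : ∀ i, i ≤ N → z i ∈ Y
  free : ∀ i, i < N → ¬ J i → d (z i) (z (i + 1)) = 1
  jump : ∀ i, i < N → J i → τ i ∈ 𝒯 ∧ z i ∈ τ i ∧ z (i + 1) ∈ τ i ∧
    ∀ μ ∈ Δ', ω ≤ d (z i) (μ * z (i + 1))
  geo : ∀ i j, i ≤ j → j ≤ N → (∀ c, i ≤ c → c < j → ¬ J c) →
    d (z i) (z j) = j - i ∧ NoRun 𝒯 ω (z i) (z j)
  gateP : ∀ i c, i ≤ c → c < N → J c → (∀ j, i ≤ j → j < c → ¬ J j) →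
    ∀ k ∈ sep (z i) (z c), k ∉ WH (τ c)
  gateM : ∀ c j, c < j → j ≤ N → J c → (∀ i, c < i → i < j → ¬ J i) →
    ∀ k ∈ sep (z j) (z (c + 1)), k ∉ WH (τ c)
  diff : ∀ b c, b < c → c < N → J b → J c → (∀ j, b < j → j < c → ¬ J j) → τ b ≠ τ c

section

variable {Y : Set (W G)} {𝒯 : Set (Set (W G))} {Δ' : Subgroup (W G)} {ω : ℕ} {q : W G}

theorem Cost.geo (hY : Cvx Y) {z' : W G} (hz' : z' ∈ Y) {c : ℕ} (h : Cost Y 𝒯 Δ' ω q z' c)
    (z : W G) : z ∈ Y → Cost Y 𝒯 Δ' ω q z (c + d z z') := by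
  induction z using geod_ind (q := z') with
  | h0 => intro _; simpa using h
  | hs p s hs ih =>
    intro hp
    have h1 : p * gen G s ∈ Y := hY p hp z' hz' (mul_gen_mem_I hs)
    have h2 := Cost.free p s _ hp h1 (ih h1)
    rw [← d_step hs, ← add_assoc]
    exact h2

theorem Cost.smul (hY : ∀ μ ∈ Δ', ∀ y ∈ Y, μ * y ∈ Y) (hT : ∀ μ ∈ Δ', ∀ T ∈ 𝒯, μ • T ∈ 𝒯)
    {μ : W G} (hμ : μ ∈ Δ') {z : W G} {c : ℕ} (h : Cost Y 𝒯 Δ' ω q z c) :
    Cost Y 𝒯 Δ' ω q (μ * z) c := by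
  induction h with
  | base ν hν => rw [← mul_assoc]; exact Cost.base _ (Δ'.mul_mem hμ hν)
  | free z s c h1 h2 _ ih =>
    refine Cost.free _ s c (hY μ hμ z h1) ?_ ?_
    · rw [mul_assoc]; exact hY μ hμ _ h2
    · rw [mul_assoc]; exact ih
  | jump T z z' c h1 h2 h3 _ ih =>
    exact Cost.jump (μ • T) _ (μ * z') c (hT μ hμ T h1) ⟨z, h2, rfl⟩ ⟨z', h3, rfl⟩ ih

theorem pot_le {z : W G} {c : ℕ} (h : Cost Y 𝒯 Δ' ω q z c) : pot Y 𝒯 Δ' ω q z ≤ c :=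
  Nat.sInf_le h

theorem cost_pot (hY : Cvx Y) (hq : q ∈ Y) {z : W G} (hz : z ∈ Y) :
    Cost Y 𝒯 Δ' ω q z (pot Y 𝒯 Δ' ω q z) := by
  have h0 : Cost Y 𝒯 Δ' ω q q 0 := by simpa using Cost.base (Y := Y) (𝒯 := 𝒯) (ω := ω) (q := q) 1 Δ'.one_mem
  exact Nat.sInf_mem (s := {c | Cost Y 𝒯 Δ' ω q z c}) ⟨_, h0.geo hY hq z hz⟩

end

theorem exists_GP {Y : Set (W G)} {𝒯 : Set (Set (W G))} {Δ' : Subgroup (W G)} {ω : ℕ}
    (hY : Cvx Y) (hω : 1 ≤ ω) (hsub : ∀ T ∈ 𝒯, T ⊆ Y) (hcv : ∀ T ∈ 𝒯, Cvx T)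
    (hiY : ∀ μ ∈ Δ', ∀ y ∈ Y, μ * y ∈ Y) (hiT : ∀ μ ∈ Δ', ∀ T ∈ 𝒯, μ • T ∈ 𝒯) {p q : W G}
    (hp : p ∈ Y) (hq : q ∈ Y) :
    ∃ (N : ℕ) (z : ℕ → W G) (J : ℕ → Prop) (τ : ℕ → Set (W G)),
      GP Y 𝒯 Δ' ω N z J τ ∧ z 0 = p ∧ ∃ μ ∈ Δ', z N = μ * q := by
  classical
  set E : W G → ℕ := pot Y 𝒯 Δ' ω q with hE
  have e1 : ∀ z ∈ Y, ∀ z' ∈ Y, E z ≤ E z' + d z z' := fun z hz z' hz' =>
    pot_le ((cost_pot hY hq hz').geo hY hz' z hz)
  have e2 : ∀ T ∈ 𝒯, ∀ z ∈ T, ∀ z' ∈ T, E z ≤ E z' + ω := fun T hT z hz z' hz' =>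
    pot_le (Cost.jump T z z' _ hT hz hz' (cost_pot hY hq (hsub T hT hz')))
  have e3 : ∀ μ ∈ Δ', ∀ z ∈ Y, E (μ * z) ≤ E z := fun μ hμ z hz =>
    pot_le ((cost_pot hY hq hz).smul hiY hiT hμ)
  have e4 : ∀ z, ∃ (z' : W G) (j : Prop) (T : Set (W G)), z ∈ Y → z' ∈ Y ∧
      ((∃ μ ∈ Δ', z = μ * q) ∨ (¬ j ∧ d z z' = 1 ∧ E z = E z' + 1) ∨
        (j ∧ T ∈ 𝒯 ∧ z ∈ T ∧ z' ∈ T ∧ E z = E z' + ω)) := by
    intro z
    by_cases hz : z ∈ Y
    · have h := cost_pot (𝒯 := 𝒯) (Δ' := Δ') (ω := ω) hY hq hz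
      rw [← hE] at h
      generalize hc : E z = c at h
      cases h with
      | base μ hμ => exact ⟨μ * q, True, ∅, fun _ => ⟨hz, Or.inl ⟨μ, hμ, rfl⟩⟩⟩
      | free _ s c h1 h2 h3 =>
        refine ⟨z * gen G s, False, ∅, fun _ => ⟨h2, Or.inr (Or.inl ⟨not_false, d_gen z s, ?_⟩)⟩⟩
        have a1 : E (z * gen G s) ≤ c := pot_le h3
        have a2 := e1 z hz _ h2
        rw [d_gen] at a2
        omega
      | jump T _ z' c h1 h2 h3 h4 =>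
        refine ⟨z', True, T, fun _ => ⟨hsub T h1 h3, Or.inr (Or.inr ⟨trivial, h1, h2, h3, ?_⟩)⟩⟩
        have a1 : E z' ≤ c := pot_le h4
        have a2 := e2 T h1 z h2 z' h3
        omega
    · exact ⟨z, True, ∅, fun h => absurd h hz⟩
  choose f jf tf hf using e4
  set z : ℕ → W G := fun i => f^[i] p with hz
  have zs : ∀ i, z (i + 1) = f (z i) := fun i => Function.iterate_succ_apply' f i p
  have zY : ∀ i, z i ∈ Y := by
    intro i
    induction i with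
    | zero => exact hp
    | succ i ih => rw [zs]; exact (hf _ ih).1
  have hex : ∃ N, ∃ μ ∈ Δ', z N = μ * q := by
    by_contra hn
    have : ∀ i, E (z i) + i ≤ E (z 0) := by
      intro i
      induction i with
      | zero => simp
      | succ i ih =>
        rcases (hf _ (zY i)).2 with h | h | h
        · exact absurd ⟨i, h⟩ hn
        · rw [zs]; omega
        · rw [zs]; omega
    have := this (E (z 0) + 1)
    omega
  set N := Nat.find hex with hN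
  have st1 : ∀ i, i < N → ¬ jf (z i) → d (z i) (z (i + 1)) = 1 ∧ E (z i) = E (z (i + 1)) + 1 := by
    intro i hi hj
    rcases (hf _ (zY i)).2 with h | h | h
    · exact absurd h (Nat.find_min hex hi)
    · rw [zs]; exact h.2
    · exact absurd h.1 hj
  have st2 : ∀ i, i < N → jf (z i) → tf (z i) ∈ 𝒯 ∧ z i ∈ tf (z i) ∧ z (i + 1) ∈ tf (z i) ∧
      E (z i) = E (z (i + 1)) + ω := by
    intro i hi hj
    rcases (hf _ (zY i)).2 with h | h | h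
    · exact absurd h (Nat.find_min hex hi)
    · exact absurd hj h.1
    · rw [zs]; exact h.2
  have rng : ∀ i j, i ≤ j → j ≤ N → (∀ c, i ≤ c → c < j → ¬ jf (z c)) →
      E (z i) = E (z j) + (j - i) ∧ d (z i) (z j) = j - i := by
    intro i j hij
    have key : j ≤ N → (∀ c, i ≤ c → c < j → ¬ jf (z c)) →
        E (z i) = E (z j) + (j - i) ∧ d (z i) (z j) ≤ j - i := by
      induction j, hij using Nat.le_induction with
      | base => simp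
      | succ j hj ih =>
        intro h1 h2
        have a1 := ih (by omega) fun c a b => h2 c a (by omega)
        have a2 := st1 j (by omega) (h2 j hj (by omega))
        have a3 := d_triangle (z i) (z j) (z (j + 1))
        omega
    intro h1 h2
    have a1 := key h1 h2
    have a2 := e1 _ (zY i) _ (zY j)
    omega
  refine ⟨N, z, fun i => jf (z i), fun i => tf (z i), ⟨fun i _ => zY i,
    fun i hi hj => (st1 i hi hj).1, fun i hi hj => ?_, fun i j hij hj h => ?_,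
    fun i c hic hc hj h k hk => ?_, fun c j hcj hj hc h k hk => ?_,
    fun b c hbc hc jb jc h e => ?_⟩, rfl, Nat.find_spec hex⟩
  · obtain ⟨a1, a2, a3, a4⟩ := st2 i hi hj
    refine ⟨a1, a2, a3, fun μ hμ => ?_⟩
    have b1 := e1 _ (zY i) _ (hiY μ hμ _ (zY (i + 1)))
    have b2 := e3 μ hμ _ (zY (i + 1))
    omega
  · obtain ⟨a1, a2⟩ := rng i j hij hj h
    refine ⟨a2, fun T hT u hu v hv e => ?_⟩
    have b1 := e1 _ (zY i) u (hsub T hT hu)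
    have b2 := e2 T hT u hu v hv
    have b3 := e1 v (hsub T hT hv) _ (zY j)
    omega
  · obtain ⟨a1, a2, a3, a4⟩ := st2 c hc hj
    obtain ⟨b1, b2⟩ := rng i c hic hc.le h
    refine gate_not_WH (gate_of_closest (hcv _ a1) a2 fun y hy => ?_) hk
    have c1 := e1 _ (zY i) y (hsub _ a1 hy)
    have c2 := e2 _ a1 y hy _ a3
    omega
  · obtain ⟨a1, a2, a3, a4⟩ := st2 c (by omega) hc
    obtain ⟨b1, b2⟩ := rng (c + 1) j hcj hj fun i a b => h i a b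
    refine gate_not_WH (gate_of_closest (hcv _ a1) a3 fun y hy => ?_) hk
    have c1 := e1 y (hsub _ a1 hy) _ (zY j)
    have c2 := e2 _ a1 _ a2 y hy
    rw [d_comm (z j), d_comm (z j)]
    omega
  · obtain ⟨a1, a2, a3, a4⟩ := st2 c hc jc
    obtain ⟨c1, c2, c3, c4⟩ := st2 b (by omega) jb
    obtain ⟨b1, b2⟩ := rng (b + 1) c hbc hc.le fun i a b => h i a b
    have e' : tf (z b) = tf (z c) := e
    have := e2 _ a1 _ (e' ▸ c2) _ a3
    omega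

end Pool.Agent.MP_c34dea_an.H66.E
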