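import Pool.Agent.MP_c34dea_an.H66.E2

set_option autoImplicit false

open scoped symmDiff Pointwise

namespace Pool.Agent.MP_c34dea_an.H66.E

variable {S : Type} {G : SimpleGraph S} {Y : Set (W G)} {Δ : Subgroup (W G)}
  {𝒯 : Set (Set (W G))} {n ω ωV MA MB RV D0 R : ℕ} {S3 : Type} {G3 : SimpleGraph S3}
  {Δ3 : Subgroup (W G)} {K : Set (W G) → Set S3} {L : Lab G (Gp G3 𝒯 K)}

/-- the kernel of the filling -/
def Ctx.ker (c : Ctx Y Δ 𝒯 n ω ωV MA MB RV D0 R G3 Δ3 K L) : Subgroup (W G) where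
  carrier := {δ | δ ∈ Δ3 ∧ L.phi δ = 1}
  one_mem' := ⟨Δ3.one_mem, L.phi_one⟩
  mul_mem' := by
    rintro a b ⟨h1, h2⟩ ⟨h3, h4⟩
    exact ⟨Δ3.mul_mem h1 h3, by rw [L.phi_mul_of_inv (c.col.inv a h1), h2, h4, one_mul]⟩
  inv_mem' := by
    rintro a ⟨h1, h2⟩
    refine ⟨Δ3.inv_mem h1, ?_⟩
    have := L.phi_mul_of_inv (c.col.inv a h1) a⁻¹
    rw [mul_inv_cancel, L.phi_one, h2, one_mul] at this
    exact this.symm

/-- labels that may reappear in the next jump -/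
def Badp (L : Lab G (Gp G3 𝒯 K)) (N : ℕ) (z : ℕ → W G) (J : ℕ → Prop) (τ : ℕ → Set (W G))
    (b : ℕ) : Set S3 :=
  {e | ∃ c, b < c ∧ c < N ∧ J c ∧ (∀ j, b < j → j < c → ¬ J j) ∧ e ∈ K (τ c) ∧
    ∀ k ∈ sep (z (b + 1)) (z c), L.lab k ∈ st (Gp G3 𝒯 K) e}

/-- labels that may have appeared in the previous jump -/
def Badm (L : Lab G (Gp G3 𝒯 K)) (z : ℕ → W G) (J : ℕ → Prop) (τ : ℕ → Set (W G))
    (b : ℕ) : Set S3 :=
  {e | ∃ c, c < b ∧ J c ∧ (∀ j, c < j → j < b → ¬ J j) ∧ e ∈ K (τ c) ∧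
    ∀ k ∈ sep (z (c + 1)) (z b), L.lab k ∈ st (Gp G3 𝒯 K) e}

/-- marked letters -/
def Mk (L : Lab G (Gp G3 𝒯 K)) (N : ℕ) (z : ℕ → W G) (J : ℕ → Prop) (τ : ℕ → Set (W G))
    (b : ℕ) (H : Hyp (Gp G3 𝒯 K)) : Prop :=
  H ∈ sep (L.phi (z b)) (L.phi (z (b + 1))) ∧
    (J b → H.1 ∉ Badp L N z J τ b ∧ H.1 ∉ Badm L z J τ b)

theorem first_jump {J : ℕ → Prop} {b b' : ℕ} (h : ∃ c, b < c ∧ c ≤ b' ∧ J c) :
    ∃ c, b < c ∧ c ≤ b' ∧ J c ∧ ∀ j, b < j → j < c → ¬ J j := by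
  classical
  refine ⟨Nat.find h, (Nat.find_spec h).1, (Nat.find_spec h).2.1, (Nat.find_spec h).2.2,
    fun j h1 h2 h3 => Nat.find_min h h2 ⟨h1, ?_, h3⟩⟩
  have := (Nat.find_spec h).2.1
  omega

theorem last_jump {J : ℕ → Prop} {b b' : ℕ} (h : ∃ c, b ≤ c ∧ c < b' ∧ J c) :
    ∃ c, b ≤ c ∧ c < b' ∧ J c ∧ ∀ j, c < j → j < b' → ¬ J j := by
  induction b' with
  | zero => obtain ⟨c, -, h, -⟩ := h; omega
  | succ m ih =>
    obtain ⟨c, h1, h2, h3⟩ := h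
    by_cases e : J m
    · exact ⟨m, by omega, by omega, e, fun j a b => by omega⟩
    · have hc : c ≠ m := fun x => e (x ▸ h3)
      obtain ⟨c', a1, a2, a3, a4⟩ := ih ⟨c, h1, by omega, h3⟩
      refine ⟨c', a1, by omega, a3, fun j a b => ?_⟩
      by_cases x : j = m
      · exact x ▸ e
      · exact a4 j a (by omega)

namespace Ctx

variable (c : Ctx Y Δ 𝒯 n ω ωV MA MB RV D0 R G3 Δ3 K L)
include c

theorem lab_K {T : Set (W G)} (hT : T ∈ 𝒯) {x y : W G} (hx : x ∈ T) (hy : y ∈ T)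
    {H : Hyp (Gp G3 𝒯 K)} (hH : H ∈ sep (L.phi x) (L.phi y)) : H.1 ∈ K T := by
  obtain ⟨k, hk, rfl⟩ := Finset.mem_image.1 (L.sep_phi_subset x y hH)
  exact c.col.real T hT k ⟨x, hx, y, hy, hk⟩

theorem exists_path {p q : W G} (hp : p ∈ Y) (hq : q ∈ Y) :
    ∃ (N : ℕ) (z : ℕ → W G) (J : ℕ → Prop) (τ : ℕ → Set (W G)),
      GP Y 𝒯 c.ker ω N z J τ ∧ z 0 = p ∧ ∃ μ ∈ c.ker, z N = μ * q :=
  exists_GP (Δ' := c.ker) c.cs.amb.cvx (c.cs.n_pos.trans c.hω) c.cs.sub c.cs.cvx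
    (fun μ hμ => c.cs.amb.inv μ (c.col.le hμ.1)) (fun μ hμ => c.cs.inv μ (c.col.le hμ.1)) hp hq

variable {N : ℕ} {z : ℕ → W G} {J : ℕ → Prop} {τ : ℕ → Set (W G)}
  (g : GP Y 𝒯 c.ker ω N z J τ)
include g

theorem blk_lab {b : ℕ} (hb : b < N) (hJ : J b) {H : Hyp (Gp G3 𝒯 K)}
    (hH : H ∈ sep (L.phi (z b)) (L.phi (z (b + 1)))) : H.1 ∈ K (τ b) :=
  c.lab_K (g.jump b hb hJ).1 (g.jump b hb hJ).2.1 (g.jump b hb hJ).2.2.1 hH

theorem blk_clq {b : ℕ} (hb : b < N) : ∃ A, Clq (Gp G3 𝒯 K) A ∧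
    ∀ H ∈ sep (L.phi (z b)) (L.phi (z (b + 1))), H.1 ∈ A := by
  by_cases hJ : J b
  · exact ⟨K (τ b), clq_K (g.jump b hb hJ).1, fun H hH => c.blk_lab g hb hJ hH⟩
  · obtain ⟨h, hh⟩ := Finset.card_eq_one.1 (g.free b hb hJ)
    refine ⟨{L.lab h}, ?_, fun H hH => ?_⟩
    · rintro s rfl t rfl
      exact mem_st_self _
    · obtain ⟨k, hk, rfl⟩ := Finset.mem_image.1 (L.sep_phi_subset _ _ hH)
      rw [hh, Finset.mem_singleton] at hk
      rw [hk]
      rfl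

theorem blk_car {b : ℕ} (hb : b < N) {H : Hyp (Gp G3 𝒯 K)}
    (hH : H ∈ sep (L.phi (z b)) (L.phi (z (b + 1)))) :
    L.phi (z b) ∈ car H ∧ L.phi (z (b + 1)) ∈ car H := by
  obtain ⟨A, h1, h2⟩ := c.blk_clq g hb
  exact ⟨mem_car_of_clq h1 h2 hH,
    mem_car_of_clq h1 (fun k hk => h2 k (mem_sep_comm.1 hk)) (mem_sep_comm.1 hH)⟩

theorem blk_one {b : ℕ} (hb : b < N) {a : W (Gp G3 𝒯 K)} {H H' : Hyp (Gp G3 𝒯 K)}
    (hH : H ∈ sep (L.phi (z b)) (L.phi (z (b + 1))))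
    (hH' : H' ∈ sep (L.phi (z b)) (L.phi (z (b + 1)))) : ¬ Lt a H H' := fun l =>
  l.not_cross (cross_of_sep_car (c.blk_car g hb hH).1 (c.blk_car g hb hH).2 hH' l.ne)

theorem free_I {i j m : ℕ} (h1 : i ≤ m) (h2 : m ≤ j) (hj : j ≤ N)
    (h : ∀ c, i ≤ c → c < j → ¬ J c) : z m ∈ I (z i) (z j) := by
  have a1 := (g.geo i j (by omega) hj h).1
  have a2 := (g.geo i m h1 (by omega) fun c a b => h c a (by omega)).1
  have a3 := (g.geo m j h2 hj fun c a b => h c (by omega) b).1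
  rw [mem_I_iff_d]
  omega

theorem free_sub {i j m : ℕ} (h1 : i ≤ m) (h2 : m < j) (hj : j ≤ N)
    (h : ∀ c, i ≤ c → c < j → ¬ J c) : sep (z m) (z (m + 1)) ⊆ sep (z i) (z j) :=
  fun _ hk => sep_right_subset_of_mem_I (c.free_I g h1 h2.le hj h)
    (c.free_I g (Nat.le_succ m) h2 hj (fun c a b => h c (by omega) b) hk)

variable [Finite S]

theorem free_mk {b : ℕ} (hb : b < N) (hJ : ¬ J b) {k : Hyp G} (hk : k ∈ sep (z b) (z (b + 1))) :
    Mk L N z J τ b (L.hmap k) := by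
  refine ⟨?_, fun h => absurd h hJ⟩
  have h1 := c.t2 (g.mem b hb.le) (g.mem (b + 1) hb)
    (g.geo b (b + 1) (by omega) hb fun j a a' => by rwa [show j = b by omega]).2
  exact (L.mem_sep_IE h1 (right_mem_I _ _) hk).2 hk

theorem six {b : ℕ} (hb : b < N) (hJ : J b) : ∃ (M : ℕ → Hyp (Gp G3 𝒯 K)) (i1 i2 : ℕ),
    (∀ i, i < 6 → i ≠ i1 → i ≠ i2 → Mk L N z J τ b (M i)) ∧
    ∀ i j, i < j → j < 6 → st (Gp G3 𝒯 K) (M i).1 ∩ st (Gp G3 𝒯 K) (M j).1 ⊆ K (τ b) := by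
  obtain ⟨hT, hα, hβ, hμ⟩ := g.jump b hb hJ
  have hreal : ∀ x ∈ τ b, ∀ y ∈ τ b, ∀ k ∈ sep x y, L.lab k ∈ K (τ b) :=
    fun x hx y hy k hk => c.col.real _ hT k ⟨x, hx, y, hy, hk⟩
  rcases c.vec _ hT _ hα _ hβ with ⟨μ, h1, h2, h3, h4⟩ | ⟨p, hp, q, hq, hd, e, h1, h2⟩
  · exfalso
    have hm : μ * z (b + 1) ∈ τ b := by rw [← h2]; exact ⟨_, hβ, rfl⟩
    have h5 : L.phi (z (b + 1)) = L.phi (μ * z (b + 1)) := by
      by_contra hne
      obtain ⟨s, hs⟩ := exists_step hne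
      rw [L.mem_sep_clq_iff (clq_K hT) (hreal _ hβ _ hm), ← Nat.not_even_iff_odd] at hs
      exact hs (h3 s)
    rw [L.phi_mul_of_inv (c.col.inv μ h1)] at h5
    have h6 : L.phi μ = 1 := by simpa using h5
    have := hμ μ ⟨h1, h6⟩
    have := c.hωV
    omega
  · have hR := c.hR
    have hn := c.hω
    have hd1 : ω ≤ d (z b) (z (b + 1)) := by simpa using hμ 1 c.ker.one_mem
    obtain ⟨i1, a1⟩ := atmost_one (P := fun i => L.lab (e i) ∈ Badp L N z J τ b) (by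
      rintro i j hij hj ⟨c1, b1, b2, b3, b4, b5, b6⟩ ⟨c2, d1, d2, d3, d4, d5, d6⟩
      have : c1 = c2 := by
        rcases lt_trichotomy c1 c2 with x | x | x
        · exact absurd b3 (d4 c1 b1 x)
        · exact x
        · exact absurd d3 (b4 c2 d1 x)
      subst this
      exact c.bad hT (g.jump c1 b2 b3).1 (g.diff b c1 b1 b2 hJ b3 b4) hα hβ
        (by rw [d_comm]; omega) (g.jump c1 b2 b3).2.1 (g.geo (b + 1) c1 b1 b2.le b4).2 hp hq hd
        (h1 j hj).1 (h2 i j hij hj).1 (h2 i j hij hj).2 b5 d5 fun k hk => ⟨b6 k hk, d6 k hk⟩)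
    obtain ⟨i2, a2⟩ := atmost_one (P := fun i => L.lab (e i) ∈ Badm L z J τ b) (by
      rintro i j hij hj ⟨c1, b1, b3, b4, b5, b6⟩ ⟨c2, d1, d3, d4, d5, d6⟩
      have : c1 = c2 := by
        rcases lt_trichotomy c1 c2 with x | x | x
        · exact absurd d3 (b4 c2 x d1)
        · exact x
        · exact absurd b3 (d4 c1 x b1)
      subst this
      have b2 : c1 < N := by omega
      exact c.bad hT (g.jump c1 b2 b3).1 (g.diff c1 b b1 hb b3 hJ b4).symm hβ hα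
        (by omega) (g.jump c1 b2 b3).2.2.1 (g.geo (c1 + 1) b b1 hb.le b4).2.symmE hp hq hd
        (h1 j hj).1 (h2 i j hij hj).1 (h2 i j hij hj).2 b5 d5
        fun k hk => ⟨b6 k (mem_sep_comm.1 hk), d6 k (mem_sep_comm.1 hk)⟩)
    refine ⟨fun i => hyp (L.phi (z b)) (L.lab (e i)), i1, i2, fun i hi n1 n2 =>
      ⟨?_, fun _ => ⟨a1 i hi n1, a2 i hi n2⟩⟩, fun i j hij hj => ?_⟩
    · exact (L.mem_sep_clq_iff (clq_K hT) (hreal _ hα _ hβ) _).2 (h1 i hi).2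
    · have hb := card_btw_le p q (e i) (e j)
      simp only [hyp_fst]
      rw [st_Gp, st_Gp]
      exact c.col.k3a _ hT p hp q hq _ _ (h1 j hj).1 (h2 i j hij hj).1 (h2 i j hij hj).2 (by omega)

/-- consequences of the uniqueness of marked letters in a window -/
theorem window {b b' : ℕ} (hbb : b < b') (hb' : b' < N) {H : Hyp (Gp G3 𝒯 K)}
    (hH : H ∈ sep (L.phi (z b)) (L.phi (z (b + 1))))
    (hH' : H ∈ sep (L.phi (z b')) (L.phi (z (b' + 1))))
    (hu : ∀ j M, b < j → j < b' → Mk L N z J τ j M → ∀ j', b < j' → j' < b' → j' ≠ j →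
      M ∉ sep (L.phi (z j')) (L.phi (z (j' + 1)))) :
    (∀ j, b < j → j < b' → ¬ J j → ∀ k ∈ sep (z j) (z (j + 1)),
      L.lab k ∈ st (Gp G3 𝒯 K) H.1) ∧ (∀ j, b ≤ j → j ≤ b' → J j → H.1 ∈ K (τ j)) := by
  have w : ∀ j M, b < j → j < b' → Mk L N z J τ j M → M.1 ∈ st (Gp G3 𝒯 K) H.1 := by
    intro j M h1 h2 h3
    exact label_mem_st_of_car (c.blk_car g (by omega) hH).2 (c.blk_car g hb' hH').1
      (mem_sep_seq (x := fun i => L.phi (z i)) h1 h2 h3.1 (hu j M h1 h2 h3))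
  refine ⟨fun j h1 h2 h3 k hk => w j _ h1 h2 (c.free_mk g (by omega) h3 hk), fun j h1 h2 h3 => ?_⟩
  rcases eq_or_lt_of_le h1 with e | h1
  · subst e; exact c.blk_lab g (by omega) h3 hH
  rcases eq_or_lt_of_le h2 with e | h2
  · subst e; exact c.blk_lab g hb' h3 hH'
  obtain ⟨M, i1, i2, a1, a2⟩ := c.six g (b := j) (by omega) h3
  obtain ⟨i, i', b1, b2, b3, b4⟩ := two_of_six i1 i2 i1 i2
  exact a2 i i' b1 b2 ⟨mem_st_symm (w j _ h1 h2 (a1 i (by omega) b3.1 b3.2.1)),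
    mem_st_symm (w j _ h1 h2 (a1 i' b2 b4.1 b4.2.1))⟩

theorem claimU (m : ℕ) : ∀ b b' H, b < b' → b' < N → b' - b = m →
    H ∈ sep (L.phi (z b)) (L.phi (z (b + 1))) → H ∈ sep (L.phi (z b')) (L.phi (z (b' + 1))) →
    ¬ Mk L N z J τ b H ∧ ¬ Mk L N z J τ b' H := by
  induction m using Nat.strong_induction_on with
  | _ m ih =>
    intro b b' H hbb hb' hm hH hH'
    obtain ⟨w1, w2⟩ := c.window g hbb hb' hH hH' (by
      intro j M h1 h2 h3 j' h4 h5 h6 h7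
      rcases lt_or_gt_of_ne h6 with l | l
      · exact (ih (j - j') (by omega) j' j M l (by omega) rfl h7 h3.1).2 h3
      · exact (ih (j' - j) (by omega) j j' M l (by omega) rfl h3.1 h7).1 h3)
    have fl : ∀ j, j < N → ¬ J j → H ∈ sep (L.phi (z j)) (L.phi (z (j + 1))) →
        ∃ h, sep (z j) (z (j + 1)) = {h} ∧ L.hmap h = H := by
      intro j hj hJ h1
      obtain ⟨h, hh⟩ := Finset.card_eq_one.1 (g.free j hj hJ)
      obtain ⟨k, hk, e⟩ := Finset.mem_image.1 (L.sep_phi_subset _ _ h1)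
      rw [hh, Finset.mem_singleton] at hk
      exact ⟨h, hh, hk ▸ e⟩
    have f0 : (∀ j, b ≤ j → j < b' + 1 → ¬ J j) → False := by
      intro hf
      obtain ⟨h, a1, a2⟩ := fl b (by omega) (hf b le_rfl (by omega)) hH
      obtain ⟨h', b1, b2⟩ := fl b' hb' (hf b' hbb.le (by omega)) hH'
      have h1 := c.t2 (g.mem b (by omega)) (g.mem (b' + 1) hb') (g.geo b (b' + 1) (by omega) hb' hf).2
      have m1 : h ∈ sep (z b) (z (b + 1)) := by rw [a1]; simp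
      have m2 : h' ∈ sep (z b') (z (b' + 1)) := by rw [b1]; simp
      have e := L.injOn_of_d_eq h1 (c.free_sub g le_rfl (by omega) hb' hf m1)
        (c.free_sub g hbb.le (by omega) hb' hf m2) (a2.trans b2.symm)
      have h2 := mem_I_iff_disjoint.1 (c.free_I g (m := b + 1) (by omega) (by omega) hb' hf)
      exact Finset.disjoint_left.1 h2 m1
        (e ▸ c.free_sub g (i := b + 1) hbb (by omega) hb' (fun j a a' => hf j (by omega) a') m2)
    have jb : J b := by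
      by_contra hJ
      by_cases ex : ∃ j, b < j ∧ j ≤ b' ∧ J j
      · obtain ⟨j, a1, a2, a3, a4⟩ := first_jump ex
        have hf : ∀ i, b ≤ i → i < j → ¬ J i := fun i x y => by
          rcases eq_or_lt_of_le x with e | x
          · exact e ▸ hJ
          · exact a4 i x y
        obtain ⟨h, b1, b2⟩ := fl b (by omega) hJ hH
        have m1 : h ∈ sep (z b) (z j) :=
          c.free_sub g le_rfl a1 (by omega) hf (by rw [b1]; simp)
        have e : L.lab h = H.1 := congrArg Sigma.fst b2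
        refine c.a2 (g.mem b (by omega)) (g.geo b j a1.le (by omega) hf).2
          (g.jump j (by omega) a3).1 (g.jump j (by omega) a3).2.1 m1
          (g.gateP b j a1.le (by omega) a3 hf h m1) (e ▸ w2 j a1.le a2 a3) fun k hk hne => ?_
        obtain ⟨i, x1, x2, x3⟩ := exists_block a1.le hk
        have : i ≠ b := by
          rintro rfl
          rw [b1, Finset.mem_singleton] at x3
          exact hne x3
        rw [e]
        exact w1 i (by omega) (by omega) (hf i x1 x2) k x3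
      · refine f0 fun j x y jj => ?_
        rcases eq_or_lt_of_le x with e | x
        · exact hJ (e ▸ jj)
        · exact ex ⟨j, x, by omega, jj⟩
    have jb' : J b' := by
      by_contra hJ
      obtain ⟨j, a1, a2, a3, a4⟩ := last_jump (J := J) (b := b) (b' := b') ⟨b, le_rfl, hbb, jb⟩
      have hf : ∀ i, j + 1 ≤ i → i < b' + 1 → ¬ J i := fun i x y => by
        rcases eq_or_lt_of_le (Nat.lt_succ_iff.1 y) with e | y
        · exact e ▸ hJ
        · exact a4 i x y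
      obtain ⟨h, b1, b2⟩ := fl b' hb' hJ hH'
      have m1 : h ∈ sep (z (b' + 1)) (z (j + 1)) :=
        mem_sep_comm.1 (c.free_sub g a2 (by omega) hb' hf (by rw [b1]; simp))
      have e : L.lab h = H.1 := congrArg Sigma.fst b2
      refine c.a2 (g.mem (b' + 1) hb') (g.geo (j + 1) (b' + 1) (by omega) hb' hf).2.symmE
        (g.jump j (by omega) a3).1 (g.jump j (by omega) a3).2.2.1 m1
        (g.gateM j (b' + 1) (by omega) hb' a3 hf h m1) (e ▸ w2 j a1 a2.le a3) fun k hk hne => ?_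
      obtain ⟨i, x1, x2, x3⟩ := exists_block (by omega) (mem_sep_comm.1 hk)
      have : i ≠ b' := by
        rintro rfl
        rw [b1, Finset.mem_singleton] at x3
        exact hne x3
      rw [e]
      exact w1 i (by omega) (by omega) (hf i x1 x2) k x3
    constructor
    · intro hM
      obtain ⟨j, a1, a2, a3, a4⟩ := first_jump (J := J) (b := b) (b' := b') ⟨b', hbb, le_rfl, jb'⟩
      refine (hM.2 jb).1 ⟨j, a1, by omega, a3, a4, w2 j a1.le a2 a3, fun k hk => ?_⟩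
      obtain ⟨i, x1, x2, x3⟩ := exists_block a1 hk
      exact w1 i x1 (by omega) (a4 i x1 x2) k x3
    · intro hM
      obtain ⟨j, a1, a2, a3, a4⟩ := last_jump (J := J) (b := b) (b' := b') ⟨b, le_rfl, hbb, jb⟩
      refine (hM.2 jb').2 ⟨j, a2, a3, a4, w2 j a1 a2.le a3, fun k hk => ?_⟩
      obtain ⟨i, x1, x2, x3⟩ := exists_block a2 hk
      exact w1 i (by omega) x2 (a4 i x1 x2) k x3

theorem uniq {j j' : ℕ} {M : Hyp (Gp G3 𝒯 K)} (hj : j < N) (hj' : j' < N)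
    (hM : Mk L N z J τ j M) (hne : j' ≠ j) : M ∉ sep (L.phi (z j')) (L.phi (z (j' + 1))) := by
  intro h
  rcases lt_or_gt_of_ne hne with l | l
  · exact (c.claimU g _ j' j M l hj rfl h hM.1).2 hM
  · exact (c.claimU g _ j j' M l hj' rfl hM.1 h).1 hM

theorem mk_mem {i j m : ℕ} {M : Hyp (Gp G3 𝒯 K)} (h1 : i ≤ m) (h2 : m < j) (hj : j ≤ N)
    (hM : Mk L N z J τ m M) : M ∈ sep (L.phi (z i)) (L.phi (z j)) :=
  mem_sep_seq (x := fun i => L.phi (z i)) h1 h2 hM.1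
    fun c' _ b e => c.uniq g (by omega) (by omega) hM e

theorem mk_not_mem {i j m : ℕ} {M : Hyp (Gp G3 𝒯 K)} (hij : i ≤ j) (hj : j ≤ N) (hm : m < N)
    (h : m < i ∨ j ≤ m) (hM : Mk L N z J τ m M) : M ∉ sep (L.phi (z i)) (L.phi (z j)) :=
  not_mem_sep_seq (x := fun i => L.phi (z i)) j hij
    fun c' _ b => c.uniq g hm (by omega) hM (by omega)

theorem exists_mk {b : ℕ} (hb : b < N) : ∃ M, Mk L N z J τ b M := by
  by_cases hJ : J b
  · obtain ⟨M, i1, i2, a1, -⟩ := c.six g hb hJ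
    obtain ⟨i, i', b1, b2, b3, -⟩ := two_of_six i1 i2 i1 i2
    exact ⟨_, a1 i (by omega) b3.1 b3.2.1⟩
  · obtain ⟨h, hh⟩ := Finset.card_eq_one.1 (g.free b hb hJ)
    exact ⟨_, c.free_mk g hb hJ (k := h) (by rw [hh]; simp)⟩

theorem dup {b b' : ℕ} (hbb : b < b') (hb' : b' < N) {H : Hyp (Gp G3 𝒯 K)}
    (hH : H ∈ sep (L.phi (z b)) (L.phi (z (b + 1))))
    (hH' : H ∈ sep (L.phi (z b')) (L.phi (z (b' + 1)))) :
    ∀ i, b + 1 ≤ i → i ≤ b' → L.phi (z i) ∈ car H := by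
  obtain ⟨w1, w2⟩ := c.window g hbb hb' hH hH'
    (fun j M _ h2 h3 j' _ h5 h6 => c.uniq g (by omega) (by omega) h3 h6)
  intro i hi
  induction i, hi using Nat.le_induction with
  | base => exact fun _ => (c.blk_car g (by omega) hH).2
  | succ i hi ih =>
    intro h
    rw [mem_car_iff (ih (by omega)), mem_Par_iff]
    intro M hM
    by_cases hJ : J i
    · exact clq_K (g.jump i (by omega) hJ).1 _ (w2 i (by omega) (by omega) hJ) _
        (c.blk_lab g (by omega) hJ hM)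
    · obtain ⟨k, hk, rfl⟩ := Finset.mem_image.1 (L.sep_phi_subset _ _ hM)
      exact w1 i hi h hJ k hk

theorem gp_le [Finite S3] {i : ℕ} (hi : i ≤ N) :
    gp (L.phi (z i)) (L.phi (z 0)) (L.phi (z N)) ≤ Nat.card S3 := by
  classical
  have := Fintype.ofFinite S3
  have key : ∀ H ∈ sep (L.phi (z i)) (L.phi (z 0)) ∩ sep (L.phi (z i)) (L.phi (z N)),
      L.phi (z i) ∈ car H := by
    intro H hH
    rw [Finset.mem_inter] at hH
    obtain ⟨b, -, a2, a3⟩ :=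
      exists_block (x := fun i => L.phi (z i)) (Nat.zero_le i) (mem_sep_comm.1 hH.1)
    obtain ⟨b', b1, b2, b3⟩ := exists_block (x := fun i => L.phi (z i)) hi hH.2
    exact c.dup g (by omega) b2 a3 b3 i a2 b1
  unfold gp
  rw [Nat.card_eq_fintype_card, ← Finset.card_univ]
  exact Finset.card_le_card_of_injOn (fun k => k.1) (fun _ _ => by simp)
    (fun k hk j hj e => eq_of_mem_car_of_label (key k hk) (key j hj) e)

end Ctx

end Pool.Agent.MP_c34dea_an.H66.E
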