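import Pool.Agent.MP_c34dea_an.H66.FWalk

set_option autoImplicit false

open scoped symmDiff Pointwise

namespace Pool.Agent.MP_c34dea_an.H66

namespace FW

variable {S : Type} {G : SimpleGraph S} {S3 : Type}

theorem two_eq (x : ZMod 2) : x + x = 0 := by
  revert x; decide

theorem cnt_comm (lab : Hyp G → S3) (p q : W G) (c : S3) : cnt lab p q c = cnt lab q p c := by
  unfold cnt; rw [sep_comm]

theorem cnt_coc (lab : Hyp G → S3) (p q r : W G) (c : S3) :
    (cnt lab p r c : ZMod 2) = cnt lab p q c + cnt lab q r c := by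
  classical
  unfold cnt
  set A := (sep p q).filter (fun k => lab k = c)
  set B := (sep q r).filter (fun k => lab k = c)
  have e : (sep p r).filter (fun k => lab k = c) = (A \ B) ∪ (B \ A) := by
    ext k
    simp only [A, B, Finset.mem_filter, Finset.mem_union, Finset.mem_sdiff, mem_sep_trans p q r]
    tauto
  have h1 := Finset.card_sdiff_add_card_inter A B
  have h2 := Finset.card_sdiff_add_card_inter B A
  rw [Finset.inter_comm] at h2
  rw [e, Finset.card_union_of_disjoint disjoint_sdiff_sdiff, ← h1, ← h2]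
  push_cast
  linear_combination -two_eq ((A ∩ B).card : ZMod 2)

theorem cnt_smul {lab : Hyp G → S3} {μ : W G} (h : ∀ k, lab (μ • k) = lab k) (p q : W G)
    (c : S3) : cnt lab (μ * p) (μ * q) c = cnt lab p q c := by
  classical
  unfold cnt
  rw [sep_smul, Finset.filter_image, Finset.card_image_of_injective _ (MulAction.injective μ)]
  simp only [h]

theorem cnt_eq_zero {lab : Hyp G → S3} {p q : W G} {c : S3} (h : ∀ k ∈ sep p q, lab k ≠ c) :
    cnt lab p q c = 0 := by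
  classical
  unfold cnt
  rw [Finset.card_eq_zero, Finset.filter_eq_empty_iff]
  exact h

theorem cnt_sym2 (lab : Hyp G → S3) {v w v' w' : W G} (e : s(v, w) = s(v', w')) (c : S3) :
    cnt lab v w c = cnt lab v' w' c := by
  unfold cnt; rw [sep_sym2 e]

theorem odd_iff (n : ℕ) : Odd n ↔ (n : ZMod 2) = 1 := ZMod.natCast_eq_one_iff_odd.symm

theorem even_iff (n : ℕ) : Even n ↔ (n : ZMod 2) = 0 := ZMod.natCast_eq_zero_iff_even.symm

theorem zero_or_one (x : ZMod 2) : x = 0 ∨ x = 1 := by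
  revert x; decide

/-- a component with a group of label preserving symmetries -/
structure Ctx (𝒢 : SimpleGraph (W G)) (Des : W G → W G → Hyp G → Prop) (l B c : ℕ)
    (lab : Hyp G → S3) (Λ : Subgroup (W G)) (a0 : W G) (RV : ℕ) : Prop where
  geo : Geo id 𝒢 Des l B c
  lr : l ≤ RV
  reach : ∀ μ ∈ Λ, ∀ v, 𝒢.Reachable a0 v → 𝒢.Reachable a0 (μ * v)
  des : ∀ μ ∈ Λ, ∀ p q h, Des p q h → Des (μ * p) (μ * q) (μ • h)
  inv : ∀ μ ∈ Λ, ∀ h, lab (μ • h) = lab h
  free : ∀ μ ∈ Λ, ∀ y, d y (μ * y) ≤ RV → μ = 1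
  x1 : ∀ v w h, 𝒢.Reachable a0 v → Des v w h → ∀ a b, 𝒢.Reachable a0 a → 𝒢.Reachable a0 b →
    ∀ k ∈ sep a b, lab k = lab h → ∃ μ ∈ Λ, μ • h = k

/-- two edges in the same orbit -/
def Orb (Λ : Subgroup (W G)) (v w a b : W G) : Prop := ∃ μ ∈ Λ, s(μ * v, μ * w) = s(a, b)

theorem sym2_mul (μ : W G) {v w a b : W G} (e : s(v, w) = s(a, b)) :
    s(μ * v, μ * w) = s(μ * a, μ * b) := by
  rcases Sym2.eq_iff.1 e with ⟨rfl, rfl⟩ | ⟨rfl, rfl⟩
  · rfl
  · exact Sym2.eq_swap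

theorem Orb.refl (Λ : Subgroup (W G)) (v w : W G) : Orb Λ v w v w := ⟨1, Λ.one_mem, by simp⟩

theorem Orb.symm {Λ : Subgroup (W G)} {v w a b : W G} (h : Orb Λ v w a b) : Orb Λ a b v w := by
  obtain ⟨μ, hμ, e⟩ := h
  exact ⟨μ⁻¹, Λ.inv_mem hμ, by simpa using (sym2_mul μ⁻¹ e).symm⟩

theorem Orb.trans {Λ : Subgroup (W G)} {v w a b p q : W G} (h : Orb Λ v w a b)
    (h' : Orb Λ a b p q) : Orb Λ v w p q := by
  obtain ⟨μ, hμ, e⟩ := h
  obtain ⟨ν, hν, e'⟩ := h'
  exact ⟨ν * μ, Λ.mul_mem hν hμ, by rw [mul_assoc, mul_assoc, sym2_mul ν e, e']⟩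

variable {𝒢 : SimpleGraph (W G)} {Des : W G → W G → Hyp G → Prop} {l B c : ℕ}
  {lab : Hyp G → S3} {Λ : Subgroup (W G)} {a0 : W G} {RV : ℕ}

theorem Ctx.eq_one (X : Ctx 𝒢 Des l B c lab Λ a0 RV) {μ : W G} (hμ : μ ∈ Λ) {v w : W G}
    (hvw : 𝒢.Adj v w) (e : s(μ * v, μ * w) = s(v, w)) : μ = 1 := by
  refine X.free μ hμ v ?_
  rcases Sym2.eq_iff.1 e with ⟨r, -⟩ | ⟨r, -⟩
  · rw [r, d_self]; exact Nat.zero_le _
  · rw [r]; exact (X.geo.step _ _ hvw).trans X.lr

open Classical in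
theorem Ctx.edge (X : Ctx 𝒢 Des l B c lab Λ a0 RV) {v w a b : W G} {h : Hyp G}
    (hv : 𝒢.Reachable a0 v) (hd : Des v w h) (ha : 𝒢.Reachable a0 a) (hab : 𝒢.Adj a b) :
    cnt lab a b (lab h) = if Orb Λ v w a b then 1 else 0 := by
  have key : ∀ k ∈ sep a b, lab k = lab h → ∃ μ ∈ Λ, μ • h = k ∧ s(μ * v, μ * w) = s(a, b) := by
    intro k hk e
    obtain ⟨μ, hμ, rfl⟩ := X.x1 v w h hv hd a b ha (ha.trans hab.reachable) k hk e
    exact ⟨μ, hμ, rfl, uniq X.geo (X.des μ hμ _ _ _ hd) hab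
      ((X.reach μ hμ v hv).symm.trans ha) hk⟩
  split_ifs with o
  · obtain ⟨μ, hμ, e⟩ := o
    unfold cnt
    rw [Finset.card_eq_one]
    refine ⟨μ • h, ?_⟩
    ext k
    rw [Finset.mem_filter, Finset.mem_singleton]
    constructor
    · rintro ⟨hk, e'⟩
      obtain ⟨ν, hν, rfl, e''⟩ := key k hk e'
      have : μ⁻¹ * ν = 1 := X.eq_one (Λ.mul_mem (Λ.inv_mem hμ) hν) (X.geo.adj _ _ _ hd).1 (by
        have := sym2_mul μ⁻¹ (e''.trans e.symm)
        simpa [mul_assoc] using this)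
      rw [inv_mul_eq_one.1 this]
    · rintro rfl
      refine ⟨?_, X.inv μ hμ h⟩
      rw [← sep_sym2 e, smul_mem_sep]
      exact (X.geo.adj _ _ _ hd).2
  · refine cnt_eq_zero fun k hk e => o ?_
    obtain ⟨μ, hμ, -, e'⟩ := key k hk e
    exact ⟨μ, hμ, e'⟩

/-- two cocycles that agree on edges agree on the component -/
theorem coc_ext {f g : W G → W G → ZMod 2} (hf : ∀ p q r, f p r = f p q + f q r)
    (hg : ∀ p q r, g p r = g p q + g q r)
    (he : ∀ p q, 𝒢.Reachable a0 p → 𝒢.Adj p q → f p q = g p q) {a b : W G}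
    (ha : 𝒢.Reachable a0 a) (hb : 𝒢.Reachable a0 b) : f a b = g a b := by
  have hab := ha.symm.trans hb
  rw [SimpleGraph.reachable_iff_reflTransGen] at hab
  clear hb
  induction hab with
  | refl => rw [hf a a a, hg a a a, two_eq, two_eq]
  | tail h1 hbc ih =>
    rename_i b e
    rw [hf a b e, hg a b e, ih,
      he b e (ha.trans ((SimpleGraph.reachable_iff_reflTransGen _ _).2 h1)) hbc]

theorem Ctx.indep (X : Ctx 𝒢 Des l B c lab Λ a0 RV) {v w a b : W G} {h h' : Hyp G}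
    (hv : 𝒢.Reachable a0 v) (hd : Des v w h) (hd' : Des v w h') (ha : 𝒢.Reachable a0 a)
    (hb : 𝒢.Reachable a0 b) : (cnt lab a b (lab h) : ZMod 2) = cnt lab a b (lab h') :=
  coc_ext (f := fun a b => (cnt lab a b (lab h) : ZMod 2))
    (g := fun a b => (cnt lab a b (lab h') : ZMod 2)) (fun p q r => cnt_coc lab p q r _)
    (fun p q r => cnt_coc lab p q r _)
    (fun p q hp hpq => by rw [X.edge hv hd hp hpq, X.edge hv hd' hp hpq]) ha hb

open Classical in
/-- indicator of an orbit of vertices -/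
noncomputable def ind (Λ : Subgroup (W G)) (v a : W G) : ZMod 2 :=
  if ∃ μ ∈ Λ, μ * v = a then 1 else 0

theorem Ctx.adj (X : Ctx 𝒢 Des l B c lab Λ a0 RV) {μ : W G} (hμ : μ ∈ Λ) {p q : W G}
    (h : 𝒢.Adj p q) : 𝒢.Adj (μ * p) (μ * q) := by
  obtain ⟨k, hk⟩ := X.geo.ex _ _ h
  exact (X.geo.adj _ _ _ (X.des μ hμ _ _ _ hk)).1

open Classical in
theorem Ctx.deg_aux (X : Ctx 𝒢 Des l B c lab Λ a0 RV) {v a b μ : W G} {N : Finset (W G)}
    (hN : ∀ w, w ∈ N ↔ 𝒢.Adj v w) (hab : 𝒢.Adj a b) (hμ : μ ∈ Λ) (e : μ * v = a) :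
    (N.filter (fun w => Orb Λ v w a b)).card = 1 ∧ ¬ ∃ ν ∈ Λ, ν * v = b := by
  have nb : ¬ ∃ ν ∈ Λ, ν * v = b := by
    rintro ⟨ν, hν, e'⟩
    have : ν * μ⁻¹ = 1 := X.free _ (Λ.mul_mem hν (Λ.inv_mem hμ)) a (by
      rw [← e, mul_assoc, inv_mul_cancel_left, e', e]
      exact (X.geo.step _ _ hab).trans X.lr)
    rw [mul_inv_eq_one.1 this, e] at e'
    exact hab.ne e'
  refine ⟨?_, nb⟩
  rw [Finset.card_eq_one]
  refine ⟨μ⁻¹ * b, ?_⟩
  ext w
  rw [Finset.mem_filter, Finset.mem_singleton, hN]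
  constructor
  · rintro ⟨-, ν, hν, e'⟩
    rcases Sym2.eq_iff.1 e' with ⟨r, r'⟩ | ⟨r, -⟩
    · have : ν = μ := mul_right_cancel (r.trans e.symm)
      rw [← r', this, inv_mul_cancel_left]
    · exact absurd ⟨ν, hν, r⟩ nb
  · rintro rfl
    refine ⟨?_, μ, hμ, by rw [e, mul_inv_cancel_left]⟩
    have := X.adj (Λ.inv_mem hμ) hab
    rwa [← e, inv_mul_cancel_left] at this

/-- parity of degrees -/
theorem Ctx.deg (X : Ctx 𝒢 Des l B c lab Λ a0 RV) {hc : W G → W G → Hyp G}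
    (hhc : ∀ v w, 𝒢.Adj v w → Des v w (hc v w)) {v a b : W G} {N : Finset (W G)}
    (hN : ∀ w, w ∈ N ↔ 𝒢.Adj v w) (hv : 𝒢.Reachable a0 v) (ha : 𝒢.Reachable a0 a)
    (hb : 𝒢.Reachable a0 b) :
    ∑ w ∈ N, (cnt lab a b (lab (hc v w)) : ZMod 2) = ind Λ v a + ind Λ v b := by
  classical
  refine coc_ext (f := fun a b => ∑ w ∈ N, (cnt lab a b (lab (hc v w)) : ZMod 2))
    (g := fun a b => ind Λ v a + ind Λ v b) (fun p q r => ?_) (fun p q r => ?_)
    (fun p q hp hpq => ?_) ha hb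
  · rw [← Finset.sum_add_distrib]
    exact Finset.sum_congr rfl fun w _ => cnt_coc lab p q r _
  · linear_combination -two_eq (ind Λ v q)
  · have : ∑ w ∈ N, (cnt lab p q (lab (hc v w)) : ZMod 2) =
        ((N.filter (fun w => Orb Λ v w p q)).card : ZMod 2) := by
      rw [Finset.card_filter, Nat.cast_sum]
      exact Finset.sum_congr rfl fun w hw => by rw [X.edge hv (hhc v w ((hN w).1 hw)) hp hpq]
    rw [this]
    by_cases e1 : ∃ μ ∈ Λ, μ * v = p
    · obtain ⟨μ, hμ, e⟩ := id e1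
      obtain ⟨r1, r2⟩ := X.deg_aux hN hpq hμ e
      rw [r1, ind, ind, if_pos e1, if_neg r2]
      simp
    · by_cases e2 : ∃ μ ∈ Λ, μ * v = q
      · obtain ⟨μ, hμ, e⟩ := id e2
        obtain ⟨r1, -⟩ := X.deg_aux hN hpq.symm hμ e
        have : N.filter (fun w => Orb Λ v w p q) = N.filter (fun w => Orb Λ v w q p) := by
          refine Finset.filter_congr fun w _ => ?_
          unfold Orb
          rw [Sym2.eq_swap (a := p)]
        rw [this, r1, ind, ind, if_neg e1, if_pos e2]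
        simp
      · have : N.filter (fun w => Orb Λ v w p q) = ∅ := by
          rw [Finset.filter_eq_empty_iff]
          rintro w - ⟨μ, hμ, e⟩
          rcases Sym2.eq_iff.1 e with ⟨r, -⟩ | ⟨r, -⟩
          · exact e1 ⟨μ, hμ, r⟩
          · exact e2 ⟨μ, hμ, r⟩
        rw [this, ind, ind, if_neg e1, if_neg e2]
        simp

theorem cnt_walk (lab : Hyp G → S3) (x : ℕ → W G) (k : ℕ) (c : S3) :
    (cnt lab (x 0) (x k) c : ZMod 2) = ∑ j ∈ Finset.range k, (cnt lab (x j) (x (j + 1)) c : ZMod 2) := by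
  induction k with
  | zero => rw [cnt_eq_zero (by simp)]; simp
  | succ k ih => rw [Finset.sum_range_succ, ← ih, ← cnt_coc]

/-- if all clean labels are even then all labels are even -/
theorem Ctx.total (X : Ctx 𝒢 Des l B c lab Λ a0 RV) {a b : W G} (ha : 𝒢.Reachable a0 a)
    (hb : 𝒢.Reachable a0 b)
    (h : ∀ v w, 𝒢.Reachable a0 v → 𝒢.Adj v w → ∃ k, Des v w k ∧ (cnt lab a b (lab k) : ZMod 2) = 0)
    (e : S3) : (cnt lab a b e : ZMod 2) = 0 := by
  classical
  obtain ⟨x, k, hx, rfl, rfl⟩ := exists_nb (ha.symm.trans hb)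
  let g : ℕ → Set (W G × W G) := fun j => {p | Orb Λ (x j) (x (j + 1)) p.1 p.2}
  have hg : ∀ i j, g i = g j ↔ Orb Λ (x j) (x (j + 1)) (x i) (x (i + 1)) := by
    intro i j
    constructor
    · intro e
      have : (x i, x (i + 1)) ∈ g i := Orb.refl Λ _ _
      rw [e] at this
      exact this
    · intro o
      ext p
      exact ⟨fun o' => o.trans o', fun o' => o.symm.trans o'⟩
  rw [cnt_walk, ← Finset.sum_fiberwise_of_maps_to (g := g) (t := (Finset.range k).image g)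
    (fun j hj => Finset.mem_image_of_mem g hj)]
  refine Finset.sum_eq_zero fun y hy => ?_
  obtain ⟨j, hj, rfl⟩ := Finset.mem_image.1 hy
  have hj' := Finset.mem_range.1 hj
  have rj : ∀ i ≤ k, 𝒢.Reachable a0 (x i) := fun i hi => ha.trans (nb_reach hx hi)
  obtain ⟨h0, hd, h1⟩ := h _ _ (rj j hj'.le) (hx.1 j hj')
  rw [Finset.sum_congr rfl (g := fun _ => (cnt lab (x j) (x (j + 1)) e : ZMod 2)) (fun i hi => by
    obtain ⟨μ, hμ, r⟩ := (hg i j).1 (Finset.mem_filter.1 hi).2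
    rw [← cnt_sym2 lab r, cnt_smul (X.inv μ hμ)])]
  rw [Finset.sum_const, nsmul_eq_mul]
  have : (((Finset.range k).filter (fun i => g i = g j)).card : ZMod 2) = 0 := by
    rw [← h1, cnt_walk, Finset.card_filter, Nat.cast_sum]
    refine Finset.sum_congr rfl fun i hi => ?_
    have hi' := Finset.mem_range.1 hi
    rw [X.edge (rj j hj'.le) hd (rj i hi'.le) (hx.1 i hi')]
    simp only [hg]
  rw [this, zero_mul]

theorem nbr_finite [Finite S] (g : Geo id 𝒢 Des l B c) (v : W G) :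
    ∃ N : Finset (W G), ∀ w, w ∈ N ↔ 𝒢.Adj v w := by
  have : {w | 𝒢.Adj v w}.Finite := (ball_finite v l).subset fun w hw => g.step _ _ hw
  exact ⟨this.toFinset, fun w => by simp⟩

/-- long walks along odd edges -/
theorem Ctx.walk [Finite S] (X : Ctx 𝒢 Des l B c lab Λ a0 RV) {hc : W G → W G → Hyp G}
    (hhc : ∀ v w, 𝒢.Adj v w → Des v w (hc v w)) {a b v w : W G} (ha : 𝒢.Reachable a0 a)
    (hb : 𝒢.Reachable a0 b) (hv : 𝒢.Reachable a0 v) (hvw : 𝒢.Adj v w)
    (h1 : (cnt lab a b (lab (hc v w)) : ZMod 2) = 1) {m : ℕ}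
    (hpar : ∀ u, u ≠ v → d v u ≤ l * m → ind Λ u a + ind Λ u b = 0) :
    ∀ j ≤ m, ∃ z, z 0 = v ∧ NB 𝒢 z (j + 1) ∧
      ∀ i ≤ j, (cnt lab a b (lab (hc (z i) (z (i + 1)))) : ZMod 2) = 1 := by
  classical
  intro j
  induction j with
  | zero =>
    intro _
    refine ⟨fun t => if t = 0 then v else w, rfl, ⟨fun i hi => ?_, fun i hi => by omega⟩,
      fun i hi => ?_⟩
    · obtain rfl : i = 0 := by omega
      simpa using hvw
    · obtain rfl : i = 0 := by omega
      simpa using h1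
  | succ j ih =>
    intro hj
    obtain ⟨z, z0, hz, hodd⟩ := ih (by omega)
    have ru : 𝒢.Reachable a0 (z (j + 1)) := hv.trans (z0 ▸ nb_reach hz le_rfl)
    obtain ⟨N, hN⟩ := nbr_finite X.geo (z (j + 1))
    have adj : 𝒢.Adj (z (j + 1)) (z j) := (hz.1 j (by omega)).symm
    have dg := X.deg hhc hN ru ha hb
    rw [hpar (z (j + 1)) (fun e => by
      have := inj_walk X.geo hz le_rfl (Nat.zero_le _) (e.trans z0.symm)
      omega) (by
      rw [← z0]
      exact (d_walk' X.geo hz (Nat.zero_le _) le_rfl).trans (Nat.mul_le_mul_left _ hj)),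
      ← Finset.add_sum_erase _ _ ((hN _).2 adj),
      X.indep ru (hhc _ _ adj) (X.geo.symm _ _ _ (hhc _ _ adj.symm)) ha hb, hodd j le_rfl] at dg
    have : ∃ u ∈ N.erase (z j), (cnt lab a b (lab (hc (z (j + 1)) u)) : ZMod 2) ≠ 0 := by
      refine Finset.exists_ne_zero_of_sum_ne_zero fun e => ?_
      rw [e] at dg
      exact absurd dg (by decide)
    obtain ⟨u, hu, ho⟩ := this
    rw [Finset.mem_erase] at hu
    obtain ⟨z', hz', e1, e2⟩ := nb_snoc hz ((hN u).1 hu.2) (fun i hi => by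
      obtain rfl : i = j := by omega
      exact hu.1)
    refine ⟨z', by rw [e1 0 (by omega), z0], hz', fun i hi => ?_⟩
    by_cases e : i = j + 1
    · rw [e, e1 _ le_rfl, e2]
      exact (zero_or_one _).resolve_left ho
    · rw [e1 i (by omega), e1 (i + 1) (by omega)]
      exact hodd i (by omega)

/-- six spaced odd hyperplanes on a long walk -/
theorem Ctx.six [Finite S] (X : Ctx 𝒢 Des l B c lab Λ a0 RV) {z : ℕ → W G} {m MA E : ℕ}
    (hz : NB 𝒢 z m) (z0 : 𝒢.Reachable a0 (z 0)) (hm : (E + 6) * ((c + 1) * (MA + 1)) ≤ m)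
    (hR : l * m ≤ RV) {H : ℕ → Hyp G} (hH : ∀ i < m, Des (z i) (z (i + 1)) (H i))
    (Z : Finset (Hyp G)) (hZ : Z.card ≤ E) :
    ∃ e : ℕ → ℕ, (∀ i < 6, e i < m ∧ H (e i) ∈ sep (z 0) (z m) ∧ ∀ k ∈ Z, lab k ≠ lab (H (e i))) ∧
      ∀ i j, i < j → j < 6 → Lt (z 0) (H (e i)) (H (e j)) ∧
        MA ≤ (btw (z 0) (z m) (H (e i)) (H (e j))).card := by
  classical
  set s := (c + 1) * (MA + 1) with hs
  have spos : 0 < s := Nat.mul_pos (by omega) (by omega)
  have lt : ∀ t < E + 6, t * s < m := fun t ht =>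
    lt_of_lt_of_le (Nat.mul_lt_mul_of_pos_right ht spos) hm
  have rz : ∀ i ≤ m, 𝒢.Reachable a0 (z i) := fun i hi => z0.trans (nb_reach hz hi)
  have inj : ∀ i < m, ∀ j < m, lab (H i) = lab (H j) → i = j := by
    intro i hi j hj e
    have e1 := X.edge (rz i hi.le) (hH i hi) (rz j hj.le) (hz.1 j hj)
    have e2 := X.edge (rz j hj.le) (hH j hj) (rz j hj.le) (hz.1 j hj)
    rw [if_pos (Orb.refl Λ _ _), ← e, e1] at e2
    have o : Orb Λ (z i) (z (i + 1)) (z j) (z (j + 1)) := by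
      by_contra hn
      rw [if_neg hn] at e2
      exact absurd e2 (by decide)
    obtain ⟨μ, hμ, r⟩ := o
    have : μ = 1 := by
      refine X.free μ hμ (z i) (le_trans ?_ hR)
      rcases Sym2.eq_iff.1 r with ⟨r', -⟩ | ⟨r', -⟩ <;> rw [r'] <;>
        exact d_walk' X.geo hz (by omega) (by omega)
    rw [this, one_mul, one_mul] at r
    exact idx_eq X.geo hz (hH i hi) (des_sym2 X.geo r (hH i hi)) hi hj
  have bad : ((Finset.range (E + 6)).filter (fun t => ¬ ∀ k ∈ Z, lab k ≠ lab (H (t * s)))).card ≤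
      E := by
    refine le_trans (Finset.card_le_card_of_injOn (t := Z.image lab) (fun t => lab (H (t * s)))
      (fun t ht => ?_) (fun t ht t' ht' e => ?_)) (Finset.card_image_le.trans hZ)
    · have := (Finset.mem_filter.1 (Finset.mem_coe.1 ht)).2
      push Not at this
      obtain ⟨k, hk, e⟩ := this
      exact Finset.mem_coe.2 (Finset.mem_image.2 ⟨k, hk, e⟩)
    · have a1 := Finset.mem_range.1 (Finset.mem_filter.1 (Finset.mem_coe.1 ht)).1
      have a2 := Finset.mem_range.1 (Finset.mem_filter.1 (Finset.mem_coe.1 ht')).1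
      exact Nat.eq_of_mul_eq_mul_right spos (inj _ (lt t a1) _ (lt t' a2) e)
  have tot := Finset.card_filter_add_card_filter_not (s := Finset.range (E + 6))
    (fun t => ∀ k ∈ Z, lab k ≠ lab (H (t * s)))
  rw [Finset.card_range] at tot
  set Gd := (Finset.range (E + 6)).filter (fun t => ∀ k ∈ Z, lab k ≠ lab (H (t * s))) with hGd
  have six : 6 ≤ Gd.card := by omega
  let f := Gd.orderEmbOfCardLe six
  have fm : ∀ i, f i < E + 6 ∧ ∀ k ∈ Z, lab k ≠ lab (H (f i * s)) := fun i => by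
    have := Finset.mem_filter.1 (Gd.orderEmbOfCardLe_mem six i)
    exact ⟨Finset.mem_range.1 this.1, this.2⟩
  have ms : ∀ i < m, H i ∈ sep (z 0) (z m) := fun i hi =>
    (mem_sep_iff X.geo hz (hH i hi) hi le_rfl).2 hi
  refine ⟨fun i => if h : i < 6 then f ⟨i, h⟩ * s else 0, fun i hi => ?_, fun i j hij hj => ?_⟩
  · simp only [hi, dif_pos]
    exact ⟨lt _ (fm _).1, ms _ (lt _ (fm _).1), (fm _).2⟩
  · have hi : i < 6 := by omega
    simp only [hi, hj, dif_pos]
    have a1 : f ⟨i, hi⟩ < f ⟨j, hj⟩ := f.strictMono (Fin.mk_lt_mk.2 hij)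
    have a2 := lt _ (fm ⟨j, hj⟩).1
    have a3 : f ⟨i, hi⟩ * s + s ≤ f ⟨j, hj⟩ * s := by
      rw [← add_one_mul]
      exact Nat.mul_le_mul_right _ a1
    generalize f ⟨i, hi⟩ * s = p at *
    generalize f ⟨j, hj⟩ * s = q at *
    have a4 : s = (c + 1) * MA + (c + 1) := by rw [hs]; ring
    refine ⟨lt_of X.geo hz (hH p (by omega)) (hH q a2) (by omega) a2, ?_⟩
    have b1 : ∀ r < MA, (c + 1) * r + (c + 1) ≤ (c + 1) * MA := fun r hr => by
      rw [← mul_add_one]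
      exact Nat.mul_le_mul_left _ hr
    refine le_trans (le_of_eq (Finset.card_range MA).symm)
      (Finset.card_le_card_of_injOn (fun r => H (p + ((c + 1) * r + (c + 1)))) (fun r hr => ?_)
        (fun r hr r' hr' e => ?_))
    · have b2 := b1 r (Finset.mem_range.1 (Finset.mem_coe.1 hr))
      refine Finset.mem_coe.2 (mem_btw.2 ⟨ms _ (by omega), ?_, ?_⟩)
      · exact lt_of X.geo hz (hH p (by omega)) (hH _ (by omega)) (by omega) (by omega)
      · exact lt_of X.geo hz (hH _ (by omega)) (hH q a2) (by omega) a2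
    · have b2 := b1 r (Finset.mem_range.1 (Finset.mem_coe.1 hr))
      have b3 := b1 r' (Finset.mem_range.1 (Finset.mem_coe.1 hr'))
      have := inj _ (by omega) _ (by omega) (congrArg lab e)
      exact Nat.eq_of_mul_eq_mul_left (show 0 < c + 1 by omega) (by omega)

/-- the parity alternative -/
theorem Ctx.vec [Finite S] (X : Ctx 𝒢 Des l B c lab Λ a0 RV) [Nonempty (Hyp G)] {B1 MA m1 m2 : ℕ}
    (h1 : (2 * B1 + 6) * ((c + 1) * (MA + 1)) ≤ m1)
    (h2 : (2 * B1 + l * m1 + 6) * ((c + 1) * (MA + 1)) ≤ m2) (r1 : l * (m1 + 1) ≤ RV)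
    (r2 : l * (m2 + 1) ≤ RV) {α β a b : W G} (ha : 𝒢.Reachable a0 a) (hb : 𝒢.Reachable a0 b)
    (da : d α a ≤ B1) (db : d β b ≤ B1) :
    (∃ μ ∈ Λ, (∀ e, Even (cnt lab β (μ * β) e)) ∧ d α (μ * β) ≤ 2 * B1 + l * m1) ∨
    ∃ p q, 𝒢.Reachable a0 p ∧ 𝒢.Reachable a0 q ∧ d p q ≤ RV ∧ ∃ e : ℕ → Hyp G,
      (∀ i < 6, e i ∈ sep p q ∧ Odd (cnt lab α β (lab (e i)))) ∧
      ∀ i j, i < j → j < 6 → Lt p (e i) (e j) ∧ MA ≤ (btw p q (e i) (e j)).card := by
  classical
  have hex := X.geo.ex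
  choose! hc hhc using hex
  have fin : ∀ (p q : W G) (z : ℕ → W G) (m E : ℕ) (Z : Finset (Hyp G)), NB 𝒢 z (m + 1) →
      𝒢.Reachable a0 (z 0) → (E + 6) * ((c + 1) * (MA + 1)) ≤ m → l * (m + 1) ≤ RV → Z.card ≤ E →
      (∀ i ≤ m, (cnt lab p q (lab (hc (z i) (z (i + 1)))) : ZMod 2) = 1) →
      (∀ e, (∀ k ∈ Z, lab k ≠ e) → (cnt lab α β e : ZMod 2) = cnt lab p q e) →
      ∃ p q, 𝒢.Reachable a0 p ∧ 𝒢.Reachable a0 q ∧ d p q ≤ RV ∧ ∃ e : ℕ → Hyp G,
        (∀ i < 6, e i ∈ sep p q ∧ Odd (cnt lab α β (lab (e i)))) ∧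
        ∀ i j, i < j → j < 6 → Lt p (e i) (e j) ∧ MA ≤ (btw p q (e i) (e j)).card := by
    intro p q z m E Z hz z0 hm hR hZ hodd hpq
    obtain ⟨e, e1, e2⟩ := X.six hz z0 (hm.trans (Nat.le_succ m)) hR
      (H := fun i => hc (z i) (z (i + 1))) (fun i hi => hhc _ _ (hz.1 i hi)) Z hZ
    refine ⟨z 0, z (m + 1), z0, z0.trans (nb_reach hz le_rfl),
      (d_walk' X.geo hz (Nat.zero_le _) le_rfl).trans hR, fun i => hc (z (e i)) (z (e i + 1)),
      fun i hi => ⟨(e1 i hi).2.1, ?_⟩, e2⟩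
    rw [odd_iff, hpq _ (e1 i hi).2.2]
    exact hodd _ (by have := (e1 i hi).1; omega)
  by_cases A : ∃ μ ∈ Λ, d a (μ * b) ≤ l * m1
  · obtain ⟨μ, hμ, dμ⟩ := A
    have hb' := X.reach μ hμ b hb
    by_cases A2 : ∃ v w, 𝒢.Reachable a0 v ∧ 𝒢.Adj v w ∧
        (cnt lab b (μ * b) (lab (hc v w)) : ZMod 2) = 1
    · obtain ⟨v, w, hv, hvw, ho⟩ := A2
      obtain ⟨z, z0, hz, hodd⟩ := X.walk hhc hb hb' hv hvw ho (m := m2) (fun u _ _ => by
        have : ind Λ u (μ * b) = ind Λ u b := by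
          unfold ind
          congr 1
          refine propext ⟨?_, ?_⟩
          · rintro ⟨ν, hν, e⟩
            exact ⟨μ⁻¹ * ν, Λ.mul_mem (Λ.inv_mem hμ) hν, by rw [mul_assoc, e, inv_mul_cancel_left]⟩
          · rintro ⟨ν, hν, e⟩
            exact ⟨μ * ν, Λ.mul_mem hμ hν, by rw [mul_assoc, e]⟩
        rw [this, two_eq]) m2 le_rfl
      refine Or.inr (fin b (μ * b) z m2 _ (sep α (μ * b) ∪ sep b β) hz (z0 ▸ hv) h2 r2 ?_ hodd
        fun e he => ?_)
      · have a1 := Finset.card_union_le (sep α (μ * b)) (sep b β)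
        have a2 := d_triangle α a (μ * b)
        rw [d_comm] at db
        unfold d at *
        omega
      · rw [cnt_coc lab α (μ * b) β, cnt_coc lab (μ * b) b β,
          cnt_eq_zero (p := α) fun k hk => he k (Finset.mem_union_left _ hk),
          cnt_eq_zero (p := b) (q := β) fun k hk => he k (Finset.mem_union_right _ hk),
          cnt_comm lab b]
        simp
    · refine Or.inl ⟨μ, hμ, fun e => ?_, ?_⟩
      · have := X.total hb hb' (fun v w hv hvw => ⟨hc v w, hhc v w hvw,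
          (zero_or_one _).resolve_right fun ho => A2 ⟨v, w, hv, hvw, ho⟩⟩) e
        rw [even_iff, cnt_coc lab β b, cnt_coc lab b (μ * b), this, cnt_smul (X.inv μ hμ),
          cnt_comm lab b β, zero_add, two_eq]
      · have a1 := d_triangle α a (μ * β)
        have a2 := d_triangle a (μ * b) (μ * β)
        rw [d_smul, d_comm b β] at a2
        omega
  · have nb : ∀ u, d a u ≤ l * m1 → ind Λ u b = 0 := by
      intro u hu
      unfold ind
      rw [if_neg]
      rintro ⟨ν, hν, e⟩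
      exact A ⟨ν⁻¹, Λ.inv_mem hν, by rw [← e, inv_mul_cancel_left]; exact hu⟩
    obtain ⟨N, hN⟩ := nbr_finite X.geo a
    have dg := X.deg hhc hN ha ha hb
    have i1 : ind Λ a a = 1 := by
      unfold ind
      rw [if_pos ⟨1, Λ.one_mem, one_mul a⟩]
    rw [i1, nb a (by simp)] at dg
    obtain ⟨w, hw, ho⟩ : ∃ w ∈ N, (cnt lab a b (lab (hc a w)) : ZMod 2) ≠ 0 := by
      refine Finset.exists_ne_zero_of_sum_ne_zero fun e => ?_
      rw [e] at dg
      exact absurd dg (by decide)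
    obtain ⟨z, z0, hz, hodd⟩ := X.walk hhc ha hb ha ((hN w).1 hw)
      ((zero_or_one _).resolve_left ho) (m := m1) (fun u hu du => by
        rw [nb u du, add_zero]
        unfold ind
        rw [if_neg]
        rintro ⟨ν, hν, e⟩
        have : ν = 1 := X.free ν hν u (by
          rw [e, d_comm]
          exact du.trans ((Nat.mul_le_mul_left _ (Nat.le_succ _)).trans r1))
        rw [this, one_mul] at e
        exact hu e) m1 le_rfl
    refine Or.inr (fin a b z m1 _ (sep α a ∪ sep b β) hz (z0 ▸ ha) h1 r1 ?_ hodd fun e he => ?_)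
    · have a1 := Finset.card_union_le (sep α a) (sep b β)
      rw [d_comm] at db
      unfold d at *
      omega
    · rw [cnt_coc lab α a β, cnt_coc lab a b β,
        cnt_eq_zero (p := α) fun k hk => he k (Finset.mem_union_left _ hk),
        cnt_eq_zero (p := b) (q := β) fun k hk => he k (Finset.mem_union_right _ hk)]
      simp

end FW

end Pool.Agent.MP_c34dea_an.H66
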