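import Pool.Agent.MP_c34dea_an.H66.Spec

set_option autoImplicit false

open scoped symmDiff Pointwise

namespace Pool.Agent.MP_c34dea_an.H66

namespace FW

section Walks

variable {V : Type} {𝒢 : SimpleGraph V}

theorem nb_mono {x : ℕ → V} {k j : ℕ} (h : NB 𝒢 x k) (hj : j ≤ k) : NB 𝒢 x j :=
  ⟨fun i hi => h.1 i (by omega), fun i hi => h.2 i (by omega)⟩

theorem nb_shift {x : ℕ → V} {k : ℕ} (h : NB 𝒢 x k) (i j : ℕ) (hij : i + j ≤ k) :
    NB 𝒢 (fun t => x (i + t)) j :=
  ⟨fun t ht => h.1 (i + t) (by omega), fun t ht => h.2 (i + t) (by omega)⟩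

theorem nb_rev {x : ℕ → V} {k : ℕ} (h : NB 𝒢 x k) (j : ℕ) (hj : j ≤ k) :
    NB 𝒢 (fun t => x (j - t)) j := by
  refine ⟨fun t ht => ?_, fun t ht => ?_⟩
  · have := (h.1 (j - (t + 1)) (by omega)).symm
    rwa [show j - (t + 1) + 1 = j - t by omega] at this
  · have := (h.2 (j - (t + 2)) (by omega)).symm
    rwa [show j - (t + 2) + 2 = j - t by omega] at this

theorem nb_snoc {x : ℕ → V} {k : ℕ} (h : NB 𝒢 x k) {b : V} (hb : 𝒢.Adj (x k) b)
    (hne : ∀ j, j + 1 = k → b ≠ x j) :
    ∃ z, NB 𝒢 z (k + 1) ∧ (∀ i ≤ k, z i = x i) ∧ z (k + 1) = b := by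
  refine ⟨fun t => if t ≤ k then x t else b, ⟨fun t ht => ?_, fun t ht => ?_⟩,
    fun i hi => by simp [hi], by simp⟩
  · by_cases e : t = k
    · subst e; simpa using hb
    · have h1 : t ≤ k := by omega
      have h2 : t + 1 ≤ k := by omega
      simp only [h1, h2, if_true]
      exact h.1 t (by omega)
  · have h1 : t ≤ k := by omega
    by_cases e : t + 2 ≤ k
    · simp only [h1, e, if_true]
      exact h.2 t e
    · simp only [h1, e, if_true, if_false]
      exact hne t (by omega)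

theorem nb_reach {x : ℕ → V} {k : ℕ} (h : NB 𝒢 x k) {i : ℕ} (hi : i ≤ k) :
    𝒢.Reachable (x 0) (x i) := by
  induction i with
  | zero => rfl
  | succ i ih => exact (ih (by omega)).trans (h.1 i (by omega)).reachable

theorem exists_nb {a b : V} (h : 𝒢.Reachable a b) : ∃ x k, NB 𝒢 x k ∧ x 0 = a ∧ x k = b := by
  rw [SimpleGraph.reachable_iff_reflTransGen] at h
  induction h with
  | refl => exact ⟨fun _ => a, 0, ⟨fun i hi => absurd hi (by omega), fun i hi => absurd hi (by omega)⟩,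
      rfl, rfl⟩
  | tail _ hbc ih =>
    rename_i b c _
    obtain ⟨x, k, hx, h0, hk⟩ := ih
    by_cases e : ∃ j, j + 1 = k ∧ c = x j
    · obtain ⟨j, hj, e⟩ := e
      exact ⟨x, j, nb_mono hx (by omega), h0, e.symm⟩
    · obtain ⟨z, hz, h1, h2⟩ := nb_snoc hx (b := c) (hk ▸ hbc) (fun j hj hc => e ⟨j, hj, hc⟩)
      exact ⟨z, k + 1, hz, by rw [h1 0 (by omega), h0], h2⟩

/-- extend a walk so that it ends with a prescribed edge -/
theorem ext_right {x : ℕ → V} {k : ℕ} (h : NB 𝒢 x k) {b : V} (hb : 𝒢.Adj (x k) b) :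
    ∃ z N, NB 𝒢 z (N + 1) ∧ k ≤ N + 1 ∧ (∀ i ≤ k, z i = x i) ∧ s(z N, z (N + 1)) = s(x k, b) := by
  by_cases e : ∃ j, j + 1 = k ∧ b = x j
  · obtain ⟨j, rfl, rfl⟩ := e
    exact ⟨x, j, h, le_rfl, fun _ _ => rfl, Sym2.eq_swap⟩
  · obtain ⟨z, hz, h1, h2⟩ := nb_snoc h hb (fun j hj hc => e ⟨j, hj, hc⟩)
    exact ⟨z, k, hz, by omega, h1, by rw [h1 k le_rfl, h2]⟩

/-- two edges of one component are the first and the last edge of a walk -/
theorem conn {v w a b : V} (hvw : 𝒢.Adj v w) (hab : 𝒢.Adj a b) (hr : 𝒢.Reachable v a) :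
    ∃ z N, NB 𝒢 z (N + 1) ∧ s(z 0, z 1) = s(v, w) ∧ s(z N, z (N + 1)) = s(a, b) := by
  obtain ⟨x, k, hx, h0, hk⟩ := exists_nb hr.symm
  obtain ⟨y, M, hy, hM, h1, h2⟩ := ext_right hx (b := w) (hk ▸ hvw)
  have hy' := nb_rev hy (M + 1) le_rfl
  obtain ⟨z, N, hz, hN, h3, h4⟩ := ext_right hy' (b := b) (by
    simp only [Nat.sub_self]
    rw [h1 0 (by omega), h0]
    exact hab)
  refine ⟨z, N, hz, ?_, ?_⟩
  · rw [h3 0 (by omega), h3 1 (by omega), ← hk, ← h2]
    simp only [Nat.sub_zero, Nat.add_sub_cancel]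
    exact Sym2.eq_swap
  · rw [h4]
    simp only [Nat.sub_self]
    rw [h1 0 (by omega), h0]

end Walks

section Geometry

variable {S : Type} {G : SimpleGraph S} {𝒢 : SimpleGraph (W G)}
  {Des : W G → W G → Hyp G → Prop} {l B c : ℕ}

theorem d_walk (g : Geo id 𝒢 Des l B c) {x : ℕ → W G} {k : ℕ} (h : NB 𝒢 x k) {i j : ℕ}
    (hij : i ≤ j) (hj : j ≤ k) : d (x i) (x j) ≤ l * (j - i) := by
  induction j, hij using Nat.le_induction with
  | base => simp
  | succ j hij ih =>
    have h1 := ih (by omega)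
    have h2 : d (x j) (x (j + 1)) ≤ l := g.step _ _ (h.1 j (by omega))
    have h3 := d_triangle (x i) (x j) (x (j + 1))
    rw [show j + 1 - i = j - i + 1 by omega, mul_add]
    omega

theorem d_walk' (g : Geo id 𝒢 Des l B c) {x : ℕ → W G} {k : ℕ} (h : NB 𝒢 x k) {i j : ℕ}
    (hi : i ≤ k) (hj : j ≤ k) : d (x i) (x j) ≤ l * k := by
  rcases le_total i j with e | e
  · exact (d_walk g h e hj).trans (Nat.mul_le_mul_left _ (by omega))
  · rw [d_comm]
    exact (d_walk g h e hi).trans (Nat.mul_le_mul_left _ (by omega))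

theorem rate_walk (g : Geo id 𝒢 Des l B c) {x : ℕ → W G} {k : ℕ} (h : NB 𝒢 x k) {i j : ℕ}
    (hij : i ≤ j) (hj : j ≤ k) : 128 * (j - i) ≤ d (x i) (x j) := by
  have := g.rate _ _ (nb_shift h i (j - i) (by omega))
  simpa [show i + (j - i) = j by omega] using this

theorem inj_walk (g : Geo id 𝒢 Des l B c) {x : ℕ → W G} {k : ℕ} (h : NB 𝒢 x k) {i j : ℕ}
    (hi : i ≤ k) (hj : j ≤ k) (e : x i = x j) : i = j := by
  rcases le_total i j with e' | e'
  · have := rate_walk g h e' hj
    rw [e, d_self] at this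
    omega
  · have := rate_walk g h e' hi
    rw [e, d_self] at this
    omega

theorem des_sym2 (g : Geo id 𝒢 Des l B c) {v w v' w' : W G} {h : Hyp G} (e : s(v, w) = s(v', w'))
    (hd : Des v w h) : Des v' w' h := by
  rcases Sym2.eq_iff.1 e with ⟨rfl, rfl⟩ | ⟨rfl, rfl⟩
  · exact hd
  · exact g.symm _ _ _ hd

theorem sep_sym2 {v w v' w' : W G} (e : s(v, w) = s(v', w')) : sep v w = sep v' w' := by
  rcases Sym2.eq_iff.1 e with ⟨rfl, rfl⟩ | ⟨rfl, rfl⟩
  · rfl
  · exact sep_comm _ _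

theorem not_mem_right (g : Geo id 𝒢 Des l B c) {x : ℕ → W G} {k : ℕ} (hx : NB 𝒢 x k) {i j : ℕ}
    {h : Hyp G} (hd : Des (x i) (x (i + 1)) h) (hij : i < j) (hj : j ≤ k) :
    h ∉ sep (x (i + 1)) (x j) := by
  have := g.clean (fun t => x (i + t)) (j - i - 1) h (nb_shift hx i _ (by omega)) hd
  simpa [show i + (j - i - 1 + 1) = j by omega] using this

theorem not_mem_left (g : Geo id 𝒢 Des l B c) {x : ℕ → W G} {k : ℕ} (hx : NB 𝒢 x k) {i j : ℕ}
    {h : Hyp G} (hd : Des (x i) (x (i + 1)) h) (hi : i < k) (hj : j ≤ i) :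
    h ∉ sep (x i) (x j) := by
  have := not_mem_right g (nb_rev hx (i + 1) (by omega)) (i := 0) (j := i + 1 - j) (h := h)
    (by simpa using g.symm _ _ _ hd) (by omega) (by omega)
  simpa [show i + 1 - (i + 1 - j) = j by omega] using this

/-- the clean hyperplane of an edge separates the start from the later vertices only -/
theorem mem_sep_iff (g : Geo id 𝒢 Des l B c) {x : ℕ → W G} {k : ℕ} (hx : NB 𝒢 x k) {i j : ℕ}
    {h : Hyp G} (hd : Des (x i) (x (i + 1)) h) (hi : i < k) (hj : j ≤ k) :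
    h ∈ sep (x 0) (x j) ↔ i < j := by
  have a1 := not_mem_left g hx hd hi (Nat.zero_le i)
  rw [sep_comm] at a1
  constructor
  · intro hm
    by_contra hn
    have a2 := not_mem_left g hx hd hi (not_lt.1 hn)
    rw [mem_sep_trans (x 0) (x i)] at hm
    tauto
  · intro hij
    have a2 := not_mem_right g hx hd hij hj
    have a3 : h ∈ sep (x i) (x (i + 1)) := (g.adj _ _ _ hd).2
    rw [mem_sep_trans (x 0) (x i), mem_sep_trans (x i) (x (i + 1)) (x j)]
    tauto

theorem idx_eq (g : Geo id 𝒢 Des l B c) {x : ℕ → W G} {k : ℕ} (hx : NB 𝒢 x k) {i j : ℕ}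
    {h : Hyp G} (hd : Des (x i) (x (i + 1)) h) (hd' : Des (x j) (x (j + 1)) h) (hi : i < k)
    (hj : j < k) : i = j := by
  have a1 := mem_sep_iff g hx hd hi (j := j + 1) hj
  have a2 := mem_sep_iff g hx hd' hj (j := j + 1) hj
  have a3 := mem_sep_iff g hx hd hi (j := i + 1) hi
  have a4 := mem_sep_iff g hx hd' hj (j := i + 1) hi
  have := a1.1 (a2.2 (by omega))
  have := a4.1 (a3.2 (by omega))
  omega

theorem not_cross (g : Geo id 𝒢 Des l B c) {x : ℕ → W G} {k : ℕ} (hx : NB 𝒢 x k) {i j : ℕ}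
    {h h' : Hyp G} (hd : Des (x i) (x (i + 1)) h) (hd' : Des (x j) (x (j + 1)) h')
    (hij : i + c ≤ j) (hj : j < k) : ¬ Cross h h' := by
  refine g.nest (fun t => x (i + t)) (j - i) h h' (nb_shift hx i _ (by omega)) (by omega) hd ?_
  simpa [show i + (j - i) = j by omega, show i + (j - i + 1) = j + 1 by omega] using hd'

theorem lt_of (g : Geo id 𝒢 Des l B c) {x : ℕ → W G} {k : ℕ} (hx : NB 𝒢 x k) {i j : ℕ}
    {h h' : Hyp G} (hd : Des (x i) (x (i + 1)) h) (hd' : Des (x j) (x (j + 1)) h')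
    (hij : i + c + 1 ≤ j) (hj : j < k) : Lt (x 0) h h' := by
  have m1 := (mem_sep_iff g hx hd (by omega) le_rfl).2 (by omega)
  have m2 := (mem_sep_iff g hx hd' hj le_rfl).2 hj
  have hne : h ≠ h' := by
    rintro rfl
    have := idx_eq g hx hd hd' (by omega) hj
    omega
  rcases trichotomy m1 m2 hne with e | e | e
  · exact e
  · have a1 := (mem_sep_iff g hx hd (by omega) (j := i + 1) (by omega)).2 (by omega)
    have a2 := (mem_sep_iff g hx hd' hj (j := i + 1) (by omega)).1 (e.mem a1)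
    omega
  · exact absurd e (not_cross g hx hd hd' (by omega) hj)

/-- a clean hyperplane separates the ends of only one edge of its component -/
theorem uniq (g : Geo id 𝒢 Des l B c) {v w a b : W G} {h : Hyp G} (hd : Des v w h)
    (hab : 𝒢.Adj a b) (hr : 𝒢.Reachable v a) (hm : h ∈ sep a b) : s(v, w) = s(a, b) := by
  obtain ⟨z, N, hz, h1, h2⟩ := conn (g.adj _ _ _ hd).1 hab hr
  have hd' := des_sym2 g h1.symm hd
  rcases Nat.eq_zero_or_pos N with rfl | hN
  · rw [← h1, ← h2]
  · have a1 := (mem_sep_iff g hz hd' (by omega) (j := N) (by omega)).2 hN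
    have a2 := (mem_sep_iff g hz hd' (by omega) (j := N + 1) le_rfl).2 (by omega)
    rw [← sep_sym2 h2, mem_sep_trans (z N) (z 0), sep_comm (z N) (z 0)] at hm
    tauto

/-- clean hyperplanes of distant edges of one component are disjoint -/
theorem far (g : Geo id 𝒢 Des l B c) {v w a b : W G} {h h' : Hyp G} (hd : Des v w h)
    (hd' : Des a b h') (hr : 𝒢.Reachable v a) (hf : l * (c + 1) < d v a) :
    h ≠ h' ∧ ¬ Cross h h' := by
  obtain ⟨z, N, hz, h1, h2⟩ := conn (g.adj _ _ _ hd).1 (g.adj _ _ _ hd').1 hr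
  have e1 := des_sym2 g h1.symm hd
  have e2 := des_sym2 g h2.symm hd'
  have hN : c < N := by
    by_contra hn
    have : d v a ≤ l * (N + 1) := by
      rcases Sym2.eq_iff.1 h1 with ⟨r, -⟩ | ⟨-, r⟩ <;>
        rcases Sym2.eq_iff.1 h2 with ⟨r', -⟩ | ⟨-, r'⟩ <;>
        rw [← r, ← r'] <;> exact d_walk' g hz (by omega) (by omega)
    have h3 : l * (N + 1) ≤ l * (c + 1) := Nat.mul_le_mul_left _ (by omega)
    omega
  refine ⟨?_, not_cross g hz (i := 0) e1 e2 (by omega) (by omega)⟩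
  rintro rfl
  have := idx_eq g hz (i := 0) e1 e2 (by omega) (by omega)
  omega

/-- transversality -/
theorem trans_of (g : Geo id 𝒢 Des l B c) {B1 : ℕ} {T : Set (W G)} {v w : W G} {h : Hyp G}
    (hd : Des v w h) (hT : ∀ y ∈ T, ∃ a, 𝒢.Reachable v a ∧ d y a ≤ B1) :
    Trans (2 * B1 + l * (2 * B1 + 2 * (l * (c + 1)) + 1)) T h := by
  classical
  intro y hy y' hy' c1 c2
  obtain ⟨a, ha, da⟩ := hT y hy
  obtain ⟨a', ha', da'⟩ := hT y' hy'
  obtain ⟨x, k, hx, h0, hk⟩ := exists_nb (ha.symm.trans ha')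
  have hex : ∀ i : ℕ, ∃ H : Hyp G, i < k → Des (x i) (x (i + 1)) H := by
    intro i
    by_cases e : i < k
    · obtain ⟨H, hH⟩ := g.ex _ _ (hx.1 i e)
      exact ⟨H, fun _ => hH⟩
    · exact ⟨h, fun e' => absurd e' e⟩
  choose H hH using hex
  set R := l * (c + 1) with hR
  have bad : ((Finset.range k).filter (fun i => H i ∉ sep y y')).card ≤ 2 * B1 := by
    have : ((Finset.range k).filter (fun i => H i ∉ sep y y')).card ≤ (sep y a ∪ sep y' a').card := by
      refine Finset.card_le_card_of_injOn H (fun i hi => ?_) (fun i hi j hj e => ?_)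
      · have hi' := Finset.mem_filter.1 (Finset.mem_coe.1 hi)
        have hik := Finset.mem_range.1 hi'.1
        have m := (mem_sep_iff g hx (hH i hik) hik le_rfl).2 hik
        rw [h0, hk, mem_sep_trans a y, mem_sep_trans y y' a', sep_comm a y] at m
        rw [Finset.mem_coe, Finset.mem_union]
        have := hi'.2
        tauto
      · have hi' := Finset.mem_range.1 (Finset.mem_filter.1 (Finset.mem_coe.1 hi)).1
        have hj' := Finset.mem_range.1 (Finset.mem_filter.1 (Finset.mem_coe.1 hj)).1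
        exact idx_eq g hx (hH i hi') (e ▸ hH j hj') hi' hj'
    have h2 := Finset.card_union_le (sep y a) (sep y' a')
    unfold d at da da'
    omega
  have good : ((Finset.range k).filter (fun i => ¬ H i ∉ sep y y')).card ≤ 2 * R + 1 := by
    set N := (Finset.range k).filter (fun i => ¬ H i ∉ sep y y') with hN
    have near : ∀ i ∈ N, i < k ∧ d v (x i) ≤ R := by
      intro i hi
      have hi' := Finset.mem_filter.1 hi
      have hik := Finset.mem_range.1 hi'.1
      refine ⟨hik, ?_⟩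
      by_contra hn
      have := far g hd (hH i hik) (ha.trans (h0 ▸ nb_reach hx hik.le)) (not_le.1 hn)
      exact this.2 (cross_of_sep_car c1 c2 (not_not.1 hi'.2) this.1)
    rcases N.eq_empty_or_nonempty with e | e
    · rw [e]; simp
    · have : N ⊆ Finset.Icc (N.min' e) (N.min' e + 2 * R) := by
        intro i hi
        have a1 := N.min'_le i hi
        have a2 := near i hi
        have a3 := near _ (N.min'_mem e)
        have a4 := rate_walk g hx a1 a2.1.le
        have a5 := d_triangle (x (N.min' e)) v (x i)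
        rw [d_comm _ v] at a5
        rw [Finset.mem_Icc]
        omega
      have h2 := Finset.card_le_card this
      rw [Nat.card_Icc] at h2
      omega
  have tot := Finset.card_filter_add_card_filter_not (s := Finset.range k)
    (fun i => H i ∉ sep y y')
  rw [Finset.card_range] at tot
  have d1 := d_walk' g hx (Nat.zero_le k) le_rfl
  rw [h0, hk] at d1
  have d2 : l * k ≤ l * (2 * B1 + 2 * R + 1) := Nat.mul_le_mul_left _ (by omega)
  have d3 := d_triangle y a y'
  have d4 := d_triangle a a' y'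
  rw [d_comm a' y'] at d4
  omega

theorem gp_le_add (u a b a' b' : W G) : gp u a b ≤ gp u a' b' + d a a' + d b b' := by
  unfold gp d
  have : sep u a ∩ sep u b ⊆ (sep u a' ∩ sep u b') ∪ sep a a' ∪ sep b b' := by
    intro k hk
    rw [Finset.mem_inter] at hk
    simp only [Finset.mem_union, Finset.mem_inter]
    rw [mem_sep_trans u a a', mem_sep_trans u b b']
    tauto
  have h1 := Finset.card_le_card this
  have h2 := Finset.card_union_le ((sep u a' ∩ sep u b') ∪ sep a a') (sep b b')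
  have h3 := Finset.card_union_le (sep u a' ∩ sep u b') (sep a a')
  omega

/-- components that fellow travel for a long time coincide -/
theorem reach_of_close [Finite S] (g : Geo id 𝒢 Des l B c) {n0 B1 D m0 mmax : ℕ}
    (hD : 2 * max n0 (Nat.card S) + 2 * max B l + B + 4 * B1 ≤ D)
    (hm : (m0 * l + 2 * D) + 2 * D + l * (m0 * l + 2 * D) ≤ mmax) (hP : Pieces 𝒢 D m0 mmax)
    {a b a' b' : W G} (hab : 𝒢.Reachable a b) (hab' : 𝒢.Reachable a' b')
    (hG : ∀ u ∈ I a' b', ∀ v ∈ I a' b', n0 ≤ d u v → Clq G (Zs u v))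
    (h1 : d a a' ≤ 2 * B1) (h2 : d b b' ≤ 2 * B1) (hf : l * (m0 * l + 2 * D) < d a b) :
    𝒢.Reachable a a' := by
  obtain ⟨x, k, hx, x0, xk⟩ := exists_nb hab
  obtain ⟨y, k', hy, y0, yk⟩ := exists_nb hab'
  set m := m0 * l + 2 * D with hmdef
  have d1 := d_walk' g hx (Nat.zero_le k) le_rfl
  rw [x0, xk] at d1
  have hmk : m < k := lt_of_mul_lt_mul_left (hf.trans_le d1) (Nat.zero_le l)
  have hl : 0 < l := by
    rcases Nat.eq_zero_or_pos l with e | e
    · rw [e] at d1 hf; omega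
    · exact e
  have g1 : gp (x m) a b ≤ B := by
    have := g.grom x k hx m hmk.le
    simpa [x0, xk] using this
  have g2 := gp_le_add (x m) a' b' a b
  rw [d_comm a' a, d_comm b' b] at g2
  obtain ⟨j, hj, dj⟩ := near_chain (B := max B l) hG y0 yk (fun i hi => by
      have := g.grom y k' hy i hi
      simp only [id, y0, yk] at this
      exact this.trans (le_max_left _ _))
    (fun i hi => (g.step _ _ (hy.1 i hi)).trans (le_max_right _ _)) (med_mem_I₁ a' b' (x m))
  have g3 := d_med₃ a' b' (x m)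
  have g4 := d_triangle (x m) (med a' b' (x m)) (y j)
  have dD : d (x m) (y j) ≤ D := by omega
  have d0 : d (x 0) (y 0) ≤ D := by rw [x0, y0]; omega
  have r1 := rate_walk g hx (Nat.zero_le m) hmk.le
  have r2 := rate_walk g hy (Nat.zero_le j) hj
  have w1 := d_walk g hx (Nat.zero_le m) hmk.le
  have w2 := d_walk g hy (Nat.zero_le j) hj
  rw [Nat.sub_zero] at r1 r2 w1 w2
  have t1 := d_triangle (x 0) (y 0) (x m)
  have t2 := d_triangle (y 0) (y j) (x m)
  have t3 := d_triangle (y 0) (x 0) (y j)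
  have t4 := d_triangle (x 0) (x m) (y j)
  rw [d_comm (y j) (x m)] at t2
  rw [d_comm (y 0) (x 0)] at t3
  have m0m : m0 ≤ m := by
    have : m0 * 1 ≤ m0 * l := Nat.mul_le_mul_left _ hl
    omega
  rcases le_total m j with e | e
  · have := hP x y m j (nb_mono hx hmk.le) (nb_mono hy hj) m0m e (by omega) d0 dD
    rwa [x0, y0] at this
  · have hj0 : m0 ≤ j := by
      have : l * m0 ≤ l * j := by rw [mul_comm l m0]; omega
      exact Nat.le_of_mul_le_mul_left this hl
    have := hP y x j m (nb_mono hy hj) (nb_mono hx hmk.le) hj0 e (by omega)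
      (by rw [d_comm]; exact d0) (by rw [d_comm]; exact dD)
    rw [x0, y0] at this
    exact this.symm

end Geometry

end FW

end Pool.Agent.MP_c34dea_an.H66
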