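import Pool.Agent.MP_c34dea_an.H66.Spec

set_option autoImplicit false

open scoped symmDiff Pointwise

namespace Pool.Agent.MP_c34dea_an.H66

namespace GG

section Walks

variable {V : Type} {𝒢 : SimpleGraph V}

theorem nb_mono {x : ℕ → V} {k k' : ℕ} (h : NB 𝒢 x k) (hk : k' ≤ k) : NB 𝒢 x k' :=
  ⟨fun i hi => h.1 i (by omega), fun i hi => h.2 i (by omega)⟩

theorem nb_shift {x : ℕ → V} {k : ℕ} (h : NB 𝒢 x k) (a n : ℕ) (hk : a + n ≤ k) :
    NB 𝒢 (fun i => x (a + i)) n :=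
  ⟨fun i hi => h.1 (a + i) (by omega), fun i hi => h.2 (a + i) (by omega)⟩

theorem nb_rev {x : ℕ → V} {k : ℕ} (h : NB 𝒢 x k) (b n : ℕ) (hb : b ≤ k) (hn : n ≤ b) :
    NB 𝒢 (fun i => x (b - i)) n := by
  refine ⟨fun i hi => ?_, fun i hi => ?_⟩
  · have := (h.1 (b - (i + 1)) (by omega)).symm
    rwa [show b - (i + 1) + 1 = b - i by omega] at this
  · have := (h.2 (b - (i + 2)) (by omega)).symm
    rwa [show b - (i + 2) + 2 = b - i by omega] at this

theorem nb_one {v w : V} (h : 𝒢.Adj v w) : NB 𝒢 (fun i => if i = 0 then v else w) 1 := by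
  refine ⟨fun i hi => ?_, fun i hi => by omega⟩
  obtain rfl : i = 0 := by omega
  simpa using h

end Walks

variable {S : Type} {G : SimpleGraph S}

theorem gp_self (x a : W G) : gp x x a = 0 := by simp [gp]

theorem gp_self' (x a : W G) : gp x a x = 0 := by simp [gp]

theorem cross_of_between {p q : W G} {h j a b : Hyp G} (hh : h ∈ sep p q) (hj : j ∈ sep p q)
    (haj : Lt p a j) (hjb : Lt p j b) (ca : Cross h a) (cb : Cross h b) : Cross h j := by
  have hne : h ≠ j := by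
    rintro rfl
    exact hjb.not_cross cb
  rcases trichotomy hh hj hne with x | x | x
  · exact absurd cb (x.trans hjb).not_cross
  · exact absurd ca.symm (haj.trans x).not_cross
  · exact x

/-- two nested hyperplanes do not cross many hyperplanes in common -/
theorem nosq [Finite S] {Y : Set (W G)} {n0 : ℕ} (hY : Cvx Y) (h4 : I4c Y n0) {p q a : W G}
    (hp : p ∈ Y) (hq : q ∈ Y) {h k : Hyp G} (hk : k ∈ sep p q) (hka : k ∈ sep p a)
    (hlt : Lt p h k) {J : Finset (Hyp G)} (hJ : J ⊆ sep p q)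
    (hc : ∀ j ∈ J, Cross h j ∧ j ∉ sep p a) : J.card ≤ Nat.card S * (n0 + 1) := by
  by_contra hcon
  obtain ⟨c, hc1, hc2⟩ := exists_chain hJ (n0 + 1) (not_le.1 hcon)
  obtain ⟨k', hk', hlt', hle, hb⟩ := exists_cover hk hlt
  have hk'a : k' ∈ sep p a := by
    rcases hle with x | x
    · exact x ▸ hka
    · exact x.mem hka
  have hcr : ∀ j ∈ J, Cross k' j := by
    intro j hj
    have hne : k' ≠ j := by
      rintro rfl
      exact (hc _ hj).2 hk'a
    rcases trichotomy hk' (hJ hj) hne with x | x | x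
    · exact absurd (hc j hj).1 (hlt'.trans x).not_cross
    · exact absurd (x.mem hk'a) (hc j hj).2
    · exact x
  have m0 := (hc1 0 (by omega)).1
  have m1 := (hc1 (n0 + 1) le_rfl).1
  obtain ⟨y, y', hy', hy, -, -, hs⟩ := exists_bridge (hJ m1) (hc2 0 (n0 + 1) (by omega) le_rfl)
  have hcard := card_btw_ge_of_chain (fun i hi => hJ (hc1 i hi).1) hc2
    (show 0 < n0 + 1 by omega) le_rfl
  have hd : n0 ≤ d y y' := by
    unfold d
    rw [hs]
    omega
  have hq4 := h4 y (hY p hp q hq (mem_I_trans_left hy' hy)) y' (hY p hp q hq hy') hd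
  have hZ : ∀ e : Hyp G, e ∈ sep p q → (∀ j ∈ J, Cross e j) → e.1 ∈ Zs y y' := by
    intro e he hcj j hj
    rw [hs, mem_btw] at hj
    exact mem_st_of_adj
      (cross_of_between he hj.1 hj.2.1 hj.2.2 (hcj _ m0) (hcj _ m1)).adj.symm
  exact not_mem_st_of_cover hk' hlt' hb
    (hq4 _ (hZ h (hlt.mem hk) fun j hj => (hc j hj).1) _ (hZ k' hk' hcr))

section Early

variable [Finite S] {Y : Set (W G)} {n0 : ℕ} {V : Type} {ι : V → W G} {𝒢 : SimpleGraph V}
  {β0 L δ : ℕ}

/-- the hypotheses of the broken geodesic lemma -/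
structure Brk (Y : Set (W G)) (n0 : ℕ) (ι : V → W G) (𝒢 : SimpleGraph V) (β0 L δ : ℕ) :
    Prop where
  cvx : Cvx Y
  i4c : I4c Y n0
  mem : ∀ v, ι v ∈ Y
  hδ : δ = max n0 (Nat.card S)
  hβ : δ + 32 ≤ β0
  hL : 8 * β0 ≤ L
  far : ∀ v v', 𝒢.Adj v v' → L ≤ d (ι v) (ι v')
  junc : ∀ v a b, 𝒢.Adj v a → 𝒢.Adj v b → a ≠ b → gp (ι v) (ι a) (ι b) ≤ β0

theorem Brk.last (H : Brk Y n0 ι 𝒢 β0 L δ) {x : ℕ → V} (k : ℕ) (h : NB 𝒢 x (k + 1)) :
    gp (ι (x k)) (ι (x 0)) (ι (x (k + 1))) ≤ β0 + δ := by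
  induction k with
  | zero => rw [gp_self]; omega
  | succ k ih =>
    have h1 := ih (nb_mono h (by omega))
    have h2 := gp_add_gp (ι (x k)) (ι (x (k + 1))) (ι (x 0))
    have h3 := H.far _ _ (h.1 k (by omega))
    have h4 := four_point H.cvx H.i4c (a := ι (x k)) (c := ι (x (k + 1 + 1)))
      (H.mem (x (k + 1))) (H.mem (x 0))
    have h5 := H.junc _ _ _ (h.1 k (by omega)).symm (h.1 (k + 1) (by omega))
      (h.2 k (by omega)).symm
    rw [gp_comm] at h1
    rw [← H.hδ] at h4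
    have := H.hβ
    have := H.hL
    omega

theorem Brk.first (H : Brk Y n0 ι 𝒢 β0 L δ) {x : ℕ → V} (k : ℕ) (h : NB 𝒢 x (k + 1)) :
    gp (ι (x 1)) (ι (x 0)) (ι (x (k + 1))) ≤ β0 + δ := by
  have := H.last k (nb_rev h (k + 1) (k + 1) le_rfl le_rfl)
  simp only [Nat.sub_zero, Nat.sub_self, Nat.add_sub_cancel_left] at this
  rwa [gp_comm]

theorem Brk.rate (H : Brk Y n0 ι 𝒢 β0 L δ) {x : ℕ → V} (k : ℕ) (h : NB 𝒢 x (k + 1)) :
    L + 128 * k ≤ d (ι (x 0)) (ι (x (k + 1))) := by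
  induction k with
  | zero => exact H.far _ _ (h.1 0 (by omega))
  | succ k ih =>
    have h1 := ih (nb_mono h (by omega))
    have h2 := H.last (k + 1) h
    have h3 := d_add_eq (ι (x 0)) (ι (x (k + 1))) (ι (x (k + 1 + 1)))
    have h4 := H.far _ _ (h.1 (k + 1) (by omega))
    have := H.hβ
    have := H.hL
    omega

theorem Brk.grom (H : Brk Y n0 ι 𝒢 β0 L δ) {x : ℕ → V} {k : ℕ} (h : NB 𝒢 x k) (i : ℕ)
    (hi : i ≤ k) : gp (ι (x i)) (ι (x 0)) (ι (x k)) ≤ β0 + 2 * δ := by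
  rcases hi.eq_or_lt with rfl | hi
  · rw [gp_self']; omega
  have h1 := H.last i (nb_mono h hi)
  have h2 := H.first (k - i - 1) (nb_shift h i (k - i - 1 + 1) (by omega))
  simp only [Nat.add_zero] at h2
  rw [show i + (k - i - 1 + 1) = k by omega] at h2
  have h3 := gp_add_gp (ι (x i)) (ι (x (i + 1))) (ι (x k))
  have h4 := H.far _ _ (h.1 i hi)
  have h5 := four_point H.cvx H.i4c (a := ι (x 0)) (c := ι (x (i + 1))) (H.mem (x i)) (H.mem (x k))
  rw [← H.hδ, gp_comm (ι (x i)) (ι (x k))] at h5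
  have := H.hβ
  have := H.hL
  omega

end Early

open Classical in
theorem desE_symm {V : Type} {ι : V → W G} {𝒢 : SimpleGraph V} {m : ℕ} {v v' : V} {h : Hyp G}
    (H : DesE ι 𝒢 m v v' h) : DesE ι 𝒢 m v' v h := by
  obtain ⟨h1, h2, h3, h4⟩ := H
  refine ⟨h1.symm, mem_sep_comm.1 h2, h4.trans (Finset.card_le_card ?_),
    h3.trans (Finset.card_le_card ?_)⟩
  · intro k hk
    rw [Finset.mem_filter] at hk ⊢
    exact ⟨mem_sep_comm.1 hk.1, hk.2.rev hk.1⟩
  · intro k hk
    rw [Finset.mem_filter] at hk ⊢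
    exact ⟨mem_sep_comm.1 hk.1, hk.2.rev h2⟩

open Classical in
/-- a deep hyperplane is followed by one that does not separate the end from a third point -/
theorem desE_up {V : Type} {ι : V → W G} {𝒢 : SimpleGraph V} {m : ℕ} {v v' : V} {h : Hyp G}
    (H : DesE ι 𝒢 m v v' h) {q : W G} (hg : gp (ι v') (ι v) q < m) :
    ∃ k ∈ sep (ι v) (ι v'), Lt (ι v) h k ∧ k ∉ sep (ι v') q := by
  by_contra hcon
  have : (sep (ι v) (ι v')).filter (fun k => Lt (ι v) h k) ⊆ sep (ι v') (ι v) ∩ sep (ι v') q := by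
    intro k hk
    rw [Finset.mem_filter] at hk
    refine Finset.mem_inter.2 ⟨mem_sep_comm.1 hk.1, ?_⟩
    by_contra hn
    exact hcon ⟨k, hk.1, hk.2, hn⟩
  have h1 := Finset.card_le_card this
  have h2 := H.2.2.2
  unfold gp at hg
  omega

theorem desE_clean {V : Type} {ι : V → W G} {𝒢 : SimpleGraph V} {m : ℕ} {v v' : V} {h : Hyp G}
    (H : DesE ι 𝒢 m v v' h) {q : W G} (hg : gp (ι v') (ι v) q < m) : h ∉ sep (ι v') q := by
  obtain ⟨k, hk, hlt, hn⟩ := desE_up H hg
  exact fun hh => hn ((hlt.rev hk).mem hh)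

open Classical in
theorem desE_ex [Finite S] {V : Type} {ι : V → W G} {𝒢 : SimpleGraph V} {m : ℕ} {v v' : V}
    (ha : 𝒢.Adj v v') (hd : Nat.card S * (2 * m) < d (ι v) (ι v')) : ∃ h, DesE ι 𝒢 m v v' h := by
  obtain ⟨c, hc1, hc2⟩ := exists_chain (Finset.Subset.refl (sep (ι v) (ι v'))) (2 * m) hd
  have hinj : ∀ i j, i ≤ 2 * m → j ≤ 2 * m → c i = c j → i = j := by
    intro i j hi hj e
    rcases lt_trichotomy i j with x | x | x
    · exact absurd e (hc2 i j x hj).ne
    · exact x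
    · exact absurd e.symm (hc2 j i x hi).ne
  refine ⟨c m, ha, (hc1 m (by omega)).1, ?_, ?_⟩
  · refine le_trans (Finset.card_range m).ge
      (Finset.card_le_card_of_injOn c (fun i hi => ?_) fun i hi j hj e => ?_)
    · have hi : i < m := by simpa using hi
      exact Finset.mem_coe.2 (Finset.mem_filter.2 ⟨(hc1 i (by omega)).1, hc2 i m hi (by omega)⟩)
    · have hi : i < m := by simpa using hi
      have hj : j < m := by simpa using hj
      exact hinj i j (by omega) (by omega) e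
  · refine le_trans (Finset.card_range m).ge
      (Finset.card_le_card_of_injOn (fun i => c (m + 1 + i)) (fun i hi => ?_)
        fun i hi j hj e => ?_)
    · have hi : i < m := by simpa using hi
      exact Finset.mem_coe.2 (Finset.mem_filter.2
        ⟨(hc1 _ (by omega)).1, hc2 m _ (by omega) (by omega)⟩)
    · have hi : i < m := by simpa using hi
      have hj : j < m := by simpa using hj
      have := hinj _ _ (by omega) (by omega) e
      omega

open Classical in
/-- four points in convex position: deep hyperplanes of the two end edges do not cross -/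
theorem nest4 [Finite S] {Y : Set (W G)} {n0 : ℕ} (hY : Cvx Y) (h4 : I4c Y n0) {p a b q : W G}
    (hp : p ∈ Y) (hq : q ∈ Y) {h h' k k' : Hyp G} (hk : k ∈ sep p a) (hkq : k ∉ sep a q)
    (hlt : Lt p h k) (hk' : k' ∈ sep q b) (hkp : k' ∉ sep b p) (hlt' : Lt q h' k')
    (hd : gp a p b + gp b q a + 2 * (Nat.card S * (n0 + 1)) < d a b) : ¬ Cross h h' := by
  intro hc
  have k1 : k ∈ sep p q := (mem_sep_trans p a q).2 (Or.inl ⟨hk, hkq⟩)
  have k2 : k' ∈ sep q p := (mem_sep_trans q b p).2 (Or.inl ⟨hk', hkp⟩)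
  have m1 : h ∈ sep p q := hlt.mem k1
  have m2 : h' ∈ sep q p := hlt'.mem k2
  let J := (sep a b).filter (fun j => j ∉ sep p a ∧ j ∉ sep q b)
  have hJ : ∀ j ∈ J, j ∈ sep p q ∧ j ∉ sep p a ∧ j ∉ sep q b := by
    intro j hj
    obtain ⟨x1, x2, x3⟩ := Finset.mem_filter.1 hj
    refine ⟨?_, x2, x3⟩
    have y1 : j ∈ sep p b := (mem_sep_trans p a b).2 (Or.inr ⟨x1, x2⟩)
    exact (mem_sep_trans p b q).2 (Or.inl ⟨y1, fun y => x3 (mem_sep_comm.1 y)⟩)
  have c1 := nosq hY h4 hp hq k1 hk hlt (J := J.filter (fun j => Cross h j))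
    (fun j hj => (hJ j (Finset.mem_filter.1 hj).1).1)
    (fun j hj => ⟨(Finset.mem_filter.1 hj).2, (hJ j (Finset.mem_filter.1 hj).1).2.1⟩)
  have c2 := nosq hY h4 hq hp k2 hk' hlt' (J := J.filter (fun j => Cross h' j))
    (fun j hj => mem_sep_comm.1 (hJ j (Finset.mem_filter.1 hj).1).1)
    (fun j hj => ⟨(Finset.mem_filter.1 hj).2, (hJ j (Finset.mem_filter.1 hj).1).2.2⟩)
  have hsub : sep a b ⊆ ((sep a p ∩ sep a b) ∪ (sep b q ∩ sep b a)) ∪
      (J.filter (fun j => Cross h j) ∪ J.filter (fun j => Cross h' j)) := by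
    intro j hj
    simp only [Finset.mem_union, Finset.mem_inter]
    by_cases x1 : j ∈ sep p a
    · exact Or.inl (Or.inl ⟨mem_sep_comm.1 x1, hj⟩)
    by_cases x2 : j ∈ sep q b
    · exact Or.inl (Or.inr ⟨mem_sep_comm.1 x2, mem_sep_comm.1 hj⟩)
    have hjJ : j ∈ J := Finset.mem_filter.2 ⟨hj, x1, x2⟩
    have hjs := (hJ j hjJ).1
    right
    have n1 : h ≠ j := by
      rintro rfl
      exact x1 (hlt.mem hk)
    have n2 : h' ≠ j := by
      rintro rfl
      exact x2 (hlt'.mem hk')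
    rcases trichotomy m1 hjs n1 with y | y | y
    · rcases trichotomy m2 (mem_sep_comm.1 hjs) n2 with z | z | z
      · exact absurd hc (y.trans (z.rev (mem_sep_comm.1 hjs))).not_cross
      · exact absurd (z.mem (hlt'.mem hk')) x2
      · exact Or.inr (Finset.mem_filter.2 ⟨hjJ, z⟩)
    · exact absurd (y.mem (hlt.mem hk)) x1
    · exact Or.inl (Finset.mem_filter.2 ⟨hjJ, y⟩)
  have e1 := Finset.card_le_card hsub
  have e2 := Finset.card_union_le ((sep a p ∩ sep a b) ∪ (sep b q ∩ sep b a))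
    (J.filter (fun j => Cross h j) ∪ J.filter (fun j => Cross h' j))
  have e3 := Finset.card_union_le (sep a p ∩ sep a b) (sep b q ∩ sep b a)
  have e4 := Finset.card_union_le (J.filter (fun j => Cross h j)) (J.filter (fun j => Cross h' j))
  unfold gp d at hd
  omega

end GG

open GG

theorem early : EarlyStmt := by
  intro S _ G Y n0 V ι 𝒢 β0 l hY h4 hmem hβ hfar hj
  have H : Brk Y n0 ι 𝒢 β0 (8 * (Nat.card S + 1) * β0) (max n0 (Nat.card S)) :=
    ⟨hY, h4, hmem, rfl, hβ, by nlinarith [Nat.zero_le (Nat.card S * β0)],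
      fun v v' h => (hfar v v' h).1, hj⟩
  have hn0 : n0 ≤ max n0 (Nat.card S) := le_max_left _ _
  generalize max n0 (Nat.card S) = δ at *
  refine ⟨fun v v' h => (hfar v v' h).2, fun x k h => ?_, fun x k h i hi => H.grom h i hi,
    fun v v' h => desE_ex h ?_, fun v v' h H => desE_symm H, fun v v' h H => ⟨H.1, H.2.1⟩,
    fun x k h hx hD => desE_clean hD (Nat.lt_succ_of_le (H.first k hx)),
    fun x N h h' hx hN hD hD' => ?_⟩
  · cases k with
    | zero => simp
    | succ k =>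
      have h1 := H.rate k h
      have h2 := H.hL
      omega
  · have h1 := (hfar v v' h).1
    have h2 : Nat.card S * (2 * (β0 + δ + 1)) ≤ Nat.card S * (8 * β0) :=
      Nat.mul_le_mul_left _ (by omega)
    nlinarith
  · obtain ⟨k, hk, hlt, hkq⟩ := desE_up hD (Nat.lt_succ_of_le (H.first N hx))
    have g2 := H.last N hx
    rw [gp_comm] at g2
    obtain ⟨k', hk', hlt', hkp⟩ := desE_up (desE_symm hD') (Nat.lt_succ_of_le g2)
    refine nest4 hY h4 (hmem _) (hmem _) hk hkq hlt hk' hkp hlt' ?_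
    obtain ⟨M, rfl⟩ : ∃ M, N = M + 2 := ⟨N - 2, by omega⟩
    have g3 := H.first (M + 1) (nb_mono hx (by omega))
    have g4 := H.last (M + 1) (nb_shift hx 1 (M + 1 + 1) (by omega))
    have g5 := H.rate M (nb_shift hx 1 (M + 1) (by omega))
    simp only [Nat.add_zero] at g4 g5
    rw [show 1 + (M + 1) = M + 2 by omega, show 1 + (M + 1 + 1) = M + 2 + 1 by omega, gp_comm] at g4
    rw [show 1 + (M + 1) = M + 2 by omega] at g5
    rw [show M + 1 + 1 = M + 2 by omega] at g3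
    have h2 : 2 * (Nat.card S * (n0 + 1)) ≤ Nat.card S * (8 * β0) := by
      rw [← mul_assoc, mul_comm 2, mul_assoc]
      exact Nat.mul_le_mul_left _ (by omega)
    have h3 : 8 * (Nat.card S + 1) * β0 = Nat.card S * (8 * β0) + 8 * β0 := by ring
    omega

open Classical in
theorem desEInv : DesEInvStmt := by
  intro S G V ι 𝒢 m v v' w w' g h ha e e' H
  obtain ⟨-, h2, h3, h4⟩ := H
  refine ⟨ha, ?_, h3.trans ?_, h4.trans ?_⟩
  · rw [e, e']
    exact (smul_mem_sep g _ _).2 h2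
  · refine Finset.card_le_card_of_injOn (fun k => g • k) (fun k hk => ?_)
      (MulAction.injective g).injOn
    have hk := Finset.mem_filter.1 (Finset.mem_coe.1 hk)
    rw [e, e']
    exact Finset.mem_coe.2 (Finset.mem_filter.2 ⟨(smul_mem_sep g _ _).2 hk.1, (lt_smul g).2 hk.2⟩)
  · refine Finset.card_le_card_of_injOn (fun k => g • k) (fun k hk => ?_)
      (MulAction.injective g).injOn
    have hk := Finset.mem_filter.1 (Finset.mem_coe.1 hk)
    rw [e, e']
    exact Finset.mem_coe.2 (Finset.mem_filter.2 ⟨(smul_mem_sep g _ _).2 hk.1, (lt_smul g).2 hk.2⟩)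

end Pool.Agent.MP_c34dea_an.H66
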