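import Pool.Agent.MP_c34dea_an.H66.Basic

set_option autoImplicit false

open scoped symmDiff Pointwise

namespace Pool.Agent.MP_c34dea_an.H66

variable {S : Type} {G : SimpleGraph S}

/-- interval -/
def I (p q : W G) : Set (W G) := {u | sep p u ⊆ sep p q}

/-- convex vertex set -/
def Cvx (Ω : Set (W G)) : Prop := ∀ p ∈ Ω, ∀ q ∈ Ω, I p q ⊆ Ω

/-- hyperplanes meeting a vertex set -/
def WH (Ω : Set (W G)) : Set (Hyp G) := {h | ∃ a ∈ Ω, ∃ b ∈ Ω, h ∈ sep a b}

/-- crossing hyperplanes -/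
def Cross (h k : Hyp G) : Prop := ∃ y, y ∈ car h ∧ y ∈ car k ∧ G.Adj h.1 k.1

/-- `k` lies strictly between `p` and `k'` -/
def Lt (p : W G) (k k' : Hyp G) : Prop := k ≠ k' ∧ ∀ y, k' ∈ sep p y → k ∈ sep p y

open Classical in
/-- hyperplanes of `sep p q` strictly between `k` and `k'` -/
noncomputable def btw (p q : W G) (k k' : Hyp G) : Finset (Hyp G) :=
  (sep p q).filter (fun j => Lt p k j ∧ Lt p j k')

/-- generators commuting with all labels of `sep p q` -/
def Zs (p q : W G) : Set S := {t | ∀ h ∈ sep p q, t ∈ st G h.1}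

/-- a set of pairwise commuting generators -/
def Clq (G : SimpleGraph S) (K : Set S) : Prop := ∀ s ∈ K, ∀ t ∈ K, t ∈ st G s

def I4c (Y : Set (W G)) (n : ℕ) : Prop := ∀ p ∈ Y, ∀ q ∈ Y, n ≤ d p q → Clq G (Zs p q)

def SC (Y : Set (W G)) (n : ℕ) : Prop :=
  ∀ p ∈ Y, ∀ q ∈ Y, n ≤ d p q → ∀ t ∈ Zs p q, p * gen G t ∈ Y

/-- Gromov product of `a` and `b` at `x` -/
noncomputable def gp (x a b : W G) : ℕ := (sep x a ∩ sep x b).card

theorem mem_btw {p q : W G} {k k' j : Hyp G} :
    j ∈ btw p q k k' ↔ j ∈ sep p q ∧ Lt p k j ∧ Lt p j k' := by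
  classical
  unfold btw
  rw [Finset.mem_filter]

theorem left_mem_I (p q : W G) : p ∈ I p q := by simp [I]

theorem right_mem_I (p q : W G) : q ∈ I p q := by simp [I]

theorem mem_I_symm {p q u : W G} (h : u ∈ I p q) : u ∈ I q p := by
  intro k hk
  by_contra hn
  have h1 : k ∉ sep p q := by rwa [sep_comm]
  have h2 : k ∉ sep p u := fun x => h1 (h x)
  have := (mem_sep_trans (h := k) p q u)
  tauto

theorem I_comm (p q : W G) : I p q = I q p :=
  Set.ext fun _ => ⟨mem_I_symm, mem_I_symm⟩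

theorem sep_right_subset_of_mem_I {p q u : W G} (h : u ∈ I p q) : sep u q ⊆ sep p q := by
  have := mem_I_symm h
  rw [sep_comm u q, sep_comm p q]
  exact this

theorem sep_eq_sdiff_of_mem_I {p q u : W G} (h : u ∈ I p q) : sep u q = sep p q \ sep p u := by
  ext k
  rw [Finset.mem_sdiff, mem_sep_trans u p q, sep_comm u p]
  have := @h k
  tauto

theorem mem_I_iff_disjoint {p q u : W G} : u ∈ I p q ↔ Disjoint (sep p u) (sep u q) := by
  rw [Finset.disjoint_left]
  constructor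
  · intro h k hk hk'
    have := @h k hk
    rw [mem_sep_trans p u q] at this
    tauto
  · intro h k hk
    have := @h k hk
    rw [mem_sep_trans p u q]
    tauto

theorem d_add_eq (p u q : W G) : d p u + d u q = d p q + 2 * gp u p q := by
  unfold d gp
  rw [sep_trans p u q, sep_comm u p]
  have h1 : (sep p u ∆ sep u q).card = (sep p u \ sep u q).card + (sep u q \ sep p u).card := by
    rw [symmDiff_def, Finset.sup_eq_union, Finset.card_union_of_disjoint disjoint_sdiff_sdiff]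
  have h2 := Finset.card_sdiff_add_card_inter (sep p u) (sep u q)
  have h3 := Finset.card_sdiff_add_card_inter (sep u q) (sep p u)
  rw [Finset.inter_comm] at h3
  omega

theorem mem_I_iff_gp {p q u : W G} : u ∈ I p q ↔ gp u p q = 0 := by
  unfold gp
  rw [mem_I_iff_disjoint, Finset.card_eq_zero, sep_comm u p, Finset.disjoint_iff_inter_eq_empty]

theorem mem_I_iff_d {p q u : W G} : u ∈ I p q ↔ d p u + d u q = d p q := by
  rw [mem_I_iff_gp, d_add_eq]
  omega

theorem gp_comm (x a b : W G) : gp x a b = gp x b a := by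
  unfold gp; rw [Finset.inter_comm]

theorem gp_add_gp (x y a : W G) : gp x y a + gp y x a = d x y := by
  have h1 := d_add_eq y x a
  have h2 := d_add_eq x y a
  rw [d_comm y x] at h1
  omega

theorem I_convex (p q : W G) : Cvx (I p q) := by
  intro u hu v hv w hw k hk
  by_contra hn
  have h1 : k ∉ sep p u := fun x => hn (hu x)
  have h2 : k ∉ sep p v := fun x => hn (hv x)
  have h3 : k ∈ sep u w := by
    have := mem_sep_trans (h := k) u p w
    rw [sep_comm u p] at this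
    tauto
  have h4 := hw h3
  have := mem_sep_trans (h := k) u p v
  rw [sep_comm u p] at this
  tauto

theorem mul_gen_mem_I {p q : W G} {s : S} (h : hyp p s ∈ sep p q) : p * gen G s ∈ I p q := by
  intro k hk
  rw [sep_gen, Finset.mem_singleton] at hk
  exact hk ▸ h

theorem mem_I_trans_left {p q u v : W G} (hu : u ∈ I p q) (hv : v ∈ I p u) : v ∈ I p q :=
  fun _ hk => hu (hv hk)

theorem mem_I_trans_right {p q u v : W G} (hu : u ∈ I p q) (hv : v ∈ I u q) : v ∈ I p q :=
  I_convex p q u hu q (right_mem_I p q) hv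

theorem smul_mem_I {p q u : W G} (g : W G) : g * u ∈ I (g * p) (g * q) ↔ u ∈ I p q := by
  rw [mem_I_iff_d, mem_I_iff_d, d_smul, d_smul, d_smul]

theorem I_finite [Finite S] (p q : W G) : (I p q).Finite :=
  (ball_finite p (d p q)).subset fun u hu => by
    have := mem_I_iff_d.1 hu
    show d p u ≤ d p q
    omega

theorem Cvx.inter {A B : Set (W G)} (hA : Cvx A) (hB : Cvx B) : Cvx (A ∩ B) :=
  fun p hp q hq _ hu => ⟨hA p hp.1 q hq.1 hu, hB p hp.2 q hq.2 hu⟩

theorem Cvx.smul {A : Set (W G)} (hA : Cvx A) (g : W G) : Cvx (g • A) := by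
  rintro _ ⟨p, hp, rfl⟩ _ ⟨q, hq, rfl⟩ u hu
  refine ⟨g⁻¹ * u, hA p hp q hq ?_, by simp⟩
  rw [← smul_mem_I g]
  simpa using hu

theorem coset_convex (x : W G) (A : Set S) : Cvx {y | x⁻¹ * y ∈ Par G A} := by
  intro p hp q hq u hu
  have hp' : x⁻¹ * p ∈ Par G A := hp
  have hq' : x⁻¹ * q ∈ Par G A := hq
  have h1 : p⁻¹ * q ∈ Par G A := by
    have := Subgroup.mul_mem _ (Subgroup.inv_mem _ hp') hq'
    simpa [mul_assoc] using this
  have h2 : p⁻¹ * u ∈ Par G A := mem_Par_iff.2 fun k hk => label_mem_of_mem_Par h1 (hu hk)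
  have := Subgroup.mul_mem _ hp' h2
  show x⁻¹ * u ∈ Par G A
  simpa [mul_assoc] using this

theorem car_convex (h : Hyp G) : Cvx (car h) := by
  obtain ⟨x, hx⟩ := car_nonempty h
  have : car h = {y | x⁻¹ * y ∈ Par G (st G h.1)} := Set.ext fun y => mem_car_iff hx
  rw [this]
  exact coset_convex _ _

/-- a geodesic crosses each separating hyperplane at some edge -/
theorem exists_cross_pt {p q : W G} {h : Hyp G} (hh : h ∈ sep p q) :
    ∃ y ∈ I p q, y ∈ car h ∧ h ∉ sep p y ∧ y * gen G h.1 ∈ I p q := by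
  induction p using geod_ind (q := q) with
  | h0 => simp at hh
  | hs p s hs ih =>
    by_cases e : h = hyp p s
    · subst e
      exact ⟨p, left_mem_I _ _, mem_car_hyp _ _, by simp, mul_gen_mem_I hs⟩
    · have h1 : h ∈ sep (p * gen G s) q := by
        rw [sep_step hs]; exact Finset.mem_erase.2 ⟨e, hh⟩
      obtain ⟨y, hy, hc, hn, hy'⟩ := ih h1
      refine ⟨y, mem_I_trans_right (mul_gen_mem_I hs) hy, hc, ?_,
        mem_I_trans_right (mul_gen_mem_I hs) hy'⟩
      rw [mem_sep_trans p (p * gen G s) y, sep_gen]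
      simp [e, hn]

theorem mem_sep_car_gen {h : Hyp G} {y : W G} (hy : y ∈ car h) :
    sep y (y * gen G h.1) = {h} := by
  have hy' : hyp y h.1 = h := hy
  rw [sep_gen, hy']

theorem label_mem_st_of_car {h k : Hyp G} {a b : W G} (ha : a ∈ car h) (hb : b ∈ car h)
    (hk : k ∈ sep a b) : k.1 ∈ st G h.1 :=
  label_mem_of_mem_Par ((mem_car_iff ha).1 hb) hk

theorem eq_of_mem_car_of_label {h k : Hyp G} {y : W G} (h1 : y ∈ car h) (h2 : y ∈ car k)
    (e : h.1 = k.1) : h = k := by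
  have h1' : hyp y h.1 = h := h1
  have h2' : hyp y k.1 = k := h2
  rw [← h1', ← h2', e]

/-- two descents commute -/
theorem desc {p q : W G} {s t : S} (hs : hyp p s ∈ sep p q) (ht : hyp p t ∈ sep p q) :
    t ∈ st G s := by
  by_cases e : s = t
  · exact e ▸ mem_st_self s
  · have hne : hyp p t ≠ hyp p s := fun x => e (hyp_label_eq x).symm
    have h1 : hyp p t ∈ sep (p * gen G s) q := by
      rw [sep_step hs]; exact Finset.mem_erase.2 ⟨hne, ht⟩
    obtain ⟨y, hy, hc, -, -⟩ := exists_cross_pt h1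
    have h2 : hyp p s ∈ sep p y := by
      rw [mem_sep_trans p (p * gen G s) y, sep_gen]
      left
      refine ⟨by simp, fun x => ?_⟩
      have := hy x
      rw [sep_step hs] at this
      simp at this
    exact mem_st_symm (label_mem_st_of_car (h := hyp p t) (mem_car_hyp p t) hc h2)

theorem Cross.symm {h k : Hyp G} (c : Cross h k) : Cross k h := by
  obtain ⟨y, h1, h2, h3⟩ := c
  exact ⟨y, h2, h1, h3.symm⟩

theorem Cross.adj {h k : Hyp G} (c : Cross h k) : G.Adj h.1 k.1 := c.choose_spec.2.2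

theorem Cross.ne {h k : Hyp G} (c : Cross h k) : h ≠ k := by
  rintro rfl
  exact G.irrefl c.adj

theorem cross_smul {h k : Hyp G} (g : W G) : Cross (g • h) (g • k) ↔ Cross h k := by
  constructor
  · rintro ⟨y, h1, h2, h3⟩
    refine ⟨g⁻¹ * y, ?_, ?_, h3⟩
    · rw [← smul_mem_car g]; simpa using h1
    · rw [← smul_mem_car g]; simpa using h2
  · rintro ⟨y, h1, h2, h3⟩
    exact ⟨g * y, (smul_mem_car g).2 h1, (smul_mem_car g).2 h2, h3⟩

/-- crossing criterion -/
theorem cross_of_sep_car {h k : Hyp G} {a b : W G} (ha : a ∈ car h) (hb : b ∈ car h)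
    (hk : k ∈ sep a b) (hne : h ≠ k) : Cross h k := by
  obtain ⟨y, hy, hc, -, -⟩ := exists_cross_pt hk
  have hy' : y ∈ car h := car_convex h a ha b hb hy
  rcases label_mem_st_of_car ha hb hk with e | e
  · exact absurd (eq_of_mem_car_of_label hy' hc e.symm) hne
  · exact ⟨y, hy', hc, e⟩

theorem exists_first {p q r : W G} (h : (sep p q ∩ sep p r).Nonempty) :
    ∃ s, hyp p s ∈ sep p q ∧ hyp p s ∈ sep p r := by
  induction hn : d p q + d p r using Nat.strong_induction_on generalizing q r with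
  | _ n ih =>
    obtain ⟨k, hk⟩ := h
    rw [Finset.mem_inter] at hk
    obtain ⟨y1, hy1, hc1, hn1, -⟩ := exists_cross_pt hk.1
    obtain ⟨y2, hy2, hc2, hn2, -⟩ := exists_cross_pt hk.2
    by_cases hne : (sep p y1 ∩ sep p y2).Nonempty
    · have l1 : d p y1 < d p q := Finset.card_lt_card ⟨hy1, fun x => hn1 (x hk.1)⟩
      have l2 : d p y2 < d p r := Finset.card_lt_card ⟨hy2, fun x => hn2 (x hk.2)⟩
      obtain ⟨s, h1, h2⟩ := ih _ (by omega) hne rfl
      exact ⟨s, hy1 h1, hy2 h2⟩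
    · have hp : p ∈ I y1 y2 := by
        rw [mem_I_iff_disjoint, sep_comm y1 p, Finset.disjoint_iff_inter_eq_empty]
        exact Finset.not_nonempty_iff_eq_empty.1 hne
      have hc : p ∈ car k := car_convex k y1 hc1 y2 hc2 hp
      have hc' : hyp p k.1 = k := hc
      exact ⟨k.1, by rw [hc']; exact hk.1, by rw [hc']; exact hk.2⟩

theorem exists_med (p q r : W G) : ∃ m, sep p m = sep p q ∩ sep p r := by
  induction hn : (sep p q ∩ sep p r).card generalizing p with
  | zero => exact ⟨p, by rw [Finset.card_eq_zero.1 hn]; simp⟩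
  | succ n ih =>
    obtain ⟨s, h1, h2⟩ := exists_first (p := p) (q := q) (r := r)
      (Finset.card_pos.1 (by omega))
    have e : sep (p * gen G s) q ∩ sep (p * gen G s) r = (sep p q ∩ sep p r).erase (hyp p s) := by
      rw [sep_step h1, sep_step h2]
      ext k
      simp only [Finset.mem_inter, Finset.mem_erase]
      tauto
    have hm : hyp p s ∈ sep p q ∩ sep p r := Finset.mem_inter.2 ⟨h1, h2⟩
    obtain ⟨m, hm'⟩ := ih (p * gen G s) (by rw [e, Finset.card_erase_of_mem hm]; omega)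
    refine ⟨m, ?_⟩
    rw [sep_trans p (p * gen G s) m, sep_gen, hm', e]
    ext k
    rw [Finset.mem_symmDiff]
    simp only [Finset.mem_singleton, Finset.mem_erase]
    by_cases ek : k = hyp p s
    · simp [ek, hm]
    · simp [ek]

/-- the median -/
noncomputable def med (p q r : W G) : W G := (exists_med p q r).choose

theorem sep_med (p q r : W G) : sep p (med p q r) = sep p q ∩ sep p r :=
  (exists_med p q r).choose_spec

theorem med_mem_I₁ (p q r : W G) : med p q r ∈ I p q := by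
  show sep p _ ⊆ _
  rw [sep_med]; exact Finset.inter_subset_left

theorem med_mem_I₂ (p q r : W G) : med p q r ∈ I p r := by
  show sep p _ ⊆ _
  rw [sep_med]; exact Finset.inter_subset_right

theorem med_mem_I₃ (p q r : W G) : med p q r ∈ I q r := by
  intro k hk
  rw [mem_sep_trans q p, sep_med, sep_comm q p, Finset.mem_inter] at hk
  rw [mem_sep_trans q p r, sep_comm q p]
  tauto

theorem sep_med₂ (p q r : W G) : sep q (med p q r) = sep q p ∩ sep q r := by
  ext k
  rw [mem_sep_trans q p, sep_med, Finset.mem_inter, Finset.mem_inter, mem_sep_trans q p r,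
    sep_comm q p]
  tauto

theorem sep_med₃ (p q r : W G) : sep r (med p q r) = sep r p ∩ sep r q := by
  ext k
  rw [mem_sep_trans r p, sep_med, Finset.mem_inter, Finset.mem_inter, mem_sep_trans r p q,
    sep_comm r p]
  tauto

theorem d_med (p q r : W G) : d p (med p q r) = gp p q r := by unfold d gp; rw [sep_med]

theorem d_med₃ (p q r : W G) : d r (med p q r) = gp r p q := by unfold d gp; rw [sep_med₃]

/-- gates to convex sets -/
theorem exists_gate {Ω : Set (W G)} (hΩ : Cvx Ω) (hne : Ω.Nonempty) (p : W G) :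
    ∃ g ∈ Ω, ∀ y ∈ Ω, g ∈ I p y := by
  classical
  have hex : ∃ n, ∃ g ∈ Ω, d p g = n := by
    obtain ⟨g, hg⟩ := hne
    exact ⟨_, g, hg, rfl⟩
  obtain ⟨g, hg, e⟩ := Nat.find_spec hex
  refine ⟨g, hg, fun y hy => ?_⟩
  have hm : med p g y ∈ Ω := hΩ g hg y hy (med_mem_I₃ p g y)
  have h1 : d p g ≤ d p (med p g y) := by
    rw [e]; exact Nat.find_min' hex ⟨_, hm, rfl⟩
  have h2 : sep p (med p g y) = sep p g :=
    Finset.eq_of_subset_of_card_le (med_mem_I₁ p g y) h1
  show sep p g ⊆ sep p y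
  rw [← h2]
  exact med_mem_I₂ p g y

theorem gate_of_closest {Ω : Set (W G)} (hΩ : Cvx Ω) {p g : W G} (hg : g ∈ Ω)
    (hmin : ∀ y ∈ Ω, d p g ≤ d p y) : ∀ y ∈ Ω, g ∈ I p y := by
  obtain ⟨g', hg', h⟩ := exists_gate hΩ ⟨g, hg⟩ p
  have : sep p g' = sep p g := Finset.eq_of_subset_of_card_le (h g hg) (hmin g' hg')
  rw [← eq_of_sep_eq this]
  exact h

theorem gate_not_WH {Ω : Set (W G)} {p g : W G} (h : ∀ y ∈ Ω, g ∈ I p y) {k : Hyp G}
    (hk : k ∈ sep p g) : k ∉ WH Ω := by
  rintro ⟨a, ha, b, hb, hab⟩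
  have h1 := h a ha hk
  have h2 := h b hb hk
  rw [mem_sep_trans a p b, sep_comm a p] at hab
  tauto

theorem mem_sep_gates {Ω : Set (W G)} {p q g g' : W G} (hg : g ∈ Ω) (hg' : g' ∈ Ω)
    (h : ∀ y ∈ Ω, g ∈ I p y) (h' : ∀ y ∈ Ω, g' ∈ I q y) {k : Hyp G} :
    k ∈ sep g g' ↔ k ∈ sep p q ∧ k ∈ WH Ω := by
  have e1 := mem_sep_trans (h := k) p g q
  have e2 := mem_sep_trans (h := k) g g' q
  rw [sep_comm g' q] at e2
  constructor
  · intro hk
    have hw : k ∈ WH Ω := ⟨g, hg, g', hg', hk⟩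
    have n1 : k ∉ sep p g := fun x => gate_not_WH h x hw
    have n2 : k ∉ sep q g' := fun x => gate_not_WH h' x hw
    tauto
  · rintro ⟨hk, hw⟩
    have n1 : k ∉ sep p g := fun x => gate_not_WH h x hw
    have n2 : k ∉ sep q g' := fun x => gate_not_WH h' x hw
    tauto

theorem mem_WH_iff {Ω : Set (W G)} (hΩ : Cvx Ω) {h : Hyp G} :
    h ∈ WH Ω ↔ ∃ y ∈ Ω, y ∈ car h ∧ y * gen G h.1 ∈ Ω := by
  constructor
  · rintro ⟨a, ha, b, hb, hab⟩
    obtain ⟨y, hy, hc, -, hy'⟩ := exists_cross_pt hab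
    exact ⟨y, hΩ a ha b hb hy, hc, hΩ a ha b hb hy'⟩
  · rintro ⟨y, hy, hc, hy'⟩
    exact ⟨y, hy, _, hy', by rw [mem_sep_car_gen hc]; simp⟩

theorem smul_mem_WH {Ω : Set (W G)} {h : Hyp G} (g : W G) : g • h ∈ WH (g • Ω) ↔ h ∈ WH Ω := by
  constructor
  · rintro ⟨_, ⟨a, ha, rfl⟩, _, ⟨b, hb, rfl⟩, hab⟩
    exact ⟨a, ha, b, hb, (smul_mem_sep g a b).1 hab⟩
  · rintro ⟨a, ha, b, hb, hab⟩
    exact ⟨_, ⟨a, ha, rfl⟩, _, ⟨b, hb, rfl⟩, (smul_mem_sep g a b).2 hab⟩

theorem Lt.ne {p : W G} {k k' : Hyp G} (h : Lt p k k') : k ≠ k' := h.1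

theorem Lt.mem {p y : W G} {k k' : Hyp G} (h : Lt p k k') (hy : k' ∈ sep p y) : k ∈ sep p y :=
  h.2 y hy

theorem exists_mem_car_side (p : W G) (h : Hyp G) :
    ∃ y ∈ car h, h ∉ sep p y ∧ h ∈ sep p (y * gen G h.1) := by
  obtain ⟨y, hy⟩ := car_nonempty h
  have hy' : hyp y h.1 = h := hy
  by_cases e : h ∈ sep p y
  · refine ⟨y * gen G h.1, mul_gen_mem_car hy (mem_st_self _), ?_, by simpa using e⟩
    rw [mem_sep_mul_gen, hy']
    tauto
  · refine ⟨y, hy, e, ?_⟩
    rw [mem_sep_mul_gen, hy']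
    tauto

/-- the carrier of the far hyperplane lies beyond the near one -/
theorem Lt.mem_of_car {p y : W G} {k k' : Hyp G} (h : Lt p k k') (hy : y ∈ car k') :
    k ∈ sep p y := by
  have hy' : hyp y k'.1 = k' := hy
  by_cases e : k' ∈ sep p y
  · exact h.mem e
  · have h1 : k' ∈ sep p (y * gen G k'.1) := by rw [mem_sep_mul_gen, hy']; tauto
    have h2 := h.mem h1
    rw [mem_sep_mul_gen, hy'] at h2
    have := h.ne
    tauto

/-- the carrier of the near hyperplane lies before the far one -/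
theorem Lt.not_mem_of_car {p y : W G} {k k' : Hyp G} (h : Lt p k k') (hy : y ∈ car k) :
    k' ∉ sep p y := by
  have hy' : hyp y k.1 = k := hy
  intro e
  have h1 := h.mem e
  have h2 : k' ∈ sep p (y * gen G k.1) := by
    rw [mem_sep_mul_gen, hy']; exact Or.inl ⟨e, h.ne.symm⟩
  have h3 := h.mem h2
  rw [mem_sep_mul_gen, hy'] at h3
  tauto

theorem Lt.asymm {p : W G} {k k' : Hyp G} (h : Lt p k k') : ¬ Lt p k' k := by
  intro h'
  obtain ⟨y, hy⟩ := car_nonempty k
  exact h.not_mem_of_car hy (h'.mem_of_car hy)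

theorem Lt.trans {p : W G} {a b c : Hyp G} (h : Lt p a b) (h' : Lt p b c) : Lt p a c := by
  refine ⟨?_, fun y hy => h.mem (h'.mem hy)⟩
  rintro rfl
  exact h.asymm h'

theorem Lt.not_cross {p : W G} {k k' : Hyp G} (h : Lt p k k') : ¬ Cross k k' := by
  rintro ⟨y, h1, h2, h3⟩
  have a1 := h.mem_of_car h2
  have h2' : y * gen G k.1 ∈ car k' := mul_gen_mem_car h2 (mem_st_of_adj h3.symm)
  have a2 := h.mem_of_car h2'
  have h1' : hyp y k.1 = k := h1
  rw [mem_sep_mul_gen, h1'] at a2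
  tauto

theorem trichotomy {p q : W G} {k k' : Hyp G} (hk : k ∈ sep p q) (hk' : k' ∈ sep p q)
    (hne : k ≠ k') : Lt p k k' ∨ Lt p k' k ∨ Cross k k' := by
  by_contra hc
  simp only [not_or] at hc
  obtain ⟨n1, n2, n3⟩ := hc
  have m1 : ∃ y, k' ∈ sep p y ∧ k ∉ sep p y := by
    by_contra x
    exact n1 ⟨hne, fun y hy => by_contra fun z => x ⟨y, hy, z⟩⟩
  have m2 : ∃ y, k ∈ sep p y ∧ k' ∉ sep p y := by
    by_contra x
    exact n2 ⟨hne.symm, fun y hy => by_contra fun z => x ⟨y, hy, z⟩⟩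
  obtain ⟨y1, a1, a2⟩ := m1
  obtain ⟨y2, b1, b2⟩ := m2
  obtain ⟨a, ha, hca, -, -⟩ := exists_cross_pt b1
  have c1 : k ∈ sep y1 q := by
    rw [mem_sep_trans y1 p q, sep_comm y1 p]; tauto
  obtain ⟨b, hb, hcb, -, -⟩ := exists_cross_pt c1
  have d1 : k' ∉ sep p a := fun x => b2 (ha x)
  have d2 : k' ∉ sep y1 b := fun x => by
    have := hb x
    rw [mem_sep_trans y1 p q, sep_comm y1 p] at this
    tauto
  have d3 : k' ∈ sep a b := by
    have e1 := mem_sep_trans (h := k') p y1 b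
    have e2 := mem_sep_trans (h := k') a p b
    rw [sep_comm a p] at e2
    tauto
  exact n3 (cross_of_sep_car hca hcb d3 hne)

/-- reversing the base point reverses the order -/
theorem Lt.rev {p q : W G} {k k' : Hyp G} (h : Lt p k k') (hk' : k' ∈ sep p q) : Lt q k' k := by
  refine ⟨h.ne.symm, fun y hy => ?_⟩
  have hk := h.mem hk'
  have := h.2 y
  rw [mem_sep_trans q p y, sep_comm q p] at hy ⊢
  tauto

/-- the order only depends on the sides of the base point -/
theorem Lt.base {p p' : W G} {k k' : Hyp G} (h : Lt p k k') (h1 : k ∉ sep p p')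
    (h2 : k' ∉ sep p p') : Lt p' k k' := by
  refine ⟨h.ne, fun y hy => ?_⟩
  have := h.2 y
  rw [mem_sep_trans p' p y, sep_comm p' p] at hy ⊢
  tauto

theorem lt_smul {p : W G} {k k' : Hyp G} (g : W G) :
    Lt (g * p) (g • k) (g • k') ↔ Lt p k k' := by
  unfold Lt
  constructor
  · rintro ⟨h1, h2⟩
    refine ⟨fun e => h1 (by rw [e]), fun y hy => ?_⟩
    rw [← smul_mem_sep g] at hy ⊢
    exact h2 _ hy
  · rintro ⟨h1, h2⟩
    refine ⟨fun e => h1 (smul_left_cancel g e), fun y hy => ?_⟩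
    have e : y = g * (g⁻¹ * y) := by simp
    rw [e, smul_mem_sep] at hy ⊢
    exact h2 _ hy

theorem btw_rev {p q : W G} {k k' : Hyp G} (hk' : k' ∈ sep p q) (hk : k ∈ sep p q) :
    btw q p k' k = btw p q k k' := by
  ext j
  rw [mem_btw, mem_btw, sep_comm q p]
  constructor
  · rintro ⟨h1, h2, h3⟩
    exact ⟨h1, h3.rev (mem_sep_comm.1 hk), h2.rev (mem_sep_comm.1 h1)⟩
  · rintro ⟨h1, h2, h3⟩
    exact ⟨h1, h3.rev hk', h2.rev h1⟩

theorem Zs_comm (p q : W G) : Zs p q = Zs q p := by unfold Zs; rw [sep_comm]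

theorem Zs_smul (g p q : W G) : Zs (g * p) (g * q) = Zs p q := by
  ext t
  constructor
  · intro h k hk
    exact h (g • k) ((smul_mem_sep g p q).2 hk)
  · intro h k hk
    rw [sep_smul, Finset.mem_image] at hk
    obtain ⟨k', hk', rfl⟩ := hk
    exact h k' hk'

theorem Zs_anti {p q u v : W G} (h : sep u v ⊆ sep p q) : Zs p q ⊆ Zs u v :=
  fun _ ht k hk => ht k (h hk)

theorem Clq.mono {K K' : Set S} (h : Clq G K) (hK : K' ⊆ K) : Clq G K' :=
  fun s hs t ht => h s (hK hs) t (hK ht)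

theorem mem_Zs_iff {p q : W G} {t : S} : t ∈ Zs p q ↔ p⁻¹ * q ∈ Par G (st G t) := by
  rw [mem_Par_iff]
  exact forall₂_congr fun _ _ => mem_st_comm

/-- labels in a clique: bounded distance -/
theorem d_le_card_of_clq [Finite S] {K : Set S} (hK : Clq G K) {u v : W G}
    (h : ∀ k ∈ sep u v, k.1 ∈ K) : d u v ≤ Nat.card S := by
  classical
  have := Fintype.ofFinite S
  have key : ∀ k ∈ sep u v, u ∈ car k := by
    intro k hk
    obtain ⟨y, hy, hc, -, -⟩ := exists_cross_pt hk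
    rw [mem_car_iff hc, mem_Par_iff]
    intro j hj
    exact hK _ (h k hk) _ (h j (hy (mem_sep_comm.1 hj)))
  rw [Nat.card_eq_fintype_card, ← Finset.card_univ]
  exact Finset.card_le_card_of_injOn (fun k => k.1) (fun _ _ => by simp)
    (fun k hk j hj e => eq_of_mem_car_of_label (key k hk) (key j hj) e)

end Pool.Agent.MP_c34dea_an.H66
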