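import Mathlib

set_option autoImplicit false

/-! Module H, part 1: the alteration lemma and sums over words. -/

namespace Pool.Agent.MP_c34dea_an.H66.Rnd

open Finset

section Alt

variable {α : Type} [DecidableEq α]

theorem alt0 {ι : Type} (p : α → ℝ) (Ω : Finset α) (hp : ∀ a ∈ Ω, 0 ≤ p a ∧ p a ≤ 1) :
    ∀ (I : Finset ι) (B : ι → Finset α), (∀ i ∈ I, B i ⊆ Ω) → ∃ R ⊆ Ω,
      ∑ a ∈ Ω, p a - ∑ i ∈ I, ∏ a ∈ B i, p a ≤ R.card - (I.filter fun i => B i ⊆ R).card := by
  induction Ω using Finset.induction_on with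
  | empty =>
    intro I B h
    refine ⟨∅, subset_rfl, ?_⟩
    rw [filter_true_of_mem h, sum_congr (g := fun _ => 1) (rfl : I = I) fun i hi => by
      rw [subset_empty.1 (h i hi), prod_empty]]
    simp
  | insert a Ω ha ih =>
    intro I B h
    have ih' := ih fun x hx => hp x (mem_insert_of_mem hx)
    obtain ⟨h0, h1⟩ := hp a (mem_insert_self _ _)
    obtain ⟨R1, a1, a2⟩ := ih' I (fun i => (B i).erase a) fun i hi => subset_insert_iff.1 (h i hi)
    obtain ⟨R0, b1, b2⟩ := ih' (I.filter fun i => a ∉ B i) B fun i hi =>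
      (subset_insert_iff_of_notMem (mem_filter.1 hi).2).1 (h i (mem_filter.1 hi).1)
    have e : ∑ i ∈ I, ∏ x ∈ B i, p x = p a * ∑ i ∈ I, ∏ x ∈ (B i).erase a, p x +
        (1 - p a) * ∑ i ∈ I.filter fun i => a ∉ B i, ∏ x ∈ B i, p x := by
      rw [sum_filter, mul_sum, mul_sum, ← sum_add_distrib]
      refine sum_congr rfl fun i _ => ?_
      by_cases hi : a ∈ B i
      · rw [if_neg (not_not.2 hi), mul_prod_erase _ _ hi, mul_zero, add_zero]
      · rw [if_pos hi, erase_eq_of_notMem hi]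
        ring
    rw [sum_insert ha, e]
    rcases le_total (∑ i ∈ I, ∏ x ∈ (B i).erase a, p x)
      (1 + ∑ i ∈ I.filter fun i => a ∉ B i, ∏ x ∈ B i, p x) with c | c
    · refine ⟨insert a R1, insert_subset_insert _ a1, ?_⟩
      rw [card_insert_of_notMem fun h => ha (a1 h)]
      simp only [subset_insert_iff]
      push_cast
      nlinarith
    · refine ⟨R0, b1.trans (subset_insert _ _), ?_⟩
      rw [filter_filter] at b2
      rw [filter_congr (q := fun i => a ∉ B i ∧ B i ⊆ R0) fun i _ =>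
        ⟨fun h => ⟨fun h' => ha (b1 (h h')), h⟩, fun h => h.2⟩]
      nlinarith

/-- the total weight of the sets with property `P` is at most `c` -/
def Cost (p : α → ℝ) (P : Finset α → Prop) (c : ℝ) : Prop :=
  ∀ 𝓑 : Finset (Finset α), (∀ B ∈ 𝓑, P B) → ∑ B ∈ 𝓑, ∏ a ∈ B, p a ≤ c

theorem alt (p : α → ℝ) (Ω : Finset α) (hp : ∀ a ∈ Ω, 0 ≤ p a ∧ p a ≤ 1) (P : Finset α → Prop)
    (c : ℝ) (hc : Cost p P c) (hne : ∀ B, P B → B.Nonempty) :
    ∃ S ⊆ Ω, (∀ B, P B → ¬ B ⊆ S) ∧ ∑ a ∈ Ω, p a - c ≤ S.card := by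
  classical
  obtain ⟨R, h1, h2⟩ := alt0 p Ω hp (Ω.powerset.filter P) id fun B hB =>
    mem_powerset.1 (mem_filter.1 hB).1
  have h3 := hc (Ω.powerset.filter P) fun B hB => (mem_filter.1 hB).2
  set J := (Ω.powerset.filter P).filter fun B => id B ⊆ R with hJ
  choose f hf using fun B : J => hne B (mem_filter.1 (mem_filter.1 B.2).1).2
  refine ⟨R \ univ.image f, sdiff_subset.trans h1, fun B hB h => ?_, ?_⟩
  · have : B ∈ J := mem_filter.2 ⟨mem_filter.2 ⟨mem_powerset.2 ((h.trans sdiff_subset).trans h1),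
      hB⟩, h.trans sdiff_subset⟩
    exact (mem_sdiff.1 (h (hf ⟨B, this⟩))).2 (mem_image_of_mem _ (mem_univ _))
  · have h4 : R.card ≤ (R \ univ.image f).card + J.card :=
      card_le_card_sdiff_add_card.trans (by
        gcongr
        exact card_image_le.trans (by simp))
    have h5 : (R.card : ℝ) ≤ (R \ univ.image f).card + J.card := by exact_mod_cast h4
    simp only [id] at h2
    linarith

variable {p : α → ℝ}

omit [DecidableEq α] in
theorem Cost.or {P Q : Finset α → Prop} {c c' : ℝ} (h : Cost p P c) (h' : Cost p Q c') :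
    Cost p (fun B => P B ∨ Q B) (c + c') := by
  classical
  intro 𝓑 hB
  rw [← sum_filter_add_sum_filter_not 𝓑 P]
  exact add_le_add (h _ fun B hB => (mem_filter.1 hB).2)
    (h' _ fun B h => (hB B (mem_filter.1 h).1).resolve_left (mem_filter.1 h).2)

omit [DecidableEq α] in
theorem Cost.mono {P : Finset α → Prop} {c c' : ℝ} (h : Cost p P c) (h' : c ≤ c') : Cost p P c' :=
  fun 𝓑 hB => (h 𝓑 hB).trans h'

theorem cost_list (hp : ∀ a, 0 ≤ p a) {ι : Type} (I : Finset ι) (l : ι → List α) :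
    Cost p (fun B => ∃ i ∈ I, (l i).Nodup ∧ B = (l i).toFinset) (∑ i ∈ I, ((l i).map p).prod) := by
  classical
  intro 𝓑 hB
  have h0 : ∀ i, 0 ≤ ((l i).map p).prod := fun i => List.prod_nonneg fun x hx => by
    obtain ⟨a, -, rfl⟩ := List.mem_map.1 hx
    exact hp a
  refine (sum_le_sum_of_subset_of_nonneg
    (t := (I.filter fun i => (l i).Nodup).image fun i => (l i).toFinset) (fun B h => ?_)
    fun B _ _ => prod_nonneg fun a _ => hp a).trans ((sum_image_le_of_nonneg
      fun B _ => prod_nonneg fun a _ => hp a).trans ?_)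
  · obtain ⟨i, hi, h1, rfl⟩ := hB B h
    exact mem_image.2 ⟨i, mem_filter.2 ⟨hi, h1⟩, rfl⟩
  · rw [sum_congr rfl fun i hi => List.prod_toFinset p (mem_filter.1 hi).2]
    exact sum_le_sum_of_subset_of_nonneg (filter_subset _ _) fun i _ _ => h0 i

omit [DecidableEq α] in
theorem cost_ex {ι : Type} (I : List ι) (P : ι → Finset α → Prop) (c : ι → ℝ)
    (h : ∀ i ∈ I, Cost p (P i) (c i)) : Cost p (fun B => ∃ i ∈ I, P i B) (I.map c).sum := by
  induction I with
  | nil =>
    intro 𝓑 hB
    rw [eq_empty_of_forall_notMem (s := 𝓑) fun B h => by simpa using hB B h]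
    simp
  | cons i I ih =>
    simpa using (h i List.mem_cons_self).or (ih fun j hj => h j (List.mem_cons_of_mem _ hj))

end Alt

section Words

variable {A : Type} [Fintype A]

/-- the words of length `k` -/
def words (A : Type) [Fintype A] : ℕ → Finset (List A)
  | 0 => {[]}
  | k + 1 => (univ ×ˢ words A k).map ⟨fun x => x.1 :: x.2, fun _ _ h => by
      simpa [Prod.ext_iff] using h⟩

theorem mem_words {k : ℕ} {l : List A} : l ∈ words A k ↔ l.length = k := by
  induction k generalizing l with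
  | zero => simp [words]
  | succ k ih => cases l <;> simp [words, ih]

theorem sum_words_succ (k : ℕ) (f : List A → ℝ) :
    ∑ l ∈ words A (k + 1), f l = ∑ a, ∑ l ∈ words A k, f (a :: l) := by
  rw [words, sum_map, sum_product]
  rfl

theorem sum_words_add (j k : ℕ) (f : List A → ℝ) :
    ∑ l ∈ words A (j + k), f l = ∑ l ∈ words A j, ∑ l' ∈ words A k, f (l ++ l') := by
  induction j generalizing f with
  | zero => simp [words]
  | succ j ih =>
    rw [Nat.succ_add, sum_words_succ, sum_words_succ]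
    simp only [ih, List.cons_append]

end Words

theorem pigeon (f : ℕ → ℝ) (M : ℝ) (n : ℕ) (h0 : f 0 ≤ M) (hn : 0 ≤ f (n + 1)) :
    ∃ k < n + 1, (f k - f (k + 1)) * (n + 1) ≤ M := by
  by_contra h
  push Not at h
  have := sum_lt_sum_of_nonempty (s := range (n + 1)) (by simp) fun k hk => h k (mem_range.1 hk)
  rw [← sum_mul, sum_range_sub', sum_const, card_range, nsmul_eq_mul] at this
  push_cast at this
  nlinarith

end Pool.Agent.MP_c34dea_an.H66.Rnd
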