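import Pool.Agent.MP_c34dea_an.H66.H1

set_option autoImplicit false

/-! Module H, part 2: weights of non-backtracking walks. -/

namespace Pool.Agent.MP_c34dea_an.H66.Rnd

open Finset

/-- a periodic labelled graph with a transversal -/
structure Gr (A : Type) [Fintype A] {Γ : Type} [Group Γ] (H : Subgroup Γ) where
  iv : A → A
  iv_iv : ∀ a, iv (iv a) = a
  card : Fintype.card A = 16384
  E : Γ → A → Prop
  s : Γ → A → Γ
  T : Finset Γ
  gam : Γ → Γ
  rev : ∀ g a, E g a → E (s g a) (iv a) ∧ s (s g a) (iv a) = g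
  invE : ∀ γ ∈ H, ∀ g a, E g a → E (γ * g) a
  invs : ∀ γ ∈ H, ∀ g a, s (γ * g) a = γ * s g a
  gamH : ∀ g, gam g ∈ H
  repT : ∀ g, gam g * g ∈ T
  uniq : ∀ t ∈ T, ∀ γ ∈ H, γ * t ∈ T → γ * t = t

namespace Gr

variable {A : Type} [Fintype A] {Γ : Type} [Group Γ] {H : Subgroup Γ} (G : Gr A H)

/-- reduced words -/
def Rd (l : List A) : Prop := l.IsChain (fun a b => b ≠ G.iv a)

/-- inverse word -/
def lr (l : List A) : List A := (l.map G.iv).reverse

theorem lr_cons (a : A) (l : List A) : G.lr (a :: l) = G.lr l ++ [G.iv a] := by simp [lr]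

theorem lr_lr (l : List A) : G.lr (G.lr l) = l := by simp [lr, Function.comp_def, G.iv_iv]

theorem length_lr (l : List A) : (G.lr l).length = l.length := by simp [lr]

theorem rd_lr {l : List A} (h : G.Rd l) : G.Rd (G.lr l) := by
  rw [Rd, lr, List.isChain_reverse, List.isChain_map]
  exact List.IsChain.imp (fun a b h e => h (by rw [e, G.iv_iv])) h

/-- representative -/
def rep (g : Γ) : Γ := G.gam g * g

/-- end point -/
def en : Γ → List A → Γ
  | g, [] => g
  | g, a :: l => en (G.s g a) l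

/-- valid walk -/
def V : Γ → List A → Prop
  | _, [] => True
  | g, a :: l => G.E g a ∧ V (G.s g a) l

open Classical in
/-- degree -/
noncomputable def deg (g : Γ) : ℕ := (univ.filter (G.E g)).card

/-- degree minus one -/
noncomputable def dg (g : Γ) : ℝ := (G.deg g - 1 : ℕ)

/-- product of the branching factors -/
noncomputable def q : Γ → List A → ℝ
  | _, [] => 1
  | g, a :: l => (G.dg g)⁻¹ * q (G.s g a) l

open Classical in
/-- weight of a walk -/
noncomputable def w (g : Γ) (l : List A) : ℝ := if G.V g l ∧ G.Rd l then G.q g l * G.dg g else 0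

/-- large degrees -/
def Big : Prop := ∀ g a, G.E g a → 2048 ≤ G.deg g

theorem rep_mul {γ : Γ} (hγ : γ ∈ H) (g : Γ) : G.rep (γ * g) = G.rep g := by
  have := G.uniq _ (G.repT g) (G.gam (γ * g) * γ * (G.gam g)⁻¹)
    (H.mul_mem (H.mul_mem (G.gamH _) hγ) (H.inv_mem (G.gamH _)))
  rw [show G.gam (γ * g) * γ * (G.gam g)⁻¹ * (G.gam g * g) = G.gam (γ * g) * (γ * g) by group]
    at this
  exact this (G.repT _)

theorem rep_of_mem {t : Γ} (ht : t ∈ G.T) : G.rep t = t := G.uniq t ht _ (G.gamH t) (G.repT t)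

theorem rep_rep (g : Γ) : G.rep (G.rep g) = G.rep g := G.rep_mul (G.gamH g) g

theorem exists_of_rep {g g' : Γ} (h : G.rep g = G.rep g') : ∃ γ ∈ H, γ * g = g' :=
  ⟨(G.gam g')⁻¹ * G.gam g, H.mul_mem (H.inv_mem (G.gamH _)) (G.gamH _), by
    rw [mul_assoc, ← rep, h, rep, inv_mul_cancel_left]⟩

theorem en_append (g : Γ) (l l' : List A) : G.en g (l ++ l') = G.en (G.en g l) l' := by
  induction l generalizing g with
  | nil => rfl
  | cons a l ih => exact ih _

theorem V_append (g : Γ) (l l' : List A) : G.V g (l ++ l') ↔ G.V g l ∧ G.V (G.en g l) l' := by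
  induction l generalizing g with
  | nil => simp [V, en]
  | cons a l ih => simp [V, en, ih, and_assoc]

theorem q_append (g : Γ) (l l' : List A) : G.q g (l ++ l') = G.q g l * G.q (G.en g l) l' := by
  induction l generalizing g with
  | nil => simp [q, en]
  | cons a l ih => simp [q, en, ih, mul_assoc]

section Inv

variable {γ : Γ} (hγ : γ ∈ H)
include hγ

theorem E_mul (g : Γ) (a : A) : G.E (γ * g) a ↔ G.E g a :=
  ⟨fun h => by simpa using G.invE _ (H.inv_mem hγ) _ _ h, G.invE _ hγ _ _⟩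

theorem en_mul (g : Γ) (l : List A) : G.en (γ * g) l = γ * G.en g l := by
  induction l generalizing g with
  | nil => rfl
  | cons a l ih => simp only [en, G.invs _ hγ, ih]

theorem V_mul (g : Γ) (l : List A) : G.V (γ * g) l ↔ G.V g l := by
  induction l generalizing g with
  | nil => rfl
  | cons a l ih => simp only [V, G.invs _ hγ, ih, G.E_mul hγ]

theorem deg_mul (g : Γ) : G.deg (γ * g) = G.deg g := by
  rw [deg, deg, funext (G.E_mul hγ g · |> propext)]

theorem dg_mul (g : Γ) : G.dg (γ * g) = G.dg g := by simp only [dg, G.deg_mul hγ]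

theorem q_mul (g : Γ) (l : List A) : G.q (γ * g) l = G.q g l := by
  induction l generalizing g with
  | nil => rfl
  | cons a l ih => simp only [q, G.invs _ hγ, ih, G.dg_mul hγ]

theorem w_mul (g : Γ) (l : List A) : G.w (γ * g) l = G.w g l := by
  rw [w, w, G.V_mul hγ, G.q_mul hγ, G.dg_mul hγ]

end Inv

variable {G}

theorem V_rev {g : Γ} {l : List A} (h : G.V g l) :
    G.V (G.en g l) (G.lr l) ∧ G.en (G.en g l) (G.lr l) = g := by
  induction l generalizing g with
  | nil => simp [lr, V, en]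
  | cons a l ih =>
    obtain ⟨h1, h2⟩ := ih h.2
    simp only [G.lr_cons, V_append, en_append, en, h1, h2, V, G.rev g a h.1, and_self]

theorem q_rev {g : Γ} {l : List A} (h : G.V g l) :
    G.q (G.en g l) (G.lr l) * (G.dg g)⁻¹ = G.q g l * (G.dg (G.en g l))⁻¹ := by
  induction l generalizing g with
  | nil => rfl
  | cons a l ih =>
    simp only [G.lr_cons, q_append, en, (V_rev h.2).2, q, mul_one, ih h.2]
    ring

theorem dg_nonneg (g : Γ) : 0 ≤ G.dg g := Nat.cast_nonneg _

theorem q_nonneg (g : Γ) (l : List A) : 0 ≤ G.q g l := by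
  induction l generalizing g with
  | nil => exact zero_le_one
  | cons a l ih => exact mul_nonneg (inv_nonneg.2 (dg_nonneg _)) (ih _)

theorem w_nonneg (g : Γ) (l : List A) : 0 ≤ G.w g l := by
  unfold w
  split_ifs
  · exact mul_nonneg (q_nonneg _ _) (dg_nonneg _)
  · exact le_rfl

theorem of_w {g : Γ} {l : List A} (h : G.w g l ≠ 0) : G.V g l ∧ G.Rd l := by
  by_contra h'
  exact h (if_neg h')

theorem deg_le (g : Γ) : G.deg g ≤ 16384 := (card_le_univ _).trans G.card.le

theorem Big.dg (hb : G.Big) {g : Γ} {a : A} (h : G.E g a) : 2047 ≤ G.dg g := by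
  have := hb g a h
  exact Nat.ofNat_le_cast.2 (by omega : 2047 ≤ G.deg g - 1)

theorem Big.w_rev (hb : G.Big) {g : Γ} {l : List A} (h : G.V g l) :
    G.w (G.en g l) (G.lr l) = G.w g l := by
  by_cases hr : G.Rd l
  · rw [w, w, if_pos ⟨(V_rev h).1, G.rd_lr hr⟩, if_pos ⟨h, hr⟩]
    cases l with
    | nil => rfl
    | cons a l =>
      have h1 := hb.dg h.1
      have h2 : 2047 ≤ G.dg (G.en g (a :: l)) := by
        have := (V_rev h).1
        cases e : G.lr (a :: l) with
        | nil => simp [lr] at e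
        | cons c l' => exact hb.dg (e ▸ this : G.V _ (c :: l')).1
      have h3 := q_rev h
      field_simp at h3
      linarith
  · rw [w, w, if_neg fun h => hr (G.lr_lr l ▸ G.rd_lr h.2), if_neg fun h => hr h.2]

theorem Big.w_le (hb : G.Big) (g : Γ) {l : List A} (hl : l ≠ []) :
    G.w g l ≤ 2047 * 2047⁻¹ ^ l.length := by
  have key : ∀ l g, G.V g l → G.q g l ≤ 2047⁻¹ ^ l.length := by
    intro l
    induction l with
    | nil => exact fun _ _ => le_rfl
    | cons a l ih =>
      intro g h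
      rw [List.length_cons, pow_succ']
      exact mul_le_mul (inv_anti₀ (by norm_num) (hb.dg h.1)) (ih _ h.2) (q_nonneg _ _) (by norm_num)
  unfold w
  split_ifs with h
  · obtain ⟨a, l, rfl⟩ := List.exists_cons_of_ne_nil hl
    have h1 := hb.dg h.1.1
    rw [q, mul_right_comm, inv_mul_cancel₀ (by linarith), one_mul, List.length_cons, pow_succ',
      ← mul_assoc, mul_inv_cancel₀ (by norm_num), one_mul]
    exact key _ _ h.1.2
  · positivity

open Classical in
theorem Big.w_append (hb : G.Big) (g : Γ) (l l' : List A) (b a : A) :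
    G.w g (l ++ [b] ++ a :: l') = if a ≠ G.iv b then G.w g (l ++ [b]) *
      (G.dg (G.en g (l ++ [b])))⁻¹ * G.w (G.en g (l ++ [b])) (a :: l') else 0 := by
  have e : G.Rd (l ++ [b] ++ a :: l') ↔ G.Rd (l ++ [b]) ∧ a ≠ G.iv b ∧ G.Rd (a :: l') := by
    rw [List.append_assoc]
    exact List.isChain_append_cons_cons
  unfold w
  rw [V_append, e, q_append]
  by_cases h1 : G.V g (l ++ [b]) ∧ G.Rd (l ++ [b])
  · by_cases h2 : G.V (G.en g (l ++ [b])) (a :: l') ∧ G.Rd (a :: l')
    · have := hb.dg h2.1.1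
      simp only [h1, h2, and_self, true_and, and_true, if_true]
      split_ifs
      · field_simp
      · rfl
    · rw [if_neg h2, if_neg fun h => h2 ⟨h.1.2, h.2.2.2⟩]
      simp
  · rw [if_neg h1, if_neg fun h => h1 ⟨h.1.1, h.2.1⟩]
    simp

open Classical in
theorem sum_other {g : Γ} {a : A} (h : G.E g a) :
    ∑ c, (if c ≠ a then if G.E g c then (1 : ℝ) else 0 else 0) = G.dg g := by
  simp only [← ite_and, sum_boole]
  rw [dg, deg, ← card_erase_of_mem (a := a) (by simpa using h)]
  congr 2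
  ext c
  simp

open Classical in
theorem Big.sum_w (hb : G.Big) (k : ℕ) : ∀ (g : Γ) (a : A),
    ∑ l ∈ words A k, G.w g (a :: l) = if G.E g a then 1 else 0 := by
  have h0 : ∀ g a, G.w g [a] = if G.E g a then 1 else 0 := by
    intro g a
    by_cases h : G.E g a
    · have := hb.dg h
      rw [w, if_pos ⟨⟨h, trivial⟩, List.isChain_singleton _⟩, if_pos h, q, q, mul_one,
        inv_mul_cancel₀ (by linarith)]
    · rw [w, if_neg fun h' => h h'.1.1, if_neg h]
  induction k with
  | zero => simpa [words] using h0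
  | succ k ih =>
    intro g a
    have := fun c l => hb.w_append g [] l a c
    simp only [List.nil_append, List.singleton_append, en] at this
    rw [sum_words_succ]
    simp only [this, sum_ite_irrel, ← mul_sum, ih, sum_const_zero, h0]
    by_cases h : G.E g a
    · have h1 := (G.rev g a h).1
      have h2 := hb.dg h1
      have h3 := sum_other h1
      simp only [if_pos h, one_mul]
      simp only [← mul_ite_zero, ← mul_sum, h3]
      exact inv_mul_cancel₀ (by linarith)
    · simp [h]

theorem Big.sum_w' (hb : G.Big) (k : ℕ) (g : Γ) : ∑ l ∈ words A (k + 1), G.w g l = G.deg g := by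
  simp only [sum_words_succ, hb.sum_w, sum_boole, deg]

open Classical in
theorem Big.sum_w'' (hb : G.Big) (k : ℕ) {g : Γ} {a : A} (h : G.E g a) :
    ∑ l ∈ words A (k + 1), (if some a ≠ l.head? then G.w g l else 0) = G.dg g := by
  simp only [sum_words_succ, List.head?_cons, sum_ite_irrel, hb.sum_w, sum_const_zero,
    ← sum_other h, ne_eq, Option.some.injEq, eq_comm (a := a)]

open Classical in
theorem sum_rev (k : ℕ) (Φ : Γ → List A → ℝ) (hΦ : ∀ γ ∈ H, ∀ g l, Φ (γ * g) l = Φ g l) :
    ∑ t ∈ G.T, ∑ l ∈ words A k, (if G.V t l then Φ (G.en t l) (G.lr l) else 0) =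
      ∑ t ∈ G.T, ∑ l ∈ words A k, if G.V t l then Φ t l else 0 := by
  rw [← sum_product', ← sum_product', ← sum_filter, ← sum_filter]
  have h1 : ∀ x ∈ (G.T ×ˢ words A k).filter fun x => G.V x.1 x.2,
      (G.rep (G.en x.1 x.2), G.lr x.2) ∈ (G.T ×ˢ words A k).filter fun x => G.V x.1 x.2 := by
    intro x hx
    simp only [mem_filter, mem_product, mem_words, G.length_lr] at hx ⊢
    exact ⟨⟨G.repT _, hx.1.2⟩, (G.V_mul (G.gamH _) _ _).2 (V_rev hx.2).1⟩
  have h2 : ∀ x ∈ (G.T ×ˢ words A k).filter fun x => G.V x.1 x.2,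
      (G.rep (G.en (G.rep (G.en x.1 x.2)) (G.lr x.2)), G.lr (G.lr x.2)) = x := by
    intro x hx
    simp only [mem_filter, mem_product] at hx
    rw [G.lr_lr, rep, rep, G.en_mul (G.gamH _), (V_rev hx.2).2, ← rep, G.rep_mul (G.gamH _),
      G.rep_of_mem hx.1.1]
  exact sum_nbij' _ _ h1 h1 h2 h2 fun x _ => (hΦ _ (G.gamH _) _ _).symm

/-- weighted sum of the lengths -/
noncomputable def tot (G : Gr A H) (de : Γ → Γ → ℕ) (k : ℕ) : ℝ :=
  ∑ t ∈ G.T, ∑ l ∈ words A k, G.w t l * de t (G.en t l)

open Classical in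
theorem Big.junction (hb : G.Big) (de : Γ → Γ → ℕ)
    (hi : ∀ γ ∈ H, ∀ g g', de (γ * g) (γ * g') = de g g') (b : ℕ) :
    ∑ t ∈ G.T, ∑ l ∈ words A (b + 1), ∑ l' ∈ words A (b + 1),
      (if l.head? ≠ l'.head? then G.w t l * (G.dg t)⁻¹ * G.w t l' else 0) *
        (de t (G.en t l) + de t (G.en t l') - de (G.en t l) (G.en t l') : ℝ) =
      2 * G.tot de (b + 1) - G.tot de (2 * (b + 1)) := by
  have h1 : ∀ t, ∀ l ∈ words A (b + 1), ∑ l' ∈ words A (b + 1),
      (if l.head? ≠ l'.head? then G.w t l * (G.dg t)⁻¹ * G.w t l' else 0) = G.w t l := by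
    intro t l hl
    by_cases h : G.w t l = 0
    · simp [h]
    · obtain ⟨a, l, rfl⟩ := List.exists_cons_of_length_eq_add_one (mem_words.1 hl)
      have h2 := (of_w h).1.1
      have h3 := hb.dg h2
      simp only [← mul_ite_zero, ← mul_sum, List.head?_cons]
      field_simp
      convert hb.sum_w'' b h2
  have h2 : ∑ t ∈ G.T, ∑ l ∈ words A (b + 1), ∑ l' ∈ words A (b + 1),
      (if l.head? ≠ l'.head? then G.w t l * (G.dg t)⁻¹ * G.w t l' else 0) * de t (G.en t l) =
      G.tot de (b + 1) :=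
    sum_congr rfl fun t _ => sum_congr rfl fun l hl => by rw [← sum_mul, h1 t l hl]
  have h3 : ∑ t ∈ G.T, ∑ l ∈ words A (b + 1), ∑ l' ∈ words A (b + 1),
      (if l.head? ≠ l'.head? then G.w t l * (G.dg t)⁻¹ * G.w t l' else 0) * de t (G.en t l') =
      G.tot de (b + 1) := by
    rw [← h2]
    refine sum_congr rfl fun t _ => sum_comm.trans (sum_congr rfl fun l _ =>
      sum_congr rfl fun l' _ => ?_)
    simp only [ne_comm (a := l'.head?), mul_comm (G.w t l'), mul_assoc, mul_left_comm (G.w t l)]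
  have h4 := sum_rev (G := G) (b + 1) (fun g l => ∑ l' ∈ words A (b + 1),
    G.w g (l ++ l') * de g (G.en g (l ++ l'))) fun γ hγ g l => by
      simp only [G.w_mul hγ, G.en_mul hγ, hi γ hγ]
  have h5 : G.tot de (2 * (b + 1)) = ∑ t ∈ G.T, ∑ l ∈ words A (b + 1), ∑ l' ∈ words A (b + 1),
      (if l.head? ≠ l'.head? then G.w t l * (G.dg t)⁻¹ * G.w t l' else 0) *
        de (G.en t l) (G.en t l') := by
    simp only [tot, two_mul, sum_words_add (b + 1) (b + 1)]
    refine Eq.trans (sum_congr rfl fun t _ => sum_congr rfl fun l _ => ?_)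
      (h4.symm.trans (sum_congr rfl fun t _ => sum_congr rfl fun l hl => ?_))
    · split_ifs with h
      · rfl
      · refine sum_eq_zero fun l' _ => ?_
        rw [w, if_neg fun h' => h ((G.V_append _ _ _).1 h'.1).1, zero_mul]
    · split_ifs with h
      · refine sum_congr rfl fun l' hl' => ?_
        obtain ⟨a, l, rfl⟩ := List.exists_cons_of_length_eq_add_one (mem_words.1 hl)
        obtain ⟨c, l', rfl⟩ := List.exists_cons_of_length_eq_add_one (mem_words.1 hl')
        rw [en_append, (V_rev h).2, G.lr_cons, hb.w_append, ← G.lr_cons, (V_rev h).2, hb.w_rev h,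
          G.iv_iv]
        simp only [List.head?_cons, ne_eq, Option.some.injEq, eq_comm (a := a)]
      · simp [w, h]
  simp only [mul_sub, mul_add, sum_sub_distrib, sum_add_distrib, h2, h3, ← h5]
  ring

end Gr

end Pool.Agent.MP_c34dea_an.H66.Rnd
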