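import Pool.Agent.MP_c34dea_an.H66.H2

set_option autoImplicit false

/-! Module H, part 3: random segments, bad families and their costs. -/

namespace Pool.Agent.MP_c34dea_an.H66.Rnd

open Finset

section CL

variable {α ι : Type} {p : α → ℝ} {P Q : List α → Prop} {c c' : ℝ}

/-- cost of a family of lists -/
def CL (p : α → ℝ) (P : List α → Prop) (c : ℝ) : Prop :=
  Cost p (fun B => ∃ l, P l ∧ l.Nodup ∧ ∀ a, a ∈ B ↔ a ∈ l) c

/-- `S` contains no list of the family -/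
def Av (S : Finset α) (P : List α → Prop) : Prop := ∀ l, P l → l.Nodup → ¬ ∀ a ∈ l, a ∈ S

theorem CL.or (h : CL p P c) (h' : CL p Q c') : CL p (fun l => P l ∨ Q l) (c + c') := by
  simpa only [CL, or_and_right, exists_or] using Cost.or h h'

theorem CL.imp (h : CL p P c) (h1 : ∀ l, Q l → P l) (h2 : c ≤ c') : CL p Q c' :=
  fun 𝓑 hB => (h 𝓑 fun B h => (hB B h).imp fun l h => ⟨h1 l h.1, h.2⟩).trans h2

theorem cl_fin (hp : ∀ a, 0 ≤ p a) (I : Finset ι) (f : ι → List α) :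
    CL p (fun l => ∃ i ∈ I, l = f i) (∑ i ∈ I, ((f i).map p).prod) := by
  classical
  refine fun 𝓑 hB => cost_list hp I f 𝓑 fun B h => ?_
  obtain ⟨_, ⟨i, hi, rfl⟩, h1, h2⟩ := hB B h
  exact ⟨i, hi, h1, Finset.ext fun a => (h2 a).trans List.mem_toFinset.symm⟩

theorem cl_ex (I : List ι) (P : ι → List α → Prop) (c : ι → ℝ) (h : ∀ i ∈ I, CL p (P i) (c i)) :
    CL p (fun l => ∃ i ∈ I, P i l) (I.map c).sum := by
  refine fun 𝓑 hB => cost_ex I _ c h 𝓑 fun B h => ?_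
  obtain ⟨l, ⟨i, hi, h1⟩, h2⟩ := hB B h
  exact ⟨i, hi, l, h1, h2⟩

theorem cl_exf (I : Finset ι) (P : ι → List α → Prop) (c : ι → ℝ)
    (h : ∀ i ∈ I, CL p (P i) (c i)) : CL p (fun l => ∃ i ∈ I, P i l) (∑ i ∈ I, c i) :=
  (cl_ex I.toList P c fun i hi => h i (mem_toList.1 hi)).imp
    (fun _ h => h.imp fun _ h => ⟨mem_toList.2 h.1, h.2⟩) (sum_map_toList _ _).le

theorem altL (Ω : Finset α) (hp : ∀ a, 0 ≤ p a ∧ p a ≤ 1) (hc : CL p P c)
    (hne : ∀ l, P l → l ≠ []) : ∃ S ⊆ Ω, Av S P ∧ ∑ a ∈ Ω, p a - c ≤ S.card := by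
  classical
  obtain ⟨S, h1, h2, h3⟩ := alt p Ω (fun a _ => hp a) _ c hc fun B ⟨l, h1, _, h2⟩ => by
    obtain ⟨a, ha⟩ := List.exists_mem_of_ne_nil l (hne l h1)
    exact ⟨a, (h2 a).2 ha⟩
  exact ⟨S, h1, fun l h h' h'' => h2 l.toFinset ⟨l, h, h', fun _ => List.mem_toFinset⟩
    fun a ha => h'' a (List.mem_toFinset.1 ha), h3⟩

end CL

namespace Gr

variable {A : Type} [Fintype A] {Γ : Type} [Group Γ] {H : Subgroup Γ} (G : Gr A H)

/-- class of a segment -/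
def cls (g : Γ) (l : List A) : Sym2 (Γ × List A) :=
  s((G.rep g, l), (G.rep (G.en g l), G.lr l))

/-- probability of an oriented segment -/
noncomputable def p0 (b : ℕ) (x : Γ × List A) : ℝ :=
  if x.2.length = b then 256⁻¹ * G.w x.1 x.2 else 0

/-- probability of a class -/
noncomputable def pv (b : ℕ) : Sym2 (Γ × List A) → ℝ :=
  Sym2.lift ⟨fun x y => min (G.p0 b x) (G.p0 b y), fun _ _ => min_comm _ _⟩

/-- the classes of the consecutive segments of a word -/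
def cl (b : ℕ) : ℕ → Γ → List A → List (Sym2 (Γ × List A))
  | 0, _, _ => []
  | m + 1, g, l => G.cls g (l.take b) :: cl b m (G.en g (l.take b)) (l.drop b)

/-- the chosen segments -/
def Sg (b : ℕ) (S : Finset (Sym2 (Γ × List A))) : Set (Γ × List A × Γ) :=
  {z | G.w z.1 z.2.1 ≠ 0 ∧ z.2.1.length = b ∧ G.en z.1 z.2.1 = z.2.2 ∧ G.cls z.1 z.2.1 ∈ S}

open Classical in
/-- number of walks -/
noncomputable def cnt (g : Γ) (k : ℕ) (P : Γ → Prop) : ℕ :=
  ((words A k).filter fun l => G.V g l ∧ P (G.en g l)).card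

/-- one chain -/
def F1 (b m : ℕ) (Q : Γ → Γ → Prop) (L : List (Sym2 (Γ × List A))) : Prop :=
  ∃ t ∈ G.T, ∃ l, l.length = m * b ∧ G.V t l ∧ Q t (G.en t l) ∧ L = G.cl b m t l

/-- two segments from one point -/
def F2 (b : ℕ) (R : Γ → List A → List A → Prop) (L : List (Sym2 (Γ × List A))) : Prop :=
  ∃ t ∈ G.T, ∃ l l', l.length = b ∧ l'.length = b ∧ R t l l' ∧ L = [G.cls t l, G.cls t l']

/-- two chains -/
def F3 (b m m' : ℕ) (F : Γ → Finset Γ) (Q : Γ → Γ → Prop) (L : List (Sym2 (Γ × List A))) : Prop :=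
  ∃ t ∈ G.T, ∃ f ∈ F t, ∃ l l', l.length = m * b ∧ l'.length = m' * b ∧ G.V f l' ∧
    Q (G.en t l) (G.en f l') ∧ L = G.cl b m t l ++ G.cl b m' f l'

theorem cnt_le {g : Γ} {k : ℕ} {P : Γ → Prop} {Z : Set (List A)} (hZ : Z.Finite)
    (h : ∀ l, l.length = k → G.V g l → P (G.en g l) → l ∈ Z) : G.cnt g k P ≤ Z.ncard := by
  rw [cnt, ← Set.ncard_coe_finset]
  refine Set.ncard_le_ncard (fun l hl => ?_) hZ
  simp only [coe_filter, mem_words] at hl
  exact h l hl.1 hl.2.1 hl.2.2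

theorem cls_mul {γ : Γ} (hγ : γ ∈ H) (g : Γ) (l : List A) : G.cls (γ * g) l = G.cls g l := by
  rw [cls, cls, G.en_mul hγ, G.rep_mul hγ, G.rep_mul hγ]

theorem cl_mul {γ : Γ} (hγ : γ ∈ H) (b m : ℕ) (g : Γ) (l : List A) :
    G.cl b m (γ * g) l = G.cl b m g l := by
  induction m generalizing g l with
  | zero => rfl
  | succ m ih => rw [cl, cl, G.cls_mul hγ, G.en_mul hγ, ih]

theorem cl_ne (b m : ℕ) (hm : 1 ≤ m) (g : Γ) (l : List A) : G.cl b m g l ≠ [] := by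
  obtain ⟨m, rfl⟩ := Nat.exists_eq_add_of_le' hm
  exact List.cons_ne_nil _ _

variable {G}

theorem cls_rev {g : Γ} {l : List A} (h : G.V g l) : G.cls (G.en g l) (G.lr l) = G.cls g l := by
  rw [cls, cls, (V_rev h).2, G.lr_lr, Sym2.eq_swap]

theorem p0_nonneg (b : ℕ) (x : Γ × List A) : 0 ≤ G.p0 b x := by
  have := w_nonneg (G := G) x.1 x.2
  unfold p0
  split_ifs <;> positivity

theorem pv_nonneg (b : ℕ) (z : Sym2 (Γ × List A)) : 0 ≤ G.pv b z :=
  Sym2.ind (fun x y => le_min (p0_nonneg b x) (p0_nonneg b y)) z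

theorem pv_cls_le {b : ℕ} (g : Γ) {l : List A} (hl : l.length = b) :
    G.pv b (G.cls g l) ≤ 256⁻¹ * G.w g l :=
  (min_le_left _ _).trans ((if_pos hl).trans (by rw [rep, G.w_mul (G.gamH _)])).le

theorem Big.pv_cls (hb : G.Big) {b : ℕ} {g : Γ} {l : List A} (hl : l.length = b) (h : G.V g l) :
    G.pv b (G.cls g l) = 256⁻¹ * G.w g l := by
  simp only [pv, cls, Sym2.lift_mk, p0, rep, G.w_mul (G.gamH _), hb.w_rev h, G.length_lr, hl,
    if_true, min_self]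

theorem Big.pv_le (hb : G.Big) (b : ℕ) (z : Sym2 (Γ × List A)) :
    G.pv (b + 1) z ≤ 8 * 2047⁻¹ ^ (b + 1) := by
  refine Sym2.ind (fun x y => (min_le_left _ _).trans ?_) z
  unfold p0
  split_ifs with h
  · have := hb.w_le x.1 (List.ne_nil_of_length_eq_add_one h)
    have h0 : (0 : ℝ) ≤ 2047⁻¹ ^ (b + 1) := by positivity
    rw [h] at this
    linarith
  · positivity

theorem cl_nonneg (b m : ℕ) (g : Γ) (l : List A) : 0 ≤ ((G.cl b m g l).map (G.pv b)).prod :=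
  List.prod_nonneg fun x hx => by
    obtain ⟨a, -, rfl⟩ := List.mem_map.1 hx
    exact pv_nonneg _ _

theorem Big.cl_le (hb : G.Big) (b m : ℕ) (g : Γ) (l : List A) :
    ((G.cl (b + 1) m g l).map (G.pv (b + 1))).prod ≤ (8 * 2047⁻¹ ^ (b + 1)) ^ m := by
  induction m generalizing g l with
  | zero => simp [cl]
  | succ m ih =>
    rw [cl, List.map_cons, List.prod_cons, pow_succ' _ m]
    exact mul_le_mul (hb.pv_le _ _) (ih _ _) (cl_nonneg _ _ _ _) (by positivity)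

theorem Big.sum_cl (hb : G.Big) (b m : ℕ) (g : Γ) :
    ∑ l ∈ words A (m * (b + 1)), ((G.cl (b + 1) m g l).map (G.pv (b + 1))).prod ≤ 64 ^ m := by
  induction m generalizing g with
  | zero => simp [cl, words]
  | succ m ih =>
    rw [Nat.succ_mul, add_comm (m * _), sum_words_add]
    refine (sum_le_sum (g := fun l => 256⁻¹ * G.w g l * 64 ^ m) fun l hl => ?_).trans ?_
    · have h := mem_words.1 hl
      simp only [cl, List.take_left' h, List.drop_left' h, List.map_cons, List.prod_cons,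
        ← mul_sum]
      exact mul_le_mul (pv_cls_le g h) (ih _) (sum_nonneg fun _ _ => cl_nonneg _ _ _ _)
        (mul_nonneg (by norm_num) (w_nonneg _ _))
    · rw [← sum_mul, ← mul_sum, hb.sum_w', pow_succ']
      have : (G.deg g : ℝ) ≤ 16384 := by exact_mod_cast deg_le g
      gcongr
      linarith

open Classical in
theorem Big.cost1 (hb : G.Big) (b m : ℕ) (Q : Γ → Γ → Prop) {c : ℝ}
    (h : ((∑ t ∈ G.T, G.cnt t (m * (b + 1)) (Q t) : ℕ) : ℝ) ≤ c * 512 ^ (m * (b + 1))) :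
    CL (G.pv (b + 1)) (G.F1 (b + 1) m Q) (c * (8 * (512 / 2047) ^ (b + 1)) ^ m) := by
  refine (cl_fin (pv_nonneg _) (G.T.sigma fun t => (words A (m * (b + 1))).filter
    fun l => G.V t l ∧ Q t (G.en t l)) fun i => G.cl (b + 1) m i.1 i.2).imp ?_ ?_
  · rintro _ ⟨t, ht, l, h1, h2, h3, rfl⟩
    exact ⟨⟨t, l⟩, mem_sigma.2 ⟨ht, mem_filter.2 ⟨mem_words.2 h1, h2, h3⟩⟩, rfl⟩
  · refine (sum_le_card_nsmul _ _ _ fun i _ => hb.cl_le b m _ _).trans ?_
    rw [card_sigma, nsmul_eq_mul]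
    refine (mul_le_mul_of_nonneg_right h (by positivity)).trans_eq ?_
    rw [div_eq_mul_inv, mul_pow, mul_pow, mul_pow, mul_pow, mul_comm m, pow_mul]
    ring

open Classical in
theorem cost2 (b : ℕ) (R : Γ → List A → List A → Prop) :
    CL (G.pv b) (G.F2 b R) (∑ t ∈ G.T, ∑ l ∈ words A b, ∑ l' ∈ words A b,
      if R t l l' then 256⁻¹ * G.w t l * (256⁻¹ * G.w t l') else 0) := by
  refine (cl_fin (pv_nonneg _) (G.T.sigma fun t => (words A b).sigma fun l => (words A b).filter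
    (R t l)) fun i => [G.cls i.1 i.2.1, G.cls i.1 i.2.2]).imp ?_ ?_
  · rintro _ ⟨t, ht, l, l', h1, h2, h3, rfl⟩
    exact ⟨⟨t, l, l'⟩, mem_sigma.2 ⟨ht, mem_sigma.2 ⟨mem_words.2 h1,
      mem_filter.2 ⟨mem_words.2 h2, h3⟩⟩⟩, rfl⟩
  · simp only [sum_sigma, sum_filter]
    refine sum_le_sum fun t _ => sum_le_sum fun l hl => sum_le_sum fun l' hl' => ?_
    split_ifs
    · simp only [List.map_cons, List.map_nil, List.prod_cons, List.prod_nil, mul_one]
      exact mul_le_mul (pv_cls_le _ (mem_words.1 hl)) (pv_cls_le _ (mem_words.1 hl'))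
        (pv_nonneg _ _) (mul_nonneg (by norm_num) (w_nonneg _ _))
    · rfl

open Classical in
theorem Big.cost3 (hb : G.Big) (b m m' : ℕ) (F : Γ → Finset Γ) (Q : Γ → Γ → Prop) {C c : ℕ}
    (hF : ∀ t, (F t).card ≤ C) (h : ∀ f g, G.cnt f (m' * (b + 1)) (Q g) ≤ 512 ^ (m' * (b + 1)) * c) :
    CL (G.pv (b + 1)) (G.F3 (b + 1) m m' F Q)
      (G.T.card * (C * (64 ^ m * (c * (8 * (512 / 2047) ^ (b + 1)) ^ m')))) := by
  refine (cl_fin (pv_nonneg _) (G.T.sigma fun t => (F t).sigma fun f =>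
    (words A (m * (b + 1))).sigma fun l => (words A (m' * (b + 1))).filter
      fun l' => G.V f l' ∧ Q (G.en t l) (G.en f l'))
    fun i => G.cl (b + 1) m i.1 i.2.2.1 ++ G.cl (b + 1) m' i.2.1 i.2.2.2).imp ?_ ?_
  · rintro _ ⟨t, ht, f, hf, l, l', h1, h2, h3, h4, rfl⟩
    exact ⟨⟨t, f, l, l'⟩, mem_sigma.2 ⟨ht, mem_sigma.2 ⟨hf, mem_sigma.2 ⟨mem_words.2 h1,
      mem_filter.2 ⟨mem_words.2 h2, h3, h4⟩⟩⟩⟩, rfl⟩
  · simp only [sum_sigma, List.map_append, List.prod_append, ← mul_sum]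
    refine (sum_le_card_nsmul _ _ _ fun t _ => (sum_le_card_nsmul _ _
      (64 ^ m * (c * (8 * (512 / 2047 : ℝ) ^ (b + 1)) ^ m')) fun f _ => ?_).trans ?_).trans_eq
      (nsmul_eq_mul _ _)
    · refine (sum_le_sum fun l _ => mul_le_mul_of_nonneg_left (c := c * (8 * (512 / 2047 : ℝ) ^
        (b + 1)) ^ m') ?_ (cl_nonneg _ _ _ _)).trans ?_
      · refine (sum_le_card_nsmul _ _ _ fun i _ => hb.cl_le b m' _ _).trans ?_
        have h1 : (G.cnt f (m' * (b + 1)) (Q (G.en t l)) : ℝ) ≤ 512 ^ (m' * (b + 1)) * c := by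
          exact_mod_cast h f _
        rw [nsmul_eq_mul]
        refine (mul_le_mul_of_nonneg_right h1 (by positivity)).trans_eq ?_
        rw [div_eq_mul_inv, mul_pow, mul_pow, mul_pow, mul_pow, mul_comm m', pow_mul]
        ring
      · rw [← sum_mul]
        exact mul_le_mul_of_nonneg_right (hb.sum_cl _ _ _) (by positivity)
    · rw [nsmul_eq_mul]
      exact mul_le_mul_of_nonneg_right (by exact_mod_cast hF t) (by positivity)

end Gr

end Pool.Agent.MP_c34dea_an.H66.Rnd
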