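import Pool.Agent.MP_c34dea_an.H66.H3

set_option autoImplicit false

/-! Module H, part 4: selection, chains and avoidance. -/

namespace Pool.Agent.MP_c34dea_an.H66.Rnd

open Finset

namespace Gr

variable {A : Type} [Fintype A] {Γ : Type} [Group Γ] {H : Subgroup Γ} {G : Gr A H}

open Classical in
theorem ncard_Sg (b : ℕ) (S : Finset (Sym2 (Γ × List A))) (t : Γ) :
    {p : List A × Γ | (t, p.1, p.2) ∈ G.Sg b S}.ncard =
      ((words A b).filter fun l => G.w t l ≠ 0 ∧ G.cls t l ∈ S).card := by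
  rw [← card_image_of_injective _ (f := fun l => (l, G.en t l))
    fun _ _ h => congrArg Prod.fst h, ← Set.ncard_coe_finset]
  congr 1
  ext ⟨l, g⟩
  simp only [Sg, Set.mem_ofPred_eq, coe_image, coe_filter, mem_words, Set.mem_image,
    Prod.mk.injEq]
  exact ⟨fun h => ⟨l, ⟨h.2.1, h.1, h.2.2.2⟩, rfl, h.2.2.1⟩, by
    rintro ⟨l, h, rfl, rfl⟩
    exact ⟨h.2.1, h.1, rfl, h.2.2⟩⟩

theorem ncard_mul {γ : Γ} (hγ : γ ∈ H) (b : ℕ) (S : Finset (Sym2 (Γ × List A))) (t : Γ) :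
    {p : List A × Γ | (γ * t, p.1, p.2) ∈ G.Sg b S}.ncard =
      {p : List A × Γ | (t, p.1, p.2) ∈ G.Sg b S}.ncard := by
  rw [ncard_Sg, ncard_Sg]
  congr 1
  ext l
  simp only [mem_filter, G.w_mul hγ, G.cls_mul hγ]

open Classical in
theorem Big.select (hb : G.Big) (hd : 3276 * G.T.card ≤ ∑ t ∈ G.T, G.deg t) (b : ℕ)
    {P : List (Sym2 (Γ × List A)) → Prop} (hc : CL (G.pv (b + 1)) P (3 * G.T.card))
    (hne : ∀ l, P l → l ≠ []) : ∃ S, Av S P ∧ 3 * G.T.card ≤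
      ∑ t ∈ G.T, {p : List A × Γ | (t, p.1, p.2) ∈ G.Sg (b + 1) S}.ncard := by
  set D := (G.T ×ˢ words A (b + 1)).filter fun x => G.w x.1 x.2 ≠ 0 with hD
  obtain ⟨S, h1, h2, h3⟩ := altL (D.image fun x => G.cls x.1 x.2) (fun z => ⟨pv_nonneg _ z,
    (hb.pv_le b z).trans (by
      have : (2047⁻¹ : ℝ) ^ b ≤ 1 := pow_le_one₀ (by norm_num) (by norm_num)
      rw [pow_succ]
      linarith)⟩) hc hne
  refine ⟨S, h2, ?_⟩
  have h4 : ∑ x ∈ D, G.pv (b + 1) (G.cls x.1 x.2) = 256⁻¹ * ((∑ t ∈ G.T, G.deg t : ℕ) : ℝ) := by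
    rw [sum_congr rfl fun x hx => hb.pv_cls (mem_words.1 (mem_product.1 (mem_filter.1 hx).1).2)
      (of_w (mem_filter.1 hx).2).1, ← mul_sum, sum_filter_ne_zero, sum_product]
    simp only [hb.sum_w', Nat.cast_sum]
  have h5 : ∑ x ∈ D, G.pv (b + 1) (G.cls x.1 x.2) ≤
      2 * ∑ z ∈ D.image fun x => G.cls x.1 x.2, G.pv (b + 1) z := by
    rw [sum_comp (G.pv (b + 1)) fun x : Γ × List A => G.cls x.1 x.2, mul_sum]
    refine sum_le_sum fun z _ => ?_
    rw [nsmul_eq_mul]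
    refine mul_le_mul_of_nonneg_right ?_ (pv_nonneg _ _)
    have : (D.filter fun x => G.cls x.1 x.2 = z).card ≤ 2 := by
      refine (card_le_card (t := z.toFinset) fun x hx => ?_).trans ?_
      · obtain ⟨hx', rfl⟩ := mem_filter.1 hx
        rw [Sym2.mem_toFinset, cls, G.rep_of_mem (mem_product.1 (mem_filter.1 hx').1).1]
        exact Sym2.mem_mk_left _ _
      · rw [Sym2.card_toFinset]
        split_ifs <;> omega
    exact_mod_cast this
  have h6 : S.card ≤ ∑ t ∈ G.T, {p : List A × Γ | (t, p.1, p.2) ∈ G.Sg (b + 1) S}.ncard := by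
    simp only [ncard_Sg]
    rw [← card_sigma]
    refine (card_le_card fun z hz => ?_).trans (card_image_le (f := fun x => G.cls x.1 x.2))
    obtain ⟨x, hx, rfl⟩ := mem_image.1 (h1 hz)
    simp only [hD, mem_filter, mem_product] at hx
    exact mem_image.2 ⟨⟨x.1, x.2⟩, mem_sigma.2 ⟨hx.1.1, mem_filter.2 ⟨hx.1.2, hx.2, hz⟩⟩, rfl⟩
  refine le_trans ?_ h6
  have h7 : (3276 * G.T.card : ℝ) ≤ ((∑ t ∈ G.T, G.deg t : ℕ) : ℝ) := by exact_mod_cast hd
  have h8 : (0 : ℝ) ≤ G.T.card := Nat.cast_nonneg _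
  have : (3 * G.T.card : ℝ) ≤ S.card := by linarith
  exact_mod_cast this

theorem cls_eq {g g' : Γ} {l l' : List A} (h : G.cls g l = G.cls g' l') :
    (G.rep g = G.rep g' ∧ l = l') ∨
      (G.rep g = G.rep (G.en g' l') ∧ G.rep (G.en g l) = G.rep g' ∧ G.lr l = l') := by
  simp only [cls, Sym2.eq_iff, Prod.mk.injEq] at h
  exact h.imp And.left fun h => ⟨h.1.1, h.2⟩

variable {b : ℕ} {S : Finset (Sym2 (Γ × List A))}

/-- a non-backtracking chain of chosen segments -/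
def Ch (G : Gr A H) (b : ℕ) (S : Finset (Sym2 (Γ × List A))) (x : ℕ → Γ) (lw : ℕ → List A)
    (m : ℕ) : Prop :=
  (∀ i < m, (x i, lw i, x (i + 1)) ∈ G.Sg b S) ∧ ∀ i, i + 2 ≤ m → x (i + 2) ≠ x i

/-- the classes along a chain -/
def cc (G : Gr A H) (x : ℕ → Γ) (lw : ℕ → List A) (m : ℕ) : List (Sym2 (Γ × List A)) :=
  (List.range m).map fun i => G.cls (x i) (lw i)

variable {x y : ℕ → Γ} {lw lw' : ℕ → List A} {m m' : ℕ}

theorem ch_one {g g' : Γ} {l : List A} (h : (g, l, g') ∈ G.Sg b S) :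
    G.Ch b S (fun i => Nat.casesOn i g fun _ => g') (fun _ => l) 1 :=
  ⟨fun i hi => by rwa [Nat.lt_one_iff.1 hi], fun i hi => by omega⟩

theorem Ch.shift (h : G.Ch b S x lw m) {i d : ℕ} (hi : i + d ≤ m) :
    G.Ch b S (fun k => x (i + k)) (fun k => lw (i + k)) d :=
  ⟨fun k _ => h.1 (i + k) (by omega), fun k _ => h.2 (i + k) (by omega)⟩

theorem Ch.ex (h : G.Ch b S x lw m) {γ : Γ} (hγ : γ ∈ H) : ∃ l, l.length = m * b ∧
    G.V (γ * x 0) l ∧ G.en (γ * x 0) l = γ * x m ∧ G.cl b m (γ * x 0) l = G.cc x lw m := by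
  simp only [G.V_mul hγ, G.en_mul hγ, G.cl_mul hγ, mul_right_inj]
  induction m generalizing x lw with
  | zero => exact ⟨[], by simp, trivial, rfl, rfl⟩
  | succ m ih =>
    obtain ⟨l, h1, h2, h3, h4⟩ := ih (h.shift (add_comm 1 m).le)
    obtain ⟨a1, a2, a3, -⟩ := h.1 0 m.succ_pos
    simp only at a1 a2 a3 h2 h3 h4
    refine ⟨lw 0 ++ l, by rw [List.length_append, h1, a2]; ring,
      (G.V_append _ _ _).2 ⟨(of_w a1).1, a3 ▸ h2⟩, by rw [en_append, a3, h3, add_comm], ?_⟩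
    rw [cl, List.take_left' a2, List.drop_left' a2, a3, h4, cc, cc, List.range_succ_eq_map,
      List.map_cons, List.map_map]
    simp only [add_comm 1]
    rfl

theorem Ch.mem (h : G.Ch b S x lw m) : ∀ a ∈ G.cc x lw m, a ∈ S := fun a ha => by
  obtain ⟨i, hi, rfl⟩ := List.mem_map.1 ha
  exact (h.1 i (List.mem_range.1 hi)).2.2.2

theorem Ch.nodup (h : G.Ch b S x lw m) (hd : ∀ i j, i < j → j < m → G.rep (x i) ≠ G.rep (x j)) :
    (G.cc x lw m).Nodup := by
  refine List.pairwise_map.2 (List.pairwise_lt_range.imp_of_mem fun {i j} _ hj hij e => ?_)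
  have hj := List.mem_range.1 hj
  obtain ⟨a1, -, a3, -⟩ := h.1 i (by omega)
  simp only at a1 a3
  rcases cls_eq e with e | ⟨-, e, e'⟩
  · exact hd i j hij hj e.1
  · obtain rfl : j = i + 1 := by
      by_contra hne
      exact hd (i + 1) j (by omega) hj (a3 ▸ e)
    refine h.2 i hj ((h.1 _ hj).2.2.1.symm.trans ?_)
    simp only
    rw [← e', ← a3, (V_rev (of_w a1).1).2]

theorem Ch.av1 (h : G.Ch b S x lw m) (hd : ∀ i j, i < j → j < m → G.rep (x i) ≠ G.rep (x j))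
    {Q : Γ → Γ → Prop} (ha : Av S (G.F1 b m Q))
    (hQ : ∀ γ ∈ H, ∀ g g', Q g g' → Q (γ * g) (γ * g')) : ¬ Q (x 0) (x m) := fun hq => by
  obtain ⟨l, h1, h2, h3, h4⟩ := h.ex (G.gamH (x 0))
  exact ha _ ⟨_, G.repT _, l, h1, h2, h3 ▸ hQ _ (G.gamH _) _ _ hq, h4.symm⟩ (h.nodup hd) h.mem

theorem Ch.dist (h : G.Ch b S x lw m)
    (ha : ∀ d, 1 ≤ d → d ≤ m → Av S (G.F1 b d fun g g' => G.rep g = G.rep g'))
    (i j : ℕ) (hij : i < j) (hj : j ≤ m) : G.rep (x i) ≠ G.rep (x j) := by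
  obtain ⟨d, rfl⟩ := Nat.exists_eq_add_of_le hij.le
  induction d using Nat.strong_induction_on generalizing i with
  | _ d ih =>
    refine (h.shift hj).av1 (fun a c hac hc => ?_) (ha d (by omega) (by omega))
      fun γ hγ g g' e => by rw [G.rep_mul hγ, G.rep_mul hγ, e]
    have := ih (c - a) (by omega) (i + a) (by omega) (by omega)
    rwa [show i + a + (c - a) = i + c by omega] at this

theorem av2 {R : Γ → List A → List A → Prop} (ha : Av S (G.F2 b R))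
    (hR : ∀ γ ∈ H, ∀ g l l', R g l l' → R (γ * g) l l') {g g1 g2 : Γ} {l l' : List A}
    (h1 : (g, l, g1) ∈ G.Sg b S) (h2 : (g, l', g2) ∈ G.Sg b S) (hl : l ≠ l')
    (hg : G.rep g ≠ G.rep g2) : ¬ R g l l' := fun hr => by
  refine ha [G.cls g l, G.cls g l'] ⟨_, G.repT g, l, l', h1.2.1, h2.2.1,
    hR _ (G.gamH _) _ _ _ hr, by rw [G.cls_mul (G.gamH _), G.cls_mul (G.gamH _)]⟩ ?_ ?_
  · refine List.nodup_cons.2 ⟨fun e => ?_, List.nodup_singleton _⟩
    rcases cls_eq (List.mem_singleton.1 e) with e | e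
    · exact hl e.2
    · exact hg (e.1.trans (congrArg _ h2.2.2.1))
  · simpa using ⟨h1.2.2.2, h2.2.2.2⟩

theorem Ch.av3 (h : G.Ch b S x lw m) (h' : G.Ch b S y lw' m')
    (hd : ∀ i j, i < j → j < m → G.rep (x i) ≠ G.rep (x j))
    (hd' : ∀ i j, i < j → j < m' → G.rep (y i) ≠ G.rep (y j))
    (hx : ∀ i ≤ m, ∀ j ≤ m', G.rep (x i) ≠ G.rep (y j)) {F : Γ → Finset Γ} {Q : Γ → Γ → Prop}
    (ha : Av S (G.F3 b m m' F Q)) {γ : Γ} (hγ : γ ∈ H) (hf : γ * y 0 ∈ F (G.rep (x 0))) :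
    ¬ Q (G.gam (x 0) * x m) (γ * y m') := fun hq => by
  obtain ⟨l, h1, -, h3, h4⟩ := h.ex (G.gamH (x 0))
  obtain ⟨l', a1, a2, a3, a4⟩ := h'.ex hγ
  refine ha _ ⟨_, G.repT _, _, hf, l, l', h1, a1, a2, by rwa [h3, a3], by rw [h4, a4]⟩
    (List.nodup_append.2 ⟨h.nodup hd, h'.nodup hd', fun a ha c hc e => ?_⟩)
    fun a ha => (List.mem_append.1 ha).elim (h.mem a) (h'.mem a)
  obtain ⟨i, hi, rfl⟩ := List.mem_map.1 ha
  obtain ⟨j, hj, rfl⟩ := List.mem_map.1 hc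
  rw [List.mem_range] at hi hj
  rcases cls_eq e with e | e
  · exact hx i hi.le j hj.le e.1
  · exact hx i hi.le (j + 1) hj (e.1.trans (congrArg _ (h'.1 j hj).2.2.1))

theorem Sg_mul {γ : Γ} (hγ : γ ∈ H) {g g' : Γ} {l : List A} (h : (g, l, g') ∈ G.Sg b S) :
    (γ * g, l, γ * g') ∈ G.Sg b S :=
  ⟨G.w_mul hγ g l ▸ h.1, h.2.1, (G.en_mul hγ g l).trans (congrArg _ h.2.2.1),
    G.cls_mul hγ g l ▸ h.2.2.2⟩

theorem Big.Sg_rev (hb : G.Big) {g g' : Γ} {l : List A} (h : (g, l, g') ∈ G.Sg b S) :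
    (g', G.lr l, g) ∈ G.Sg b S := by
  obtain ⟨h1, h2, h3, h4⟩ := h
  obtain rfl : G.en g l = g' := h3
  have hv := (of_w h1).1
  exact ⟨hb.w_rev hv ▸ h1, (G.length_lr l).trans h2, (V_rev hv).2, cls_rev hv ▸ h4⟩

theorem Big.clash (hb : G.Big) (b : ℕ) :
    CL (G.pv (b + 1)) (G.F2 (b + 1) fun _ l l' => l.head? = l'.head?) (G.T.card * 4⁻¹) := by
  refine (cost2 _ _).imp (fun _ h => h) ((sum_le_card_nsmul _ _ _ fun t _ => ?_).trans_eq
    (nsmul_eq_mul _ _))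
  refine (sum_le_sum (g := fun l => 256⁻¹ * 256⁻¹ * G.w t l) fun l hl => ?_).trans ?_
  · obtain ⟨a, l, rfl⟩ := List.exists_cons_of_length_eq_add_one (mem_words.1 hl)
    have := w_nonneg (G := G) t (a :: l)
    rw [sum_words_succ]
    refine ((sum_eq_single a (fun c _ hc => sum_eq_zero fun _ _ => if_neg fun e =>
      hc (Option.some.inj e).symm) (by simp)).trans (sum_congr rfl fun _ _ => if_pos rfl)).trans_le ?_
    rw [← mul_sum, ← mul_sum, hb.sum_w]
    split_ifs <;> linarith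
  · have : (G.deg t : ℝ) ≤ 16384 := by exact_mod_cast deg_le t
    rw [← mul_sum, hb.sum_w']
    linarith

theorem Big.junc (hb : G.Big) (de : Γ → Γ → ℕ) (hs : ∀ g g', de g g' = de g' g)
    (ht : ∀ a b c, de a c ≤ de a b + de b c)
    (hi : ∀ γ ∈ H, ∀ g g', de (γ * g) (γ * g') = de g g') (b β : ℕ) (hβ : 1 ≤ β) :
    CL (G.pv (b + 1)) (G.F2 (b + 1) fun t l l' => l.head? ≠ l'.head? ∧
      de (G.en t l) (G.en t l') + 2 * β < de t (G.en t l) + de t (G.en t l'))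
      ((2 * G.tot de (b + 1) - G.tot de (2 * (b + 1))) / (8 * β)) := by
  refine (cost2 _ _).imp (fun _ h => h) ?_
  rw [← hb.junction de hi]
  simp only [sum_div]
  refine sum_le_sum fun t _ => sum_le_sum fun l hl => sum_le_sum fun l' _ => ?_
  have h0 : (0 : ℝ) < β := by exact_mod_cast hβ
  have h1 := w_nonneg (G := G) t l
  have h2 := w_nonneg (G := G) t l'
  have h3 := inv_nonneg.2 (dg_nonneg (G := G) t)
  have h4 : (de (G.en t l) (G.en t l') : ℝ) ≤ de t (G.en t l) + de t (G.en t l') := by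
    rw [hs t]
    exact_mod_cast ht _ t _
  split_ifs with c1 c2 c3
  · by_cases h : G.w t l = 0
    · simp [h]
    · obtain ⟨a, l, rfl⟩ := List.exists_cons_of_length_eq_add_one (mem_words.1 hl)
      have h5 := hb.dg (of_w h).1.1
      have h6 : G.dg t ≤ 16384 := by
        have := deg_le (G := G) t
        exact Nat.cast_le_ofNat.2 (by omega : G.deg t - 1 ≤ 16384)
      have h7 : (de (G.en t (a :: l)) (G.en t l') : ℝ) + 2 * β ≤
          de t (G.en t (a :: l)) + de t (G.en t l') := by exact_mod_cast c1.2.le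
      have h8 := inv_anti₀ (by linarith) h6
      rw [le_div_iff₀ (by linarith)]
      refine le_trans ?_ (mul_le_mul (b := G.w t (a :: l) * (G.dg t)⁻¹ * G.w t l')
        (a := G.w t (a :: l) * 16384⁻¹ * G.w t l') (c := 2 * β) (by gcongr) (by linarith)
        (by positivity) (by positivity))
      exact le_of_eq (by ring)
  · exact absurd c1.1 c2
  · exact div_nonneg (mul_nonneg (by positivity) (by linarith)) (by positivity)
  · simp

theorem Big.tot_le (hb : G.Big) (de : Γ → Γ → ℕ) (L : ℕ) (h0 : ∀ g, de g g = 0)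
    (ht : ∀ a b c, de a c ≤ de a b + de b c) (hL : ∀ g a, G.E g a → de g (G.s g a) ≤ L) (b : ℕ) :
    0 ≤ G.tot de (b + 1) ∧ G.tot de (b + 1) ≤ G.T.card * (16384 * (L * (b + 1 : ℕ))) := by
  have key : ∀ l g, G.V g l → de g (G.en g l) ≤ L * l.length := by
    intro l
    induction l with
    | nil => exact fun g _ => (h0 g).le
    | cons a l ih =>
      intro g h
      have := (ht _ _ _).trans (add_le_add (hL g a h.1) (ih _ h.2))
      rwa [List.length_cons, mul_add, mul_one, add_comm]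
  refine ⟨sum_nonneg fun _ _ => sum_nonneg fun _ _ => mul_nonneg (w_nonneg _ _) (by positivity),
    (sum_le_card_nsmul _ _ _ fun t _ => ?_).trans_eq (nsmul_eq_mul _ _)⟩
  refine (sum_le_sum (g := fun l => G.w t l * (L * (b + 1 : ℕ))) fun l hl => ?_).trans ?_
  · by_cases h : G.w t l = 0
    · simp [h]
    · have := key l t (of_w h).1
      rw [mem_words.1 hl] at this
      exact mul_le_mul_of_nonneg_left (by exact_mod_cast this) (w_nonneg _ _)
  · rw [← sum_mul, hb.sum_w']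
    exact mul_le_mul_of_nonneg_right (by exact_mod_cast deg_le t) (by positivity)

end Gr

end Pool.Agent.MP_c34dea_an.H66.Rnd
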