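import Pool.Agent.MP_c34dea_an.H66.Avg

set_option autoImplicit false

open scoped Pointwise

namespace Pool.Agent.MP_c34dea_an.H66

section Comp

variable {S S' S'' : Type} {G : SimpleGraph S} {G' : SimpleGraph S'} {G'' : SimpleGraph S''}

/-- composition of labellings -/
noncomputable def Lab.comp (L : Lab G G') (L' : Lab G' G'') : Lab G G'' where
  lab h := L'.lab (L.hmap h)
  sq h k c := by
    obtain ⟨y, h1, h2, h3⟩ := c
    rcases L.sq h k ⟨y, h1, h2, h3⟩ with e | e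
    · rw [eq_of_mem_car_of_label (L.phi_mem_car h2) (L.phi_mem_car h1) e]
      exact mem_st_self _
    · exact L'.sq _ _ (L.cross_hmap ⟨y, h1, h2, h3⟩ e)

theorem Lab.phi_comp (L : Lab G G') (L' : Lab G' G'') (g : W G) :
    (L.comp L').phi g = L'.phi (L.phi g) := by
  induction g using W_ind with
  | h1 => simp
  | hs g s ih =>
    rw [Lab.phi_mul_gen, ih, L.phi_mul_gen, L'.phi_mul_gen, ← L.hmap_hyp]
    rfl

/-- the identity labelling -/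
def Lab.idL (G : SimpleGraph S) : Lab G G where
  lab h := h.1
  sq _ _ c := mem_st_of_adj c.adj

theorem Lab.phi_idL (g : W G) : (Lab.idL G).phi g = g := by
  induction g using W_ind with
  | h1 => simp
  | hs g s ih => rw [Lab.phi_mul_gen, ih]; rfl

theorem Geo.mono {V : Type} {ι : V → W G} {𝒢 : SimpleGraph V} {Des : V → V → Hyp G → Prop}
    {l B B' c : ℕ} (h : Geo ι 𝒢 Des l B c) (hB : B ≤ B') : Geo ι 𝒢 Des l B' c :=
  ⟨h.step, h.rate, fun x k hx i hi => (h.grom x k hx i hi).trans hB, h.ex, h.symm, h.adj, h.clean,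
    h.nest⟩

end Comp

/-- the geometric data of a stage -/
structure Geom where
  S : Type
  fin : Finite S
  G : SimpleGraph S
  L : Lab G0 G
  H : Subgroup Γ0
  fi : H.FiniteIndex
  inv : ∀ γ ∈ H, ∀ h, L.lab (γ • h) = L.lab h
  inj : ∀ g g', L.phi g = L.phi g' → g' * g⁻¹ ∈ H
  Y : Set (W G)
  n0 : ℕ
  BY : ℕ
  cvx : Cvx Y
  mem : ∀ g, L.phi g ∈ Y
  near : ∀ y ∈ Y, ∃ g, d y (L.phi g) ≤ BY
  Yinv : ∀ γ ∈ H, ∀ y ∈ Y, L.phi γ * y ∈ Y
  i4c : I4c Y n0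
  sc : SC Y n0
  Bad : Set (Γ0 × List (Fin 5))
  θ : ℝ
  θ_lt : θ < 1 / 4
  weight : Weight Bad θ
  bad_inv : ∀ γ ∈ H, ∀ g w, (g, w) ∈ Bad → (γ * g, w) ∈ Bad
  bad_rev : ∀ g w, (g, w) ∈ Bad → (g * word G0 w, w.reverse) ∈ Bad
  geo : ∀ g w1 w2, RedW (w1 ++ w2) → ¬ HasBad Bad g w1 → ¬ HasBad Bad (g * word G0 w1) w2 →
    d (L.phi g) (L.phi (g * word G0 (w1 ++ w2))) = (w1 ++ w2).length

namespace Geom

variable (s : Geom)

instance : Finite s.S := s.fin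

instance : s.H.FiniteIndex := s.fi

theorem phi_mul {γ : Γ0} (hγ : γ ∈ s.H) (g : Γ0) : s.L.phi (γ * g) = s.L.phi γ * s.L.phi g :=
  s.L.phi_mul_of_inv (s.inv γ hγ) g

theorem phi_inv {γ : Γ0} (hγ : γ ∈ s.H) : s.L.phi γ⁻¹ = (s.L.phi γ)⁻¹ := by
  have := s.phi_mul hγ γ⁻¹
  rw [mul_inv_cancel, Lab.phi_one] at this
  exact (inv_eq_of_mul_eq_one_right this.symm).symm

/-- preimage of a subgroup -/
def pre (A : Subgroup (W s.G)) : Subgroup Γ0 where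
  carrier := {γ | γ ∈ s.H ∧ s.L.phi γ ∈ A}
  one_mem' := ⟨s.H.one_mem, by simp⟩
  mul_mem' := fun {a b} ha hb => ⟨s.H.mul_mem ha.1 hb.1, by
    rw [s.phi_mul ha.1]; exact A.mul_mem ha.2 hb.2⟩
  inv_mem' := fun {a} ha => ⟨s.H.inv_mem ha.1, by rw [s.phi_inv ha.1]; exact A.inv_mem ha.2⟩

theorem mem_pre {A : Subgroup (W s.G)} {γ : Γ0} : γ ∈ s.pre A ↔ γ ∈ s.H ∧ s.L.phi γ ∈ A := Iff.rfl

/-- image of a subgroup -/
def img (H' : Subgroup Γ0) : Subgroup (W s.G) where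
  carrier := {δ | ∃ γ ∈ H', γ ∈ s.H ∧ s.L.phi γ = δ}
  one_mem' := ⟨1, H'.one_mem, s.H.one_mem, by simp⟩
  mul_mem' := by
    rintro _ _ ⟨a, ha, ha', rfl⟩ ⟨b, hb, hb', rfl⟩
    exact ⟨a * b, H'.mul_mem ha hb, s.H.mul_mem ha' hb', s.phi_mul ha' b⟩
  inv_mem' := by
    rintro _ ⟨a, ha, ha', rfl⟩
    exact ⟨a⁻¹, H'.inv_mem ha, s.H.inv_mem ha', s.phi_inv ha'⟩

theorem mem_img {H' : Subgroup Γ0} {δ : W s.G} :
    δ ∈ s.img H' ↔ ∃ γ ∈ H', γ ∈ s.H ∧ s.L.phi γ = δ := Iff.rfl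

/-- the kernel -/
noncomputable def Ker : Subgroup Γ0 := s.pre ⊥

theorem mem_Ker {γ : Γ0} : γ ∈ s.Ker ↔ γ ∈ s.H ∧ s.L.phi γ = 1 := Iff.rfl

theorem Ker_le : s.Ker ≤ s.H := fun _ h => h.1

theorem mem_Ker_of_eq {g g' : Γ0} (h : s.L.phi g = s.L.phi g') : g' * g⁻¹ ∈ s.Ker := by
  have h1 := s.inj g g' h
  refine ⟨h1, ?_⟩
  have := s.phi_mul h1 g
  rw [inv_mul_cancel_right, h] at this
  exact (mul_eq_right.1 this.symm : s.L.phi (g' * g⁻¹) = 1)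

theorem normalIn {H' : Subgroup Γ0} (h1 : s.Ker ≤ H') (h2 : H' ≤ s.H) : NormalIn s.Ker H' := by
  refine ⟨h1, fun γ hγ κ hκ => ⟨s.H.mul_mem (s.H.mul_mem (h2 hγ) hκ.1) (s.H.inv_mem (h2 hγ)), ?_⟩⟩
  have hκ' : s.L.phi κ = 1 := hκ.2
  show s.L.phi (γ * κ * γ⁻¹) = 1
  rw [mul_assoc, s.phi_mul (h2 hγ), s.phi_mul hκ.1, hκ', s.phi_inv (h2 hγ)]
  simp

theorem fi_pre {H' : Subgroup Γ0} [H'.FiniteIndex] (hle : H' ≤ s.H) {A : Subgroup (W s.G)}
    (hA : (A.subgroupOf (s.img H')).FiniteIndex) : (H' ⊓ s.pre A).FiniteIndex := by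
  obtain ⟨F, hF⟩ := cover_of_fi H'
  obtain ⟨F', hF'⟩ := cover_of_fi (A.subgroupOf (s.img H'))
  choose c hc using fun δ : s.img H' => s.mem_img.1 δ.2
  refine fi_of_cover (F := (fun p : s.img H' × Γ0 => c p.1 * p.2) '' (↑F' ×ˢ ↑F))
    ((F'.finite_toSet.prod F.finite_toSet).image _) fun g => ?_
  obtain ⟨f, hf, h1⟩ := hF g
  obtain ⟨δ, hδ, h2⟩ := hF' ⟨s.L.phi (g * f⁻¹), _, h1, hle h1, rfl⟩
  refine ⟨_, ⟨(δ, f), ⟨hδ, hf⟩, rfl⟩, ?_⟩
  have e : g * (c δ * f)⁻¹ = g * f⁻¹ * (c δ)⁻¹ := by group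
  show g * (c δ * f)⁻¹ ∈ H' ⊓ s.pre A
  rw [e]
  refine ⟨H'.mul_mem h1 (H'.inv_mem (hc δ).1), s.H.mul_mem (hle h1) (s.H.inv_mem (hc δ).2.1), ?_⟩
  rw [s.phi_mul (hle h1), s.phi_inv (hc δ).2.1, (hc δ).2.2]
  exact h2

theorem cov_of_finite {B : Set (W s.G)} (hB : B.Finite) {C : ℕ} (hC : B.ncard ≤ C) :
    Cov s.Ker {g | s.L.phi g ∈ B} C := by
  classical
  refine ⟨hB.toFinset.image (Function.invFun s.L.phi), ?_, fun g hg => ?_⟩
  · exact Finset.card_image_le.trans (by rw [← Set.ncard_eq_toFinset_card B hB]; exact hC)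
  · refine ⟨_, Finset.mem_image.2 ⟨s.L.phi g, hB.mem_toFinset.2 hg, rfl⟩, ?_⟩
    exact s.mem_Ker_of_eq (Function.invFun_eq ⟨g, rfl⟩)

theorem cov_ball (p : W s.G) (n : ℕ) :
    Cov s.Ker {g | d p (s.L.phi g) ≤ n} ((Nat.card s.S + 1) ^ n) :=
  s.cov_of_finite (ball_finite p n) (ball_ncard p n)

theorem amb {H' : Subgroup Γ0} [H'.FiniteIndex] (hle : H' ≤ s.H) : Amb s.Y (s.img H') s.n0 := by
  refine ⟨s.cvx, ?_, s.i4c, s.sc, ?_⟩
  · rintro _ ⟨γ, -, hγ, rfl⟩ y hy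
    exact s.Yinv γ hγ y hy
  · obtain ⟨F, hF⟩ := cover_of_fi H'
    refine ⟨⋃ f ∈ F, {q | d (s.L.phi f) q ≤ s.BY},
      F.finite_toSet.biUnion fun f _ => ball_finite _ _, fun y hy => ?_⟩
    obtain ⟨g, hg⟩ := s.near y hy
    obtain ⟨f, hf, h1⟩ := hF g
    have h2 := H'.inv_mem h1
    refine ⟨_, ⟨_, h2, hle h2, rfl⟩, Set.mem_biUnion hf ?_⟩
    show d (s.L.phi f) (s.L.phi (g * f⁻¹)⁻¹ * y) ≤ s.BY
    have : s.L.phi f = s.L.phi (g * f⁻¹)⁻¹ * s.L.phi g := by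
      rw [← s.phi_mul (hle h2)]; congr 1; group
    rw [this, d_smul, d_comm]
    exact hg

end Geom

/-- the conclusion of the random construction for fixed constants -/
def RBody (C1 L βs bmax βmax : ℕ) : Prop :=
  ∀ CD : ℕ, ∃ m0 : ℕ,
    ∀ (Γ : Type) [Group Γ] (H K : Subgroup Γ) (u : Γ → Fin R0 → Option Γ) (de : Γ → Γ → ℕ)
      (Nr : Γ → Γ → Prop) (fams : List (Fam Γ)) (mmax : ℕ),
      H.FiniteIndex → NormalIn K H → Task H K u → PMetric H K de C1 →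
      (∀ g a g', St u g a g' → de g g' ≤ L) →
      (∀ g, Cov K {g' | Nr g g'} CD) → (∀ γ ∈ H, ∀ g g', Nr g g' → Nr (γ * g) (γ * g')) →
      (∀ f ∈ fams, FamOK H K f ∧ f.m ≤ mmax) →
      (fams.map (fun f => (f.C : ℝ) / 2 ^ f.m)).sum ≤ 1 → 2 ≤ mmax →
      (∀ γ ∈ H, ∀ g l, Wk u g l (γ * g) → l.length ≤ mmax * bmax → γ ∈ K) →
      ∃ (β0 b : ℕ) (Sg : Set (Γ × List Let × Γ)), βs ≤ β0 ∧ β0 ≤ βmax ∧ b ≤ bmax ∧
        Sys u H b Sg ∧ Early (sysG Sg) de C1 β0 ∧ (∀ f ∈ fams, Avoid (sysG Sg) f) ∧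
        ∀ x y m1 m2, NB (sysG Sg) x m1 → NB (sysG Sg) y m2 → m0 ≤ m1 → m1 ≤ m2 → m2 ≤ mmax →
          Nr (x 0) (y 0) → Nr (x m1) (y m2) → ∃ i ≤ m1, ∃ j ≤ m2, ∃ γ ∈ H, γ * x i = y j

/-- data attached to a bound on the word length -/
structure TyInfo where
  de : Γ0 → Γ0 → ℕ
  C1 : ℕ
  βs : ℕ
  bmax : ℕ
  βmax : ℕ
  B : ℕ
  c : ℕ
  fams : List (Fam Γ0)

/-- invariance of a designation -/
def DInv (s : Geom) (𝒢 : SimpleGraph Γ0) (Des : Γ0 → Γ0 → Hyp s.G → Prop) : Prop :=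
  ∀ γ ∈ s.H, (∀ v v', 𝒢.Adj v v' → 𝒢.Adj (γ * v) (γ * v')) →
    ∀ v v' h, Des v v' h → Des (γ * v) (γ * v') (s.L.phi γ • h)

structure TyOK (s : Geom) (L : ℕ) (t : TyInfo) : Prop where
  body : RBody t.C1 L t.βs t.bmax t.βmax
  pm : PMetric s.H s.Ker t.de t.C1
  lip : ∀ g g', t.de g g' ≤ d g g'
  fam : ∀ f ∈ t.fams, FamOK s.H s.Ker f
  sum : (t.fams.map (fun f => (f.C : ℝ) / 2 ^ f.m)).sum < 1
  tp : ∀ (𝒢 : SimpleGraph Γ0) (β0 : ℕ), t.βs ≤ β0 → β0 ≤ t.βmax → Early 𝒢 t.de t.C1 β0 →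
    (∀ g g', 𝒢.Adj g g' → d g g' ≤ L * t.bmax) → (∀ f ∈ t.fams, Avoid 𝒢 f) →
    ∃ Des, Geo s.L.phi 𝒢 Des (L * t.bmax) t.B t.c ∧ DInv s 𝒢 Des

theorem newType (hR : RandomStmt) (hE : EarlyStmt) (hI : DesEInvStmt) (s : Geom) (L : ℕ) :
    ∃ t, TyOK s L t := by
  obtain ⟨bmax, βmax, hb⟩ := hR (Nat.card s.S + 1) L (max s.n0 (Nat.card s.S) + 32) (by omega)
  refine ⟨⟨fun g g' => d (s.L.phi g) (s.L.phi g'), Nat.card s.S + 1, max s.n0 (Nat.card s.S) + 32,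
    bmax, βmax, βmax + 2 * max s.n0 (Nat.card s.S), 2, []⟩, hb, ?_, fun g g' => s.L.d_phi_le g g',
    by simp, by simp, ?_⟩
  · refine ⟨fun g => d_self _, fun g g' => d_comm _ _, fun a b c => d_triangle _ _ _, ?_,
      fun g n => s.cov_ball _ n⟩
    intro γ hγ g g'
    show d _ _ = d _ _
    rw [s.phi_mul hγ, s.phi_mul hγ, d_smul]
  · intro 𝒢 β0 h1 h2 he hl _
    refine ⟨_, (hE s.S s.G s.Y s.n0 Γ0 s.L.phi 𝒢 β0 (L * bmax) s.cvx s.i4c s.mem h1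
      (fun v v' h => ⟨he.far v v' h, (s.L.d_phi_le v v').trans (hl v v' h)⟩) ?_).mono
      (Nat.add_le_add_right h2 _), ?_⟩
    · intro v a b ha hb hab
      have h3 : d (s.L.phi v) (s.L.phi a) + d (s.L.phi v) (s.L.phi b) ≤
          d (s.L.phi a) (s.L.phi b) + 2 * β0 := he.junc v a b ha hb hab
      have h4 := d_add_eq (s.L.phi a) (s.L.phi v) (s.L.phi b)
      rw [d_comm (s.L.phi a) (s.L.phi v)] at h4
      omega
    · intro γ hγ hadj v v' h hd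
      exact hI s.S s.G Γ0 s.L.phi 𝒢 _ v v' _ _ _ h (hadj v v' hd.1) (s.phi_mul hγ v)
        (s.phi_mul hγ v') hd

theorem redW_geo (w : List (Fin 5)) (hw : RedW w) (g : Γ0) : d g (g * word G0 w) = w.length := by
  induction w generalizing g with
  | nil => simp
  | cons a w ih =>
    have h1 := ih hw.tail (g * gen G0 a)
    have e : g * word G0 (a :: w) = g * gen G0 a * word G0 w := by rw [word_cons, mul_assoc]
    rw [e, List.length_cons, ← h1]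
    have key : hyp (g * gen G0 a) a ∉ sep (g * gen G0 a) (g * gen G0 a * word G0 w) := by
      intro x
      cases w with
      | nil => simp at x
      | cons b w =>
        have h2 := ih hw.tail
        have hb : hyp (g * gen G0 a) b ∈ sep (g * gen G0 a) (g * gen G0 a * word G0 (b :: w)) := by
          rw [hyp_mem_sep_iff, h1]
          have := d_word_le (g * gen G0 a * gen G0 b) w
          rw [word_cons, ← mul_assoc, List.length_cons]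
          omega
        rcases desc x hb with e | e
        · exact (List.isChain_cons_cons.1 hw).1 e.symm
        · exact e
    have := d_step_not key
    rwa [mul_gen_gen] at this

/-- the initial stage -/
noncomputable def geom0 : Geom where
  S := Fin 5
  fin := inferInstance
  G := G0
  L := Lab.idL G0
  H := ⊤
  fi := inferInstance
  inv := fun _ _ _ => rfl
  inj := fun _ _ _ => trivial
  Y := Set.univ
  n0 := 1
  BY := 0
  cvx := fun _ _ _ _ _ _ => trivial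
  mem := fun _ => trivial
  near := fun y _ => ⟨y, by simp [Lab.phi_idL]⟩
  Yinv := fun _ _ _ _ => trivial
  i4c := by
    intro p _ q _ hd a ha b hb
    obtain ⟨k, hk⟩ := Finset.card_pos.1 (show 0 < (sep p q).card from hd)
    rcases ha k hk with e | e
    · rw [e]; exact hb k hk
    · exact e.elim
  sc := fun _ _ _ _ _ _ _ => trivial
  Bad := ∅
  θ := 0
  θ_lt := by norm_num
  weight := by
    intro g F hF
    have : F = ∅ := Finset.eq_empty_of_forall_notMem fun w hw => hF w hw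
    simp [this]
  bad_inv := fun _ _ _ _ h => h
  bad_rev := fun _ _ h => h
  geo := fun g w1 w2 hw _ _ => by
    rw [Lab.phi_idL, Lab.phi_idL]
    exact redW_geo _ hw g

end Pool.Agent.MP_c34dea_an.H66
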