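import Pool.Agent.MP_c34dea_an.H66.J1
import Pool.Agent.MP_c34dea_an.H66.Sepa

set_option autoImplicit false

open scoped Pointwise

namespace Pool.Agent.MP_c34dea_an.H66

structure ForestOut (s : Geom) (Hb : Subgroup Γ0) (𝒢 : SimpleGraph Γ0)
    (Des : Γ0 → Γ0 → Hyp s.G → Prop) (l B c D m0 mmax : ℕ) : Prop where
  le : Hb ≤ s.H
  ker : s.Ker ≤ Hb
  fi : Hb.FiniteIndex
  m0_pos : 1 ≤ m0
  geo : Geo s.L.phi 𝒢 Des l B c
  inv : ∀ γ ∈ Hb, ∀ v v', 𝒢.Adj v v' → 𝒢.Adj (γ * v) (γ * v')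
  dinv : ∀ γ ∈ Hb, ∀ v v' h, Des v v' h → Des (γ * v) (γ * v') (s.L.phi γ • h)
  deg : ∀ g, ∃ F : Finset Γ0, F.card ≤ 2 * R0 ∧ ∀ g', 𝒢.Adj g g' → g' ∈ F
  pieces : ∀ x y m1 m2, NB 𝒢 x m1 → NB 𝒢 y m2 → m0 ≤ m1 → m1 ≤ m2 → m2 ≤ mmax →
    d (s.L.phi (x 0)) (s.L.phi (y 0)) ≤ D → d (s.L.phi (x m1)) (s.L.phi (y m2)) ≤ D →
    ∃ i ≤ m1, ∃ j ≤ m2, s.L.phi (x i) = s.L.phi (y j)

theorem NB_bot {V : Type} {x : ℕ → V} {k : ℕ} (h : NB (⊥ : SimpleGraph V) x k) : k = 0 := by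
  by_contra e
  exact h.1 0 (by omega)

theorem forest_skip (s : Geom) (D mmax : ℕ) :
    ForestOut s s.H ⊥ (fun _ _ _ => False) 0 0 0 D 1 mmax := by
  refine ⟨le_rfl, s.Ker_le, s.fi, le_rfl, ⟨fun _ _ h => h.elim, ?_, ?_, fun _ _ h => h.elim,
    fun _ _ _ h => h, fun _ _ _ h => h.elim, fun _ _ _ _ h => h.elim,
    fun _ _ _ _ _ _ h => h.elim⟩, fun _ _ _ _ h => h, fun _ _ _ _ _ h => h,
    fun g => ⟨∅, by simp, fun _ h => h.elim⟩, ?_⟩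
  · intro x k h
    rw [NB_bot h]; simp
  · intro x k h i hi
    have := NB_bot h
    subst this
    rw [Nat.le_zero.1 hi]; simp [gp]
  · intro x y m1 m2 h1 _ h2
    have := NB_bot h1
    omega

theorem St.d_le {u : Γ0 → Fin R0 → Option Γ0} {L : ℕ}
    (hu : ∀ g i w, u g i = some w → d 1 w ≤ L) {g g' : Γ0} {a : Let} (h : St u g a g') :
    d g g' ≤ L := by
  rcases h with ⟨-, w, h1, rfl⟩ | ⟨-, w, h1, rfl⟩
  · have := d_smul g 1 w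
    rw [mul_one] at this
    rw [this]; exact hu _ _ _ h1
  · have := d_smul g' 1 w
    rw [mul_one] at this
    rw [d_comm, this]; exact hu _ _ _ h1

theorem Wk.d_le {u : Γ0 → Fin R0 → Option Γ0} {L : ℕ}
    (hu : ∀ g i w, u g i = some w → d 1 w ≤ L) {g g' : Γ0} {l : List Let} (h : Wk u g l g') :
    d g g' ≤ L * l.length := by
  induction h with
  | nil g => simp
  | @cons g g' g'' a l h1 _ ih =>
    have := d_triangle g g' g''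
    have := h1.d_le hu
    rw [List.length_cons, Nat.mul_succ]
    omega

theorem Sys.adj_iff {Γ : Type} [Group Γ] {u : Γ → Fin R0 → Option Γ} {H : Subgroup Γ} {b : ℕ}
    {Sg : Set (Γ × List Let × Γ)} (h : Sys u H b Sg) {g g' : Γ} :
    (sysG Sg).Adj g g' ↔ g ≠ g' ∧ ∃ l, (g, l, g') ∈ Sg := by
  unfold sysG
  rw [SimpleGraph.fromRel_adj]
  constructor
  · rintro ⟨h1, h2 | ⟨l, h2⟩⟩
    · exact ⟨h1, h2⟩
    · exact ⟨h1, _, h.rev _ _ _ h2⟩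
  · rintro ⟨h1, h2⟩
    exact ⟨h1, Or.inl h2⟩

theorem exists_univ_let (n : ℕ) : ∃ U : Finset (Fin n × Bool), U.card = 2 * n ∧ ∀ a, a ∈ U :=
  ⟨Finset.univ, by simp [mul_comm], Finset.mem_univ⟩

theorem Sys.deg {Γ : Type} [Group Γ] {u : Γ → Fin R0 → Option Γ} {H : Subgroup Γ} {b : ℕ}
    {Sg : Set (Γ × List Let × Γ)} (h : Sys u H b Sg) (g : Γ) :
    ∃ F : Finset Γ, F.card ≤ 2 * R0 ∧ ∀ g', (sysG Sg).Adj g g' → g' ∈ F := by
  classical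
  let f : Let → Γ := fun a =>
    if e : ∃ g' l, (g, l, g') ∈ Sg ∧ l.head? = some a then e.choose else g
  obtain ⟨U, hc, hmem⟩ := exists_univ_let R0
  refine ⟨U.image f, Finset.card_image_le.trans hc.le, fun g' hg' => ?_⟩
  obtain ⟨-, l, hl⟩ := h.adj_iff.1 hg'
  have hlen := (h.walk _ _ _ hl).2.1
  have hb := h.b_pos
  cases l with
  | nil => simp at hlen; omega
  | cons a l =>
    refine Finset.mem_image.2 ⟨a, hmem _, ?_⟩
    have e : ∃ g' l, (g, l, g') ∈ Sg ∧ l.head? = some a := ⟨g', a :: l, hl, rfl⟩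
    obtain ⟨l', h1, h2⟩ := e.choose_spec
    simp only [f, dif_pos e]
    exact (h.imm _ _ _ _ _ h1 hl h2).2

theorem NB.d_le {S : Type} {G : SimpleGraph S} {V : Type} {ι : V → W G} {𝒢 : SimpleGraph V}
    {l : ℕ} (hl : ∀ v v', 𝒢.Adj v v' → d (ι v) (ι v') ≤ l) {x : ℕ → V} {k : ℕ} (h : NB 𝒢 x k)
    {i : ℕ} (hi : i ≤ k) : d (ι (x 0)) (ι (x i)) ≤ i * l := by
  induction i with
  | zero => simp
  | succ i ih =>
    have h1 := ih (by omega)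
    have h2 := hl _ _ (h.1 i (by omega))
    have := d_triangle (ι (x 0)) (ι (x i)) (ι (x (i + 1)))
    rw [Nat.succ_mul]
    omega

theorem exists_bound_fams (fams : List (Fam Γ0)) : ∃ M, ∀ f ∈ fams, f.m ≤ M :=
  ⟨(fams.map Fam.m).sum, fun _ hf => List.le_sum_of_mem (List.mem_map_of_mem hf)⟩

theorem forest_active (s : Geom) {L : ℕ} {t : TyInfo} (ht : TyOK s L t)
    {u : Γ0 → Fin R0 → Option Γ0} (hu : ∀ g i w, u g i = some w → d 1 w ≤ L)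
    {H' : Subgroup Γ0} (hfi : H'.FiniteIndex) (h1 : s.Ker ≤ H') (h2 : H' ≤ s.H)
    (htask : Task H' s.Ker u) (D : ℕ) :
    ∃ m0, ∀ mmax, ∃ (Hb : Subgroup Γ0) (b : ℕ) (Sg : Set (Γ0 × List Let × Γ0))
      (Des : Γ0 → Γ0 → Hyp s.G → Prop),
      ForestOut s Hb (sysG Sg) Des (L * t.bmax) t.B t.c D m0 mmax ∧ b ≤ t.bmax ∧
        Sys u Hb b Sg := by
  obtain ⟨m0, hb⟩ := ht.body ((Nat.card s.S + 1) ^ D)
  refine ⟨m0 + 1, fun mF => ?_⟩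
  obtain ⟨M, hM⟩ := exists_bound_fams t.fams
  obtain ⟨mmax, hmm⟩ : ∃ mmax, mmax = mF + M + 2 := ⟨_, rfl⟩
  obtain ⟨N, hN, hNfi, hdeep⟩ := exists_deep s.G (2 * (mmax * (L * t.bmax)) + D)
  have hfi' : (H' ⊓ s.pre N).FiniteIndex := s.fi_pre h2 inferInstance
  have hle : H' ⊓ s.pre N ≤ s.H := inf_le_left.trans h2
  have hker : s.Ker ≤ H' ⊓ s.pre N := fun κ hκ => ⟨h1 hκ, hκ.1, by
    have : s.L.phi κ = 1 := hκ.2
    rw [this]; exact N.one_mem⟩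
  have hdisp : ∀ γ ∈ H' ⊓ s.pre N, ∀ g, d (s.L.phi g) (s.L.phi (γ * g)) ≤
      2 * (mmax * (L * t.bmax)) + D → s.L.phi γ = 1 := by
    intro γ hγ g hd
    rw [s.phi_mul (hle hγ)] at hd
    exact hdeep.disp hN hγ.2.2 hd
  obtain ⟨β0, b, Sg, a1, a2, a3, hS, hE, hA, hB⟩ := hb Γ0 (H' ⊓ s.pre N) s.Ker u t.de
    (fun g g' => d (s.L.phi g) (s.L.phi g') ≤ D) t.fams mmax hfi' (s.normalIn hker hle)
    (htask.of_le inf_le_left) (ht.pm.mono hle le_rfl)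
    (fun g a g' h => (ht.lip g g').trans (h.d_le hu)) (fun g => s.cov_ball _ D)
    (fun γ hγ g g' h => by rw [s.phi_mul (hle hγ), s.phi_mul (hle hγ), d_smul]; exact h)
    (fun f hf => ⟨(ht.fam f hf).mono hle le_rfl, by have := hM f hf; omega⟩) ht.sum.le (by omega)
    (fun γ hγ g l hw hl => ⟨hle hγ, hdisp γ hγ g (by
      have e1 := s.L.d_phi_le g (γ * g)
      have e2 := hw.d_le hu
      have e3 : L * l.length ≤ mmax * (L * t.bmax) := by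
        rw [mul_left_comm]; exact Nat.mul_le_mul_left _ hl
      omega)⟩)
  have hstep : ∀ g g', (sysG Sg).Adj g g' → d g g' ≤ L * t.bmax := by
    intro g g' h
    obtain ⟨-, l, hl⟩ := hS.adj_iff.1 h
    have := hS.walk _ _ _ hl
    exact (this.1.d_le hu).trans (Nat.mul_le_mul_left _ (by rw [this.2.1]; exact a3))
  obtain ⟨Des, hgeo, hinv⟩ := ht.tp (sysG Sg) β0 a1 a2 hE hstep hA
  have hadj : ∀ γ ∈ H' ⊓ s.pre N, ∀ v v', (sysG Sg).Adj v v' → (sysG Sg).Adj (γ * v) (γ * v') := by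
    intro γ hγ v v' h
    obtain ⟨e, l, hl⟩ := hS.adj_iff.1 h
    exact hS.adj_iff.2 ⟨fun x => e (mul_left_cancel x), l, hS.inv γ hγ _ _ _ hl⟩
  refine ⟨_, b, Sg, Des, ⟨hle, hker, hfi', by omega, hgeo, hadj,
    fun γ hγ => hinv γ (hle hγ) (hadj γ hγ), hS.deg, ?_⟩, a3, hS⟩
  intro x y m1 m2 hx hy b1 b2 b3 b4 b5
  obtain ⟨i, hi, j, hj, γ, hγ, e⟩ := hB x y m1 m2 hx hy (by omega) b2 (by omega) b4 b5
  refine ⟨i, hi, j, hj, ?_⟩
  have c1 := hx.d_le hgeo.step hi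
  have c2 := hy.d_le hgeo.step hj
  have c3 : i * (L * t.bmax) ≤ mmax * (L * t.bmax) := Nat.mul_le_mul_right _ (by omega)
  have c4 : j * (L * t.bmax) ≤ mmax * (L * t.bmax) := Nat.mul_le_mul_right _ (by omega)
  have c5 := d_triangle (s.L.phi (x i)) (s.L.phi (x 0)) (s.L.phi (y j))
  have c6 := d_triangle (s.L.phi (x 0)) (s.L.phi (y 0)) (s.L.phi (y j))
  rw [d_comm (s.L.phi (x i)) (s.L.phi (x 0))] at c5
  have := hdisp γ hγ (x i) (by rw [e]; omega)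
  rw [← e, s.phi_mul (hle hγ), this, one_mul]

/-- the forest seen inside the Coxeter group -/
structure PushOut (s : Geom) (Hb : Subgroup Γ0) (𝒢 : SimpleGraph Γ0) (l B c D m0 mmax : ℕ) :
    Prop where
  forest : ∃ DesW, Forest s.Y (s.img Hb) (pushG s.L.phi 𝒢) DesW l B c
  pieces : Pieces (pushG s.L.phi 𝒢) D m0 mmax
  deg : ∀ p, ∃ F : Finset (W s.G), F.card ≤ 2 * R0 ∧ ∀ q, (pushG s.L.phi 𝒢).Adj p q → q ∈ F
  reach : ∀ v w, 𝒢.Reachable v w → (pushG s.L.phi 𝒢).Reachable (s.L.phi v) (s.L.phi w)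

theorem ForestOut.push (hP : PushStmt) {s : Geom} {Hb : Subgroup Γ0} {𝒢 : SimpleGraph Γ0}
    {Des : Γ0 → Γ0 → Hyp s.G → Prop} {l B c D m0 mmax : ℕ}
    (h : ForestOut s Hb 𝒢 Des l B c D m0 mmax) : PushOut s Hb 𝒢 l B c D m0 mmax := by
  classical
  have lift : ∀ v v' w, s.L.phi v = s.L.phi v' → 𝒢.Adj v w →
      ∃ w', 𝒢.Adj v' w' ∧ s.L.phi w' = s.L.phi w ∧ ∀ k, Des v w k → Des v' w' k := by
    intro v v' w e ha
    have hκ := s.mem_Ker_of_eq e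
    have h1 : s.L.phi (v' * v⁻¹) = 1 := hκ.2
    refine ⟨v' * v⁻¹ * w, ?_, by rw [s.phi_mul hκ.1, h1, one_mul], fun k hk => ?_⟩
    · simpa using h.inv _ (h.ker hκ) _ _ ha
    · simpa [h1] using h.dinv _ (h.ker hκ) _ _ _ hk
  obtain ⟨p1, p2, p3, -, p5⟩ := hP s.S s.G Γ0 s.L.phi 𝒢 Des l B c h.geo lift
  refine ⟨⟨_, ?_, ?_, ?_, p1⟩, ?_, ?_, p5⟩
  · intro p q hpq
    obtain ⟨v, w, -, rfl, -⟩ := (p2 p q).1 hpq
    exact s.mem v
  · rintro _ ⟨γ, hγ, hγ', rfl⟩ p q hpq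
    obtain ⟨v, w, ha, rfl, rfl⟩ := (p2 p q).1 hpq
    exact (p2 _ _).2 ⟨_, _, h.inv γ hγ v w ha, s.phi_mul hγ' v, s.phi_mul hγ' w⟩
  · rintro _ ⟨γ, hγ, hγ', rfl⟩ p q k ⟨v, w, hd, rfl, rfl⟩
    exact ⟨_, _, h.dinv γ hγ v w k hd, s.phi_mul hγ' v, s.phi_mul hγ' w⟩
  · intro x y m1 m2 hx hy b1 b2 b3 b4 b5
    have := h.m0_pos
    obtain ⟨v, -, -, e1, -⟩ := (p2 _ _).1 (hx.1 0 (by omega))
    obtain ⟨w, -, -, e2, -⟩ := (p2 _ _).1 (hy.1 0 (by omega))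
    obtain ⟨x', x0, hx', ex⟩ := p3 x m1 v hx e1
    obtain ⟨y', y0, hy', ey⟩ := p3 y m2 w hy e2
    obtain ⟨i, hi, j, hj, e⟩ := h.pieces x' y' m1 m2 hx' hy' b1 b2 b3
      (by rw [ex 0 (by omega), ey 0 (by omega)]; exact b4)
      (by rw [ex m1 le_rfl, ey m2 le_rfl]; exact b5)
    rw [ex i hi, ey j hj] at e
    exact (hx.reachable hi).trans (e ▸ (hy.reachable hj).symm)
  · intro p
    by_cases e : ∃ v, s.L.phi v = p
    · obtain ⟨v, rfl⟩ := e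
      obtain ⟨F, h1, h2⟩ := h.deg v
      refine ⟨F.image s.L.phi, Finset.card_image_le.trans h1, fun q hq => ?_⟩
      obtain ⟨v', w, ha, e1, rfl⟩ := (p2 _ _).1 hq
      obtain ⟨w', ha', e2, -⟩ := lift v' v w e1 ha
      exact Finset.mem_image.2 ⟨w', h2 w' ha', e2⟩
    · refine ⟨∅, by simp, fun q hq => ?_⟩
      obtain ⟨v', w, -, e1, -⟩ := (p2 _ _).1 hq
      exact absurd ⟨v', e1⟩ e

end Pool.Agent.MP_c34dea_an.H66
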