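import Pool.Agent.MP_c34dea_an.H66.J1

set_option autoImplicit false

open scoped Pointwise

namespace Pool.Agent.MP_c34dea_an.H66

theorem HasBad.sub {𝔅 : Set (Γ0 × List (Fin 5))} {g : Γ0} {w1 w2 : List (Fin 5)}
    (h : HasBad 𝔅 (g * word G0 w1) w2) (w3 : List (Fin 5)) : HasBad 𝔅 g (w1 ++ w2 ++ w3) := by
  obtain ⟨a, b, c, rfl, h⟩ := h
  exact ⟨w1 ++ a, b, c ++ w3, by simp, by simpa [mul_assoc] using h⟩

theorem HasBad.mono {𝔅 𝔅' : Set (Γ0 × List (Fin 5))} (hB : 𝔅 ⊆ 𝔅') {g : Γ0} {w : List (Fin 5)}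
    (h : HasBad 𝔅 g w) : HasBad 𝔅' g w := by
  obtain ⟨a, b, c, e, h⟩ := h
  exact ⟨a, b, c, e, hB h⟩

theorem HasBad.smul {𝔅 : Set (Γ0 × List (Fin 5))} {γ : Γ0}
    (hγ : ∀ g w, (g, w) ∈ 𝔅 → (γ * g, w) ∈ 𝔅) {g : Γ0} {w : List (Fin 5)}
    (h : HasBad 𝔅 g w) : HasBad 𝔅 (γ * g) w := by
  obtain ⟨a, b, c, e, h⟩ := h
  exact ⟨a, b, c, e, by rw [mul_assoc]; exact hγ _ _ h⟩

theorem RedW.reverse {w : List (Fin 5)} (h : RedW w) : RedW w.reverse := by
  unfold RedW at h ⊢
  rw [List.isChain_reverse]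
  exact h.imp fun _ _ x => x.symm

theorem RedW.sub {w1 w2 w3 : List (Fin 5)} (h : RedW (w1 ++ w2 ++ w3)) : RedW w2 :=
  (List.IsChain.left_of_append h).right_of_append

namespace Geom

variable (s : Geom)

theorem hasBad_rev {g : Γ0} {w : List (Fin 5)} (h : HasBad s.Bad g w) :
    HasBad s.Bad (g * word G0 w) w.reverse := by
  obtain ⟨a, b, c, rfl, h⟩ := h
  refine ⟨c.reverse, b.reverse, a.reverse, by simp, ?_⟩
  have := s.bad_rev _ _ h
  simpa [word_reverse, mul_assoc] using this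

theorem not_hasBad_rev {g : Γ0} {w : List (Fin 5)} (h : ¬ HasBad s.Bad g w) :
    ¬ HasBad s.Bad (g * word G0 w) w.reverse := by
  intro x
  have := s.hasBad_rev x
  rw [word_reverse, mul_inv_cancel_right, List.reverse_reverse] at this
  exact h this

theorem not_hasBad_nil (g : Γ0) : ¬ HasBad s.Bad g [] := by
  rintro ⟨a, b, c, e, h⟩
  have hb : b = [] := by
    have := congrArg List.length e
    simp only [List.length_nil, List.length_append] at this
    exact List.eq_nil_of_length_eq_zero (by omega)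
  subst hb
  have h1 := s.weight (g * word G0 a) {[]} (by simpa using h)
  have h2 := s.θ_lt
  simp at h1
  linarith

theorem geo1 {g : Γ0} {w : List (Fin 5)} (hw : RedW w) (h : ¬ HasBad s.Bad g w) :
    d (s.L.phi g) (s.L.phi (g * word G0 w)) = w.length := by
  simpa using s.geo g w [] (by simpa using hw) h (s.not_hasBad_nil _)

theorem good_unique {w w' : List (Fin 5)} {g : Γ0} (h1 : RedW w) (h2 : RedW w')
    (b1 : ¬ HasBad s.Bad g w) (b2 : ¬ HasBad s.Bad g w')
    (e : s.L.phi (g * word G0 w) = s.L.phi (g * word G0 w')) : w = w' := by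
  have key : ∀ (g : Γ0) (w w' : List (Fin 5)), RedW (w.reverse ++ w') → ¬ HasBad s.Bad g w →
      ¬ HasBad s.Bad g w' → s.L.phi (g * word G0 w) = s.L.phi (g * word G0 w') → w = w' := by
    intro g w w' hr b1 b2 e
    have := s.geo (g * word G0 w) w.reverse w' hr (s.not_hasBad_rev b1)
      (by rwa [word_reverse, mul_inv_cancel_right])
    rw [word_append, word_reverse, ← mul_assoc, mul_inv_cancel_right, e, d_self,
      List.length_append, List.length_reverse] at this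
    rw [List.eq_nil_of_length_eq_zero (l := w) (by omega),
      List.eq_nil_of_length_eq_zero (l := w') (by omega)]
  induction w generalizing g w' with
  | nil => exact key g [] w' (by simpa using h2) b1 b2 e
  | cons a w ih =>
    cases w' with
    | nil => exact key g _ [] (by simpa using h1.reverse) b1 b2 e
    | cons a' w' =>
      by_cases ea : a = a'
      · subst ea
        have := ih (g := g * gen G0 a) (w' := w') h1.tail h2.tail
          (fun x => b1 (by simpa using HasBad.sub (g := g) (w1 := [a]) (by simpa using x) []))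
          (fun x => b2 (by simpa using HasBad.sub (g := g) (w1 := [a]) (by simpa using x) []))
          (by simpa [mul_assoc] using e)
        rw [this]
      · refine key g _ _ ?_ b1 b2 e
        refine List.IsChain.append h1.reverse h2 ?_
        intro x hx y hy
        simp only [List.reverse_cons, List.getLast?_append, List.getLast?_singleton,
          Option.some_or, Option.mem_def, Option.some.injEq, List.head?_cons] at hx hy
        rw [← hx, ← hy]
        exact ea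

/-- the new bad walks -/
def NewBad (𝒯 : Set (Set (W s.G))) (E τ : ℕ) : Set (Γ0 × List (Fin 5)) :=
  {p | RedW p.2 ∧ ¬ HasBad s.Bad p.1 p.2 ∧ τ ≤ p.2.length ∧
    ∃ T ∈ 𝒯, Near E (s.L.phi p.1) T ∧ Near E (s.L.phi (p.1 * word G0 p.2)) T}

end Geom

theorem graph_ball {V : Type} {𝒢 : SimpleGraph V} {D : ℕ}
    (hdeg : ∀ p, ∃ F : Finset V, F.card ≤ D ∧ ∀ q, 𝒢.Adj p q → q ∈ F) (a : V) (k : ℕ) :
    ∃ F : Finset V, F.card ≤ (D + 1) ^ k ∧
      ∀ (x : ℕ → V) (j : ℕ), j ≤ k → x 0 = a → (∀ i < j, 𝒢.Adj (x i) (x (i + 1))) → x j ∈ F := by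
  classical
  choose N hN using hdeg
  induction k with
  | zero =>
    refine ⟨{a}, by simp, fun x j hj h0 _ => ?_⟩
    rw [Nat.le_zero.1 hj, h0]; simp
  | succ k ih =>
    obtain ⟨F, h1, h2⟩ := ih
    refine ⟨F.biUnion (fun p => insert p (N p)), ?_, fun x j hj h0 hx => ?_⟩
    · refine (Finset.card_biUnion_le_card_mul _ _ (D + 1) fun p _ => ?_).trans ?_
      · exact (Finset.card_insert_le _ _).trans (Nat.succ_le_succ (hN p).1)
      · rw [pow_succ]; exact Nat.mul_le_mul_right _ h1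
    · rcases Nat.eq_or_lt_of_le hj with e | e
      · subst e
        exact Finset.mem_biUnion.2 ⟨x k, h2 x k le_rfl h0 (fun i hi => hx i (by omega)),
          Finset.mem_insert_of_mem ((hN _).2 _ (hx k (by omega)))⟩
      · exact Finset.mem_biUnion.2 ⟨x j, h2 x j (by omega) h0 hx, Finset.mem_insert_self _ _⟩

theorem growth_num (n E : ℕ) :
    (((2 * R0 + 1) ^ ((n + E) / 128) : ℕ) : ℝ) ≤ ((2 * R0 + 1) ^ (E + 1) : ℕ) * (6 / 5 : ℝ) ^ n := by
  have h1 : (n + E) / 128 ≤ (E + 1) + n / 128 := by omega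
  have h2 : (2 * R0 + 1) ^ ((n + E) / 128) ≤ (2 * R0 + 1) ^ (E + 1) * (2 * R0 + 1) ^ (n / 128) := by
    rw [← pow_add]; exact Nat.pow_le_pow_right (by omega) h1
  have h3 : (((2 * R0 + 1 : ℕ) : ℝ)) ≤ (6 / 5 : ℝ) ^ 128 := by norm_num [R0]
  have h4 : (((2 * R0 + 1 : ℕ) : ℝ)) ^ (n / 128) ≤ (6 / 5 : ℝ) ^ n := by
    refine (pow_le_pow_left₀ (Nat.cast_nonneg _) h3 _).trans ?_
    rw [← pow_mul]
    exact pow_le_pow_right₀ (by norm_num) (Nat.mul_div_le n 128)
  refine (Nat.cast_le.2 h2).trans ?_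
  rw [Nat.cast_mul, Nat.cast_pow _ (n / 128)]
  exact mul_le_mul_of_nonneg_left h4 (Nat.cast_nonneg _)

theorem ball_finset {S : Type} [Finite S] {G : SimpleGraph S} (p : W G) (n : ℕ) :
    ∃ F : Finset (W G), F.card ≤ (Nat.card S + 1) ^ n ∧ ∀ q, d p q ≤ n → q ∈ F :=
  ⟨(ball_finite p n).toFinset, by
    rw [← Set.ncard_eq_toFinset_card _ (ball_finite p n)]; exact ball_ncard p n,
    fun q hq => (ball_finite p n).mem_toFinset.2 hq⟩

theorem newBad_count (s : Geom) {𝒢 : SimpleGraph (W s.G)} {cell : W s.G → Set (W s.G)} {B1 : ℕ}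
    (hO : CellOf s.Y 𝒢 cell B1) (hrate : ∀ x k, NB 𝒢 x k → 128 * k ≤ d (x 0) (x k))
    (hdeg : ∀ p, ∃ F : Finset (W s.G), F.card ≤ 2 * R0 ∧ ∀ q, 𝒢.Adj p q → q ∈ F) (E : ℕ) :
    ∃ A : ℝ, 0 ≤ A ∧ ∀ (τ : ℕ) (g : Γ0) (n : ℕ) (F : Finset (List (Fin 5))),
      (∀ w ∈ F, (g, w) ∈ s.NewBad (cell '' s.Y) E τ ∧ w.length = n) →
      (F.card : ℝ) ≤ A * (6 / 5 : ℝ) ^ n := by
  classical
  obtain ⟨C, hC⟩ : ∃ C, C = (Nat.card s.S + 1) ^ (E + B1) := ⟨_, rfl⟩
  refine ⟨(C * C : ℕ) * ((2 * R0 + 1) ^ (2 * (E + B1) + 1) : ℕ), by positivity,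
    fun τ g n F hF => ?_⟩
  choose ball hball using fun p : W s.G => ball_finset p (E + B1)
  choose gb hgb using fun a => graph_ball hdeg a ((n + 2 * (E + B1)) / 128)
  have h1 : F.card ≤ ((ball (s.L.phi g)).biUnion (fun a => (gb a).biUnion ball)).card := by
    refine Finset.card_le_card_of_injOn (fun w => s.L.phi (g * word G0 w)) (fun w hw => ?_)
      fun w hw w' hw' e => ?_
    · obtain ⟨⟨r1, r2, -, _, ⟨a, ha, rfl⟩, ⟨z, hz, n1⟩, ⟨z', hz', n2⟩⟩, hl⟩ := hF w hw
      obtain ⟨a1, ra1, m1⟩ := hO.near a ha z hz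
      obtain ⟨a2, ra2, m2⟩ := hO.near a ha z' hz'
      have hd := s.geo1 r1 r2
      simp only at n1 n2 hd
      have t1 := d_triangle (s.L.phi g) z a1
      have t2 := d_triangle (s.L.phi (g * word G0 w)) z' a2
      have t3 := d_triangle a1 (s.L.phi g) a2
      have t4 := d_triangle (s.L.phi g) (s.L.phi (g * word G0 w)) a2
      rw [d_comm a1 (s.L.phi g)] at t3
      obtain ⟨x, k, hx, x0, xk⟩ := exists_NB_of_reachable (ra1.symm.trans ra2)
      have hr := hrate x k hx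
      rw [x0, xk] at hr
      have t5 : d a2 (s.L.phi (g * word G0 w)) ≤ E + B1 := by rw [d_comm]; omega
      refine Finset.mem_coe.2 (Finset.mem_biUnion.2 ⟨a1, (hball _).2 _ (by omega),
        Finset.mem_biUnion.2 ⟨a2, ?_, (hball _).2 _ t5⟩⟩)
      rw [← xk]
      exact (hgb a1).2 x k (by omega) x0 hx.1
    · exact s.good_unique (hF w hw).1.1 (hF w' hw').1.1 (hF w hw).1.2.1 (hF w' hw').1.2.1 e
  have h2 : ((ball (s.L.phi g)).biUnion (fun a => (gb a).biUnion ball)).card ≤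
      C * ((2 * R0 + 1) ^ ((n + 2 * (E + B1)) / 128) * C) := by
    refine (Finset.card_biUnion_le_card_mul _ _ _ fun a _ => ?_).trans
      (Nat.mul_le_mul_right _ (hC ▸ (hball _).1))
    exact (Finset.card_biUnion_le_card_mul _ _ C fun p _ => hC ▸ (hball p).1).trans
      (Nat.mul_le_mul_right _ (hgb a).1)
  have h3 := growth_num n (2 * (E + B1))
  have h4 : (F.card : ℝ) ≤ (C * C : ℕ) * ((2 * R0 + 1) ^ ((n + 2 * (E + B1)) / 128) : ℕ) := by
    rw [← Nat.cast_mul]
    refine Nat.cast_le.2 ((h1.trans h2).trans (le_of_eq ?_))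
    ring
  rw [mul_assoc]
  exact h4.trans (mul_le_mul_of_nonneg_left h3 (Nat.cast_nonneg _))

theorem weight_new {𝔅 : ℕ → Set (Γ0 × List (Fin 5))} {A : ℝ} (hA : 0 ≤ A)
    (hlen : ∀ τ p, p ∈ 𝔅 τ → τ ≤ p.2.length)
    (h : ∀ (τ : ℕ) (g : Γ0) (n : ℕ) (F : Finset (List (Fin 5))),
      (∀ w ∈ F, (g, w) ∈ 𝔅 τ ∧ w.length = n) → (F.card : ℝ) ≤ A * (6 / 5 : ℝ) ^ n)
    {ε : ℝ} (hε : 0 < ε) : ∃ τ, Weight (𝔅 τ) ε := by
  classical
  obtain ⟨τ, hτ⟩ := exists_pow_lt_of_lt_one (show 0 < ε / (10 * (A + 1)) by positivity)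
    (show (9 / 10 : ℝ) < 1 by norm_num)
  refine ⟨τ, fun g F hF => ?_⟩
  obtain ⟨N, hN⟩ : ∃ N, ∀ w ∈ F, w.length < N :=
    ⟨F.sup List.length + 1, fun w hw => Nat.lt_succ_of_le (Finset.le_sup (f := List.length) hw)⟩
  rw [← Finset.sum_fiberwise_of_maps_to (s := F) (t := Finset.Ico τ N) (g := List.length)
    (fun w hw => Finset.mem_Ico.2 ⟨hlen τ _ (hF w hw), hN w hw⟩)]
  have h1 : ∀ n ∈ Finset.Ico τ N, ∑ w ∈ F with w.length = n, (3 / 4 : ℝ) ^ w.length ≤
      A * (9 / 10 : ℝ) ^ n := by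
    intro n _
    rw [Finset.sum_congr rfl (g := fun _ => (3 / 4 : ℝ) ^ n)
      (fun w hw => by rw [(Finset.mem_filter.1 hw).2]), Finset.sum_const, nsmul_eq_mul]
    have := h τ g n (F.filter (fun w => w.length = n))
      (fun w hw => ⟨hF w (Finset.mem_filter.1 hw).1, (Finset.mem_filter.1 hw).2⟩)
    refine (mul_le_mul_of_nonneg_right this (by positivity)).trans (le_of_eq ?_)
    rw [mul_assoc, ← mul_pow]
    norm_num
  refine (Finset.sum_le_sum h1).trans ?_
  rw [← Finset.mul_sum]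
  have h2 := geom_sum_Ico_le_of_lt_one (x := (9 / 10 : ℝ)) (m := τ) (n := N) (by norm_num)
    (by norm_num)
  have h3 : (9 / 10 : ℝ) ^ τ * (10 * (A + 1)) < ε := by rwa [← lt_div_iff₀ (by positivity)]
  have h4 : (0 : ℝ) ≤ (9 / 10 : ℝ) ^ τ := by positivity
  have h5 : (9 / 10 : ℝ) ^ τ / (1 - 9 / 10) = 10 * (9 / 10 : ℝ) ^ τ := by ring
  rw [h5] at h2
  nlinarith [mul_le_mul_of_nonneg_left h2 hA]

theorem Weight.union {𝔅 𝔅' : Set (Γ0 × List (Fin 5))} {a b : ℝ} (h : Weight 𝔅 a)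
    (h' : Weight 𝔅' b) : Weight (𝔅 ∪ 𝔅') (a + b) := by
  classical
  intro g F hF
  rw [← Finset.sum_filter_add_sum_filter_not F (fun w => (g, w) ∈ 𝔅)]
  refine add_le_add (h g _ fun w hw => (Finset.mem_filter.1 hw).2) (h' g _ fun w hw => ?_)
  have := Finset.mem_filter.1 hw
  exact (hF w this.1).resolve_left this.2

/-- two good halves do not run along a cell -/
theorem noRun_of_good (s : Geom) {𝒯 : Set (Set (W s.G))} (hc : ∀ T ∈ 𝒯, Cvx T) {τ ω : ℕ}
    (hω : 2 * τ + 2 * (2 * max s.n0 (Nat.card s.S) + 2) ≤ ω) {g : Γ0} {w1 w2 : List (Fin 5)}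
    (hr : RedW (w1 ++ w2))
    (b1 : ¬ HasBad (s.Bad ∪ s.NewBad 𝒯 (2 * (2 * max s.n0 (Nat.card s.S) + 2)) τ) g w1)
    (b2 : ¬ HasBad (s.Bad ∪ s.NewBad 𝒯 (2 * (2 * max s.n0 (Nat.card s.S) + 2)) τ)
      (g * word G0 w1) w2) :
    NoRun 𝒯 ω (s.L.phi g) (s.L.phi (g * word G0 (w1 ++ w2))) := by
  obtain ⟨D1, hD1⟩ : ∃ D1, D1 = 2 * max s.n0 (Nat.card s.S) + 2 := ⟨_, rfl⟩
  rw [← hD1] at hω b1 b2
  have c1 : ¬ HasBad s.Bad g w1 := fun x => b1 (x.mono Set.subset_union_left)
  have c2 : ¬ HasBad s.Bad (g * word G0 w1) w2 := fun x => b2 (x.mono Set.subset_union_left)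
  have hd := s.geo g w1 w2 hr c1 c2
  obtain ⟨w, hw⟩ : ∃ w, w = w1 ++ w2 := ⟨_, rfl⟩
  rw [← hw] at hd hr ⊢
  let y : ℕ → W s.G := fun i => s.L.phi (g * word G0 (w.take i))
  have y0 : y 0 = s.L.phi g := by simp [y]
  have yk : y w.length = s.L.phi (g * word G0 w) := by simp [y]
  have hle : ∀ i j, i ≤ j → d (y i) (y j) ≤ j - i := by
    intro i j hij
    have e : w.take j = w.take i ++ (w.drop i).take (j - i) := by
      rw [← List.take_add]; congr 1; omega
    have := (s.L.d_phi_le (g * word G0 (w.take i)) (g * word G0 (w.take j)))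
    rw [e, word_append, ← mul_assoc] at this
    have h2 := d_word_le (g * word G0 (w.take i)) ((w.drop i).take (j - i))
    have h3 : ((w.drop i).take (j - i)).length ≤ j - i := List.length_take_le _ _
    simp only [y]
    rw [e, word_append, ← mul_assoc]
    omega
  have heq : ∀ i j, i ≤ j → j ≤ w.length → d (y i) (y j) = j - i := by
    intro i j hij hj
    have a1 := hle 0 i (by omega)
    have a2 := hle i j hij
    have a3 := hle j w.length hj
    have a4 := d_triangle (y 0) (y i) (y w.length)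
    have a5 := d_triangle (y i) (y j) (y w.length)
    rw [y0, yk] at a4
    rw [yk] at a5 a3
    rw [y0] at a1
    omega
  have hI : ∀ i t j, i ≤ t → t ≤ j → j ≤ w.length → y t ∈ I (y i) (y j) := by
    intro i t j h1 h2 h3
    rw [mem_I_iff_d, heq i t h1 (by omega), heq t j h2 h3, heq i j (by omega) h3]
    omega
  intro T hT u hu v hv huv
  by_contra hlt
  have hY := s.cvx _ (s.mem g) _ (s.mem (g * word G0 w))
  have hnear : ∀ z ∈ I (s.L.phi g) (s.L.phi (g * word G0 w)), ∃ i ≤ w.length, d z (y i) ≤ D1 := by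
    intro z hz
    have := near_chain (B := 1) (n := s.n0) (fun a ha b hb h => s.i4c a (hY ha) b (hY hb) h) y0 yk
      (fun i hi => by
        have := hI 0 i w.length (by omega) hi le_rfl
        rw [y0, yk, mem_I_iff_gp] at this
        omega)
      (fun i _ => by have := hle i (i + 1) (by omega); omega) hz
    rwa [← hD1] at this
  have t1 := d_triangle u v (s.L.phi (g * word G0 w))
  have t2 := d_triangle (s.L.phi g) u v
  have t3 := d_triangle (s.L.phi g) u (s.L.phi (g * word G0 w))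
  have t4 := d_triangle (s.L.phi g) v (s.L.phi (g * word G0 w))
  obtain ⟨i, hi, ni⟩ := hnear u (mem_I_iff_d.2 (by omega))
  obtain ⟨j, hj, nj⟩ := hnear v (mem_I_iff_d.2 (by omega))
  have key : ∃ a b, a ≤ b ∧ b ≤ w.length ∧ 2 * τ ≤ b - a ∧
      ∀ t, a ≤ t → t ≤ b → Near (2 * D1) (y t) T := by
    have u1 := d_triangle u (y i) v
    have u2 := d_triangle (y i) (y j) v
    rw [d_comm (y j) v] at u2
    rcases le_total i j with hij | hij
    · refine ⟨i, j, hij, hj, by rw [← heq i j hij hj]; omega, fun t h1 h2 => ?_⟩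
      refine ⟨med u v (y t), hc T hT u hu v hv (med_mem_I₁ _ _ _), ?_⟩
      have := gp_le_near (hI i t j h1 h2 hj) u v
      rw [d_comm (y i), d_comm (y j)] at this
      rw [d_med₃]; omega
    · refine ⟨j, i, hij, hi, by rw [← heq j i hij hi, d_comm]; omega, fun t h1 h2 => ?_⟩
      refine ⟨med u v (y t), hc T hT u hu v hv (med_mem_I₁ _ _ _), ?_⟩
      have := gp_le_near (mem_I_symm (hI j t i h1 h2 hi)) u v
      rw [d_comm (y i), d_comm (y j)] at this
      rw [d_med₃]; omega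
  obtain ⟨a, b, hab, hb, hτ, hN⟩ := key
  have sub : ∀ (g' : Γ0) (w' : List (Fin 5)) (a' b' : ℕ), a' ≤ b' → b' ≤ w'.length → τ ≤ b' - a' →
      RedW w' → Near (2 * D1) (s.L.phi (g' * word G0 (w'.take a'))) T →
      Near (2 * D1) (s.L.phi (g' * word G0 (w'.take b'))) T → ¬ HasBad s.Bad g' w' →
      HasBad (s.Bad ∪ s.NewBad 𝒯 (2 * D1) τ) g' w' := by
    intro g' w' a' b' h1 h2 h3 h4 h5 h6 h7
    have e1 : w'.take b' = w'.take a' ++ (w'.drop a').take (b' - a') := by
      rw [← List.take_add]; congr 1; omega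
    have e2 : w' = w'.take a' ++ (w'.drop a').take (b' - a') ++ w'.drop b' := by
      rw [← e1, List.take_append_drop]
    refine ⟨_, _, _, e2, Or.inr ⟨RedW.sub (e2 ▸ h4), fun x => h7 (e2 ▸ x.sub _), ?_, T, hT, h5, ?_⟩⟩
    · simp only [List.length_take, List.length_drop]; omega
    · simp only
      rw [mul_assoc, ← word_append, ← e1]
      exact h6
  have hlen : w.length = w1.length + w2.length := by rw [hw, List.length_append]
  have r1 : RedW w1 := List.IsChain.left_of_append (hw ▸ hr : RedW (w1 ++ w2))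
  have r2 : RedW w2 := List.IsChain.right_of_append (hw ▸ hr : RedW (w1 ++ w2))
  have f1 : ∀ t ≤ w1.length, y t = s.L.phi (g * word G0 (w1.take t)) := by
    intro t ht
    simp only [y]
    rw [hw, List.take_append_of_le_length ht]
  have f2 : ∀ t, y (w1.length + t) = s.L.phi (g * word G0 w1 * word G0 (w2.take t)) := by
    intro t
    simp only [y]
    rw [hw, List.take_length_add_append, word_append, mul_assoc]
  by_cases e : τ ≤ min b w1.length - a ∧ a ≤ w1.length
  · refine b1 (sub g w1 a (min b w1.length) (by omega) (by omega) e.1 r1 ?_ ?_ c1)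
    · rw [← f1 a e.2]; exact hN a le_rfl hab
    · rw [← f1 _ (by omega)]; exact hN _ (by omega) (by omega)
  · have e1 : w1.length ≤ b := by omega
    refine b2 (sub _ w2 (max a w1.length - w1.length) (b - w1.length) (by omega) (by omega)
      (by omega) r2 ?_ ?_ c2)
    · rw [← f2]; exact hN _ (by omega) (by omega)
    · rw [← f2]; exact hN _ (by omega) (by omega)

end Pool.Agent.MP_c34dea_an.H66
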