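import Pool.Agent.MP_c34dea_an.H66.J2
import Pool.Agent.MP_c34dea_an.H66.J3

set_option autoImplicit false

open scoped Pointwise

namespace Pool.Agent.MP_c34dea_an.H66

/-- the relation between consecutive stages -/
structure Next (s s' : Geom) (Hb : Subgroup Γ0) (𝒯 : Set (Set (W s.G))) (ω N1 R : ℕ)
    (L : Lab s.G s'.G) (Δ3 : Subgroup (W s.G)) : Prop where
  phi : ∀ g, s'.L.phi g = L.phi (s.L.phi g)
  H : ∀ γ, γ ∈ s'.H ↔ γ ∈ Hb ∧ s.L.phi γ ∈ Δ3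
  le : Hb ≤ s.H
  ker : s.Ker ≤ Hb
  filled : Filled s.Y 𝒯 ω N1 L Δ3
  inv : ∀ δ ∈ Δ3, ∀ h, L.lab (δ • h) = L.lab h
  disp : ∀ δ ∈ Δ3, ∀ y, d y (δ * y) ≤ R → δ = 1

theorem Near.smul {S : Type} {G : SimpleGraph S} {D : ℕ} {y : W G} {T : Set (W G)}
    (h : Near D y T) (δ : W G) : Near D (δ * y) (δ • T) := by
  obtain ⟨z, hz, h⟩ := h
  exact ⟨δ * z, Set.smul_mem_smul_set hz, by rwa [d_smul]⟩

theorem exists_next (s : Geom) {Hb : Subgroup Γ0} (hle : Hb ≤ s.H) (hker : s.Ker ≤ Hb)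
    (hfi : Hb.FiniteIndex) {𝒯 : Set (Set (W s.G))} (hc : ∀ T ∈ 𝒯, Cvx T)
    (hinv : ∀ δ ∈ s.img Hb, ∀ T ∈ 𝒯, δ • T ∈ 𝒯) {τ ω N1 R : ℕ} {ε : ℝ} (hε : s.θ + ε < 1 / 4)
    (hw : Weight (s.NewBad 𝒯 (2 * (2 * max s.n0 (Nat.card s.S) + 2)) τ) ε)
    (hω : 2 * τ + 2 * (2 * max s.n0 (Nat.card s.S) + 2) ≤ ω)
    {S' : Type} (hS' : Finite S') {G' : SimpleGraph S'} {L : Lab s.G G'}
    {Δ3 : Subgroup (W s.G)} {Y' : Set (W G')} {n' B' : ℕ}
    (a1 : Δ3 ≤ s.img Hb) (a2 : (Δ3.subgroupOf (s.img Hb)).FiniteIndex)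
    (a3 : ∀ δ ∈ Δ3, ∀ h, L.lab (δ • h) = L.lab h)
    (a4 : ∀ δ ∈ Δ3, ∀ y, d y (δ * y) ≤ R → δ = 1) (a5 : Filled s.Y 𝒯 ω N1 L Δ3)
    (a6 : Cvx Y') (a7 : L.phi '' s.Y ⊆ Y') (a8 : ∀ y' ∈ Y', ∃ y ∈ s.Y, d y' (L.phi y) ≤ B')
    (a9 : ∀ δ ∈ Δ3, ∀ y' ∈ Y', L.phi δ * y' ∈ Y') (a10 : I4c Y' n') (a11 : SC Y' n') :
    ∃ (s' : Geom) (L : Lab s.G s'.G) (Δ3 : Subgroup (W s.G)), Next s s' Hb 𝒯 ω N1 R L Δ3 := by
  refine ⟨{ S := S'
            fin := hS'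
            G := G'
            L := s.L.comp L
            H := Hb ⊓ s.pre Δ3
            fi := s.fi_pre hle a2
            inv := ?_
            inj := ?_
            Y := Y'
            n0 := n'
            BY := B' + s.BY
            cvx := a6
            mem := ?_
            near := ?_
            Yinv := ?_
            i4c := a10
            sc := a11
            Bad := s.Bad ∪ s.NewBad 𝒯 (2 * (2 * max s.n0 (Nat.card s.S) + 2)) τ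
            θ := s.θ + ε
            θ_lt := hε
            weight := s.weight.union hw
            bad_inv := ?_
            bad_rev := ?_
            geo := ?_ }, L, Δ3,
    ⟨s.L.phi_comp L, fun γ => ⟨fun h => ⟨h.1, h.2.2⟩, fun h => ⟨h.1, hle h.1, h.2⟩⟩, hle, hker, a5,
      a3, a4⟩⟩
  · intro γ hγ h
    show L.lab (s.L.hmap (γ • h)) = L.lab (s.L.hmap h)
    rw [s.L.hmap_smul (s.inv γ hγ.2.1), a3 _ hγ.2.2]
  · intro g g' e
    rw [Lab.phi_comp, Lab.phi_comp] at e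
    obtain ⟨μ, hμ, -, e2⟩ := a5.inj _ (s.mem g) _ (s.mem g') e
    obtain ⟨γ, h1, h2, rfl⟩ := a1 hμ
    rw [← s.phi_mul h2] at e2
    have hκ := s.mem_Ker_of_eq e2.symm
    have e3 : g' * g⁻¹ = g' * (γ * g)⁻¹ * γ := by group
    rw [e3]
    refine ⟨Hb.mul_mem (hker hκ) h1, s.H.mul_mem hκ.1 h2, ?_⟩
    have e4 : s.L.phi (g' * (γ * g)⁻¹) = 1 := hκ.2
    rw [s.phi_mul hκ.1, e4, one_mul]
    exact hμ
  · intro g
    rw [Lab.phi_comp]
    exact a7 ⟨_, s.mem g, rfl⟩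
  · intro y' hy'
    obtain ⟨y, hy, h1⟩ := a8 y' hy'
    obtain ⟨g, h2⟩ := s.near y hy
    refine ⟨g, ?_⟩
    rw [Lab.phi_comp]
    have := d_triangle y' (L.phi y) (L.phi (s.L.phi g))
    have := L.d_phi_le y (s.L.phi g)
    omega
  · intro γ hγ y hy
    rw [Lab.phi_comp]
    exact a9 _ hγ.2.2 y hy
  · rintro γ hγ g w (h | ⟨r1, r2, r3, T, hT, r4, r5⟩)
    · exact Or.inl (s.bad_inv γ hγ.2.1 g w h)
    · refine Or.inr ⟨r1, fun x => r2 ?_, r3, s.L.phi γ • T, hinv _ ⟨γ, hγ.1, hγ.2.1, rfl⟩ T hT,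
        ?_, ?_⟩
      · have := HasBad.smul (s.bad_inv γ⁻¹ (s.H.inv_mem hγ.2.1)) x
        simpa using this
      · show Near _ (s.L.phi (γ * g)) _
        rw [s.phi_mul hγ.2.1]; exact r4.smul _
      · show Near _ (s.L.phi (γ * g * word G0 w)) _
        rw [mul_assoc, s.phi_mul hγ.2.1]; exact r5.smul _
  · rintro g w (h | ⟨r1, r2, r3, T, hT, r4, r5⟩)
    · exact Or.inl (s.bad_rev g w h)
    · refine Or.inr ⟨r1.reverse, s.not_hasBad_rev r2, by simpa using r3, T, hT, r5, ?_⟩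
      show Near _ (s.L.phi (g * word G0 w * word G0 w.reverse)) _
      rw [word_reverse, mul_inv_cancel_right]
      exact r4
  · intro g w1 w2 hr b1 b2
    rw [Lab.phi_comp, Lab.phi_comp,
      a5.t2 _ (s.mem _) _ (s.mem _) (noRun_of_good s hc hω hr b1 b2)]
    exact s.geo g w1 w2 hr (fun x => b1 (x.mono Set.subset_union_left))
      (fun x => b2 (x.mono Set.subset_union_left))

namespace Next

variable {s s' : Geom} {Hb : Subgroup Γ0} {𝒯 : Set (Set (W s.G))} {ω N1 R : ℕ}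
  {L : Lab s.G s'.G} {Δ3 : Subgroup (W s.G)}

theorem H_le (h : Next s s' Hb 𝒯 ω N1 R L Δ3) : s'.H ≤ Hb := fun γ hγ => ((h.H γ).1 hγ).1

theorem Ker_le (h : Next s s' Hb 𝒯 ω N1 R L Δ3) : s.Ker ≤ s'.Ker := by
  intro κ hκ
  have e : s.L.phi κ = 1 := hκ.2
  refine s'.mem_Ker.2 ⟨(h.H κ).2 ⟨h.ker hκ, by rw [e]; exact Δ3.one_mem⟩, ?_⟩
  rw [h.phi, e, Lab.phi_one]

theorem nhk (hN : NHStmt) (h : Next s s' Hb 𝒯 ω N1 R L Δ3) : NHK s'.H R := by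
  refine hN s'.H s.Bad R (fun γ hγ => s.bad_inv γ (h.le (h.H_le hγ)))
    (fun g F hF => (s.weight g F hF).trans s.θ_lt.le) fun g w hw hr hl hγ => ?_
  by_contra hb
  have h1 := s.geo1 hr hb
  have h2 : g * word G0 w = g * word G0 w * g⁻¹ * g := by group
  rw [h2, s.phi_mul (h.le (h.H_le hγ))] at h1
  have h3 := h.disp _ ((h.H _).1 hγ).2 _ (h1.le.trans hl)
  rw [h3, one_mul, d_self] at h1
  exact hw (List.eq_nil_of_length_eq_zero h1.symm)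

theorem cov_near (h : Next s s' Hb 𝒯 ω N1 R L Δ3) {T : Set (W s.G)} (hT : T ∈ 𝒯) {a : W s.G}
    (ha : a ∈ T) (D : ℕ) : ∃ C, Cov s'.Ker {g | Near D (s.L.phi g) T} C := by
  refine ⟨_, (s'.cov_ball (L.phi a) (Nat.card s'.S + D)).subset ?_⟩
  rintro g ⟨z, hz, h1⟩
  show d _ _ ≤ _
  rw [h.phi]
  have := h.filled.bd T hT a ha z hz
  have := L.d_phi_le z (s.L.phi g)
  have := d_triangle (L.phi a) (L.phi z) (L.phi (s.L.phi g))
  rw [d_comm] at h1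
  omega

end Next

theorem exists_small (C : ℕ) {x : ℝ} (hx : x < 1) : ∃ m : ℕ, 1 ≤ m ∧ (C : ℝ) / 2 ^ m + x < 1 := by
  obtain ⟨m, hm⟩ := pow_unbounded_of_one_lt ((C : ℝ) / (1 - x)) (show (1 : ℝ) < 2 by norm_num)
  refine ⟨m + 1, by omega, ?_⟩
  have h1 : (0 : ℝ) < 1 - x := by linarith
  rw [div_lt_iff₀ h1] at hm
  have h2 : (C : ℝ) / 2 ^ (m + 1) < 1 - x := by
    rw [div_lt_iff₀ (by positivity), pow_succ]
    have : (0 : ℝ) < 2 ^ m * (1 - x) := by positivity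
    nlinarith
  linarith

theorem TyOK.update (hT : TransferStmt) {s : Geom} {L : ℕ} {t : TyInfo} (ht : TyOK s L t)
    {Hb : Subgroup Γ0} {𝒢W : SimpleGraph (W s.G)} {cell : W s.G → Set (W s.G)} {n B1 : ℕ}
    (hC : CellSys s.Y (s.img Hb) (cell '' s.Y) n) (hO : CellOf s.Y 𝒢W cell B1) :
    ∃ ω0, ∀ (ω N1 R : ℕ) (s' : Geom) (L' : Lab s.G s'.G) (Δ3 : Subgroup (W s.G)), ω0 ≤ ω →
      Next s s' Hb (cell '' s.Y) ω N1 R L' Δ3 → ∃ t', TyOK s' L t' ∧ t'.bmax = t.bmax := by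
  obtain ⟨D, hT⟩ := hT s.S s.G s.n0 (L * t.bmax) t.B
  obtain ⟨m, hm, hsum⟩ := exists_small ((Nat.card s.S + 1) ^ (D + B1)) ht.sum
  obtain ⟨ω0, hT⟩ := hT m
  refine ⟨ω0, fun ω N1 R s' L' Δ3 hω h => ?_⟩
  have hle : s'.H ≤ s.H := h.H_le.trans h.le
  refine ⟨⟨t.de, t.C1, t.βs, t.bmax, t.βmax, t.B, (t.c + 1) * (N1 + 2),
    ⟨m, (Nat.card s.S + 1) ^ (D + B1),
      (fun T => {g | Near D (s.L.phi g) T}) '' (cell '' s.Y)⟩ :: t.fams⟩,
    ⟨ht.body, ht.pm.mono hle h.Ker_le, ht.lip, ?_, by simpa using hsum, ?_⟩, rfl⟩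
  · intro f hf
    rcases List.mem_cons.1 hf with rfl | hf
    · refine ⟨hm, ?_, ?_, fun g => ?_⟩
      · rintro γ hγ _ ⟨T, hT, rfl⟩
        refine ⟨s.L.phi γ • T, hC.inv _ ⟨γ, h.H_le hγ, hle hγ, rfl⟩ T hT, ?_⟩
        ext g
        rw [Set.mem_smul_set_iff_inv_smul_mem]
        show Near D (s.L.phi g) _ ↔ Near D (s.L.phi (γ⁻¹ * g)) T
        rw [s.phi_mul (s.H.inv_mem (hle hγ)), s.phi_inv (hle hγ)]
        constructor
        · intro x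
          simpa using x.smul (s.L.phi γ)⁻¹
        · intro x
          simpa using x.smul (s.L.phi γ)
      · rintro _ ⟨T, hT, rfl⟩
        obtain ⟨a, ha⟩ := hC.ne T hT
        exact h.cov_near hT ha D
      · have hsub : {U | U ∈ (fun T => {g | Near D (s.L.phi g) T}) '' (cell '' s.Y) ∧ g ∈ U} ⊆
            (fun a => {g | Near D (s.L.phi g) (cell a)}) '' {q | d (s.L.phi g) q ≤ D + B1} := by
          rintro _ ⟨⟨_, ⟨a, ha, rfl⟩, rfl⟩, z, hz, h1⟩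
          obtain ⟨a', h2, h3⟩ := hO.near a ha z hz
          refine ⟨a', ?_, by rw [hO.reach a a' h2]⟩
          have := d_triangle (s.L.phi g) z a'
          show d _ _ ≤ _
          omega
        have hfin := (ball_finite (s.L.phi g) (D + B1)).image
          (fun a => {g | Near D (s.L.phi g) (cell a)})
        exact ⟨hfin.subset hsub, (Set.ncard_le_ncard hsub hfin).trans
          ((Set.ncard_image_le (ball_finite _ _)).trans (ball_ncard _ _))⟩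
    · exact (ht.fam f hf).mono hle h.Ker_le
  · intro 𝒢 β0 b1 b2 b3 b4 b5
    obtain ⟨Des, hgeo, hinv⟩ := ht.tp 𝒢 β0 b1 b2 b3 b4 fun f hf => b5 f (List.mem_cons_of_mem _ hf)
    have key := hT s.Y (cell '' s.Y) ω N1 t.c s'.S s'.G L' Δ3 Γ0 s.L.phi 𝒢 Des s.cvx s.i4c hC.cvx
      s.mem hω h.filled hgeo fun x hx T hT => b5 _ List.mem_cons_self x hx _ ⟨T, hT, rfl⟩
    have e : s'.L.phi = fun v => L'.phi (s.L.phi v) := funext h.phi
    refine ⟨_, by rw [e]; exact key, ?_⟩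
    rintro γ hγ hadj v v' _ ⟨k, hk, rfl⟩
    exact ⟨_, hinv γ (hle hγ) hadj v v' k hk, by
      rw [L'.hmap_smul (h.inv _ ((h.H γ).1 hγ).2), h.phi]⟩

end Pool.Agent.MP_c34dea_an.H66
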