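import Pool.Agent.MP_c34dea_an.H66.J4
import Pool.Agent.MP_c34dea_an.H66.All

set_option autoImplicit false

open scoped Pointwise

namespace Pool.Agent.MP_c34dea_an.H66

/-- a stage of the recursion -/
structure Stage where
  s : Geom
  nt : ℕ
  ty : ℕ → TyInfo
  ok : ∀ L < nt, TyOK s L (ty L)

/-- the properties shared by all steps -/
structure StepOK (A A' : Stage) (R : ℕ) : Prop where
  le : A'.s.H ≤ A.s.H
  ker : A.s.Ker ≤ A'.s.Ker
  nt : A'.nt = A.nt + 1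
  bmax : ∀ L < A.nt, (A'.ty L).bmax = (A.ty L).bmax
  nhk : NHK A'.s.H R

/-- the body of the filling statement -/
def FillBody {S : Type} (G : SimpleGraph S) (n0 l B D m0 mmax : ℕ) : Prop :=
  ∀ (c : ℕ) (Y : Set (W G)) (Δ : Subgroup (W G)) (𝒢 : SimpleGraph (W G))
    (Des : W G → W G → Hyp G → Prop), Y.Nonempty → Amb Y Δ n0 → Forest Y Δ 𝒢 Des l B c →
    Pieces 𝒢 D m0 mmax →
    ∃ (cell : W G → Set (W G)) (n B1 ω0 : ℕ), CellSys Y Δ (cell '' Y) n ∧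
      CellOf Y 𝒢 cell B1 ∧ ∀ ω : ℕ, ω0 ≤ ω → ∃ N1 : ℕ, ∀ R : ℕ,
        ∃ (S' : Type) (_ : Finite S') (G' : SimpleGraph S') (L : Lab G G')
          (Δ3 : Subgroup (W G)) (Y' : Set (W G')) (n' B' : ℕ),
          Δ3 ≤ Δ ∧ (Δ3.subgroupOf Δ).FiniteIndex ∧ (∀ δ ∈ Δ3, ∀ h, L.lab (δ • h) = L.lab h) ∧
          (∀ δ ∈ Δ3, ∀ y, d y (δ * y) ≤ R → δ = 1) ∧ Filled Y (cell '' Y) ω N1 L Δ3 ∧
          Cvx Y' ∧ L.phi '' Y ⊆ Y' ∧ (∀ y' ∈ Y', ∃ y ∈ Y, d y' (L.phi y) ≤ B') ∧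
          (∀ δ ∈ Δ3, ∀ y' ∈ Y', L.phi δ * y' ∈ Y') ∧ I4c Y' n' ∧ SC Y' n'

theorem exists_fillBody {S : Type} [Finite S] (G : SimpleGraph S) (n0 l B : ℕ) :
    ∃ D, ∀ m0, ∃ mmax, FillBody G n0 l B D m0 mmax :=
  fillThm S G n0 l B

theorem step_core (A : Stage) (R : ℕ) {Hb : Subgroup Γ0} {𝒢 : SimpleGraph Γ0}
    {Des : Γ0 → Γ0 → Hyp A.s.G → Prop} {l B c D m0 mmax : ℕ}
    (hF : ForestOut A.s Hb 𝒢 Des l B c D m0 mmax) (hb : FillBody A.s.G A.s.n0 l B D m0 mmax) :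
    ∃ A' : Stage, StepOK A A' R ∧ A'.s.H ≤ Hb ∧
      ∀ g, ∃ C, Cov A'.s.Ker {g' | 𝒢.Reachable g g'} C := by
  classical
  obtain ⟨s, nt, ty, ok⟩ := A
  dsimp only at Des hF hb
  have hfi := hF.fi
  obtain ⟨⟨DesW, hforest⟩, hp, hdeg, hreach⟩ := hF.push push
  obtain ⟨cell, n, B1, ω0, hC, hO, hb⟩ := hb c s.Y (s.img Hb) _ DesW ⟨_, s.mem 1⟩ (s.amb hF.le)
    hforest hp
  have hup : ∀ L, ∃ ω0, L < nt → ∀ (ω N1 R : ℕ) (s' : Geom) (L' : Lab s.G s'.G)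
      (Δ3 : Subgroup (W s.G)), ω0 ≤ ω → Next s s' Hb (cell '' s.Y) ω N1 R L' Δ3 →
      ∃ t', TyOK s' L t' ∧ t'.bmax = (ty L).bmax := by
    intro L
    by_cases hL : L < nt
    · obtain ⟨ω0, h⟩ := (ok L hL).update transfer hC hO
      exact ⟨ω0, fun _ => h⟩
    · exact ⟨0, fun h => absurd h hL⟩
  choose ωt hωt using hup
  obtain ⟨Ac, hA0, hA⟩ := newBad_count s hO hforest.geo.rate hdeg
    (2 * (2 * max s.n0 (Nat.card s.S) + 2))
  have hθ := s.θ_lt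
  obtain ⟨τ, hw⟩ := weight_new
    (𝔅 := fun τ => s.NewBad (cell '' s.Y) (2 * (2 * max s.n0 (Nat.card s.S) + 2)) τ) hA0
    (fun τ p hp => hp.2.2.1) hA (show 0 < (1 / 4 - s.θ) / 2 by linarith)
  obtain ⟨ω, hω⟩ : ∃ ω, ω = ω0 + (2 * τ + 2 * (2 * max s.n0 (Nat.card s.S) + 2)) +
    (Finset.range nt).sup ωt := ⟨_, rfl⟩
  obtain ⟨N1, hb⟩ := hb ω (by omega)
  obtain ⟨S', hS', G', L, Δ3, Y', n', B', a1, a2, a3, a4, a5, a6, a7, a8, a9, a10, a11⟩ := hb R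
  obtain ⟨s', L', Δ', hN⟩ := exists_next s hF.le hF.ker hF.fi hC.cvx hC.inv (by linarith) hw
    (by omega) hS' a1 a2 a3 a4 a5 a6 a7 a8 a9 a10 a11
  have hty : ∀ L, ∃ t', (L < nt + 1 → TyOK s' L t') ∧ (L < nt → t'.bmax = (ty L).bmax) := by
    intro L
    by_cases hL : L < nt
    · have := Finset.le_sup (f := ωt) (Finset.mem_range.2 hL)
      obtain ⟨t', h1, h2⟩ := hωt L hL ω N1 R s' L' Δ' (by omega) hN
      exact ⟨t', fun _ => h1, fun _ => h2⟩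
    · obtain ⟨t', h1⟩ := newType random early desEInv s' L
      exact ⟨t', fun _ => h1, fun h => absurd h hL⟩
  choose ty' hty' using hty
  refine ⟨⟨s', nt + 1, ty', fun L hL => (hty' L).1 hL⟩,
    ⟨hN.H_le.trans hF.le, hN.Ker_le, rfl, fun L hL => (hty' L).2 hL, hN.nhk nh⟩, hN.H_le,
    fun g => ?_⟩
  obtain ⟨C, h⟩ := hN.cov_near (T := cell (s.L.phi g)) ⟨_, s.mem g, rfl⟩ (hO.mem _) 0
  refine ⟨C, h.subset fun g' hg' => ?_⟩
  refine ⟨s.L.phi g', ?_, by simp⟩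
  rw [hO.reach _ _ (hreach g g' hg')]
  exact hO.mem _

/-- the task handled by a step -/
def TaskOK (A A' : Stage) (L : ℕ) (u : Γ0 → Fin R0 → Option Γ0) : Prop :=
  L < A.nt → (∀ g i w, u g i = some w → d 1 w ≤ L) →
    (∃ (H' : Subgroup Γ0) (u' : Γ0 → Fin R0 → Option Γ0), H'.FiniteIndex ∧ A.s.Ker ≤ H' ∧
      H' ≤ A.s.H ∧ (∀ g i w, u' g i = some w → u g i = some w) ∧ Task H' A.s.Ker u') →
    ∃ (b : ℕ) (Sg : Set (Γ0 × List Let × Γ0)), b ≤ (A.ty L).bmax ∧ Sys u A'.s.H b Sg ∧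
      ∀ g, ∃ C, Cov A'.s.Ker {g' | (sysG Sg).Reachable g g'} C

theorem step (A : Stage) (R L : ℕ) (u : Γ0 → Fin R0 → Option Γ0) :
    ∃ A' : Stage, StepOK A A' R ∧ TaskOK A A' L u := by
  by_cases h : L < A.nt ∧ (∀ g i w, u g i = some w → d 1 w ≤ L) ∧
      ∃ (H' : Subgroup Γ0) (u' : Γ0 → Fin R0 → Option Γ0), H'.FiniteIndex ∧ A.s.Ker ≤ H' ∧
        H' ≤ A.s.H ∧ (∀ g i w, u' g i = some w → u g i = some w) ∧ Task H' A.s.Ker u'
  · obtain ⟨hL, hu, H', u', h1, h2, h3, h4, h5⟩ := h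
    obtain ⟨D, hb⟩ := exists_fillBody A.s.G A.s.n0 (L * (A.ty L).bmax) (A.ty L).B
    obtain ⟨m0, hf⟩ := forest_active A.s (A.ok L hL) (fun g i w x => hu g i w (h4 g i w x))
      h1 h2 h3 h5 D
    obtain ⟨mmax, hb⟩ := hb m0
    obtain ⟨Hb, b, Sg, Des, hF, b1, b2⟩ := hf mmax
    obtain ⟨A', c1, c2, c3⟩ := step_core A R hF hb
    have := hF.fi
    exact ⟨A', c1, fun _ _ _ => ⟨b, Sg, b1, (b2.mono h4).of_le c2, c3⟩⟩
  · obtain ⟨D, hb⟩ := exists_fillBody A.s.G A.s.n0 0 0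
    obtain ⟨mmax, hb⟩ := hb 1
    obtain ⟨A', c1, -, -⟩ := step_core A R (forest_skip A.s D mmax) hb
    exact ⟨A', c1, fun h1 h2 h3 => absurd ⟨h1, h2, h3⟩ h⟩

theorem countable_Γ0 : Countable Γ0 :=
  Function.Surjective.countable (f := word G0) exists_word

theorem fg_Γ0 : Group.FG Γ0 := by
  refine Group.fg_iff.2 ⟨Set.range (gen G0), ?_, Set.finite_range _⟩
  rw [eq_top_iff]
  intro g _
  induction g using W_ind with
  | h1 => exact Subgroup.one_mem _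
  | hs g s ih => exact Subgroup.mul_mem _ (ih trivial) (Subgroup.subset_closure ⟨s, rfl⟩)

theorem exists_enum {Γ α : Type} [Group Γ] [Countable Γ] [Group.FG Γ] [Countable α] [Nonempty α] :
    ∃ e : ℕ → Γ → α, ∀ (H : Subgroup Γ) (u : Γ → α), H.FiniteIndex →
      (∀ γ ∈ H, ∀ g, u (γ * g) = u g) → ∃ k, e k = u := by
  have h : (⋃ S : Finset Γ, {u : Γ → α | (Subgroup.closure (S : Set Γ)).FiniteIndex ∧
      ∀ γ ∈ Subgroup.closure (S : Set Γ), ∀ g, u (γ * g) = u g}).Countable := by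
    refine Set.countable_iUnion fun S => ?_
    by_cases hS : (Subgroup.closure (S : Set Γ)).FiniteIndex
    · obtain ⟨F, hF⟩ := cover_of_fi (Subgroup.closure (S : Set Γ))
      refine Set.MapsTo.countable_of_injOn (f := fun u (f : F) => u f) (t := Set.univ)
        (Set.mapsTo_univ _ _) (fun u hu v hv e => funext fun g => ?_) Set.countable_univ
      obtain ⟨f, hf, h1⟩ := hF g
      have e1 : u f = v f := congrFun e ⟨f, hf⟩
      have e2 := hu.2 _ h1 f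
      have e3 := hv.2 _ h1 f
      rw [inv_mul_cancel_right] at e2 e3
      rw [e2, e3, e1]
    · exact Set.Countable.mono (fun u hu => absurd hu.1 hS) Set.countable_empty
  obtain ⟨e, he⟩ := Set.countable_iff_exists_subset_range.1 h
  refine ⟨e, fun H u hH hu => he ?_⟩
  obtain ⟨S, hS⟩ := (Group.fg_iff_subgroup_fg H).1 (Subgroup.fg_of_index_ne_zero H)
  exact Set.mem_iUnion.2 ⟨S, by rw [hS]; exact hH, by rw [hS]; exact hu⟩

theorem tower : TowerStmt := by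
  have := countable_Γ0
  have := fg_Γ0
  obtain ⟨e, he⟩ := exists_enum (Γ := Γ0) (α := Fin R0 → Option Γ0)
  choose nx hnx using step
  let A : ℕ → Stage := fun j => Nat.rec ⟨geom0, 0, fun _ => (newType random early desEInv geom0 0).choose,
      fun L hL => absurd hL (Nat.not_lt_zero L)⟩
    (fun j a => nx a j (Nat.unpair (Nat.unpair j).1).1 (e (Nat.unpair (Nat.unpair j).1).2)) j
  have hA : ∀ j, StepOK (A j) (A (j + 1)) j ∧ TaskOK (A j) (A (j + 1))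
      (Nat.unpair (Nat.unpair j).1).1 (e (Nat.unpair (Nat.unpair j).1).2) := fun j => hnx _ _ _ _
  have hnt : ∀ j, (A j).nt = j := by
    intro j
    induction j with
    | zero => rfl
    | succ j ih => rw [(hA j).1.nt, ih]
  clear_value A
  have hanti : Antitone fun j => (A j).s.H := antitone_nat_of_succ_le fun j => (hA j).1.le
  have hmono : Monotone fun j => (A j).s.Ker := monotone_nat_of_le_succ fun j => (hA j).1.ker
  have hker : ∀ j m, (A j).s.Ker ≤ (A m).s.H := by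
    intro j m
    rcases le_total j m with h | h
    · exact (hmono h).trans (A m).s.Ker_le
    · exact (A j).s.Ker_le.trans (hanti h)
  refine ⟨fun j => (A j).s.H, hanti, fun j => (A j).s.fi, fun k => ⟨k + 1, fun m hm => ?_⟩,
    fun L => ⟨((A (L + 1)).ty L).bmax, fun n u hu hL => ?_⟩⟩
  · obtain ⟨j, rfl⟩ : ∃ j, m = j + 1 := ⟨m - 1, by omega⟩
    exact fun F h1 h2 => (hA j).1.nhk F h1 (by omega)
  · have hb : ∀ j, L + 1 ≤ j → ((A j).ty L).bmax = ((A (L + 1)).ty L).bmax := by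
      intro j hj
      induction j, hj using Nat.le_induction with
      | base => rfl
      | succ j hj ih => rw [(hA j).1.bmax L (by rw [hnt]; omega), ih]
    obtain ⟨k, rfl⟩ := he _ u (A n).s.fi hu
    have hj := Nat.right_le_pair (Nat.pair L k) (n + L + 1)
    have ht := (hA (Nat.pair (Nat.pair L k) (n + L + 1))).2
    simp only [Nat.unpair_pair] at ht
    generalize Nat.pair (Nat.pair L k) (n + L + 1) = j at hj ht
    refine ⟨j, (A j).s.Ker, by omega, hker j, (A j).s.normalIn (A j).s.Ker_le le_rfl, fun h => ?_⟩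
    obtain ⟨b, Sg, h1, h2, h3⟩ := ht (by rw [hnt]; omega) hL h
    exact ⟨j + 1, (A (j + 1)).s.Ker, b, Sg, by omega, hker _,
      (A (j + 1)).s.normalIn (A (j + 1)).s.Ker_le le_rfl, by rw [← hb j (by omega)]; exact h1,
      h2, h3⟩

end Pool.Agent.MP_c34dea_an.H66
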