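import Pool.Agent.MP_c34dea_an.H66.C1

set_option autoImplicit false

open scoped symmDiff Pointwise

namespace Pool.Agent.MP_c34dea_an.H66

variable {S : Type} {G : SimpleGraph S}

/-- retractable normal subgroups with the single-letter property -/
structure Retr (N : Subgroup (W G)) : Prop where
  normal : N.Normal
  retr : ∀ (U : Set S), ∀ g ∈ N, retr G U g ∈ N
  se : ∀ (z : S) (B : Set S) (l r : W G), l ∈ Par G {z}ᶜ → r ∈ Par G {z}ᶜ →
    l * gen G z * r ∈ Par G B ⊔ N →
      z ∈ B ∧ ∃ b ∈ Par G B, ∃ c ∈ Par G (st G z), ∃ m ∈ N, l = b * c * m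

end Pool.Agent.MP_c34dea_an.H66
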