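import Pool.Agent.MP_c34dea_an.H66.J5
import Pool.Agent.MP_c34dea_an.H23.Adapter

set_option autoImplicit false

namespace Pool.Agent.MP_c34dea_an.H66

/-- a second, independent proof of the frozen statement S06042 (not a hand-in) -/
theorem routeA : Target := Pool.Agent.MP_c34dea_an.H23.measure tower

end Pool.Agent.MP_c34dea_an.H66
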