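import Pool.Agent.MP_c34dea_an.H66.Lab
import Pool.Agent.MP_c34dea_an.H66.Ord

set_option autoImplicit false

open scoped symmDiff Pointwise

namespace Pool.Agent.MP_c34dea_an.H66

section Fill

variable {S : Type} {G : SimpleGraph S}

/-- no geodesic from `p` to `q` stays in a cell for more than `ω` steps -/
def NoRun (𝒯 : Set (Set (W G))) (ω : ℕ) (p q : W G) : Prop :=
  ∀ T ∈ 𝒯, ∀ u ∈ T, ∀ v ∈ T, d p u + d u v + d v q = d p q → d u v ≤ ω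

/-- the hyperplane `h` is transversal to `T` -/
def Trans (D : ℕ) (T : Set (W G)) (h : Hyp G) : Prop :=
  ∀ y ∈ T, ∀ y' ∈ T, y ∈ car h → y' ∈ car h → d y y' ≤ D

/-- the ambient convex cocompact set -/
structure Amb (Y : Set (W G)) (Δ : Subgroup (W G)) (n : ℕ) : Prop where
  cvx : Cvx Y
  inv : ∀ δ ∈ Δ, ∀ y ∈ Y, δ * y ∈ Y
  i4c : I4c Y n
  sc : SC Y n
  coc : ∃ F : Set (W G), F.Finite ∧ ∀ y ∈ Y, ∃ δ ∈ Δ, δ * y ∈ F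

structure CellSys (Y : Set (W G)) (Δ : Subgroup (W G)) (𝒯 : Set (Set (W G))) (n : ℕ) : Prop where
  n_pos : 1 ≤ n
  amb : Amb Y Δ n
  cvx : ∀ T ∈ 𝒯, Cvx T
  ne : ∀ T ∈ 𝒯, T.Nonempty
  sub : ∀ T ∈ 𝒯, T ⊆ Y
  inv : ∀ δ ∈ Δ, ∀ T ∈ 𝒯, δ • T ∈ 𝒯
  sc : ∀ T ∈ 𝒯, SC T n
  pc : ∀ T ∈ 𝒯, ∀ T' ∈ 𝒯, ∀ p q, p ∈ T → q ∈ T → p ∈ T' → q ∈ T' → n ≤ d p q → T = T'
  lf : ∀ y, {T | T ∈ 𝒯 ∧ y ∈ T}.Finite

/-- stars after adding the cliques -/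
def stp {S3 : Type} (G3 : SimpleGraph S3) (𝒯 : Set (Set (W G))) (K : Set (W G) → Set S3)
    (c : S3) : Set S3 :=
  {e | e ∈ st G3 c ∨ ∃ T ∈ 𝒯, c ∈ K T ∧ e ∈ K T}

/-- the graph after adding the cliques -/
def Gp {S3 : Type} (G3 : SimpleGraph S3) (𝒯 : Set (Set (W G))) (K : Set (W G) → Set S3) :
    SimpleGraph S3 where
  Adj c e := c ≠ e ∧ e ∈ stp G3 𝒯 K c
  symm := ⟨fun c e h => ⟨h.1.symm, by
    rcases h.2 with h2 | ⟨T, hT, h1, h2⟩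
    · exact Or.inl (mem_st_symm h2)
    · exact Or.inr ⟨T, hT, h2, h1⟩⟩⟩
  loopless := ⟨fun c h => h.1 rfl⟩

theorem st_Gp {S3 : Type} (G3 : SimpleGraph S3) (𝒯 : Set (Set (W G))) (K : Set (W G) → Set S3)
    (c : S3) : st (Gp G3 𝒯 K) c = stp G3 𝒯 K c := by
  ext e
  constructor
  · rintro (h | h)
    · rw [h]; exact Or.inl (mem_st_self c)
    · exact h.2
  · intro h
    by_cases e' : e = c
    · exact Or.inl e'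
    · exact Or.inr ⟨fun x => e' x.symm, h⟩

structure Colouring (Y : Set (W G)) (Δ : Subgroup (W G)) (𝒯 : Set (Set (W G)))
    (n ω D0 MA MB R : ℕ) {S3 : Type} (G3 : SimpleGraph S3) (lab : Hyp G → S3)
    (Δ3 : Subgroup (W G)) (K : Set (W G) → Set S3) : Prop where
  le : Δ3 ≤ Δ
  fi : (Δ3.subgroupOf Δ).FiniteIndex
  cross_adj : ∀ h k, Cross h k → G3.Adj (lab h) (lab k)
  inv : ∀ δ ∈ Δ3, ∀ h, lab (δ • h) = lab h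
  real : ∀ T ∈ 𝒯, ∀ h ∈ WH T, lab h ∈ K T
  win : ∀ h k x y, x ∈ car h → y ∈ car k → d x y ≤ R → lab k ∈ st G3 (lab h) →
    h = k ∨ Cross h k
  disp : ∀ δ ∈ Δ3, ∀ y, d y (δ * y) ≤ R → δ = 1
  zc : ∀ p ∈ Y, ∀ q ∈ Y, n ≤ d p q → Clq G3 {e | ∀ h ∈ sep p q, e ∈ st G3 (lab h)}
  bfull : ∀ T ∈ 𝒯, ∀ h y z, y ∈ car h → z ∈ T → d y z ≤ R → lab h ∈ K T → h ∈ WH T
  two : ∀ T ∈ 𝒯, ∀ T' ∈ 𝒯, ∀ p ∈ T, ∀ q ∈ T, ∀ k k', k' ∈ sep p q → Lt p k k' →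
    n ≤ (btw p q k k').card → (btw p q k k').card ≤ R → lab k ∈ K T' → lab k' ∈ K T' →
    K T' = K T
  k3a : ∀ T ∈ 𝒯, ∀ p ∈ T, ∀ q ∈ T, ∀ k k', k' ∈ sep p q → Lt p k k' →
    MA ≤ (btw p q k k').card → (btw p q k k').card ≤ R →
    stp G3 𝒯 K (lab k) ∩ stp G3 𝒯 K (lab k') ⊆ K T
  k3b : ∀ p ∈ Y, ∀ q ∈ Y, NoRun 𝒯 ω p q → ∀ k k', k' ∈ sep p q → Lt p k k' →
    MB ≤ (btw p q k k').card → (btw p q k k').card ≤ R →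
    ∃ p' ∈ Y, ∃ q' ∈ Y, n ≤ d p' q' ∧ sep p' q' ⊆ btw p q k k' ∧
      ∀ e ∈ stp G3 𝒯 K (lab k) ∩ stp G3 𝒯 K (lab k'), ∀ h ∈ sep p' q', e ∈ st G3 (lab h)
  x1 : ∀ T ∈ 𝒯, ∀ h ∈ WH T, Trans D0 T h → ∀ k ∈ WH T, lab k = lab h →
    ∃ μ ∈ Δ3, μ • T = T ∧ μ • h = k

/-- a jump can be shortened or has six spaced odd labels -/
def Vec (𝒯 : Set (Set (W G))) (Δ3 : Subgroup (W G)) {S3 : Type} (lab : Hyp G → S3)
    (ωV MA RV : ℕ) : Prop :=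
  ∀ T ∈ 𝒯, ∀ α ∈ T, ∀ β ∈ T,
    (∃ μ ∈ Δ3, μ • T = T ∧ (∀ c, Even (cnt lab β (μ * β) c)) ∧ d α (μ * β) < ωV) ∨
    ∃ p ∈ T, ∃ q ∈ T, d p q ≤ RV ∧ ∃ e : ℕ → Hyp G,
      (∀ i < 6, e i ∈ sep p q ∧ Odd (cnt lab α β (lab (e i)))) ∧
      ∀ i j, i < j → j < 6 → Lt p (e i) (e j) ∧ MA ≤ (btw p q (e i) (e j)).card

/-- geometric properties of the map to the filled group -/
structure Filled (Y : Set (W G)) (𝒯 : Set (Set (W G))) (ω N1 : ℕ) {S' : Type}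
    {G' : SimpleGraph S'} (L : Lab G G') (Δ3 : Subgroup (W G)) : Prop where
  t2 : ∀ p ∈ Y, ∀ q ∈ Y, NoRun 𝒯 ω p q → d (L.phi p) (L.phi q) = d p q
  t3 : ∀ p ∈ Y, ∀ q ∈ Y, NoRun 𝒯 ω p q → ∀ k k', k' ∈ sep p q → Lt p k k' →
    N1 ≤ (btw p q k k').card → ¬ Cross (L.hmap k) (L.hmap k')
  inj : ∀ p ∈ Y, ∀ q ∈ Y, L.phi p = L.phi q → ∃ μ ∈ Δ3, L.phi μ = 1 ∧ q = μ * p
  bd : ∀ T ∈ 𝒯, ∀ x ∈ T, ∀ y ∈ T, d (L.phi x) (L.phi y) ≤ Nat.card S'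

/-- non-backtracking walk of length `k` -/
def NB {V : Type} (𝒢 : SimpleGraph V) (x : ℕ → V) (k : ℕ) : Prop :=
  (∀ i < k, 𝒢.Adj (x i) (x (i + 1))) ∧ ∀ i, i + 2 ≤ k → x (i + 2) ≠ x i

/-- a forest mapped quasi-isometrically with clean hyperplanes -/
structure Geo {V : Type} (ι : V → W G) (𝒢 : SimpleGraph V) (Des : V → V → Hyp G → Prop)
    (l B c : ℕ) : Prop where
  step : ∀ v v', 𝒢.Adj v v' → d (ι v) (ι v') ≤ l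
  rate : ∀ x k, NB 𝒢 x k → 128 * k ≤ d (ι (x 0)) (ι (x k))
  grom : ∀ x k, NB 𝒢 x k → ∀ i ≤ k, gp (ι (x i)) (ι (x 0)) (ι (x k)) ≤ B
  ex : ∀ v v', 𝒢.Adj v v' → ∃ h, Des v v' h
  symm : ∀ v v' h, Des v v' h → Des v' v h
  adj : ∀ v v' h, Des v v' h → 𝒢.Adj v v' ∧ h ∈ sep (ι v) (ι v')
  clean : ∀ x k h, NB 𝒢 x (k + 1) → Des (x 0) (x 1) h → h ∉ sep (ι (x 1)) (ι (x (k + 1)))
  nest : ∀ x N h h', NB 𝒢 x (N + 1) → c ≤ N → Des (x 0) (x 1) h → Des (x N) (x (N + 1)) h' →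
    ¬ Cross h h'

def Pieces (𝒢 : SimpleGraph (W G)) (D m0 mmax : ℕ) : Prop :=
  ∀ x y m1 m2, NB 𝒢 x m1 → NB 𝒢 y m2 → m0 ≤ m1 → m1 ≤ m2 → m2 ≤ mmax →
    d (x 0) (y 0) ≤ D → d (x m1) (y m2) ≤ D → 𝒢.Reachable (x 0) (y 0)

/-- an invariant forest in `Y` -/
structure Forest (Y : Set (W G)) (Δ : Subgroup (W G)) (𝒢 : SimpleGraph (W G))
    (Des : W G → W G → Hyp G → Prop) (l B c : ℕ) : Prop where
  mem : ∀ p q, 𝒢.Adj p q → p ∈ Y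
  inv : ∀ δ ∈ Δ, ∀ p q, 𝒢.Adj p q → 𝒢.Adj (δ * p) (δ * q)
  dinv : ∀ δ ∈ Δ, ∀ p q h, Des p q h → Des (δ * p) (δ * q) (δ • h)
  geo : Geo id 𝒢 Des l B c

/-- the cells attached to the components of a forest -/
structure CellOf (Y : Set (W G)) (𝒢 : SimpleGraph (W G)) (cell : W G → Set (W G)) (B1 : ℕ) :
    Prop where
  mem : ∀ a, a ∈ cell a
  reach : ∀ a a', 𝒢.Reachable a a' → cell a = cell a'
  near : ∀ a ∈ Y, ∀ y ∈ cell a, ∃ a', 𝒢.Reachable a a' ∧ d y a' ≤ B1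

open Classical in
/-- hyperplanes deep inside the interval of an edge -/
def DesE {V : Type} (ι : V → W G) (𝒢 : SimpleGraph V) (m : ℕ) (v v' : V) (h : Hyp G) : Prop :=
  𝒢.Adj v v' ∧ h ∈ sep (ι v) (ι v') ∧
    m ≤ ((sep (ι v) (ι v')).filter (fun k => Lt (ι v) k h)).card ∧
    m ≤ ((sep (ι v) (ι v')).filter (fun k => Lt (ι v) h k)).card

def Near (D : ℕ) (y : W G) (T : Set (W G)) : Prop := ∃ z ∈ T, d y z ≤ D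

end Fill

/-- module D -/
def LevelsStmt : Prop :=
  ∀ (S : Type) [Finite S] (G : SimpleGraph S) (Y : Set (W G)) (Δ : Subgroup (W G))
    (𝒯 : Set (Set (W G))) (n : ℕ), CellSys Y Δ 𝒯 n →
    ∃ MA : ℕ, n ≤ MA ∧ ∀ ω : ℕ, ∃ MB : ℕ, ∀ D0 R : ℕ,
      ∃ (S3 : Type) (_ : Finite S3) (G3 : SimpleGraph S3) (lab : Hyp G → S3)
        (Δ3 : Subgroup (W G)) (K : Set (W G) → Set S3),
        Colouring Y Δ 𝒯 n ω D0 MA MB R G3 lab Δ3 K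

/-- module E -/
def SharpStmt : Prop :=
  ∀ (S : Type) [Finite S] (G : SimpleGraph S) (Y : Set (W G)) (Δ : Subgroup (W G))
    (𝒯 : Set (Set (W G))) (n ω ωV MA MB RV : ℕ), CellSys Y Δ 𝒯 n → n ≤ MA → n ≤ ω → ωV ≤ ω →
    ∃ N1 R0 : ℕ, ∀ D0 R : ℕ, R0 ≤ R →
      ∀ (S3 : Type) [Finite S3] (G3 : SimpleGraph S3) (Δ3 : Subgroup (W G))
        (K : Set (W G) → Set S3) (L : Lab G (Gp G3 𝒯 K)),
        Colouring Y Δ 𝒯 n ω D0 MA MB R G3 L.lab Δ3 K → Vec 𝒯 Δ3 L.lab ωV MA RV →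
        Filled Y 𝒯 ω N1 L Δ3 ∧ ∃ n' B' : ℕ, G1 (L.phi '' Y) n' ∧ G2 (L.phi '' Y) B'

/-- module F -/
def CellsStmt : Prop :=
  ∀ (S : Type) [Finite S] (G : SimpleGraph S) (n0 l B : ℕ), ∃ D : ℕ, ∀ m0 : ℕ, ∃ mmax : ℕ,
    ∀ (c : ℕ) (Y : Set (W G)) (Δ : Subgroup (W G)) (𝒢 : SimpleGraph (W G))
      (Des : W G → W G → Hyp G → Prop), Amb Y Δ n0 → Forest Y Δ 𝒢 Des l B c →
      Pieces 𝒢 D m0 mmax →
      ∃ (cell : W G → Set (W G)) (n B1 D0 : ℕ), CellSys Y Δ (cell '' Y) n ∧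
        CellOf Y 𝒢 cell B1 ∧ ∀ MA : ℕ, ∃ ωV RV : ℕ,
          ∀ (S3 : Type) (lab : Hyp G → S3) (Δ3 : Subgroup (W G)), Δ3 ≤ Δ →
            (∀ δ ∈ Δ3, ∀ h, lab (δ • h) = lab h) →
            (∀ δ ∈ Δ3, ∀ y, d y (δ * y) ≤ RV → δ = 1) →
            (∀ T ∈ cell '' Y, ∀ h ∈ WH T, Trans D0 T h → ∀ k ∈ WH T, lab k = lab h →
              ∃ μ ∈ Δ3, μ • T = T ∧ μ • h = k) →
            Vec (cell '' Y) Δ3 lab ωV MA RV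

/-- modules B, D, E, F combined -/
def FillStmt : Prop :=
  ∀ (S : Type) [Finite S] (G : SimpleGraph S) (n0 l B : ℕ), ∃ D : ℕ, ∀ m0 : ℕ, ∃ mmax : ℕ,
    ∀ (c : ℕ) (Y : Set (W G)) (Δ : Subgroup (W G)) (𝒢 : SimpleGraph (W G))
      (Des : W G → W G → Hyp G → Prop), Y.Nonempty → Amb Y Δ n0 → Forest Y Δ 𝒢 Des l B c →
      Pieces 𝒢 D m0 mmax →
      ∃ (cell : W G → Set (W G)) (n B1 ω0 : ℕ), CellSys Y Δ (cell '' Y) n ∧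
        CellOf Y 𝒢 cell B1 ∧ ∀ ω : ℕ, ω0 ≤ ω → ∃ N1 : ℕ, ∀ R : ℕ,
          ∃ (S' : Type) (_ : Finite S') (G' : SimpleGraph S') (L : Lab G G')
            (Δ3 : Subgroup (W G)) (Y' : Set (W G')) (n' B' : ℕ),
            Δ3 ≤ Δ ∧ (Δ3.subgroupOf Δ).FiniteIndex ∧ (∀ δ ∈ Δ3, ∀ h, L.lab (δ • h) = L.lab h) ∧
            (∀ δ ∈ Δ3, ∀ y, d y (δ * y) ≤ R → δ = 1) ∧ Filled Y (cell '' Y) ω N1 L Δ3 ∧
            Cvx Y' ∧ L.phi '' Y ⊆ Y' ∧ (∀ y' ∈ Y', ∃ y ∈ Y, d y' (L.phi y) ≤ B') ∧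
            (∀ δ ∈ Δ3, ∀ y' ∈ Y', L.phi δ * y' ∈ Y') ∧ I4c Y' n' ∧ SC Y' n'

/-- module G, early geometry -/
def EarlyStmt : Prop :=
  ∀ (S : Type) [Finite S] (G : SimpleGraph S) (Y : Set (W G)) (n0 : ℕ) (V : Type) (ι : V → W G)
    (𝒢 : SimpleGraph V) (β0 l : ℕ), Cvx Y → I4c Y n0 → (∀ v, ι v ∈ Y) →
    max n0 (Nat.card S) + 32 ≤ β0 →
    (∀ v v', 𝒢.Adj v v' → 8 * (Nat.card S + 1) * β0 ≤ d (ι v) (ι v') ∧ d (ι v) (ι v') ≤ l) →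
    (∀ v a b, 𝒢.Adj v a → 𝒢.Adj v b → a ≠ b → gp (ι v) (ι a) (ι b) ≤ β0) →
    Geo ι 𝒢 (DesE ι 𝒢 (β0 + max n0 (Nat.card S) + 1)) l (β0 + 2 * max n0 (Nat.card S)) 2

/-- module G, equivariance of deep hyperplanes -/
def DesEInvStmt : Prop :=
  ∀ (S : Type) (G : SimpleGraph S) (V : Type) (ι : V → W G) (𝒢 : SimpleGraph V) (m : ℕ)
    (v v' w w' : V) (g : W G) (h : Hyp G), 𝒢.Adj w w' → ι w = g * ι v → ι w' = g * ι v' →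
    DesE ι 𝒢 m v v' h → DesE ι 𝒢 m w w' (g • h)

/-- module G, transfer through one filling -/
def TransferStmt : Prop :=
  ∀ (S : Type) [Finite S] (G : SimpleGraph S) (n0 l B : ℕ), ∃ D : ℕ, ∀ m : ℕ, ∃ ω0 : ℕ,
    ∀ (Y : Set (W G)) (𝒯 : Set (Set (W G))) (ω N1 c : ℕ) (S' : Type) (G' : SimpleGraph S')
      (L : Lab G G') (Δ3 : Subgroup (W G)) (V : Type) (ι : V → W G) (𝒢 : SimpleGraph V)
      (Des : V → V → Hyp G → Prop), Cvx Y → I4c Y n0 → (∀ T ∈ 𝒯, Cvx T) → (∀ v, ι v ∈ Y) →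
      ω0 ≤ ω → Filled Y 𝒯 ω N1 L Δ3 → Geo ι 𝒢 Des l B c →
      (∀ x, NB 𝒢 x m → ∀ T ∈ 𝒯, ¬ (Near D (ι (x 0)) T ∧ Near D (ι (x m)) T)) →
      Geo (fun v => L.phi (ι v)) 𝒢 (fun v v' H => ∃ h, Des v v' h ∧ L.hmap h = H) l B
        ((c + 1) * (N1 + 2))

/-- image of a graph under a map into the group -/
def pushG {S : Type} {G : SimpleGraph S} {V : Type} (ι : V → W G) (𝒢 : SimpleGraph V) :
    SimpleGraph (W G) :=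
  SimpleGraph.fromRel (fun p q => ∃ v w, 𝒢.Adj v w ∧ ι v = p ∧ ι w = q)

/-- module G, pushing a forest into the group -/
def PushStmt : Prop :=
  ∀ (S : Type) (G : SimpleGraph S) (V : Type) (ι : V → W G) (𝒢 : SimpleGraph V)
    (Des : V → V → Hyp G → Prop) (l B c : ℕ), Geo ι 𝒢 Des l B c →
    (∀ v v' w, ι v = ι v' → 𝒢.Adj v w →
      ∃ w', 𝒢.Adj v' w' ∧ ι w' = ι w ∧ ∀ h, Des v w h → Des v' w' h) →
    Geo id (pushG ι 𝒢) (fun p q h => ∃ v w, Des v w h ∧ ι v = p ∧ ι w = q) l B c ∧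
    (∀ p q, (pushG ι 𝒢).Adj p q ↔ ∃ v w, 𝒢.Adj v w ∧ ι v = p ∧ ι w = q) ∧
    (∀ x k v0, NB (pushG ι 𝒢) x k → ι v0 = x 0 →
      ∃ z, z 0 = v0 ∧ NB 𝒢 z k ∧ ∀ i ≤ k, ι (z i) = x i) ∧
    (∀ v q, (pushG ι 𝒢).Reachable (ι v) q → ∃ w, 𝒢.Reachable v w ∧ ι w = q) ∧
    (∀ v w, 𝒢.Reachable v w → (pushG ι 𝒢).Reachable (ι v) (ι w))

section Tasks

abbrev R0 : ℕ := 8192

abbrev Let : Type := Fin R0 × Bool

def linv (a : Let) : Let := (a.1, !a.2)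

variable {Γ : Type} [Group Γ]

/-- one step along the partially defined labelling `u` -/
def St (u : Γ → Fin R0 → Option Γ) (g : Γ) (a : Let) (g' : Γ) : Prop :=
  (a.2 = true ∧ ∃ w, u g a.1 = some w ∧ g' = g * w) ∨
    (a.2 = false ∧ ∃ w, u g' a.1 = some w ∧ g = g' * w)

inductive Wk (u : Γ → Fin R0 → Option Γ) : Γ → List Let → Γ → Prop
  | nil (g : Γ) : Wk u g [] g
  | cons {g g' g'' : Γ} {a : Let} {l : List Let} : St u g a g' → Wk u g' l g'' →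
      Wk u g (a :: l) g''

def Red (l : List Let) : Prop := l.IsChain (fun a b => b ≠ linv a)

def lrev (l : List Let) : List Let := (l.map linv).reverse

/-- transversal of the right cosets -/
def Tr (H : Subgroup Γ) (T : Finset Γ) : Prop := ∀ g, ∃! t, t ∈ T ∧ g * t⁻¹ ∈ H

/-- the average of `f` over the coset space is at least `a / b` -/
def Dense (H : Subgroup Γ) (f : Γ → ℕ) (a b : ℕ) : Prop :=
  ∀ T, Tr H T → a * T.card ≤ b * ∑ t ∈ T, f t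

def Sepd (K : Subgroup Γ) (F : Finset Γ) : Prop := ∀ g ∈ F, ∀ g' ∈ F, g * g'⁻¹ ∈ K → g = g'

/-- `U` is covered by at most `C` cosets of `K` -/
def Cov (K : Subgroup Γ) (U : Set Γ) (C : ℕ) : Prop :=
  ∃ F : Finset Γ, F.card ≤ C ∧ ∀ g ∈ U, ∃ f ∈ F, g * f⁻¹ ∈ K

def NormalIn (K H : Subgroup Γ) : Prop := K ≤ H ∧ ∀ γ ∈ H, ∀ κ ∈ K, γ * κ * γ⁻¹ ∈ K

structure Task (H K : Subgroup Γ) (u : Γ → Fin R0 → Option Γ) : Prop where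
  inv : ∀ γ ∈ H, ∀ g, u (γ * g) = u g
  inj : ∀ g a g' g'', St u g a g' → St u g a g'' → g' = g''
  dense : Dense H (fun g => {i | u g i ≠ none}.ncard) (9 * R0) 10
  sparse : ∀ F : Finset Γ, Sepd K F →
    {p : Γ × Fin R0 | p.1 ∈ F ∧ ∃ w, u p.1 p.2 = some w ∧ ∃ g' ∈ F, p.1 * w * g'⁻¹ ∈ K}.ncard ≤
      2 * F.card

structure Sys (u : Γ → Fin R0 → Option Γ) (H : Subgroup Γ) (b : ℕ)
    (Sg : Set (Γ × List Let × Γ)) : Prop where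
  b_pos : 1 ≤ b
  walk : ∀ g l g', (g, l, g') ∈ Sg → Wk u g l g' ∧ l.length = b ∧ Red l
  inv : ∀ γ ∈ H, ∀ g l g', (g, l, g') ∈ Sg → (γ * g, l, γ * g') ∈ Sg
  rev : ∀ g l g', (g, l, g') ∈ Sg → (g', lrev l, g) ∈ Sg
  imm : ∀ g l g' l' g'', (g, l, g') ∈ Sg → (g, l', g'') ∈ Sg → l.head? = l'.head? →
    l = l' ∧ g' = g''
  dense : Dense H (fun g => {p : List Let × Γ | (g, p.1, p.2) ∈ Sg}.ncard) 3 1

def sysG (Sg : Set (Γ × List Let × Γ)) : SimpleGraph Γ :=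
  SimpleGraph.fromRel (fun g g' => ∃ l, (g, l, g') ∈ Sg)

/-- a family of sets to be avoided by walks of length `m` -/
structure Fam (Γ : Type) where
  m : ℕ
  C : ℕ
  U : Set (Set Γ)

structure FamOK (H K : Subgroup Γ) (f : Fam Γ) : Prop where
  m_pos : 1 ≤ f.m
  inv : ∀ γ ∈ H, ∀ U ∈ f.U, γ • U ∈ f.U
  fin : ∀ U ∈ f.U, ∃ C, Cov K U C
  mult : ∀ g, {U | U ∈ f.U ∧ g ∈ U}.Finite ∧ {U | U ∈ f.U ∧ g ∈ U}.ncard ≤ f.C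

def Avoid (𝒢 : SimpleGraph Γ) (f : Fam Γ) : Prop :=
  ∀ x, NB 𝒢 x f.m → ∀ U ∈ f.U, ¬ (x 0 ∈ U ∧ x f.m ∈ U)

structure PMetric (H K : Subgroup Γ) (de : Γ → Γ → ℕ) (C1 : ℕ) : Prop where
  self : ∀ g, de g g = 0
  symm : ∀ g g', de g g' = de g' g
  tri : ∀ a b c, de a c ≤ de a b + de b c
  inv : ∀ γ ∈ H, ∀ g g', de (γ * g) (γ * g') = de g g'
  ball : ∀ g n, Cov K {g' | de g g' ≤ n} (C1 ^ n)

/-- long steps and small junction products in the early metric -/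
structure Early (𝒢 : SimpleGraph Γ) (de : Γ → Γ → ℕ) (C1 β0 : ℕ) : Prop where
  far : ∀ g g', 𝒢.Adj g g' → 8 * C1 * β0 ≤ de g g'
  junc : ∀ g a b, 𝒢.Adj g a → 𝒢.Adj g b → a ≠ b → de g a + de g b ≤ de a b + 2 * β0

end Tasks

/-- module H -/
def RandomStmt : Prop :=
  ∀ (C1 L βs : ℕ), 1 ≤ C1 → ∃ bmax βmax : ℕ, ∀ CD : ℕ, ∃ m0 : ℕ,
    ∀ (Γ : Type) [Group Γ] (H K : Subgroup Γ) (u : Γ → Fin R0 → Option Γ) (de : Γ → Γ → ℕ)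
      (Nr : Γ → Γ → Prop) (fams : List (Fam Γ)) (mmax : ℕ),
      H.FiniteIndex → NormalIn K H → Task H K u → PMetric H K de C1 →
      (∀ g a g', St u g a g' → de g g' ≤ L) →
      (∀ g, Cov K {g' | Nr g g'} CD) → (∀ γ ∈ H, ∀ g g', Nr g g' → Nr (γ * g) (γ * g')) →
      (∀ f ∈ fams, FamOK H K f ∧ f.m ≤ mmax) →
      (fams.map (fun f => (f.C : ℝ) / 2 ^ f.m)).sum ≤ 1 → 2 ≤ mmax →
      (∀ γ ∈ H, ∀ g l, Wk u g l (γ * g) → l.length ≤ mmax * bmax → γ ∈ K) →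
      ∃ (β0 b : ℕ) (Sg : Set (Γ × List Let × Γ)), βs ≤ β0 ∧ β0 ≤ βmax ∧ b ≤ bmax ∧
        Sys u H b Sg ∧ Early (sysG Sg) de C1 β0 ∧ (∀ f ∈ fams, Avoid (sysG Sg) f) ∧
        ∀ x y m1 m2, NB (sysG Sg) x m1 → NB (sysG Sg) y m2 → m0 ≤ m1 → m1 ≤ m2 → m2 ≤ mmax →
          Nr (x 0) (y 0) → Nr (x m1) (y m2) → ∃ i ≤ m1, ∃ j ≤ m2, ∃ γ ∈ H, γ * x i = y j

/-- the graph defining the acting group -/
abbrev G0 : SimpleGraph (Fin 5) := ⊥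

/-- the acting group, a free product of five groups of order two -/
abbrev Γ0 : Type := W G0

def RedW (w : List (Fin 5)) : Prop := w.IsChain (· ≠ ·)

def HasBad (𝔅 : Set (Γ0 × List (Fin 5))) (g : Γ0) (w : List (Fin 5)) : Prop :=
  ∃ w1 w2 w3, w = w1 ++ w2 ++ w3 ∧ (g * word G0 w1, w2) ∈ 𝔅

def Weight (𝔅 : Set (Γ0 × List (Fin 5))) (θ : ℝ) : Prop :=
  ∀ (g : Γ0) (F : Finset (List (Fin 5))), (∀ w ∈ F, (g, w) ∈ 𝔅) →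
    ∑ w ∈ F, (3 / 4 : ℝ) ^ w.length ≤ θ

/-- small subsets of the coset space span few edges -/
def NHK (H : Subgroup Γ0) (k : ℕ) : Prop :=
  ∀ F : Finset Γ0, Sepd H F → F.card ≤ k →
    {p : Γ0 × Fin 5 | p.1 ∈ F ∧ ∃ g' ∈ F, p.1 * gen G0 p.2 * g'⁻¹ ∈ H}.ncard ≤ 4 * F.card

/-- module I -/
def NHStmt : Prop :=
  ∀ (H : Subgroup Γ0) (𝔅 : Set (Γ0 × List (Fin 5))) (k : ℕ),
    (∀ γ ∈ H, ∀ g w, (g, w) ∈ 𝔅 → (γ * g, w) ∈ 𝔅) → Weight 𝔅 (1 / 4) →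
    (∀ g w, w ≠ [] → RedW w → w.length ≤ k → g * word G0 w * g⁻¹ ∈ H → HasBad 𝔅 g w) →
    NHK H k

/-- module J -/
def TowerStmt : Prop :=
  ∃ Γs : ℕ → Subgroup Γ0, Antitone Γs ∧ (∀ m, (Γs m).FiniteIndex) ∧
    (∀ k, ∃ m0, ∀ m, m0 ≤ m → NHK (Γs m) k) ∧
    ∀ L : ℕ, ∃ bmax : ℕ, ∀ (n : ℕ) (u : Γ0 → Fin R0 → Option Γ0),
      (∀ γ ∈ Γs n, ∀ g, u (γ * g) = u g) → (∀ g i w, u g i = some w → d 1 w ≤ L) →
      ∃ (j : ℕ) (K : Subgroup Γ0), n ≤ j ∧ (∀ m, K ≤ Γs m) ∧ NormalIn K (Γs j) ∧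
        ((∃ (H' : Subgroup Γ0) (u' : Γ0 → Fin R0 → Option Γ0), H'.FiniteIndex ∧ K ≤ H' ∧
            H' ≤ Γs j ∧ (∀ g i w, u' g i = some w → u g i = some w) ∧ Task H' K u') →
          ∃ (j' : ℕ) (K' : Subgroup Γ0) (b : ℕ) (Sg : Set (Γ0 × List Let × Γ0)),
            n ≤ j' ∧ (∀ m, K' ≤ Γs m) ∧ NormalIn K' (Γs j') ∧ b ≤ bmax ∧ Sys u (Γs j') b Sg ∧
            ∀ g, ∃ C, Cov K' {g' | (sysG Sg).Reachable g g'} C)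

open MeasureTheory in
/-- the frozen statement -/
def Target : Prop :=
    ¬ (∀ (X : Type) [MeasurableSpace X] [StandardBorelSpace X]
      (E : Set (X × X)) (μ : Measure X) [IsProbabilityMeasure μ],
      MeasurableSet E →
      (∀ x, (x, x) ∈ E) →
      (∀ x y, (x, y) ∈ E → (y, x) ∈ E) →
      (∀ x y z, (x, y) ∈ E → (y, z) ∈ E → (x, z) ∈ E) →
      (∀ x, {y : X | (x, y) ∈ E}.Countable) →
      (∀ f : X → X, Measurable f → Function.Bijective f →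
          (∀ x, (x, f x) ∈ E) → μ.map f = μ) →
      (∀ B : Set X, MeasurableSet B →
          (∀ x y, (x, y) ∈ E → x ∈ B → y ∈ B) → μ B = 0 ∨ μ B = 1) →
      Xor'
        (∃ Y : Set X, MeasurableSet Y ∧ μ Yᶜ = 0 ∧
          ∃ F : ℕ → Set (X × X),
            (∀ n, MeasurableSet (F n)) ∧
            (∀ n x, (x, x) ∈ F n) ∧
            (∀ n x y, (x, y) ∈ F n → (y, x) ∈ F n) ∧
            (∀ n x y z, (x, y) ∈ F n → (y, z) ∈ F n → (x, z) ∈ F n) ∧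
            (∀ n x, {y : X | (x, y) ∈ F n}.Finite) ∧
            (∀ n, F n ⊆ F (n + 1)) ∧
            (∀ x ∈ Y, ∀ y ∈ Y, ((x, y) ∈ E ↔ ∃ n, (x, y) ∈ F n)))
        (∃ A : Set X, MeasurableSet A ∧
          (∀ x y, (x, y) ∈ E → x ∈ A → y ∈ A) ∧ μ A = 1 ∧
          ∃ a : FreeGroup (Fin 2) → X → X,
            (∀ g, Measurable (a g)) ∧
            (∀ g, ∀ x ∈ A, a g x ∈ A) ∧
            (∀ x ∈ A, a 1 x = x) ∧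
            (∀ g h, ∀ x ∈ A, a (g * h) x = a g (a h x)) ∧
            (∀ g, g ≠ 1 → ∀ x ∈ A, a g x ≠ x) ∧
            (∀ g, ∀ x ∈ A, (x, a g x) ∈ E)))

/-- module K -/
def MeasureStmt : Prop := TowerStmt → Target

end Pool.Agent.MP_c34dea_an.H66
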